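import Pool.Agent.Lib.SQ.AvgE

/-!
# SQ.Arith: arithmetic for the phases with `20000 g ≤ ⌈log₂ n⌉`
-/

namespace SQ

open SFA

theorem two_pow_le_n {g n k : ℕ} (h : 20000 * g ≤ Nat.clog 2 n) (hk : k + 1 ≤ 20000 * g) :
    2 ^ k ≤ n := by
  have h1 : k < Nat.clog 2 n := by omega
  exact ((Nat.lt_clog_iff_pow_lt (by norm_num)).1 h1).le

theorem eight_pow (g : ℕ) : (8 : ℕ) ^ (3072 * g) = 2 ^ (9216 * g) := by
  rw [show (8 : ℕ) = 2 ^ 3 by norm_num, ← pow_mul]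
  congr 1
  ring

theorem lin_le_two_pow (g : ℕ) : 9216 * g + 1 ≤ 2 ^ (g + 14) := by
  have h : g < 2 ^ g := Nat.lt_two_pow_self
  rw [pow_add]
  have : (2 : ℕ) ^ 14 = 16384 := by norm_num
  rw [this]
  omega

/-- the three terms of `(8 * 2 ^ g + 4) * BQ g n` -/
theorem BQ_le {g n : ℕ} (hg : 1 ≤ g) (h : 20000 * g ≤ Nat.clog 2 n) :
    (8 * 2 ^ g + 4 : ℝ) * BQ g n ≤ 1000 * n := by
  have h2g : (1 : ℝ) ≤ 2 ^ g := one_le_pow₀ (by norm_num)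
  have hn1 : (8 : ℕ) ^ (3072 * g) * (9216 * g + 1) * (12 * 2 ^ g) ≤ n := by
    rw [eight_pow]
    calc 2 ^ (9216 * g) * (9216 * g + 1) * (12 * 2 ^ g)
        ≤ 2 ^ (9216 * g) * 2 ^ (g + 14) * (2 ^ 4 * 2 ^ g) := by
          refine Nat.mul_le_mul (Nat.mul_le_mul le_rfl (lin_le_two_pow g)) ?_
          exact Nat.mul_le_mul (by norm_num) le_rfl
      _ = 2 ^ (9216 * g + (g + 14) + (4 + g)) := by
          rw [pow_add _ (9216 * g + (g + 14)), pow_add _ (9216 * g), pow_add _ 4 g]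
      _ ≤ n := two_pow_le_n h (by omega)
  have hn2 : (12 * 2 ^ g) * 2 ^ g ≤ n := by
    calc (12 * 2 ^ g) * 2 ^ g ≤ (2 ^ 4 * 2 ^ g) * 2 ^ g :=
          Nat.mul_le_mul (Nat.mul_le_mul (by norm_num) le_rfl) le_rfl
      _ = 2 ^ (4 + g + g) := by rw [pow_add, pow_add]
      _ ≤ n := two_pow_le_n h (by omega)
  have hr1 : (8 : ℝ) ^ (3072 * g) * (9216 * g + 1) * (12 * 2 ^ g) ≤ n := by exact_mod_cast hn1
  have hr2 : (12 * 2 ^ g) * (2 : ℝ) ^ g ≤ n := by exact_mod_cast hn2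
  have hle : (8 * 2 ^ g + 4 : ℝ) ≤ 12 * 2 ^ g := by linarith
  refine (mul_le_mul_of_nonneg_right hle (BQ_nonneg g n)).trans ?_
  unfold BQ
  have e1 : (12 * 2 ^ g : ℝ) * (37 * (n / 2 ^ g)) = 444 * n := by
    field_simp
    ring
  have e2 : (12 * 2 ^ g : ℝ) * (37 * (n / 2 ^ g) + 8 ^ (3072 * g) * (9216 * g + 1) + 2 ^ g) =
      (12 * 2 ^ g : ℝ) * (37 * (n / 2 ^ g)) +
      (8 : ℝ) ^ (3072 * g) * (9216 * g + 1) * (12 * 2 ^ g) + (12 * 2 ^ g) * (2 : ℝ) ^ g := by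
    ring
  rw [e2, e1]
  have : (0 : ℝ) ≤ n := Nat.cast_nonneg n
  linarith

/-- the last step and the small structures -/
theorem poly_le {g n : ℕ} (hg : 1 ≤ g) (h : 20000 * g ≤ Nat.clog 2 n) :
    600000 * (20 * 2 ^ g + 1) ^ 13 ≤ n := by
  have h1 : 20 * 2 ^ g + 1 ≤ 2 ^ (g + 5) := by
    have := Nat.one_le_two_pow (n := g)
    rw [pow_add]
    have e : (2 : ℕ) ^ 5 = 32 := by norm_num
    rw [e]
    omega
  calc 600000 * (20 * 2 ^ g + 1) ^ 13 ≤ 2 ^ 20 * (2 ^ (g + 5)) ^ 13 :=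
        Nat.mul_le_mul (by norm_num) (Nat.pow_le_pow_left h1 13)
    _ = 2 ^ (20 + (g + 5) * 13) := by rw [← pow_mul, pow_add]
    _ ≤ n := two_pow_le_n h (by omega)

theorem small_le {g n : ℕ} (hg : 1 ≤ g) (h : 20000 * g ≤ Nat.clog 2 n) :
    8 ^ (3072 * g) ≤ n := by
  rw [eight_pow]
  exact two_pow_le_n h (by omega)

theorem sq_le {g n : ℕ} (hg : 1 ≤ g) (h : 20000 * g ≤ Nat.clog 2 n) :
    (2 ^ g) ^ 2 ≤ n := by
  rw [← pow_mul]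
  exact two_pow_le_n h (by omega)

end SQ
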