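import Pool.Agent.Lib.SQ.ENoB
import Pool.Agent.Lib.SFA.MeetS
import Pool.Agent.Lib.SFA.RegB
import Pool.Agent.Lib.SFA.WallTop

/-!
# SQ.EBand: the first vertex of `S` after `v` between bottom and top is the right wall point

`d` valid, `X p ≤ X v < X q`.  `b`, `t` represent `d.b`, `d.t` (same lines: `piece_line`), so `bnd b t z = true ↔ inBand d z`.
* A candidate `u` (element of `cnds b t v s` for some `s ∈ S`) is a vertex of `S` with `X v < X u` (`lexB v u`, `h.lex`, `h.crit`) and `¬ (∀ q ∈ d.q, X u < X q)`: otherwise `inSlab d u` and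
   - if `u` is an endpoint of `s` in the band: `u ∈ hreg eps d`, against `no_crit_in_hreg`;
   - if `u ∈ crs s b` with `b = some e`, `d.b = some e'` (`RepO`): `cross ≠ 0`, `u = mv s _` is on `carrier s` and on `carrier e` (`meet` for non-parallel segments: `MeetSAux.cramer`, `MeetSAux.mem_seg`), so `ori e u = 0 = ori e' u`, and `X u` is in the open slab, so `u ∈ carrier e'`
     (`spans`, `mem_carrier_iff`); `inBand d u`: `ori e' u = 0`, `ori t' u < 0` by `shape.bt`.  Again `u ∈ hreg`.  Same for `t` (`shape_tb`).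
* If `d.q = some q`: `q` is a candidate.  `q` is critical for `T`, a vertex of `S`, `inBand d q` (`qb`).  If `q` is an endpoint of some `s ∈ S`: fine.  Otherwise `q` is on non-parallel `s1, s2 ∈ S` and is no endpoint of them (else done), so `X s1.1 < X q < X s1.2` (`mem_carrier_iff'`, no endpoint).
   If `OpenBand d q` (strictly between): the piece of `s1` ending at or containing `q` from the left (`pieceL` at `a = X q`) has points slightly to the left of `q` in `reg d` (`WallTopAux.push_left`, or continuity and `reg_disj_U` with `h.uni`): contradiction.  So `ori b' q = 0` for `b' ∈ d.b` or `ori t' q = 0` for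
   `t' ∈ d.t`; say `b'`; `q ∈ carrier b'` (`spans`: `X q ≤ X b'.2`), so `q ∈ carrier b` for the representative `b`; one of `s1, s2` is not parallel to `b` (both parallel to `b` would make them parallel), and `q` is its crossing point: `meet s_i b = some q` (`cramer`), so `q ∈ crs s_i b`.
   All candidates `u` satisfy `X q ≤ X u`, so `¬ lexlt u q` (`h.lex`), and `lexMinL_unique` gives the result.
* If `d.q = none` there is no candidate: `lexMinL_none`.
-/

namespace SQ

open SFA Classical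

namespace EBandAux

theorem hone_of {s t : Seg} (hD : cross (s.2 - s.1) (t.2 - t.1) ≠ 0) :
    (carrier s ∩ carrier t).Subsingleton := by
  rintro v ⟨h1, h2⟩ w ⟨h3, h4⟩
  obtain ⟨a, _, _, ha⟩ := MeetSAux.mem_seg.1 h1
  obtain ⟨a', _, _, ha'⟩ := MeetSAux.mem_seg.1 h2
  obtain ⟨c, _, _, hc⟩ := MeetSAux.mem_seg.1 h3
  obtain ⟨c', _, _, hc'⟩ := MeetSAux.mem_seg.1 h4
  have e1 := (MeetSAux.cramer hD).1 (ha.symm.trans ha')
  have e2 := (MeetSAux.cramer hD).1 (hc.symm.trans hc')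
  rw [ha, hc, e1.1, e2.1]

theorem mem_crs {s : Seg} {o : Option Seg} {u : ℂ} :
    u ∈ crs s o ↔ ∃ e ∈ o, cross (s.2 - s.1) (e.2 - e.1) ≠ 0 ∧ meet s e = some u := by
  unfold crs
  cases o with
  | none => simp
  | some e =>
    simp only [Option.elim, Option.mem_def, Option.some.injEq, exists_eq_left']
    split_ifs with h
    · simp [h]
    · simp [h, Option.mem_toList]

theorem mem_cnds {b t : Option Seg} {v u : ℂ} {s : Seg} :
    u ∈ cnds b t v s ↔ (((u = s.1 ∨ u = s.2) ∧ bnd b t u = true) ∨ u ∈ crs s b ∨ u ∈ crs s t) ∧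
      lexlt v u := by
  unfold cnds
  rw [List.mem_filter, List.mem_append, List.mem_append, List.mem_filter, lexB_iff]
  simp only [List.mem_cons, List.not_mem_nil, or_false]

section

variable {eps : ℝ} {S T : Finset Seg} {x : ℂ}

theorem rep_sign (h : Sys eps S T x) {b b' : Option Seg} (hb : RepO S b b')
    (hT : ∀ s ∈ b', s ∈ T) {e : Seg} (he : e ∈ b) : ∃ e' ∈ b', e ∈ S ∧ e' ∈ T ∧
      carrier e' ⊆ carrier e ∧ ∀ z, (0 < ori e z ↔ 0 < ori e' z) ∧
        (ori e z < 0 ↔ ori e' z < 0) ∧ (ori e z = 0 ↔ ori e' z = 0) := by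
  rcases hb with ⟨h1, _⟩ | ⟨s, s', h1, h2, h3, h4⟩
  · rw [h1] at he
    exact absurd he (by simp)
  · rw [h1, Option.mem_def, Option.some.injEq] at he
    subst he
    have h5 : s' ∈ T := hT s' (by rw [h2]; rfl)
    exact ⟨s', by rw [h2]; rfl, h3, h5, h4, (piece_line h h3 h5 h4).2.2.2⟩

theorem rep_sign' (h : Sys eps S T x) {b b' : Option Seg} (hb : RepO S b b')
    (hT : ∀ s ∈ b', s ∈ T) {e' : Seg} (he : e' ∈ b') : ∃ e ∈ b, e ∈ S ∧ e' ∈ T ∧
      carrier e' ⊆ carrier e ∧ ∀ z, (0 < ori e z ↔ 0 < ori e' z) ∧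
        (ori e z < 0 ↔ ori e' z < 0) ∧ (ori e z = 0 ↔ ori e' z = 0) := by
  rcases hb with ⟨_, h1⟩ | ⟨s, s', h1, h2, h3, h4⟩
  · rw [h1] at he
    exact absurd he (by simp)
  · rw [h2, Option.mem_def, Option.some.injEq] at he
    subst he
    have h5 : s' ∈ T := hT s' (by rw [h2]; rfl)
    exact ⟨s, by rw [h1]; rfl, h3, h5, h4, (piece_line h h3 h5 h4).2.2.2⟩

theorem bnd_iff (h : Sys eps S T x) {d : Cell} (hd : Valid eps T d) {b t : Option Seg}
    (hb : RepO S b d.b) (ht' : RepO S t d.t) (z : ℂ) : bnd b t z = true ↔ inBand d z := by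
  unfold bnd inBand
  rw [Bool.and_eq_true, TestBAux.elim_true, TestBAux.elim_true]
  simp only [decide_eq_true_eq]
  constructor
  · rintro ⟨h1, h2⟩
    refine ⟨fun b' hb' => ?_, fun t' ht'' => ?_⟩
    · obtain ⟨e, he, _, _, _, hs⟩ := rep_sign' h hb hd.defd.bR hb'
      have := h1 e he
      by_contra hc
      exact absurd ((hs z).2.1.2 (not_le.1 hc)) (not_lt.2 this)
    · obtain ⟨e, he, _, _, _, hs⟩ := rep_sign' h ht' hd.defd.tR ht''
      have := h2 e he
      by_contra hc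
      exact absurd ((hs z).1.2 (not_le.1 hc)) (not_lt.2 this)
  · rintro ⟨h1, h2⟩
    refine ⟨fun e he => ?_, fun e he => ?_⟩
    · obtain ⟨e', he', _, _, _, hs⟩ := rep_sign h hb hd.defd.bR he
      have := h1 e' he'
      by_contra hc
      exact absurd ((hs z).2.1.1 (not_le.1 hc)) (not_lt.2 this)
    · obtain ⟨e', he', _, _, _, hs⟩ := rep_sign h ht' hd.defd.tR he
      have := h2 e' he'
      by_contra hc
      exact absurd ((hs z).1.1 (not_le.1 hc)) (not_lt.2 this)

/-- a crossing point is on both segments -/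
theorem crs_on (h : Sys eps S T x) {s e : Seg} (hs : s ∈ S) (he : e ∈ S) {u : ℂ}
    (hD : cross (s.2 - s.1) (e.2 - e.1) ≠ 0) (hm : meet s e = some u) :
    u ∈ carrier s ∧ u ∈ carrier e :=
  (meet_iff (h.inc hs) (h.inc he) (hone_of hD) u).1 hm

/-- a candidate is a vertex which is not in the open slab -/
theorem cand_spec (h : Sys eps S T x) {d : Cell} (hd : Valid eps T d) {v : ℂ}
    (hv : IsCrit T v ∨ v = x) (h1 : ∀ p ∈ d.p, X eps p ≤ X eps v) {b t : Option Seg}
    (hb : RepO S b d.b) (ht' : RepO S t d.t) {s : Seg} (hs : s ∈ S) {u : ℂ}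
    (hu : u ∈ cnds b t v s) : IsCrit T u ∧ ∃ q ∈ d.q, X eps q ≤ X eps u := by
  rw [mem_cnds] at hu
  obtain ⟨hu, hlt⟩ := hu
  have hcr : IsCrit T u := by
    rw [h.crit]
    rcases hu with ⟨hu, _⟩ | hu | hu
    · exact Or.inl ⟨s, hs, hu⟩
    · obtain ⟨e, he, hD, hm⟩ := mem_crs.1 hu
      obtain ⟨e', he', heS, _⟩ := rep_sign h hb hd.defd.bR he
      obtain ⟨m1, m2⟩ := crs_on h hs heS hD hm
      exact Or.inr ⟨s, hs, e, heS, hD, m1, m2⟩
    · obtain ⟨e, he, hD, hm⟩ := mem_crs.1 hu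
      obtain ⟨e', he', heS, _⟩ := rep_sign h ht' hd.defd.tR he
      obtain ⟨m1, m2⟩ := crs_on h hs heS hD hm
      exact Or.inr ⟨s, hs, e, heS, hD, m1, m2⟩
  refine ⟨hcr, ?_⟩
  by_contra hcon
  push Not at hcon
  have hX : X eps v < X eps u := (h.lex v u hv (Or.inl hcr)).1 hlt
  have hslab : inSlab eps d u := ⟨fun p hp => (h1 p hp).trans_lt hX, hcon⟩
  apply no_crit_in_hreg h.gen hd hcr
  refine ⟨hslab, ?_⟩
  have hincT := h.gen.inc
  rcases hu with ⟨_, hu⟩ | hu | hu
  · exact (bnd_iff h hd hb ht' u).1 hu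
  · obtain ⟨e, he, hD, hm⟩ := mem_crs.1 hu
    obtain ⟨e', he', heS, heT, _, hsg⟩ := rep_sign h hb hd.defd.bR he
    obtain ⟨_, m2⟩ := crs_on h hs heS hD hm
    have h0 : ori e' u = 0 := (hsg u).2.2.1 ((mem_carrier_iff (h.inc heS) u).1 m2).2.2
    have hsp := NoCritAux.spans_lt (hd.shape.bs e' he') hslab
    have hm' : u ∈ carrier e' := (mem_carrier_iff (hincT e' heT) u).2 ⟨hsp.1.le, hsp.2.le, h0⟩
    refine ⟨fun b' hb' => ?_, fun t' ht'' => (hd.shape.bt e' he' t' ht'' u hm' hslab).le⟩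
    have : b' = e' := by
      rw [Option.mem_def] at he' hb'
      rw [he'] at hb'
      exact (Option.some.inj hb').symm
    rw [this, h0]
  · obtain ⟨e, he, hD, hm⟩ := mem_crs.1 hu
    obtain ⟨e', he', heS, heT, _, hsg⟩ := rep_sign h ht' hd.defd.tR he
    obtain ⟨_, m2⟩ := crs_on h hs heS hD hm
    have h0 : ori e' u = 0 := (hsg u).2.2.1 ((mem_carrier_iff (h.inc heS) u).1 m2).2.2
    have hsp := NoCritAux.spans_lt (hd.shape.ts e' he') hslab
    have hm' : u ∈ carrier e' := (mem_carrier_iff (hincT e' heT) u).2 ⟨hsp.1.le, hsp.2.le, h0⟩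
    refine ⟨fun b' hb' => ?_, fun t' ht'' => ?_⟩
    · exact (shape_tb hd.shape (fun b hb => hincT b (hd.defd.bR b hb))
        (fun t ht => hincT t (hd.defd.tR t ht)) e' he' b' hb' u hm' hslab).le
    · have : t' = e' := by
        rw [Option.mem_def] at he' ht''
        rw [he'] at ht''
        exact (Option.some.inj ht'').symm
      rw [this, h0]

/-- two segments parallel to a third one are parallel -/
theorem cross_par {eps : ℝ} {a b e : ℂ} (he : X eps e ≠ 0) (h1 : cross a e = 0)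
    (h2 : cross b e = 0) : cross a b = 0 := by
  rw [cross_eq eps] at h1 h2 ⊢
  apply mul_right_cancel₀ he
  rw [zero_mul]
  linear_combination (X eps a) * (-h2) + (X eps b) * h1

theorem carrier_of_side (h : Sys eps S T x) {d : Cell} (hd : Valid eps T d) {q : ℂ}
    (hq : q ∈ d.q) {e' : Seg} (heT : e' ∈ T) (hsp : spans eps d e') (h0 : ori e' q = 0) :
    q ∈ carrier e' := by
  obtain ⟨⟨p, hp, h1⟩, ⟨q', hq', h2⟩⟩ := hsp
  rw [WallTopAux.mem_unique hq hq'] at h2
  exact (mem_carrier_iff (h.gen.inc e' heT) q).2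
    ⟨h1.trans (hd.shape.lt p hp q hq).le, h2, h0⟩

/-- the right wall point is a candidate -/
theorem wall_cand (h : Sys eps S T x) {d : Cell} (hd : Valid eps T d) {v : ℂ}
    (hv : IsCrit T v ∨ v = x) {q : ℂ} (hq : q ∈ d.q) (h2 : X eps v < X eps q)
    {b t : Option Seg} (hb : RepO S b d.b) (ht' : RepO S t d.t) :
    ∃ s ∈ S, q ∈ cnds b t v s := by
  have hqT : IsCrit T q := hd.defd.qC q hq
  have hlt : lexlt v q := (h.lex v q hv (Or.inl hqT)).2 h2
  have hband := hd.shape.qb q hq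
  have hqS := (h.crit q).1 hqT
  have hend : ∀ s ∈ S, (q = s.1 ∨ q = s.2) → ∃ s ∈ S, q ∈ cnds b t v s := by
    intro s hs he
    exact ⟨s, hs, mem_cnds.2 ⟨Or.inl ⟨he, (bnd_iff h hd hb ht' q).2 hband⟩, hlt⟩⟩
  rcases hqS with ⟨s, hs, he⟩ | ⟨s1, hs1, s2, hs2, hD, m1, m2⟩
  · exact hend s hs he
  by_contra hcon
  have hne : ∀ s ∈ S, q ≠ s.1 ∧ q ≠ s.2 := by
    intro s hs
    constructor
    · intro he; exact hcon (hend s hs (Or.inl he))
    · intro he; exact hcon (hend s hs (Or.inr he))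
  -- a side through `q`
  have hside : ∀ e ∈ S, q ∈ carrier e → (e ∈ b ∨ e ∈ t) → False := by
    intro e he hqe hbt
    have hXe : X eps (e.2 - e.1) ≠ 0 := by
      rw [X_sub]
      have := h.inc he
      linarith
    have hex : ∃ s ∈ S, q ∈ carrier s ∧ cross (s.2 - s.1) (e.2 - e.1) ≠ 0 := by
      by_contra hno
      push Not at hno
      exact hD (cross_par hXe (hno s1 hs1 m1) (hno s2 hs2 m2))
    obtain ⟨s, hs, hqs, hDs⟩ := hex
    have hm : meet s e = some q :=
      (meet_iff (h.inc hs) (h.inc he) (hone_of hDs) q).2 ⟨hqs, hqe⟩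
    apply hcon
    refine ⟨s, hs, mem_cnds.2 ⟨?_, hlt⟩⟩
    rcases hbt with hbt | hbt
    · exact Or.inr (Or.inl (mem_crs.2 ⟨e, hbt, hDs, hm⟩))
    · exact Or.inr (Or.inr (mem_crs.2 ⟨e, hbt, hDs, hm⟩))
  have hbo : ∀ b' ∈ d.b, 0 < ori b' q := by
    intro b' hb'
    refine lt_of_le_of_ne (hband.1 b' hb') ?_
    intro h0
    obtain ⟨e, he, heS, heT, hsub, _⟩ := rep_sign' h hb hd.defd.bR hb'
    exact hside e heS (hsub (carrier_of_side h hd hq heT (hd.shape.bs b' hb') h0.symm))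
      (Or.inl he)
  have hto : ∀ t' ∈ d.t, ori t' q < 0 := by
    intro t' ht''
    refine lt_of_le_of_ne (hband.2 t' ht'') ?_
    intro h0
    obtain ⟨e, he, heS, heT, hsub, _⟩ := rep_sign' h ht' hd.defd.tR ht''
    exact hside e heS (hsub (carrier_of_side h hd hq heT (hd.shape.ts t' ht'') h0))
      (Or.inr he)
  obtain ⟨a1, a2, a3⟩ := (mem_carrier_iff' (h.inc hs1) q).1 m1
  have a1' : X eps s1.1 < X eps q := by
    refine lt_of_le_of_ne a1 ?_
    intro he
    have hc1 : IsCrit T s1.1 := (h.crit _).2 (Or.inl ⟨s1, hs1, Or.inl rfl⟩)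
    exact (hne s1 hs1).1 (h.gen.inj s1.1 q hc1 hqT he).symm
  obtain ⟨s', hs', hsub, c1, c2⟩ := h.pieceL s1 hs1 (X eps q) a1' a2
  have hht : ht eps s' (X eps q) = q.im := by
    rw [← (piece_line h hs1 hs' hsub).1, a3]
  refine WallTopAux.push_left hd h.gen.inc hs' hq c1 c2 (fun b' hb' => ?_) (fun t' ht'' => ?_)
  · rw [hht]
    exact (ori_pos_iff (h.gen.inc b' (hd.defd.bR b' hb')) q).1 (hbo b' hb')
  · rw [hht]
    exact (ori_neg_iff (h.gen.inc t' (hd.defd.tR t' ht'')) q).1 (hto t' ht'')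

end

end EBandAux

open EBandAux

theorem band_rep {eps : ℝ} {S : List Seg} {T : Finset Seg} {x : ℂ}
    (h : Sys eps S.toFinset T x) {d : Cell} (hd : Valid eps T d) {v : ℂ}
    (hv : IsCrit T v ∨ v = x) (h1 : ∀ p ∈ d.p, X eps p ≤ X eps v)
    (h2 : ∀ q ∈ d.q, X eps v < X eps q) {b t : Option Seg} (hb : RepO S.toFinset b d.b)
    (ht' : RepO S.toFinset t d.t) : bandF S b t v = d.q := by
  have hspec : ∀ u ∈ S.flatMap (cnds b t v), IsCrit T u ∧ ∃ q ∈ d.q, X eps q ≤ X eps u := by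
    intro u hu
    rw [List.mem_flatMap] at hu
    obtain ⟨s, hs, hu⟩ := hu
    exact cand_spec h hd hv h1 hb ht' (List.mem_toFinset.2 hs) hu
  unfold bandF
  rcases hq : d.q with _ | q
  · rw [lexMinL_none, List.eq_nil_iff_forall_not_mem]
    intro u hu
    obtain ⟨_, q, hq', _⟩ := hspec u hu
    rw [hq] at hq'
    exact absurd hq' (by simp)
  · have hqm : q ∈ d.q := by rw [hq]; rfl
    obtain ⟨s, hs, hc⟩ := wall_cand h hd hv hqm (h2 q hqm) hb ht'
    apply lexMinL_unique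
    · exact List.mem_flatMap.2 ⟨s, List.mem_toFinset.1 hs, hc⟩
    · intro z hz hlt
      obtain ⟨hzc, q', hq', hle⟩ := hspec z hz
      rw [WallTopAux.mem_unique hqm hq'] at hle
      have := (h.lex z q (Or.inl hzc) (Or.inl (hd.defd.qC q hqm))).1 hlt
      linarith

end SQ
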