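import Pool.Agent.Lib.SQ.ENegA

/-!
# SQ.ENegB: reflection of good systems and of valid cells

Everything is obtained by applying the definitions to `-z`, with `ENegA`.
* `sys_neg`: `gen`: `inc`: `X (-s.2) = -X s.2 < -X s.1`; `one`: the carriers are reflected; `inj`: `crit_negR`; `xfree`, `xgen`.  `lex`: `lexlt_neg`.  `pieceR` for `negR S` at `a` is `pieceL` for `S` at `-a`, and conversely.
* `inSlab_neg`: `inSlab eps (negC c) z ↔ inSlab eps c (-z)` (`c.q.map`, `c.p.map`: `Option.mem_map`), `inBand_neg`: bottom and top are exchanged and `ori` changes its sign.  `reg_neg`, `hreg_neg` follow.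
* `valid_neg`: `Shape`: `bs`, `ts`: `spans eps (negC c) (negS s) ↔ spans eps c s`; `lt`; `bt`: for `negC c` the bottom is the reflected top: for `t ∈ c.t`, `b ∈ c.b`, `z ∈ carrier (negS t)`, `inSlab (negC c) z`: `ori (negS b) z = - ori b (-z) < 0` by `shape_tb` (NoCrit.lean; `inc` for the
  members of `R`).  `pb`, `qb`: `inBand_neg`.  `Defd`: `mem_negR`, `crit_negR`.  `emp`: `confl eps (negC c) (negS s) ↔ confl eps c s`.
* `adj_neg`: `v` becomes `-v`, same top becomes same bottom.
* `rep_neg`.
-/

namespace SQ

open SFA Classical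

private theorem negS_mem {R : Finset Seg} {s : Seg} (h : s ∈ R) : negS s ∈ negR R := by
  rw [mem_negR, negS_negS]
  exact h

private theorem fm {α β : Type} {f : α → β} {P : β → Prop} {o : Option α} :
    (∀ y ∈ o.map f, P y) ↔ ∀ x ∈ o, P (f x) := by
  cases o <;> simp

private theorem em {α β : Type} {f : α → β} {P : β → Prop} {o : Option α} :
    (∃ y ∈ o.map f, P y) ↔ ∃ x ∈ o, P (f x) := by
  cases o <;> simp

private theorem sub_neg' {s t : Seg} (h : carrier s ⊆ carrier t) :
    carrier (negS s) ⊆ carrier (negS t) := by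
  intro z hz
  rw [mem_carrier_negS] at hz ⊢
  exact h hz

private theorem X1 (eps : ℝ) (s : Seg) : X eps (negS s).1 = - X eps s.2 := X_neg' eps s.2

private theorem X2 (eps : ℝ) (s : Seg) : X eps (negS s).2 = - X eps s.1 := X_neg' eps s.1

theorem sys_neg {eps : ℝ} {S T : Finset Seg} {x : ℂ} (h : Sys eps S T x) :
    Sys eps (negR S) (negR T) (-x) where
  pos := h.pos
  gen :=
    { inc := by
        intro s hs
        have h1 := h.gen.inc _ ((mem_negR T s).1 hs)
        rw [X1, X2] at h1
        linarith
      one := by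
        intro s hs t ht hst u hu v hv
        have h1 := h.gen.one _ ((mem_negR T s).1 hs) _ ((mem_negR T t).1 ht)
          (fun e => hst (by rw [← negS_negS s, e, negS_negS]))
        have h2 : -u ∈ carrier (negS s) ∩ carrier (negS t) :=
          ⟨(mem_carrier_negS s _).2 (by rw [neg_neg]; exact hu.1),
            (mem_carrier_negS t _).2 (by rw [neg_neg]; exact hu.2)⟩
        have h3 : -v ∈ carrier (negS s) ∩ carrier (negS t) :=
          ⟨(mem_carrier_negS s _).2 (by rw [neg_neg]; exact hv.1),
            (mem_carrier_negS t _).2 (by rw [neg_neg]; exact hv.2)⟩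
        exact neg_injective (h1 h2 h3)
      inj := by
        intro u v hu hv huv
        refine neg_injective (h.gen.inj _ _ ((crit_negR T u).1 hu) ((crit_negR T v).1 hv) ?_)
        rw [X_neg', X_neg', huv]
      xfree := by
        rw [mem_U_negR, neg_neg]
        exact h.gen.xfree
      xgen := by
        intro u hu he
        refine h.gen.xgen _ ((crit_negR T u).1 hu) ?_
        rw [X_neg', he, X_neg', neg_neg] }
  lex := by
    intro u v hu hv
    have hu' : IsCrit T (-u) ∨ -u = x := by
      rcases hu with hu | hu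
      · exact Or.inl ((crit_negR T u).1 hu)
      · exact Or.inr (by rw [hu, neg_neg])
    have hv' : IsCrit T (-v) ∨ -v = x := by
      rcases hv with hv | hv
      · exact Or.inl ((crit_negR T v).1 hv)
      · exact Or.inr (by rw [hv, neg_neg])
    have h1 := h.lex (-v) (-u) hv' hu'
    rw [lexlt_neg, X_neg', X_neg', neg_lt_neg_iff] at h1
    exact h1
  lexS := by
    intro s hs
    have h1 := h.lexS _ ((mem_negR S s).1 hs)
    change lexlt (-s.2) (-s.1) at h1
    rw [lexlt_neg] at h1
    exact h1
  uni := by
    ext z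
    rw [mem_U_negR, mem_U_negR, h.uni]
  crit := by
    intro v
    rw [crit_negR, vert_negR, h.crit]
  pieceR := by
    intro s hs a h1 h2
    obtain ⟨s', hs', h3, h4, h5⟩ := h.pieceL _ ((mem_negR S s).1 hs) (-a)
      (by rw [X1]; linarith) (by rw [X2]; linarith)
    refine ⟨negS s', negS_mem hs', ?_, ?_, ?_⟩
    · have := sub_neg' h3
      rwa [negS_negS] at this
    · rw [X1]; linarith
    · rw [X2]; linarith
  pieceL := by
    intro s hs a h1 h2
    obtain ⟨s', hs', h3, h4, h5⟩ := h.pieceR _ ((mem_negR S s).1 hs) (-a)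
      (by rw [X1]; linarith) (by rw [X2]; linarith)
    refine ⟨negS s', negS_mem hs', ?_, ?_, ?_⟩
    · have := sub_neg' h3
      rwa [negS_negS] at this
    · rw [X1]; linarith
    · rw [X2]; linarith
  rep := by
    intro s' hs'
    obtain ⟨s, hs, h1⟩ := h.rep _ ((mem_negR T s').1 hs')
    refine ⟨negS s, negS_mem hs, ?_⟩
    have := sub_neg' h1
    rwa [negS_negS] at this

theorem inSlab_neg (eps : ℝ) (c : Cell) (z : ℂ) :
    inSlab eps (negC c) z ↔ inSlab eps c (-z) := by
  unfold inSlab negC
  simp only [fm, X_neg']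
  constructor
  · rintro ⟨h1, h2⟩
    exact ⟨fun p hp => by have := h2 p hp; linarith, fun q hq => by have := h1 q hq; linarith⟩
  · rintro ⟨h1, h2⟩
    exact ⟨fun p hp => by have := h2 p hp; linarith, fun q hq => by have := h1 q hq; linarith⟩

theorem inBand_neg (c : Cell) (z : ℂ) : inBand (negC c) z ↔ inBand c (-z) := by
  unfold inBand negC
  simp only [fm, ori_negS]
  constructor
  · rintro ⟨h1, h2⟩
    exact ⟨fun p hp => by have := h2 p hp; linarith, fun q hq => by have := h1 q hq; linarith⟩
  · rintro ⟨h1, h2⟩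
    exact ⟨fun p hp => by have := h2 p hp; linarith, fun q hq => by have := h1 q hq; linarith⟩

theorem reg_neg (eps : ℝ) (c : Cell) (z : ℂ) : z ∈ reg eps (negC c) ↔ -z ∈ reg eps c := by
  unfold reg
  simp only [Set.mem_ofPred_eq]
  rw [inSlab_neg]
  unfold negC
  simp only [fm, ori_negS]
  constructor
  · rintro ⟨h0, h1, h2⟩
    exact ⟨h0, fun p hp => by have := h2 p hp; linarith, fun q hq => by have := h1 q hq; linarith⟩
  · rintro ⟨h0, h1, h2⟩
    exact ⟨h0, fun p hp => by have := h2 p hp; linarith, fun q hq => by have := h1 q hq; linarith⟩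

private theorem hreg_neg' (eps : ℝ) (c : Cell) (z : ℂ) :
    z ∈ hreg eps (negC c) ↔ -z ∈ hreg eps c := by
  unfold hreg
  simp only [Set.mem_ofPred_eq]
  rw [inSlab_neg, inBand_neg]

private theorem spans_neg' {eps : ℝ} {c : Cell} {s : Seg} (h : spans eps c s) :
    spans eps (negC c) (negS s) := by
  obtain ⟨⟨p, hp, h1⟩, q, hq, h2⟩ := h
  refine ⟨⟨-q, Option.mem_map_of_mem _ hq, ?_⟩, -p, Option.mem_map_of_mem _ hp, ?_⟩
  · rw [X1, X_neg']; linarith
  · rw [X2, X_neg']; linarith

theorem valid_neg {eps : ℝ} {R : Finset Seg} {x : ℂ} (hG : Gen eps R x) {c : Cell}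
    (hc : Valid eps R c) : Valid eps (negR R) (negC c) where
  shape :=
    { bs := by
        unfold negC
        rw [fm]
        intro t ht
        exact spans_neg' (hc.shape.ts t ht)
      ts := by
        unfold negC
        rw [fm]
        intro b hb
        exact spans_neg' (hc.shape.bs b hb)
      lt := by
        unfold negC
        simp only [fm]
        intro q hq p hp
        have := hc.shape.lt p hp q hq
        rw [X_neg', X_neg']
        linarith
      bt := by
        have key : ∀ t ∈ c.t, ∀ b ∈ c.b, ∀ z ∈ carrier (negS t), inSlab eps (negC c) z →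
            ori (negS b) z < 0 := by
          intro t ht b hb z hz hsl
          rw [inSlab_neg] at hsl
          rw [mem_carrier_negS] at hz
          have h1 := shape_tb hc.shape (fun b hb => hG.inc b (hc.defd.bR b hb))
            (fun t ht => hG.inc t (hc.defd.tR t ht)) t ht b hb _ hz hsl
          rw [ori_negS]
          linarith
        intro b hb t ht z hz hsl
        obtain ⟨t0, ht0, rfl⟩ := Option.mem_map.1 hb
        obtain ⟨b0, hb0, rfl⟩ := Option.mem_map.1 ht
        exact key t0 ht0 b0 hb0 z hz hsl
      pb := by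
        intro p hp
        obtain ⟨q, hq, rfl⟩ := Option.mem_map.1 hp
        rw [inBand_neg, neg_neg]
        exact hc.shape.qb q hq
      qb := by
        intro p hp
        obtain ⟨q, hq, rfl⟩ := Option.mem_map.1 hp
        rw [inBand_neg, neg_neg]
        exact hc.shape.pb q hq }
  defd :=
    { bR := by
        intro b hb
        obtain ⟨t, ht, rfl⟩ := Option.mem_map.1 hb
        exact negS_mem (hc.defd.tR t ht)
      tR := by
        intro b hb
        obtain ⟨t, ht, rfl⟩ := Option.mem_map.1 hb
        exact negS_mem (hc.defd.bR t ht)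
      pC := by
        intro p hp
        obtain ⟨q, hq, rfl⟩ := Option.mem_map.1 hp
        rw [crit_negR, neg_neg]
        exact hc.defd.qC q hq
      qC := by
        intro p hp
        obtain ⟨q, hq, rfl⟩ := Option.mem_map.1 hp
        rw [crit_negR, neg_neg]
        exact hc.defd.pC q hq }
  emp := by
    rintro s hs ⟨h1, h2, z, hz, hh⟩
    refine hc.emp _ ((mem_negR R s).1 hs) ⟨fun hb => h2 ?_, fun ht => h1 ?_, -z, ?_, ?_⟩
    · have h3 : negS (negS s) ∈ c.b.map negS := Option.mem_map_of_mem _ hb
      rwa [negS_negS] at h3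
    · have h3 : negS (negS s) ∈ c.t.map negS := Option.mem_map_of_mem _ ht
      rwa [negS_negS] at h3
    · rw [mem_carrier_negS, neg_neg]
      exact hz
    · exact (hreg_neg' eps c z).1 hh

theorem adj_neg {c c' : Cell} (h : adj c c') : adj (negC c') (negC c) := by
  obtain ⟨v, hv, hv', h1⟩ := h
  refine ⟨-v, Option.mem_map_of_mem _ hv', Option.mem_map_of_mem _ hv, ?_⟩
  rcases h1 with ⟨h1, h2⟩ | ⟨h1, h2⟩
  · right
    unfold negC
    simp only [fm, ori_negS, neg_neg]
    refine ⟨by rw [h1], fun b hb => ?_⟩
    rw [← h1] at hb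
    have := h2 b hb
    linarith
  · left
    unfold negC
    simp only [fm, ori_negS, neg_neg]
    refine ⟨by rw [h1], fun b hb => ?_⟩
    rw [← h1] at hb
    have := h2 b hb
    linarith

theorem repO_neg {S : Finset Seg} {o o' : Option Seg} (h : RepO S o o') :
    RepO (negR S) (o.map negS) (o'.map negS) := by
  rcases h with ⟨rfl, rfl⟩ | ⟨s, s', rfl, rfl, hs, h1⟩
  · exact Or.inl ⟨rfl, rfl⟩
  · exact Or.inr ⟨negS s, negS s', rfl, rfl, negS_mem hs, sub_neg' h1⟩

theorem rep_neg {S : Finset Seg} {c d : Cell} (h : Rep S c d) :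
    Rep (negR S) (negC c) (negC d) where
  p := by
    change c.q.map _ = d.q.map _
    rw [h.q]
  q := by
    change c.p.map _ = d.p.map _
    rw [h.p]
  b := repO_neg h.t
  t := repO_neg h.b

end SQ
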