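import Pool.Agent.Lib.SQ.EWall
import Pool.Agent.Lib.SQ.EBand
import Pool.Agent.Lib.SQ.ENegB
import Pool.Agent.Lib.SFA.ODoor

/-!
# SQ.ENbR: the computed neighbours represent the neighbours

* Right, sound: `c.q = d.q` (`Rep.q`); if it is `none` the list is empty.  Let `v ∈ d.q`.  If `offB c.t v = true` (`offB_iff`): for `t' ∈ d.t`, `c.t = some t` represents it, `ori t v ≠ 0`, so `ori t' v ≠ 0` (`piece_line`), and `hd.shape.qb v` gives `ori t' v ≤ 0`, so `< 0`: `nb_top_right` gives `r` valid, `adj d r`,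
  `v ∈ r.p`, `r.t = d.t`.  The computed cell `⟨lowF S v c.t, c.t, some v, bandF ..⟩` represents `r`: `low_rep` (with `RepO S c.t r.t`), `band_rep` (`v ∈ r.p`: `hv` from `defd.pC`, `h1` trivial, `h2` from `shape.lt`).  Bottom: `nb_bot_right`, `up_rep`.
* Right, complete: `adj d d'`: `v ∈ d.q`, `v ∈ d'.p` and (a) `d.t = d'.t`, `ori t v < 0` for `t ∈ d.t`: then `offB c.t v = true` and the computed cell with the same top represents `d'` as above; (b) same bottom.
* All neighbours: the left neighbours of `d` are the reflected right neighbours of `negC d`: `valid_neg`, `rep_neg`, `sys_neg`, `adj_neg`, `negC_negC`, `negR` is an involution (`mem_negR`, `negS_negS`); `(S.map negS).map negS = S`.  Sound: a computed `c'' ∈ nbR (orcF (S.map negS)) (negC c)` represents a valid cell `e` of `negR T` with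
  `adj (negC d) e`; then `negC e` is valid for `T = negR (negR T)`, `adj (negC e) d`, and `negC c''` represents it.
-/

namespace SQ

open SFA Classical

namespace ENbRAux

/-- signs on a representing segment -/
theorem sg {eps : ℝ} {S T : Finset Seg} {x : ℂ} (h : Sys eps S T x)
    {o o' : Option Seg} (hT : ∀ s ∈ o', s ∈ T) (hr : RepO S o o') (v : ℂ) :
    offB o v = true ↔ ∀ s ∈ o', ori s v ≠ 0 := by
  rw [offB_iff]
  rcases hr with ⟨rfl, rfl⟩ | ⟨s, s', rfl, rfl, hs, hsub⟩
  · simp
  · have hs' : s' ∈ T := hT s' rfl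
    have h1 := ((piece_line h hs hs' hsub).2.2.2 v).2.2
    constructor
    · intro h2 u hu h3
      obtain rfl : s' = u := Option.some.inj hu
      exact h2 s rfl (h1.2 h3)
    · intro h2 u hu h3
      obtain rfl : s = u := Option.some.inj hu
      exact h2 s' rfl (h1.1 h3)

theorem first {eps : ℝ} {T : Finset Seg} {r : Cell} (hr : Valid eps T r) {v : ℂ} (hv : v ∈ r.p) :
    (∀ p ∈ r.p, X eps p ≤ X eps v) ∧ ∀ q ∈ r.q, X eps v < X eps q := by
  refine ⟨fun p hp => ?_, fun q hq => hr.shape.lt v hv q hq⟩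
  obtain rfl : p = v := Option.mem_unique hp hv
  exact le_rfl

/-- the computed cell with top `o` -/
theorem cell_top {eps : ℝ} {S : List Seg} {T : Finset Seg} {x : ℂ}
    (h : Sys eps S.toFinset T x) {r : Cell} (hr : Valid eps T r) {v : ℂ} (hv : v ∈ r.p)
    {o : Option Seg} (ho : RepO S.toFinset o r.t) :
    Rep S.toFinset ⟨lowF S v o, o, some v, bandF S (lowF S v o) o v⟩ r := by
  have hb := low_rep h hr hv ho
  exact ⟨hv.symm, band_rep h hr (Or.inl (hr.defd.pC v hv)) (first hr hv).1 (first hr hv).2 hb ho,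
    hb, ho⟩

/-- the computed cell with bottom `o` -/
theorem cell_bot {eps : ℝ} {S : List Seg} {T : Finset Seg} {x : ℂ}
    (h : Sys eps S.toFinset T x) {r : Cell} (hr : Valid eps T r) {v : ℂ} (hv : v ∈ r.p)
    {o : Option Seg} (ho : RepO S.toFinset o r.b) :
    Rep S.toFinset ⟨o, upF S v o, some v, bandF S o (upF S v o) v⟩ r := by
  have ht := up_rep h hr hv ho
  exact ⟨hv.symm, band_rep h hr (Or.inl (hr.defd.pC v hv)) (first hr hv).1 (first hr hv).2 ho ht,
    ho, ht⟩

theorem mem_nbR {O : Orc} {c c' : Cell} :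
    c' ∈ nbR O c ↔ ∃ v, c.q = some v ∧
      ((offB c.t v = true ∧ c' = ⟨O.low v c.t, c.t, some v, O.band (O.low v c.t) c.t v⟩) ∨
        (offB c.b v = true ∧ c' = ⟨c.b, O.up v c.b, some v, O.band c.b (O.up v c.b) v⟩)) := by
  unfold nbR
  cases hq : c.q with
  | none => simp
  | some v =>
    rw [Option.elim_some, List.mem_append]
    unfold nbT nbB
    constructor
    · rintro (h | h)
      · by_cases h1 : offB c.t v = true
        · rw [if_pos h1, List.mem_singleton] at h
          exact ⟨v, rfl, Or.inl ⟨h1, h⟩⟩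
        · rw [if_neg h1] at h
          exact absurd h List.not_mem_nil
      · by_cases h1 : offB c.b v = true
        · rw [if_pos h1, List.mem_singleton] at h
          exact ⟨v, rfl, Or.inr ⟨h1, h⟩⟩
        · rw [if_neg h1] at h
          exact absurd h List.not_mem_nil
    · rintro ⟨w, hw, h⟩
      obtain rfl : v = w := Option.some.inj hw
      rcases h with ⟨h1, h2⟩ | ⟨h1, h2⟩
      · left
        rw [if_pos h1, List.mem_singleton]
        exact h2
      · right
        rw [if_pos h1, List.mem_singleton]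
        exact h2

theorem negR_negR (R : Finset Seg) : negR (negR R) = R := by
  ext s
  rw [mem_negR, mem_negR, negS_negS]

end ENbRAux

open ENbRAux in
theorem nbR_rep {eps : ℝ} {S : List Seg} {T : Finset Seg} {x : ℂ}
    (h : Sys eps S.toFinset T x) {c d : Cell} (hc : Rep S.toFinset c d)
    (hd : Valid eps T d) :
    (∀ c' ∈ nbR (orcF S) c, ∃ d', Valid eps T d' ∧ adj d d' ∧ Rep S.toFinset c' d') ∧
    (∀ d', Valid eps T d' → adj d d' → ∃ c' ∈ nbR (orcF S) c, Rep S.toFinset c' d') := by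
  constructor
  · intro c' hc'
    obtain ⟨v, hq, hcase⟩ := mem_nbR.1 hc'
    have hv : v ∈ d.q := by rw [← hc.q]; exact hq
    have hband := hd.shape.qb v hv
    rcases hcase with ⟨h1, rfl⟩ | ⟨h1, rfl⟩
    · have h2 := (sg h hd.defd.tR hc.t v).1 h1
      obtain ⟨r, hr, ha, hvr, hrt⟩ := nb_top_right h.gen hd hv
        fun t ht => lt_of_le_of_ne (hband.2 t ht) (h2 t ht)
      exact ⟨r, hr, ha, cell_top h hr hvr (by rw [hrt]; exact hc.t)⟩
    · have h2 := (sg h hd.defd.bR hc.b v).1 h1
      obtain ⟨r, hr, ha, hvr, hrb⟩ := nb_bot_right h.gen hd hv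
        fun b hb => lt_of_le_of_ne (hband.1 b hb) (h2 b hb).symm
      exact ⟨r, hr, ha, cell_bot h hr hvr (by rw [hrb]; exact hc.b)⟩
  · rintro d' hd' ⟨v, hvq, hvp, hcase⟩
    have hq : c.q = some v := by rw [hc.q]; exact hvq
    rcases hcase with ⟨h1, h2⟩ | ⟨h1, h2⟩
    · refine ⟨_, mem_nbR.2 ⟨v, hq, Or.inl ⟨(sg h hd.defd.tR hc.t v).2
        fun t ht => (h2 t ht).ne, rfl⟩⟩, cell_top h hd' hvp (by rw [← h1]; exact hc.t)⟩
    · refine ⟨_, mem_nbR.2 ⟨v, hq, Or.inr ⟨(sg h hd.defd.bR hc.b v).2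
        fun b hb => (h2 b hb).ne', rfl⟩⟩, cell_bot h hd' hvp (by rw [← h1]; exact hc.b)⟩

open ENbRAux in
theorem nbs_rep {eps : ℝ} {S : List Seg} {T : Finset Seg} {x : ℂ}
    (h : Sys eps S.toFinset T x) {c d : Cell} (hc : Rep S.toFinset c d)
    (hd : Valid eps T d) :
    (∀ c' ∈ nbs (orcF S) (orcF (S.map negS)) c,
      ∃ d', Valid eps T d' ∧ nbr d d' ∧ Rep S.toFinset c' d') ∧
    (∀ d', Valid eps T d' → nbr d d' →
      ∃ c' ∈ nbs (orcF S) (orcF (S.map negS)) c, Rep S.toFinset c' d') := by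
  obtain ⟨hs, hcpl⟩ := nbR_rep h hc hd
  have h' : Sys eps (S.map negS).toFinset (negR T) (-x) := by
    rw [negR_toFinset]
    exact sys_neg h
  have hc2 : Rep (S.map negS).toFinset (negC c) (negC d) := by
    rw [negR_toFinset]
    exact rep_neg hc
  have hback : negR (S.map negS).toFinset = S.toFinset := by
    rw [negR_toFinset, negR_negR]
  obtain ⟨hs2, hcpl2⟩ := nbR_rep h' hc2 (valid_neg h.gen hd)
  constructor
  · intro c' hc'
    rw [nbs, List.mem_append, List.mem_map] at hc'
    rcases hc' with hc' | ⟨c'', hc'', rfl⟩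
    · obtain ⟨d', h1, h2, h3⟩ := hs c' hc'
      exact ⟨d', h1, Or.inl h2, h3⟩
    · obtain ⟨e, h1, h2, h3⟩ := hs2 c'' hc''
      have h4 := valid_neg h'.gen h1
      rw [negR_negR] at h4
      have h5 := adj_neg h2
      rw [negC_negC] at h5
      have h6 := rep_neg h3
      rw [hback] at h6
      exact ⟨negC e, h4, Or.inr h5, h6⟩
  · intro d' hd' hn
    rcases hn with hn | hn
    · obtain ⟨c', h1, h2⟩ := hcpl d' hd' hn
      exact ⟨c', by rw [nbs, List.mem_append]; exact Or.inl h1, h2⟩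
    · obtain ⟨c'', h1, h2⟩ := hcpl2 (negC d') (valid_neg h.gen hd') (adj_neg hn)
      have h3 := rep_neg h2
      rw [hback, negC_negC] at h3
      exact ⟨negC c'', by rw [nbs, List.mem_append, List.mem_map]; exact Or.inr ⟨c'', h1, rfl⟩, h3⟩

end SQ
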