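import Pool.Agent.Lib.SQ.ENoB
import Pool.Agent.Lib.SQ.EBand
import Pool.Agent.Lib.SQ.ENegB
import Pool.Agent.Lib.SFA.ExistV
import Pool.Agent.Lib.SFA.AdjFace

/-!
# SQ.ERoot: the cell which contains `x`

`exists_valid' h.gen h.gen.xfree h.gen.xgen` gives `d` valid with `x ∈ reg eps d`.
* `wp (x, x + 1) x = x` (`(x + 1).re = x.re + 1`, `(x + 1).im = x.im`).  For `s ∈ S` active at `x` (`X s.1 ≤ X x < X s.2` by `act_iff`) `ori s x ≠ 0` (otherwise `x ∈ carrier s`, but `x ∉ U T = U S`).  So `candL x (some (x, x + 1)) s = true ↔ act x s = true ∧ 0 < ori s x` and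
  `candU x (some (x, x + 1)) s = true ↔ act x s = true ∧ ori s x < 0`.
* For `s ∈ S` active at `x`: `0 < ori s x ↔ ∀ t' ∈ d.t, gtR eps (X eps x) s t'`: (→) `ht s (X x) < x.im < ht t' (X x)` (`ori_pos_iff`, `x ∈ reg d`), `gtR_iff`.  (←) otherwise `ori s x < 0`, `x.im < ht s (X x)`, and for `b' ∈ d.b` `ht b' (X x) < x.im`, so `gtR b' s`; its piece `s'` at `X x`
  (`pieceR`, same heights `piece_line`, `gtR_congr_*`) contradicts `no_between`.  So `best_low` gives `low_root`; `up_root` is the mirror image.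
* `root_rep`: the right wall by `band_rep` (`X p < X x < X q`).  The left wall: `h' = sys_neg h` for `S.map negS` (`negR_toFinset`), `valid_neg`, `negC d` has bottom `d.t.map negS`, right wall `d.p.map (- ·)`; `repO_neg`; `band_rep` for `-x` (`X (-x) = - X x`) gives
  `bandF (S.map negS) (t.map negS) (b.map negS) (-x) = d.p.map (- ·)`, and the double negation is `d.p` (`Option.map_map`, `neg_neg`).
-/

namespace SQ

open SFA Classical

namespace ERootAux

theorem wp_root (x : ℂ) : wp (x, x + 1) x = x := by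
  unfold wp
  rw [if_pos (by simp)]
  apply Complex.ext <;> simp

theorem ori_ne {eps : ℝ} {S : Finset Seg} {T : Finset Seg} {x : ℂ} (h : Sys eps S T x)
    {s : Seg} (hs : s ∈ S) (ha : act x s = true) : ori s x ≠ 0 := by
  intro h0
  have h1 := (act_iff h hs (Or.inr rfl)).1 ha
  apply h.gen.xfree
  rw [h.uni]
  exact mem_U.2 ⟨s, hs, (mem_carrier_iff (h.inc hs) x).2 ⟨h1.1, h1.2.le, h0⟩⟩

theorem candL_root {eps : ℝ} {S : Finset Seg} {T : Finset Seg} {x : ℂ} (h : Sys eps S T x)
    {s : Seg} (hs : s ∈ S) :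
    candL x (some (x, x + 1)) s = true ↔ act x s = true ∧ 0 < ori s x := by
  unfold candL
  rw [Bool.and_eq_true]
  constructor
  · rintro ⟨ha, hb⟩
    refine ⟨ha, ?_⟩
    have h0 := ori_ne h hs ha
    simpa [blw, wp_root, h0] using hb
  · rintro ⟨ha, hb⟩
    refine ⟨ha, ?_⟩
    simp [blw, wp_root, hb]

theorem candU_root {eps : ℝ} {S : Finset Seg} {T : Finset Seg} {x : ℂ} (h : Sys eps S T x)
    {s : Seg} (hs : s ∈ S) :
    candU x (some (x, x + 1)) s = true ↔ act x s = true ∧ ori s x < 0 := by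
  unfold candU
  rw [Bool.and_eq_true]
  constructor
  · rintro ⟨ha, hb⟩
    refine ⟨ha, ?_⟩
    have h0 := ori_ne h hs ha
    simpa [abv, wp_root, h0] using hb
  · rintro ⟨ha, hb⟩
    refine ⟨ha, ?_⟩
    simp [abv, wp_root, hb]

theorem pos_iff {eps : ℝ} {S : Finset Seg} {T : Finset Seg} {x : ℂ} (h : Sys eps S T x)
    {d : Cell} (hd : Valid eps T d) (hx : x ∈ reg eps d) {s : Seg} (hs : s ∈ S)
    (ha : act x s = true) : 0 < ori s x ↔ ∀ t' ∈ d.t, gtR eps (X eps x) s t' := by
  have h1 := (act_iff h hs (Or.inr rfl)).1 ha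
  have hinc := h.inc hs
  constructor
  · intro h2 t' ht'
    have h3 := hx.2.2 t' ht'
    rw [ori_neg_iff (h.gen.inc t' (hd.defd.tR t' ht'))] at h3
    rw [ori_pos_iff hinc] at h2
    exact gtR_iff.2 (Or.inl (h2.trans h3))
  · intro H
    by_contra h2
    have h3 : ori s x < 0 := lt_of_le_of_ne (not_lt.1 h2) (ori_ne h hs ha)
    rw [ori_neg_iff hinc] at h3
    obtain ⟨s', hs', hsub, s1, s2⟩ := h.pieceR s hs (X eps x) h1.1 h1.2
    have hl := (piece_line h hs hs' hsub).1
    refine no_between h hd (fun p hp => (hx.1.1 p hp).le) (fun q hq => hx.1.2 q hq) hs' s1 s2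
      ?_ ?_
    · intro b' hb'
      have h4 := hx.2.1 b' hb'
      rw [ori_pos_iff (h.gen.inc b' (hd.defd.bR b' hb'))] at h4
      refine gtR_iff.2 (Or.inl ?_)
      rw [← hl]
      exact h4.trans h3
    · intro t' ht'
      exact (gtR_congr_left hl).1 (H t' ht')

theorem neg_iff {eps : ℝ} {S : Finset Seg} {T : Finset Seg} {x : ℂ} (h : Sys eps S T x)
    {d : Cell} (hd : Valid eps T d) (hx : x ∈ reg eps d) {s : Seg} (hs : s ∈ S)
    (ha : act x s = true) : ori s x < 0 ↔ ∀ b' ∈ d.b, gtR eps (X eps x) b' s := by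
  have h1 := (act_iff h hs (Or.inr rfl)).1 ha
  have hinc := h.inc hs
  constructor
  · intro h2 b' hb'
    have h3 := hx.2.1 b' hb'
    rw [ori_pos_iff (h.gen.inc b' (hd.defd.bR b' hb'))] at h3
    rw [ori_neg_iff hinc] at h2
    exact gtR_iff.2 (Or.inl (h3.trans h2))
  · intro H
    by_contra h2
    have h3 : 0 < ori s x := lt_of_le_of_ne (not_lt.1 h2) (Ne.symm (ori_ne h hs ha))
    rw [ori_pos_iff hinc] at h3
    obtain ⟨s', hs', hsub, s1, s2⟩ := h.pieceR s hs (X eps x) h1.1 h1.2
    have hl := (piece_line h hs hs' hsub).1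
    refine no_between h hd (fun p hp => (hx.1.1 p hp).le) (fun q hq => hx.1.2 q hq) hs' s1 s2
      ?_ ?_
    · intro b' hb'
      exact (gtR_congr_right hl).1 (H b' hb')
    · intro t' ht'
      have h4 := hx.2.2 t' ht'
      rw [ori_neg_iff (h.gen.inc t' (hd.defd.tR t' ht'))] at h4
      refine gtR_iff.2 (Or.inl ?_)
      rw [← hl]
      exact h3.trans h4

end ERootAux

open ERootAux

theorem low_root {eps : ℝ} {S : List Seg} {T : Finset Seg} {x : ℂ}
    (h : Sys eps S.toFinset T x) {d : Cell} (hd : Valid eps T d) (hx : x ∈ reg eps d) :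
    RepO S.toFinset (lowF S x (some (x, x + 1))) d.b := by
  unfold lowF
  refine best_low h hd (Or.inr rfl) (fun p hp => (hx.1.1 p hp).le)
    (fun q hq => hx.1.2 q hq) ?_
  intro s hs
  have hs' : s ∈ S.toFinset := List.mem_toFinset.2 hs
  rw [candL_root h hs']
  constructor
  · rintro ⟨ha, hb⟩
    exact ⟨ha, (pos_iff h hd hx hs' ha).1 hb⟩
  · rintro ⟨ha, hb⟩
    exact ⟨ha, (pos_iff h hd hx hs' ha).2 hb⟩

theorem up_root {eps : ℝ} {S : List Seg} {T : Finset Seg} {x : ℂ}
    (h : Sys eps S.toFinset T x) {d : Cell} (hd : Valid eps T d) (hx : x ∈ reg eps d) :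
    RepO S.toFinset (upF S x (some (x, x + 1))) d.t := by
  unfold upF
  refine best_up h hd (Or.inr rfl) (fun p hp => (hx.1.1 p hp).le)
    (fun q hq => hx.1.2 q hq) ?_
  intro s hs
  have hs' : s ∈ S.toFinset := List.mem_toFinset.2 hs
  rw [candU_root h hs']
  constructor
  · rintro ⟨ha, hb⟩
    exact ⟨ha, (neg_iff h hd hx hs' ha).1 hb⟩
  · rintro ⟨ha, hb⟩
    exact ⟨ha, (neg_iff h hd hx hs' ha).2 hb⟩

theorem root_rep {eps : ℝ} {S : List Seg} {T : Finset Seg} {x : ℂ}
    (h : Sys eps S.toFinset T x) : ∃ d, Valid eps T d ∧ x ∈ reg eps d ∧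
      Rep S.toFinset (rootC (orcF S) (orcF (S.map negS)) x) d := by
  obtain ⟨d, hd, hx⟩ := exists_valid' h.gen h.gen.xfree h.gen.xgen
  have hb := low_root h hd hx
  have ht := up_root h hd hx
  refine ⟨d, hd, hx, ?_, ?_, hb, ht⟩
  · have h' : Sys eps (S.map negS).toFinset (negR T) (-x) := by
      rw [negR_toFinset]
      exact sys_neg h
    have hb' : RepO (S.map negS).toFinset ((lowF S x (some (x, x + 1))).map negS)
        (negC d).t := by
      rw [negR_toFinset]
      exact repO_neg hb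
    have ht' : RepO (S.map negS).toFinset ((upF S x (some (x, x + 1))).map negS)
        (negC d).b := by
      rw [negR_toFinset]
      exact repO_neg ht
    have hq : bandF (S.map negS) ((upF S x (some (x, x + 1))).map negS)
        ((lowF S x (some (x, x + 1))).map negS) (-x) = (negC d).q := by
      refine band_rep h' (valid_neg h.gen hd) (Or.inr rfl) ?_ ?_ ht' hb'
      · intro p hp
        obtain ⟨q, hq, rfl⟩ := Option.mem_map.1 hp
        rw [X_neg', X_neg']
        have := hx.1.2 q hq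
        linarith
      · intro q hq
        obtain ⟨p, hp, rfl⟩ := Option.mem_map.1 hq
        rw [X_neg', X_neg']
        have := hx.1.1 p hp
        linarith
    show (bandF (S.map negS) ((upF S x (some (x, x + 1))).map negS)
        ((lowF S x (some (x, x + 1))).map negS) (-x)).map (fun z => -z) = d.p
    rw [hq]
    show (d.p.map (fun z => -z)).map (fun z => -z) = d.p
    rw [Option.map_map]
    have : ((fun z : ℂ => -z) ∘ fun z : ℂ => -z) = id := by
      funext z
      simp
    rw [this, Option.map_id]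
    rfl
  · exact band_rep h hd (Or.inr rfl) (fun p hp => (hx.1.1 p hp).le)
      (fun q hq => hx.1.2 q hq) hb ht

end SQ
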