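import Pool.Agent.Lib.SQ.EExp
import Pool.Agent.Lib.SQ.ENbR
import Pool.Agent.Lib.SQ.ERoot
import Pool.Agent.Lib.SFA.Comp
import Pool.Agent.Lib.SFA.CardTF

/-!
# SQ.ETF: the exploration finds the cells of the face

`R c d := Valid eps T d ∧ Rep S.toFinset c d`, `E d d' := Valid eps T d' ∧ nbr d d'`.  `root_rep`, `nbs_rep`, `same_iff` give the hypotheses of `explore_spec`; `comp` (Comp.lean): `InFace eps T x d ↔ ReflTransGen E d0 d`.
* `exploreF_spec`: direct.
* `exploreF_ends`: if `todo ≠ []` then `done.length = N`, so `done ++ todo` has more than `N` elements which represent pairwise different elements of `TF eps T x` (finite, `finite_TF`).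
-/

namespace SQ

open SFA Classical

private theorem key {eps : ℝ} {S : List Seg} {T : Finset Seg} {x : ℂ}
    (h : Sys eps S.toFinset T x) (N : ℕ) :
    ((∀ c ∈ (exploreF S x N).1 ++ (exploreF S x N).2,
      ∃ d, InFace eps T x d ∧ Rep S.toFinset c d) ∧
    ((exploreF S x N).1 ++ (exploreF S x N).2).Pairwise
      (fun c c' => ∀ d, (Valid eps T d ∧ Rep S.toFinset c d) →
        ¬ (Valid eps T d ∧ Rep S.toFinset c' d)) ∧
    ((exploreF S x N).2 = [] → ∀ d, InFace eps T x d →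
      ∃ c ∈ (exploreF S x N).1, Rep S.toFinset c d) ∧
    (exploreF S x N).1.length ≤ N ∧
    ((exploreF S x N).2 ≠ [] → (exploreF S x N).1.length = N)) := by
  obtain ⟨d0, hd0, hxd, hr0⟩ := root_rep h
  have hc := comp h.gen hd0 hxd
  obtain ⟨a1, a2, a3, a4, a5⟩ := explore_spec (fun c d => Valid eps T d ∧ Rep S.toFinset c d)
    (fun d d' => Valid eps T d' ∧ nbr d d') (nbs (orcF S) (orcF (S.map negS)))
    (rootC (orcF S) (orcF (S.map negS)) x) d0 ⟨hd0, hr0⟩
    (fun c d hcd c' hc' => by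
      obtain ⟨d', h1, h2, h3⟩ := (nbs_rep h hcd.2 hcd.1).1 c' hc'
      exact ⟨d', ⟨h1, h2⟩, h1, h3⟩)
    (fun c d hcd d' hE => by
      obtain ⟨c', h1, h2⟩ := (nbs_rep h hcd.2 hcd.1).2 d' hE.1 hE.2
      exact ⟨c', h1, hE.1, h2⟩)
    (fun c c' d d' h1 h2 => same_iff h h1.1 h2.1 h1.2 h2.2) N
  refine ⟨fun c hcm => ?_, a2, fun h0 d hd => ?_, a4, a5⟩
  · obtain ⟨d, h1, h2, h3⟩ := a1 c hcm
    exact ⟨d, (hc d).2 h1, h3⟩
  · obtain ⟨c, h1, h2, h3⟩ := a3 h0 d ((hc d).1 hd)
    exact ⟨c, h1, h3⟩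

theorem exploreF_spec {eps : ℝ} {S : List Seg} {T : Finset Seg} {x : ℂ}
    (h : Sys eps S.toFinset T x) (N : ℕ) :
    (∀ c ∈ (exploreF S x N).1 ++ (exploreF S x N).2,
      ∃ d, InFace eps T x d ∧ Rep S.toFinset c d) ∧
    ((exploreF S x N).2 = [] → ∀ d, InFace eps T x d →
      ∃ c ∈ (exploreF S x N).1, Rep S.toFinset c d) ∧
    (exploreF S x N).1.length ≤ N :=
  ⟨(key h N).1, (key h N).2.2.1, (key h N).2.2.2.1⟩

theorem exploreF_ends {eps : ℝ} {S : List Seg} {T : Finset Seg} {x : ℂ}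
    (h : Sys eps S.toFinset T x) {N : ℕ} (hN : (TF eps T x).ncard ≤ N) :
    (exploreF S x N).2 = [] := by
  by_contra hne
  obtain ⟨k1, k2, -, -, k5⟩ := key h N
  have hlen := k5 hne
  set L := (exploreF S x N).1 ++ (exploreF S x N).2 with hL
  have hLl : N + 1 ≤ L.length := by
    rw [hL, List.length_append, hlen]
    have : 0 < (exploreF S x N).2.length := List.length_pos_iff.2 hne
    omega
  have hg : ∀ i : Fin L.length, ∃ d, InFace eps T x d ∧ Rep S.toFinset (L.get i) d :=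
    fun i => k1 _ (List.get_mem L i)
  choose g hg1 hg2 using hg
  have hinj : Function.Injective g := by
    intro i j hij
    rcases lt_trichotomy i j with hlt | heq | hgt
    · exfalso
      have h1 := List.pairwise_iff_get.1 k2 i j hlt (g i) ⟨(hg1 i).1, hg2 i⟩
      exact h1 ⟨(hg1 i).1, by rw [hij]; exact hg2 j⟩
    · exact heq
    · exfalso
      have h1 := List.pairwise_iff_get.1 k2 j i hgt (g j) ⟨(hg1 j).1, hg2 j⟩
      exact h1 ⟨(hg1 j).1, by rw [← hij]; exact hg2 i⟩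
  have hsub : Set.range g ⊆ TF eps T x := by
    rintro _ ⟨i, rfl⟩
    exact hg1 i
  have h2 := Set.ncard_le_ncard hsub (finite_TF h.gen)
  rw [← Set.image_univ, Set.ncard_image_of_injective _ hinj, Set.ncard_univ,
    Nat.card_eq_fintype_card, Fintype.card_fin] at h2
  omega

end SQ
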