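import Pool.Agent.Lib.SQ.EG
import Pool.Agent.Lib.SFA.OSide
import Pool.Agent.Lib.SFA.OTopo

/-!
# SQ.ETr: transfer of the boundary description from the small set `D` to `S`

* `face_wit`: `face S x ⊆ face D x`: preconnected, contains `x`, disjoint from `U D ⊆ U S` (`IsPreconnected.subset_connectedComponentIn`).  `face D x ⊆ face S x`: `face D x` is preconnected, contains `x ∈ face S x`, and is disjoint from `frontier (face S x) ⊆ U D` (`IsPreconnected.subset_of_disjoint_frontier`-like, or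
  `isPreconnected.subset_left_of_subset_union` with the open sets `face S x` and the complement of `closure (face S x)`).
* `side_closure` (for an arbitrary finite set `S` with non-degenerate segments): if `IsSide S (face S x) p q` then `segment ℝ p q ⊆ closure (face S x)`.  Apply `side_iff` (OSide.lean) to the `LP` family `T = (pre S.toList).toFinset` (`pre_spec`: same `U`, `Vert`, hence same `IsDEdge`, `face`): the left side of the dart is `face`, at every
  parameter `t ∈ (0, 1)`, so `lpt p q t ε ∈ face S x` for small `ε > 0`, and `lpt p q t ε → p + t (q - p)` as `ε → 0`; the closure is closed.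
* `sides`: `IsSide D (face D x) p q ↔ IsSide S (face S x) p q` (faces are equal, `f`).  (→) `p, q ∈ Vert D ⊆ Vert S`, `segment ⊆ U D ⊆ U S`; `u ∈ openSegment ∩ Vert S`: `u ∈ closure f` by `side_closure` for `D`, so `u ∈ Vert D` (`V2`): contradiction to `free`.  (←) `segment ⊆ closure f` by `side_closure` for `S`, and `⊆ U S`, so `⊆ frontier f`
  (`f` is open and disjoint from `U S`), `⊆ U D` (`fr`); `p, q ∈ Vert D` by `V2`; `free`: `Vert D ⊆ Vert S`.
* `turn`: `Joined D p v q` gives `K`, preconnected, disjoint from `U D`; `(p, v) ∈ cyc l` is a side, so some `lpt p v t' ε` (`t'` close to 1; by `side_iff` as above for all `t'`) is in `K` and in `f`: `K` meets `f = face D x`, so `K ⊆ face D x = face S x`, disjoint from `U S`.  (The triple `(p, v, q) ∈ cyc3 l` contains the pair `(p, v) ∈ cyc l`.)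
* `ne`, `once`, `same`, `diff`, `cover`: the face is the same.
-/

namespace SQ

open SFA Classical

namespace ETrAux

theorem exists_lp (S : Finset Seg) (hS : ∀ s ∈ S, s.1 ≠ s.2) :
    ∃ T : Finset Seg, P7b.LP T ∧ U T = U S ∧ Vert T = Vert S := by
  have hl : ∀ s ∈ S.toList, s.1 ≠ s.2 := fun s hs => hS s (Finset.mem_toList.1 hs)
  obtain ⟨-, -, h3, h4, h5, h6⟩ := pre_spec S.toList hl
  refine ⟨(pre S.toList).toFinset, ⟨?_, ?_⟩, ?_, ?_⟩
  · intro s hs he
    have h := h3 s (List.mem_toFinset.1 hs)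
    unfold lexlt at h
    rw [he] at h
    rcases h with h | h
    · exact lt_irrefl _ h
    · exact lt_irrefl _ h.2
  · intro s hs t ht hst
    exact h4 s (List.mem_toFinset.1 hs) t (List.mem_toFinset.1 ht) hst
  · rw [h5, Finset.toList_toFinset]
  · rw [h6, Finset.toList_toFinset]

theorem isOpen_face (S : Finset Seg) (x : ℂ) : IsOpen (face S x) :=
  (isClosed_U S).isOpen_compl.connectedComponentIn

theorem face_disj {S : Finset Seg} {x z : ℂ} (hz : z ∈ face S x) : z ∉ U S :=
  connectedComponentIn_subset _ _ hz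

theorem face_pre (S : Finset Seg) (x : ℂ) : IsPreconnected (face S x) :=
  isPreconnected_connectedComponentIn

theorem mem_face {S : Finset Seg} {x : ℂ} (hx : x ∉ U S) : x ∈ face S x :=
  mem_connectedComponentIn hx

theorem notin_of_side {S : Finset Seg} {x p q : ℂ} (h : IsSide S (face S x) p q) : x ∉ U S := by
  intro hx
  obtain ⟨-, ε₀, e0, h1⟩ := h
  have h2 := h1 (ε₀ / 2) (by linarith) (by linarith)
  have h3 : face S x = ∅ := connectedComponentIn_eq_empty (fun h => h hx)
  rw [h3] at h2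
  exact h2

theorem lpt_mem_openSegment {p q : ℂ} {t : ℝ} (h0 : 0 < t) (h1 : t < 1) :
    lpt p q t 0 ∈ openSegment ℝ p q := by
  rw [openSegment_eq_image']
  refine ⟨t, ⟨h0, h1⟩, ?_⟩
  simp [lpt]

theorem mem_closure_of_lpt {A : Set ℂ} {p q : ℂ} {t ε₀ : ℝ} (h0 : 0 < ε₀)
    (h : ∀ ε : ℝ, 0 < ε → ε < ε₀ → lpt p q t ε ∈ A) : lpt p q t 0 ∈ closure A := by
  have hc : Continuous (fun ε : ℝ => lpt p q t ε) := by
    unfold lpt
    fun_prop
  have h2 : (0 : ℝ) ∈ closure (Set.Ioo (0 : ℝ) ε₀) := by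
    rw [closure_Ioo h0.ne]
    exact ⟨le_rfl, h0.le⟩
  have h3 : (fun ε : ℝ => lpt p q t ε) 0 ∈
      closure ((fun ε : ℝ => lpt p q t ε) '' Set.Ioo (0 : ℝ) ε₀) :=
    image_closure_subset_closure_image hc ⟨0, h2, rfl⟩
  refine closure_mono ?_ h3
  rintro _ ⟨ε, ⟨h4, h5⟩, rfl⟩
  exact h ε h4 h5

theorem cyc_of_cyc3 {l : List ℂ} {a : ℂ × ℂ × ℂ} (ha : a ∈ cyc3 l) : (a.1, a.2.1) ∈ cyc l := by
  unfold cyc3 at ha
  unfold cyc
  obtain ⟨i, hi, rfl⟩ := List.mem_iff_getElem.1 ha
  have hi1 : i < (l.zip (l.rotate 1)).length := by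
    simp at hi ⊢
    exact hi
  have : (l.zip (l.rotate 1))[i] =
      ((l.zip ((l.rotate 1).zip (l.rotate 2)))[i].1,
        (l.zip ((l.rotate 1).zip (l.rotate 2)))[i].2.1) := by
    simp only [List.getElem_zip]
  rw [← this]
  exact List.getElem_mem _

end ETrAux

open ETrAux

theorem face_wit {S D : Finset Seg} {x : ℂ} (hx : x ∉ U S) (h : WitOK S D x) :
    face D x = face S x := by
  apply Set.Subset.antisymm
  · have h1 : (face D x ∩ face S x).Nonempty :=
      ⟨x, mem_face (fun h' => hx (h.sub h')), mem_face hx⟩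
    have h2 : face D x ⊆ face S x ∪ (closure (face S x))ᶜ := by
      intro z hz
      by_cases hz2 : z ∈ face S x
      · exact Or.inl hz2
      · right
        intro hz3
        have hz4 : z ∈ frontier (face S x) := by
          refine ⟨hz3, ?_⟩
          rw [(isOpen_face S x).interior_eq]
          exact hz2
        exact face_disj hz (h.fr hz4)
    exact (face_pre D x).subset_left_of_subset_union (isOpen_face S x)
      isClosed_closure.isOpen_compl
      (Set.disjoint_left.2 fun z hz hz' => hz' (subset_closure hz)) h2 h1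
  · exact (face_pre S x).subset_connectedComponentIn (mem_face hx)
      (fun z hz hz' => face_disj hz (h.sub hz'))

theorem side_closure {S : Finset Seg} {x : ℂ} (hS : ∀ s ∈ S, s.1 ≠ s.2) {p q : ℂ}
    (h : IsSide S (face S x) p q) :
    (∀ t : ℝ, 0 < t → t < 1 → ∃ ε₀ > 0, ∀ ε : ℝ, 0 < ε → ε < ε₀ →
      lpt p q t ε ∈ face S x) ∧ segment ℝ p q ⊆ closure (face S x) := by
  have hx : x ∉ U S := notin_of_side h
  obtain ⟨T, hT, hU, hV⟩ := exists_lp S hS
  have hf : face T x = face S x := by unfold face; rw [hU]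
  have hxT : x ∉ U T := by rw [hU]; exact hx
  have hside : IsSide T (face T x) p q := by
    rw [hf]
    obtain ⟨h1, h2⟩ := h
    exact ⟨⟨h1.ne, hV ▸ h1.pV, hV ▸ h1.qV, hU ▸ h1.sub, hV ▸ h1.free⟩, h2⟩
  obtain ⟨d, hd1, hd2, hd3⟩ := (side_iff hT hxT).1 hside
  have key : ∀ t : ℝ, 0 < t → t < 1 → ∃ ε₀ > 0, ∀ ε : ℝ, 0 < ε → ε < ε₀ →
      lpt p q t ε ∈ face S x := by
    intro t h0 h1
    obtain ⟨ε₀, e0, h2⟩ := (P7b.lreg_eq_face_iff hT d hxT h0 h1).1 hd3
    refine ⟨ε₀, e0, fun ε he he' => ?_⟩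
    have h3 := h2 ε he he'
    rw [hd1, hd2] at h3
    rw [← hf]
    exact h3
  refine ⟨key, ?_⟩
  rw [← closure_openSegment]
  refine closure_minimal ?_ isClosed_closure
  intro z hz
  rw [openSegment_eq_image'] at hz
  obtain ⟨t, ⟨h0, h1⟩, rfl⟩ := hz
  obtain ⟨ε₀, e0, h2⟩ := key t h0 h1
  have h3 := mem_closure_of_lpt e0 h2
  have h4 : lpt p q t 0 = p + t • (q - p) := by simp [lpt]
  change p + t • (q - p) ∈ closure (face S x)
  rw [← h4]
  exact h3

theorem boundary_transfer {S D : Finset Seg} {x : ℂ} (hS : ∀ s ∈ S, s.1 ≠ s.2)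
    (hx : x ∉ U S) (h : WitOK S D x) {L : List (List ℂ)} (hL : IsBoundary D x L) :
    IsBoundary S x L := by
  have hf : face D x = face S x := face_wit hx h
  have hsides : ∀ p q, IsSide D (face D x) p q ↔ IsSide S (face S x) p q := by
    intro p q
    constructor
    · intro hs
      have hcl := (side_closure h.ne hs).2
      obtain ⟨h1, h2⟩ := hs
      refine ⟨⟨h1.ne, h.V1 h1.pV, h.V1 h1.qV, h1.sub.trans h.sub, ?_⟩, ?_⟩
      · rw [Set.disjoint_left]
        intro u hu huV
        refine Set.disjoint_left.1 h1.free hu (h.V2 u huV ?_)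
        rw [← hf]
        exact hcl (openSegment_subset_segment ℝ p q hu)
      · rw [← hf]
        exact h2
    · intro hs
      have hcl := (side_closure hS hs).2
      obtain ⟨h1, h2⟩ := hs
      refine ⟨⟨h1.ne, ?_, ?_, ?_, ?_⟩, ?_⟩
      · exact h.V2 p h1.pV (hcl (left_mem_segment ℝ p q))
      · exact h.V2 q h1.qV (hcl (right_mem_segment ℝ p q))
      · intro z hz
        refine h.fr ⟨hcl hz, ?_⟩
        rw [(isOpen_face S x).interior_eq]
        intro hz2
        exact face_disj hz2 (h1.sub hz)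
      · exact h1.free.mono_right h.V1
      · rw [hf]
        exact h2
  refine ⟨hL.ne, fun p q => ?_, hL.once, ?_, ?_, ?_, ?_⟩
  · rw [hL.sides p q]
    exact hsides p q
  · intro l hl a ha r hr
    obtain ⟨K, hK1, hK2, hK3, ⟨t, ht, hK4⟩, hK5⟩ := hL.turn l hl a ha r hr
    refine ⟨K, hK1, hK2, ?_, ⟨t, ht, hK4⟩, hK5⟩
    have hside : IsSide D (face D x) a.1 a.2.1 :=
      (hL.sides a.1 a.2.1).1 (List.mem_flatMap.2 ⟨l, hl, cyc_of_cyc3 ha⟩)
    have hkey := (side_closure h.ne hside).1
    obtain ⟨t', h1, h2⟩ : ∃ t' : ℝ, max t 0 < t' ∧ t' < 1 :=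
      exists_between (max_lt ht one_pos)
    have h3 : t < t' := lt_of_le_of_lt (le_max_left _ _) h1
    have h4 : 0 < t' := lt_of_le_of_lt (le_max_right _ _) h1
    obtain ⟨ε₁, e1, h5⟩ := hK4 t' h3 h2
    obtain ⟨ε₂, e2, h6⟩ := hkey t' h4 h2
    have hm : 0 < min ε₁ ε₂ := lt_min e1 e2
    have h7 := h5 (min ε₁ ε₂ / 2) (by linarith) (by linarith [min_le_left ε₁ ε₂])
    have h8 := h6 (min ε₁ ε₂ / 2) (by linarith) (by linarith [min_le_right ε₁ ε₂])
    have h9 : K ⊆ face D x := by
      have e : face D x = connectedComponentIn (U D)ᶜ (lpt a.1 a.2.1 t' (min ε₁ ε₂ / 2)) :=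
        connectedComponentIn_eq h8
      rw [e]
      exact hK1.subset_connectedComponentIn h7 (fun z hz => hK3 z hz)
    intro z hz
    have h10 := h9 hz
    rw [hf] at h10
    exact face_disj h10
  · rw [← hf]; exact hL.same
  · rw [← hf]; exact hL.diff
  · rw [← hf]; exact hL.cover

end SQ
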