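import Pool.Agent.Lib.SFA.ODoor
import Pool.Agent.Lib.SFA.Comp
import Pool.Agent.Lib.SFA.CardTF
import Pool.Agent.Lib.SFA.AdjFace
import Pool.Agent.Lib.SFA.RegB

/-!
# SQ.EFr: every point of the frontier of the face is on the bottom or top of a cell of the face

1. `closure (face T x) ⊆ ⋃ d ∈ TF, closure (reg eps d)`: the right side is closed (`finite_TF`, finite union), so it suffices that every `z ∈ face T x` is in it.  `face T x` is open (component of an open set of the locally connected plane) and for points `z' ∈ face T x` close to `z` whose abscissa is not critical (`z' = z + δ`, `X z' = X z + δ`,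
   finitely many critical abscissas, `finite_crit`) `exists_valid'` gives a valid cell with `z' ∈ reg d`, and `reg_subset_face` gives `InFace`.
2. `v ∈ frontier (face T x)` is in `closure (face T x)` and in `U T`: otherwise `v ∉ U T`, `v` is in the open complement, a small ball around `v` does not meet `U T` and meets `face T x`, so `v ∈ face T x`, which is open: `v` would be interior.
3. Let `d0 ∈ TF`, `InCl eps d0 v` (`closure_le`).
   (a) `b ∈ d0.b` with `ori b v = 0`: `v ∈ carrier b` (`spans`, `InCl`, `mem_carrier_iff`).  If `v` is critical: `v ∉ hreg d0` (`no_crit_in_hreg`) but `v` is in the closed band, so not in the open slab; by `InCl` `X v = X p` (`p ∈ d0.p`) or `X v = X q` (`q ∈ d0.q`), and `Gen.inj` gives `v = p` or `v = q`.  (b) same for `t ∈ d0.t`.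
   (c) otherwise `OpenBand d0 v`.  Not in the open slab (otherwise `v ∈ reg d0`, `reg_disj_U`).  So `X v = X q`, `q ∈ d0.q` (or `X v = X p`, `p ∈ d0.p`: mirror image).  `v = q`: otherwise `right_door` gives `v ∉ U T`.  `nb_top_right`: `r` valid, `adj d0 r`, `v ∈ r.p`, `r.t = d0.t`.  `adj_same_face`: `InFace r`.
   `tip_left` (for `r` and `c := d0`): if `OpenBand r v` then some `b ∈ d0.b` has `ori b v = 0`: contradiction.  So `¬ OpenBand r v`; the top of `r` is that of `d0`, strictly above `v`; so some `b ∈ r.b` has `¬ 0 < ori b v`, and `pb` gives `ori b v = 0`, `v ∈ carrier b` (`spans`, `v ∈ r.p`).  Take `d = r`, `e = b`, `v ∈ r.p`.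
   Mirror image for the left wall: `left_door`, `nb_top_left`, `tip_right`.
-/

namespace SQ

open SFA Classical

namespace EFrAux

theorem isOpen_face (T : Finset Seg) (x : ℂ) : IsOpen (face T x) :=
  (isClosed_U T).isOpen_compl.connectedComponentIn

/-- a point of the face is in the closure of the region of a cell of the face -/
theorem mem_closure_cell {eps : ℝ} {T : Finset Seg} {x : ℂ} (hG : Gen eps T x) {z : ℂ}
    (hz : z ∈ face T x) : ∃ d ∈ TF eps T x, z ∈ closure (reg eps d) := by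
  have hzU : z ∉ U T := connectedComponentIn_subset _ _ hz
  obtain ⟨c, c', hc, hc', -, r, hr, hball⟩ := local_structure hG hzU
  obtain ⟨r', hr', hface⟩ := Metric.isOpen_iff.1 (isOpen_face T x) z hz
  have hpt : ∀ ε : ℝ, 0 < ε → ∃ w : ℂ, dist w z < ε ∧ dist w z < r ∧ dist w z < r' ∧
      X eps w < X eps z := by
    intro ε hε
    have hm : 0 < min ε (min r r') := lt_min hε (lt_min hr hr')
    refine ⟨z - ((min ε (min r r') / 2 : ℝ) : ℂ), ?_, ?_, ?_, ?_⟩
    · have h1 : dist (z - ((min ε (min r r') / 2 : ℝ) : ℂ)) z = min ε (min r r') / 2 := by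
        rw [dist_eq_norm, sub_sub_cancel_left, norm_neg, Complex.norm_real, Real.norm_eq_abs,
          abs_of_pos (by positivity)]
      rw [h1]
      have := min_le_left ε (min r r')
      linarith
    · have h1 : dist (z - ((min ε (min r r') / 2 : ℝ) : ℂ)) z = min ε (min r r') / 2 := by
        rw [dist_eq_norm, sub_sub_cancel_left, norm_neg, Complex.norm_real, Real.norm_eq_abs,
          abs_of_pos (by positivity)]
      rw [h1]
      have h2 := min_le_right ε (min r r')
      have h3 := min_le_left r r'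
      linarith
    · have h1 : dist (z - ((min ε (min r r') / 2 : ℝ) : ℂ)) z = min ε (min r r') / 2 := by
        rw [dist_eq_norm, sub_sub_cancel_left, norm_neg, Complex.norm_real, Real.norm_eq_abs,
          abs_of_pos (by positivity)]
      rw [h1]
      have h2 := min_le_right ε (min r r')
      have h3 := min_le_right r r'
      linarith
    · unfold X
      simp only [Complex.sub_re, Complex.ofReal_re, Complex.sub_im, Complex.ofReal_im, sub_zero]
      linarith
  refine ⟨c, ?_, ?_⟩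
  · obtain ⟨w, -, h2, h3, h4⟩ := hpt 1 one_pos
    exact ⟨hc, reg_subset_face hG hc ((hball w (Metric.mem_ball.2 h2)).1 h4)
      (hface (Metric.mem_ball.2 h3))⟩
  · rw [Metric.mem_closure_iff]
    intro ε hε
    obtain ⟨w, h1, h2, h3, h4⟩ := hpt ε hε
    exact ⟨w, (hball w (Metric.mem_ball.2 h2)).1 h4, by rw [dist_comm]; exact h1⟩

theorem closure_face {eps : ℝ} {T : Finset Seg} {x : ℂ} (hG : Gen eps T x) {v : ℂ}
    (hv : v ∈ closure (face T x)) : ∃ d ∈ TF eps T x, v ∈ closure (reg eps d) := by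
  have hcl : IsClosed (⋃ d ∈ TF eps T x, closure (reg eps d)) :=
    (finite_TF hG).isClosed_biUnion fun _ _ => isClosed_closure
  have hsub : face T x ⊆ ⋃ d ∈ TF eps T x, closure (reg eps d) := by
    intro z hz
    obtain ⟨d, hd, hzd⟩ := mem_closure_cell hG hz
    exact Set.mem_biUnion hd hzd
  have h := closure_minimal hsub hcl hv
  rw [Set.mem_iUnion₂] at h
  obtain ⟨d, hd, h⟩ := h
  exact ⟨d, hd, h⟩

theorem frontier_mem_U {T : Finset Seg} {x : ℂ} {v : ℂ} (hv : v ∈ frontier (face T x)) :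
    v ∈ U T := by
  by_contra hvU
  have hop : IsOpen (U T)ᶜ := (isClosed_U T).isOpen_compl
  obtain ⟨r, hr, hball⟩ := Metric.isOpen_iff.1 hop v hvU
  obtain ⟨y, hy, hyv⟩ := Metric.mem_closure_iff.1 (frontier_subset_closure hv) r hr
  have hy2 : y ∈ Metric.ball v r := by
    rw [Metric.mem_ball, dist_comm]
    exact hyv
  have h1 : face T x = connectedComponentIn (U T)ᶜ y := connectedComponentIn_eq hy
  have h2 : Metric.ball v r ⊆ face T x := by
    rw [h1]
    exact (convex_ball v r).isPreconnected.subset_connectedComponentIn hy2 hball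
  have h3 : v ∈ face T x := h2 (Metric.mem_ball_self hr)
  rw [(isOpen_face T x).frontier_eq] at hv
  exact hv.2 h3

theorem mem_carrier_bt {eps : ℝ} {T : Finset Seg} {x : ℂ} (hG : Gen eps T x) {d : Cell}
    {v : ℂ} (h : InCl eps d v) {e : Seg} (heT : e ∈ T) (hs : spans eps d e)
    (h0 : ori e v = 0) : v ∈ carrier e := by
  obtain ⟨⟨p, hp, hp1⟩, q, hq, hq1⟩ := hs
  exact (mem_carrier_iff (hG.inc e heT) v).2 ⟨hp1.trans (h.1 p hp), (h.2.1 q hq).trans hq1, h0⟩

theorem crit_wall {eps : ℝ} {T : Finset Seg} {x : ℂ} (hG : Gen eps T x) {d : Cell}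
    (hd : Valid eps T d) {v : ℂ} (h : InCl eps d v) (hc : IsCrit T v) : v ∈ d.p ∨ v ∈ d.q := by
  by_contra hcon
  push Not at hcon
  refine no_crit_in_hreg hG hd hc ⟨⟨fun p hp => ?_, fun q hq => ?_⟩, h.2.2⟩
  · refine lt_of_le_of_ne (h.1 p hp) fun he => hcon.1 ?_
    rw [← hG.inj p v (hd.defd.pC p hp) hc he]
    exact hp
  · refine lt_of_le_of_ne (h.2.1 q hq) fun he => hcon.2 ?_
    rw [hG.inj v q hc (hd.defd.qC q hq) he]
    exact hq

end EFrAux

open EFrAux

theorem frontier_cell {eps : ℝ} {T : Finset Seg} {x : ℂ} (hG : Gen eps T x) {v : ℂ}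
    (hv : v ∈ frontier (face T x)) :
    ∃ d, InFace eps T x d ∧ ∃ e : Seg, (e ∈ d.b ∨ e ∈ d.t) ∧ v ∈ carrier e ∧
      (IsCrit T v → v ∈ d.p ∨ v ∈ d.q) := by
  have hvU : v ∈ U T := frontier_mem_U hv
  obtain ⟨d0, ⟨hd0, hf0⟩, hcl⟩ := closure_face hG (frontier_subset_closure hv)
  have hin : InCl eps d0 v := closure_le hcl
  by_cases hB : ∃ b ∈ d0.b, ori b v = 0
  · obtain ⟨b, hb, h0⟩ := hB
    exact ⟨d0, ⟨hd0, hf0⟩, b, Or.inl hb, mem_carrier_bt hG hin (hd0.defd.bR b hb)
      (hd0.shape.bs b hb) h0, fun hc => crit_wall hG hd0 hin hc⟩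
  by_cases hT : ∃ t ∈ d0.t, ori t v = 0
  · obtain ⟨t, ht, h0⟩ := hT
    exact ⟨d0, ⟨hd0, hf0⟩, t, Or.inr ht, mem_carrier_bt hG hin (hd0.defd.tR t ht)
      (hd0.shape.ts t ht) h0, fun hc => crit_wall hG hd0 hin hc⟩
  push Not at hB hT
  have ho : OpenBand d0 v := ⟨fun b hb => lt_of_le_of_ne (hin.2.2.1 b hb) (hB b hb).symm,
    fun t ht => lt_of_le_of_ne (hin.2.2.2 t ht) (hT t ht)⟩
  have hslab : ¬ inSlab eps d0 v := fun h => reg_disj_U hG hd0 (z := v) ⟨h, ho⟩ hvU
  have hw : (∃ p ∈ d0.p, X eps v = X eps p) ∨ (∃ q ∈ d0.q, X eps v = X eps q) := by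
    by_contra hcon
    push Not at hcon
    exact hslab ⟨fun p hp => lt_of_le_of_ne (hin.1 p hp) (hcon.1 p hp).symm,
      fun q hq => lt_of_le_of_ne (hin.2.1 q hq) (hcon.2 q hq)⟩
  rcases hw with ⟨p, hp, hX⟩ | ⟨q, hq, hX⟩
  · have hvp : v = p := by
      by_contra hne
      exact (left_door hG hd0 hp hX hne ho).1 hvU
    subst hvp
    obtain ⟨l, hl, hadj, hvl, htl⟩ := nb_top_left hG hd0 hp ho.2
    have hfl : InFace eps T x l := ⟨hl, adj_same_face hG hd0 hl (Or.inr hadj) hf0⟩
    have hno : ¬ OpenBand l v := by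
      intro hol
      obtain ⟨b, hb, h0⟩ := (tip_right hG hl hd0 hvl hol hp).1 htl.symm
      exact hB b hb h0
    have hex : ∃ b ∈ l.b, ori b v = 0 := by
      by_contra hcon
      push Not at hcon
      refine hno ⟨fun b hb => lt_of_le_of_ne ((hl.shape.qb v hvl).1 b hb) (hcon b hb).symm, ?_⟩
      rw [htl]
      exact ho.2
    obtain ⟨b, hb, h0⟩ := hex
    refine ⟨l, hfl, b, Or.inl hb, ?_, fun _ => Or.inr hvl⟩
    obtain ⟨⟨p', hp', hp1⟩, q', hq', hq1⟩ := hl.shape.bs b hb
    have hq2 : q' = v := Option.mem_unique hq' hvl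
    subst hq2
    exact (mem_carrier_iff (hG.inc b (hl.defd.bR b hb)) q').2
      ⟨hp1.trans (hl.shape.lt p' hp' q' hvl).le, hq1, h0⟩
  · have hvq : v = q := by
      by_contra hne
      exact (right_door hG hd0 hq hX hne ho).1 hvU
    subst hvq
    obtain ⟨r, hr, hadj, hvr, htr⟩ := nb_top_right hG hd0 hq ho.2
    have hfr : InFace eps T x r := ⟨hr, adj_same_face hG hd0 hr (Or.inl hadj) hf0⟩
    have hno : ¬ OpenBand r v := by
      intro hor
      obtain ⟨b, hb, h0⟩ := (tip_left hG hr hd0 hvr hor hq).1 htr.symm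
      exact hB b hb h0
    have hex : ∃ b ∈ r.b, ori b v = 0 := by
      by_contra hcon
      push Not at hcon
      refine hno ⟨fun b hb => lt_of_le_of_ne ((hr.shape.pb v hvr).1 b hb) (hcon b hb).symm, ?_⟩
      rw [htr]
      exact ho.2
    obtain ⟨b, hb, h0⟩ := hex
    refine ⟨r, hfr, b, Or.inl hb, ?_, fun _ => Or.inl hvr⟩
    obtain ⟨⟨p', hp', hp1⟩, q', hq', hq1⟩ := hr.shape.bs b hb
    have hp2 : p' = v := Option.mem_unique hp' hvr
    subst hp2
    exact (mem_carrier_iff (hG.inc b (hr.defd.bR b hb)) p').2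
      ⟨hp1, (hr.shape.lt p' hvr q' hq').le.trans hq1, h0⟩

end SQ
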