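import Pool.Agent.Lib.SQ.ERepA
import Pool.Agent.Lib.SQ.EFr
import Pool.Agent.Lib.SFA.OPLine

/-!
# SQ.EWit: the witness segments have the same face and the same vertices on its boundary

* `wit_mem`: unfold `wit`, `witC` (`List.mem_flatMap`, `Option.mem_toList`).
* Every `s ∈ wit F`: `s = e` or `s ∈ cutS e v`, where `c ∈ F` represents a valid `d`, `e ∈ c.b` or `e ∈ c.t` is in `S` (`RepO`), and `v ∈ d.p` or `v ∈ d.q` is critical for `T`, a vertex of `S`.  `cutS`: `ori e v = 0`, `lexlt e.1 v`, `lexlt v e.2`, `s = (e.1, v)` or `(v, e.2)`: directed lexicographically, `v ∈ carrier e`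
  (`mem_seg_of_lex` needs a key of the line; or: `v = e.1 + l (e.2 - e.1)` from `ori e v = 0`, `0 < l < 1` from the lexicographic inequalities), `carrier s ⊆ carrier e` (convexity), and `s.2 - s.1` is a positive real multiple of `e.2 - e.1`.
* `ne`, `sub`: clear.  `V1`: endpoints: `e.1`, `e.2`, `v` are vertices of `S`; crossings: non-parallel `s, s'` are on non-parallel `e, e' ∈ S`.
* `fr`: `face S x = face T x` (`h.uni`), `frontier_cell`: `d`, `e'`, `v ∈ carrier e'`; `c ∈ F` represents `d`, so `e' ⊆ e0` for the bottom or top `e0` of `c`, `e0 ∈ wit F`.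
* `V2`: `v ∈ Vert S` is in `U S`, so not in the open set `face S x`; `v ∈ closure`, so `v ∈ frontier`; `frontier_cell` with `IsCrit T v` (`h.crit`): `v ∈ carrier e' ⊆ carrier e0`, `v ∈ d.p = c.p` or `v ∈ d.q = c.q`.  If `lexlt e0.1 v` and `lexlt v e0.2` then `(e0.1, v) ∈ cutS e0 v ⊆ wit F` has the endpoint `v`.
  Otherwise `v = e0.1` or `v = e0.2` (`lex_of_mem_seg`, `lex_antisymm`), an endpoint of `e0 ∈ wit F`.
* `wit_length`: `(witC c).length ≤ 10`: at most two segments `e`, for each `1 + 2 * 2`.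
-/

namespace SQ

open SFA Classical

namespace EWitAux

theorem mem_cutS {e s : Seg} {v : ℂ} : s ∈ cutS e v ↔
    (ori e v = 0 ∧ lexlt e.1 v ∧ lexlt v e.2) ∧ (s = (e.1, v) ∨ s = (v, e.2)) := by
  unfold cutS
  by_cases h : (decide (ori e v = 0) && (lexB e.1 v && lexB v e.2)) = true
  · rw [if_pos h]
    rw [Bool.and_eq_true, Bool.and_eq_true, decide_eq_true_eq, lexB_iff, lexB_iff] at h
    simp only [List.mem_cons, List.not_mem_nil, or_false]
    exact ⟨fun h1 => ⟨h, h1⟩, fun h1 => h1.2⟩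
  · rw [if_neg h]
    rw [Bool.and_eq_true, Bool.and_eq_true, decide_eq_true_eq, lexB_iff, lexB_iff] at h
    simp only [List.not_mem_nil, false_iff]
    exact fun h1 => h h1.1

theorem cutS_length (e : Seg) (v : ℂ) : (cutS e v).length ≤ 2 := by
  unfold cutS
  split_ifs <;> simp

theorem toList_length {α : Type} (o : Option α) : o.toList.length ≤ 1 := by
  cases o <;> simp

theorem sum_le {α : Type} (l : List α) (f : α → ℕ) (n : ℕ) (h : ∀ a, f a ≤ n) :
    (l.map f).sum ≤ n * l.length := by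
  induction l with
  | nil => simp
  | cons a l ih =>
    rw [List.map_cons, List.sum_cons, List.length_cons]
    have := h a
    nlinarith

theorem witC_length (c : Cell) : (witC c).length ≤ 10 := by
  unfold witC
  rw [List.length_flatMap]
  have h1 : ∀ e : Seg, (e :: (c.p.toList ++ c.q.toList).flatMap (fun v => cutS e v)).length ≤
      5 := by
    intro e
    rw [List.length_cons, List.length_flatMap]
    have h2 := sum_le (c.p.toList ++ c.q.toList) (fun v => (cutS e v).length) 2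
      (fun v => cutS_length e v)
    have h3 := toList_length c.p
    have h4 := toList_length c.q
    rw [List.length_append] at h2
    omega
  have h2 := sum_le (c.b.toList ++ c.t.toList)
    (fun e => (e :: (c.p.toList ++ c.q.toList).flatMap (fun v => cutS e v)).length) 5 h1
  have h3 := toList_length c.b
  have h4 := toList_length c.t
  rw [List.length_append] at h2
  omega

/-- a point on the line of `e`, strictly between the endpoints in the lexicographic order -/
theorem cut_par {e : Seg} {v : ℂ} (h0 : ori e v = 0) (h1 : lexlt e.1 v) (h2 : lexlt v e.2) :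
    ∃ l : ℝ, 0 < l ∧ l < 1 ∧ v.re = e.1.re + l * (e.2.re - e.1.re) ∧
      v.im = e.1.im + l * (e.2.im - e.1.im) := by
  have h3 : lexlt e.1 e.2 := lex_trans h1 h2
  simp only [ori, cross, Complex.sub_re, Complex.sub_im] at h0
  obtain ⟨l, hl1, hl2⟩ : ∃ l : ℝ, v.re = e.1.re + l * (e.2.re - e.1.re) ∧
      v.im = e.1.im + l * (e.2.im - e.1.im) := by
    rcases h3 with h4 | ⟨h4, h5⟩
    · have h5 : e.2.re - e.1.re ≠ 0 := by linarith
      refine ⟨(v.re - e.1.re) / (e.2.re - e.1.re), ?_, ?_⟩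
      · field_simp
        ring
      · field_simp
        linarith
    · have h6 : e.2.im - e.1.im ≠ 0 := by linarith
      refine ⟨(v.im - e.1.im) / (e.2.im - e.1.im), ?_, ?_⟩
      · rw [h4, sub_self, zero_mul, zero_sub, neg_eq_zero] at h0
        rcases mul_eq_zero.1 h0 with h7 | h7
        · exact absurd h7 h6
        · rw [h4, sub_self, mul_zero]
          linarith
      · field_simp
        ring
  refine ⟨l, ?_, ?_, hl1, hl2⟩
  · by_contra hl
    push Not at hl
    rcases h3 with h4 | ⟨h4, h5⟩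
    · rcases h1 with h6 | ⟨h6, h7⟩
      · nlinarith
      · have h8 : l * (e.2.re - e.1.re) = 0 := by linarith
        rcases mul_eq_zero.1 h8 with h9 | h9
        · rw [h9] at hl2
          linarith
        · linarith
    · rcases h1 with h6 | ⟨h6, h7⟩
      · rw [h4, sub_self, mul_zero] at hl1
        linarith
      · nlinarith
  · by_contra hl
    push Not at hl
    rcases h3 with h4 | ⟨h4, h5⟩
    · rcases h2 with h6 | ⟨h6, h7⟩
      · nlinarith
      · have h8 : (l - 1) * (e.2.re - e.1.re) = 0 := by linarith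
        rcases mul_eq_zero.1 h8 with h9 | h9
        · have h10 : l = 1 := by linarith
          rw [h10] at hl2
          linarith
        · linarith
    · rcases h2 with h6 | ⟨h6, h7⟩
      · rw [h4, sub_self, mul_zero] at hl1
        linarith
      · nlinarith

theorem mem_of_par {e : Seg} {v : ℂ} {l : ℝ} (h0 : 0 < l) (h1 : l < 1)
    (h2 : v.re = e.1.re + l * (e.2.re - e.1.re)) (h3 : v.im = e.1.im + l * (e.2.im - e.1.im)) :
    v ∈ carrier e := by
  refine ⟨1 - l, l, by linarith, h0.le, by ring, ?_⟩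
  apply Complex.ext
  · simp only [Complex.add_re, Complex.real_smul, Complex.mul_re, Complex.ofReal_re,
      Complex.ofReal_im, zero_mul, sub_zero]
    rw [h2]
    ring
  · simp only [Complex.add_im, Complex.real_smul, Complex.mul_im, Complex.ofReal_re,
      Complex.ofReal_im, zero_mul, add_zero]
    rw [h3]
    ring

/-- what is needed about a witness segment -/
structure WS (S : Finset Seg) (s e : Seg) : Prop where
  mem : e ∈ S
  lex : lexlt s.1 s.2
  sub : carrier s ⊆ carrier e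
  v1 : s.1 ∈ Vert S
  v2 : s.2 ∈ Vert S
  dir : ∃ l : ℝ, s.2 - s.1 = (l : ℂ) * (e.2 - e.1)

theorem ws_self {S : Finset Seg} (hl : ∀ s ∈ S, lexlt s.1 s.2) {e : Seg} (he : e ∈ S) :
    WS S e e :=
  ⟨he, hl e he, subset_rfl, Or.inl ⟨e, he, Or.inl rfl⟩, Or.inl ⟨e, he, Or.inr rfl⟩,
    1, by simp⟩

theorem ws_cut {S : Finset Seg} {e s : Seg} {v : ℂ} (he : e ∈ S) (hv : v ∈ Vert S)
    (hs : s ∈ cutS e v) : WS S s e := by
  obtain ⟨⟨h0, h1, h2⟩, h3⟩ := mem_cutS.1 hs
  obtain ⟨l, l0, l1, e1, e2⟩ := cut_par h0 h1 h2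
  have hmem := mem_of_par l0 l1 e1 e2
  rcases h3 with rfl | rfl
  · refine ⟨he, h1, ?_, Or.inl ⟨e, he, Or.inl rfl⟩, hv, l, ?_⟩
    · exact (convex_segment e.1 e.2).segment_subset (left_mem_carrier e) hmem
    · apply Complex.ext
      · simp only [Complex.sub_re, Complex.mul_re, Complex.ofReal_re, Complex.ofReal_im,
          zero_mul, sub_zero]
        linarith
      · simp only [Complex.sub_im, Complex.mul_im, Complex.ofReal_re, Complex.ofReal_im,
          zero_mul, add_zero]
        linarith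
  · refine ⟨he, h2, ?_, hv, Or.inl ⟨e, he, Or.inr rfl⟩, 1 - l, ?_⟩
    · exact (convex_segment e.1 e.2).segment_subset hmem (right_mem_carrier e)
    · apply Complex.ext
      · simp only [Complex.sub_re, Complex.mul_re, Complex.ofReal_re, Complex.ofReal_im,
          zero_mul, sub_zero, Complex.one_re, Complex.one_im, Complex.sub_im]
        linarith
      · simp only [Complex.sub_im, Complex.mul_im, Complex.ofReal_re, Complex.ofReal_im,
          zero_mul, add_zero, Complex.one_re, Complex.one_im, Complex.sub_re, sub_self]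
        linarith

theorem repO_mem {S : Finset Seg} {o o' : Option Seg} (h : RepO S o o') {e : Seg}
    (he : e ∈ o) : e ∈ S := by
  rcases h with ⟨h1, _⟩ | ⟨s, s', h1, _, h3, _⟩
  · rw [h1] at he
    exact absurd he (by simp)
  · rw [h1] at he
    have h4 : s = e := Option.some.inj he
    rw [← h4]
    exact h3

theorem repO_sup {S : Finset Seg} {o o' : Option Seg} (h : RepO S o o') {e' : Seg}
    (he : e' ∈ o') : ∃ e ∈ o, e ∈ S ∧ carrier e' ⊆ carrier e := by
  rcases h with ⟨_, h1⟩ | ⟨s, s', h1, h2, h3, h4⟩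
  · rw [h1] at he
    exact absurd he (by simp)
  · rw [h2] at he
    have h5 : s' = e' := Option.some.inj he
    rw [← h5]
    exact ⟨s, h1, h3, h4⟩

theorem face_eq {S T : Finset Seg} (h : U T = U S) (x : ℂ) : face S x = face T x := by
  unfold face
  rw [h]

end EWitAux

open EWitAux

theorem wit_mem {F : List Cell} {s : Seg} : s ∈ wit F ↔ ∃ c ∈ F, ∃ e : Seg,
    (e ∈ c.b ∨ e ∈ c.t) ∧ (s = e ∨ ∃ v : ℂ, (v ∈ c.p ∨ v ∈ c.q) ∧ s ∈ cutS e v) := by
  unfold wit witC
  simp only [List.mem_flatMap, List.mem_append, Option.mem_toList, List.mem_cons]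
  constructor
  · rintro ⟨c, hc, e, he, h | ⟨v, hv, h⟩⟩
    · exact ⟨c, hc, e, he, Or.inl h⟩
    · exact ⟨c, hc, e, he, Or.inr ⟨v, hv, h⟩⟩
  · rintro ⟨c, hc, e, he, h | ⟨v, hv, h⟩⟩
    · exact ⟨c, hc, e, he, Or.inl h⟩
    · exact ⟨c, hc, e, he, Or.inr ⟨v, hv, h⟩⟩

theorem wit_length (F : List Cell) : (wit F).length ≤ 10 * F.length := by
  unfold wit
  rw [List.length_flatMap]
  exact sum_le F (fun c => (witC c).length) 10 witC_length

theorem wit_ok {eps : ℝ} {S T : Finset Seg} {x : ℂ} (h : Sys eps S T x) {F : List Cell}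
    (h1 : ∀ c ∈ F, ∃ d, InFace eps T x d ∧ Rep S c d)
    (h2 : ∀ d, InFace eps T x d → ∃ c ∈ F, Rep S c d) : WitOK S (wit F).toFinset x := by
  have hws : ∀ s ∈ (wit F).toFinset, ∃ e, WS S s e := by
    intro s hs
    rw [List.mem_toFinset, wit_mem] at hs
    obtain ⟨c, hc, e, he, hs⟩ := hs
    obtain ⟨d, hd, hr⟩ := h1 c hc
    have heS : e ∈ S := by
      rcases he with he | he
      · exact repO_mem hr.b he
      · exact repO_mem hr.t he
    rcases hs with rfl | ⟨v, hv, hs⟩
    · exact ⟨s, ws_self h.lexS heS⟩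
    · refine ⟨e, ws_cut heS ?_ hs⟩
      rw [← h.crit]
      rcases hv with hv | hv
      · rw [hr.p] at hv
        exact hd.1.defd.pC v hv
      · rw [hr.q] at hv
        exact hd.1.defd.qC v hv
  have hfr : ∀ v ∈ frontier (face S x), ∃ c ∈ F, ∃ e : Seg, (e ∈ c.b ∨ e ∈ c.t) ∧ e ∈ S ∧
      v ∈ carrier e ∧ (v ∈ Vert S → v ∈ c.p ∨ v ∈ c.q) := by
    intro v hv
    rw [face_eq h.uni] at hv
    obtain ⟨d, hd, e', he', hve, hcr⟩ := frontier_cell h.gen hv
    obtain ⟨c, hc, hr⟩ := h2 d hd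
    have h3 : ∃ e : Seg, (e ∈ c.b ∨ e ∈ c.t) ∧ e ∈ S ∧ carrier e' ⊆ carrier e := by
      rcases he' with he' | he'
      · obtain ⟨e, g1, g2, g3⟩ := repO_sup hr.b he'
        exact ⟨e, Or.inl g1, g2, g3⟩
      · obtain ⟨e, g1, g2, g3⟩ := repO_sup hr.t he'
        exact ⟨e, Or.inr g1, g2, g3⟩
    obtain ⟨e, g1, g2, g3⟩ := h3
    refine ⟨c, hc, e, g1, g2, g3 hve, fun hV => ?_⟩
    rw [hr.p, hr.q]
    exact hcr ((h.crit v).2 hV)
  refine ⟨?_, ?_, ?_, ?_, ?_⟩
  · intro s hs he
    obtain ⟨e, hw⟩ := hws s hs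
    have h3 := hw.lex
    rw [he] at h3
    exact lex_irrefl _ h3
  · intro z hz
    obtain ⟨s, hs, hzs⟩ := mem_U.1 hz
    obtain ⟨e, hw⟩ := hws s hs
    exact mem_U.2 ⟨e, hw.mem, hw.sub hzs⟩
  · intro v hv
    obtain ⟨c, hc, e, g1, g2, g3, _⟩ := hfr v hv
    refine mem_U.2 ⟨e, ?_, g3⟩
    rw [List.mem_toFinset, wit_mem]
    exact ⟨c, hc, e, g1, Or.inl rfl⟩
  · rintro v (⟨s, hs, hv⟩ | ⟨s, hs, t, ht, hcr, hv1, hv2⟩)
    · obtain ⟨e, hw⟩ := hws s hs
      rcases hv with rfl | rfl
      · exact hw.v1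
      · exact hw.v2
    · obtain ⟨e, hw⟩ := hws s hs
      obtain ⟨e', hw'⟩ := hws t ht
      obtain ⟨l, hl⟩ := hw.dir
      obtain ⟨l', hl'⟩ := hw'.dir
      refine Or.inr ⟨e, hw.mem, e', hw'.mem, fun h0 => hcr ?_, hw.sub hv1, hw'.sub hv2⟩
      rw [hl, hl', cross_real_mul, h0, mul_zero]
  · intro v hV hcl
    have hvU : v ∈ U S := by
      rcases hV with ⟨s, hs, hv⟩ | ⟨s, hs, t, ht, hcr, hv1, hv2⟩
      · refine mem_U.2 ⟨s, hs, ?_⟩
        rcases hv with rfl | rfl
        · exact left_mem_carrier s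
        · exact right_mem_carrier s
      · exact mem_U.2 ⟨s, hs, hv1⟩
    have hvf : v ∈ frontier (face S x) := by
      rw [(EFrAux.isOpen_face S x).frontier_eq]
      refine ⟨hcl, fun hvf => ?_⟩
      exact connectedComponentIn_subset _ _ hvf hvU
    obtain ⟨c, hc, e, g1, g2, g3, g4⟩ := hfr v hvf
    have hew : e ∈ (wit F).toFinset := by
      rw [List.mem_toFinset, wit_mem]
      exact ⟨c, hc, e, g1, Or.inl rfl⟩
    obtain ⟨k1, k2⟩ := lex_of_mem_seg (h.lexS e g2) g3
    by_cases e1 : lexlt e.1 v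
    · by_cases e2 : lexlt v e.2
      · have h0 : ori e v = 0 := by
          obtain ⟨a, b, ha, hb, hab, rfl⟩ := g3
          rw [ori_comb e hab]
          simp
        refine Or.inl ⟨(e.1, v), ?_, Or.inr rfl⟩
        rw [List.mem_toFinset, wit_mem]
        exact ⟨c, hc, e, g1, Or.inr ⟨v, g4 hV, mem_cutS.2 ⟨⟨h0, e1, e2⟩, Or.inl rfl⟩⟩⟩
      · exact Or.inl ⟨e, hew, Or.inr (lex_antisymm e2 k2)⟩
    · exact Or.inl ⟨e, hew, Or.inl (lex_antisymm k1 e1)⟩

end SQ
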