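import Pool.Agent.Lib.SQ.ESys
import Pool.Agent.Lib.SQ.ETF
import Pool.Agent.Lib.SQ.EWit
import Pool.Agent.Lib.SQ.ETr
import Pool.Agent.Lib.SFA.Fin2

/-!
# SQ.EMain: the exploration is correct and ends soon enough

* `explore_main`: `exists_sys`, `exploreF_spec`, `wit_ok`, `wit_length`.
* `out_ok`: with `D = wit F`: `WitOK.ne`; `x ∉ U D`; `alg_correct` (Fin2.lean); `boundary_transfer`.
* `explore_enough`: `exploreF_ends`, `card_TF`: `ncard TF ≤ 2 * (darts T (face T x)).ncard + 1`, and `darts T (face T x) ⊆ {e | IsSide S (face S x) e.1 e.2}`.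
-/

namespace SQ

open SFA Classical

theorem explore_main (S : List Seg) (hS : ∀ s ∈ S, lexlt s.1 s.2) {x : ℂ}
    (hx : x ∉ U S.toFinset) (N : ℕ) {F : List Cell} (hF : exploreF S x N = (F, [])) :
    WitOK S.toFinset (wit F).toFinset x ∧ (wit F).length ≤ 10 * N := by
  obtain ⟨eps, h⟩ := exists_sys S hS hx
  obtain ⟨h1, h2, h3⟩ := exploreF_spec h N
  rw [hF] at h1 h2 h3
  simp only [List.append_nil] at h1
  refine ⟨wit_ok h h1 (h2 rfl), (wit_length F).trans ?_⟩
  simp only at h3
  omega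

theorem out_ok (S : List Seg) (hS : ∀ s ∈ S, lexlt s.1 s.2) {x : ℂ}
    (hx : x ∉ U S.toFinset) (N : ℕ) {F : List Cell} (hF : exploreF S x N = (F, []))
    (L : ℕ) (w : List Bool) :
    IsBoundary S.toFinset x (algL L (pre (wit F)) x w) := by
  obtain ⟨h1, -⟩ := explore_main S hS hx N hF
  have hne : ∀ s ∈ S.toFinset, s.1 ≠ s.2 := fun s hs heq => by
    have h2 := hS s (List.mem_toFinset.1 hs)
    rw [heq] at h2
    rcases h2 with h3 | ⟨-, h3⟩
    · exact lt_irrefl _ h3
    · exact lt_irrefl _ h3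
  refine boundary_transfer hne hx h1 (alg_correct (wit F) (fun s hs => ?_) x ?_ L w)
  · exact h1.ne s (List.mem_toFinset.2 hs)
  · exact fun hxU => hx (h1.sub hxU)

private theorem vert_finite {eps : ℝ} {S T : Finset Seg} {x : ℂ} (h : Sys eps S T x) :
    (Vert S).Finite := by
  have h1 : Vert S = {v | IsCrit T v} := by
    ext v
    exact (h.crit v).symm
  rw [h1]
  exact finite_crit h.gen

theorem explore_enough (S : List Seg) (hS : ∀ s ∈ S, lexlt s.1 s.2) {x : ℂ}
    (hx : x ∉ U S.toFinset) {N : ℕ}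
    (hN : 2 * {e : ℂ × ℂ | IsSide S.toFinset (face S.toFinset x) e.1 e.2}.ncard + 1 ≤ N) :
    (exploreF S x N).2 = [] := by
  obtain ⟨eps, h⟩ := exists_sys S hS hx
  refine exploreF_ends h (le_trans (card_TF h.gen) (le_trans ?_ hN))
  have hface : face (pre S).toFinset x = face S.toFinset x := by
    unfold face
    rw [h.uni]
  have hfin : {e : ℂ × ℂ | IsSide S.toFinset (face S.toFinset x) e.1 e.2}.Finite := by
    refine Set.Finite.subset ((vert_finite h).prod (vert_finite h)) ?_
    rintro ⟨p, q⟩ hs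
    exact ⟨hs.1.pV, hs.1.qV⟩
  have hsub : darts (pre S).toFinset (face (pre S).toFinset x) ⊆
      {e : ℂ × ℂ | IsSide S.toFinset (face S.toFinset x) e.1 e.2} := by
    rintro ⟨p, q⟩ hd
    obtain ⟨⟨h1, h2, h3, ⟨s, hs, hps, hqs⟩, h5⟩, hleft⟩ := hd
    simp only at h1 h2 h3 hps hqs h5 hleft
    refine ⟨⟨h1, (h.crit p).1 h2, (h.crit q).1 h3, ?_, ?_⟩, ?_⟩
    · rw [← h.uni]
      intro z hz
      have hz' : z ∈ carrier s := (convex_segment s.1 s.2).segment_subset hps hqs hz
      exact Set.mem_biUnion hs hz'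
    · rw [Set.disjoint_left]
      intro z hz hzV
      exact h5 z hz ((h.crit z).2 hzV)
    · unfold LeftOf at hleft
      rw [hface] at hleft
      rw [eventually_nhdsWithin_iff, Metric.eventually_nhds_iff] at hleft
      obtain ⟨r, hr, hball⟩ := hleft
      refine ⟨r, hr, fun ε h0 hlt => ?_⟩
      have h6 := hball (y := ε) (by rw [Real.dist_eq, sub_zero, abs_of_pos h0]; exact hlt) h0
      have h7 : midpoint ℝ p q + ((ε : ℝ) : ℂ) * Complex.I * (q - p) = lpt p q (1 / 2) ε := by
        unfold lpt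
        rw [midpoint_eq_smul_add]
        simp only [invOf_eq_inv, Complex.real_smul]
        push_cast
        ring
      rw [h7] at h6
      exact h6
  have := Set.ncard_le_ncard hsub hfin
  omega

end SQ
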