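import Pool.Agent.Lib.SFA.OPDefs

/-!
# SQ.EDefs (MP_7b5a71_lc, Q2, package E, owner helper1): exploration of the cells of the face of `x`

`S` is a list of segments directed lexicographically; collinear overlaps are allowed.  The cells
explored are those of the trapezoidal decomposition of the pieces `pre S` (`SFA.Cell`,
`SFA.Valid`), but the bottom and the top of a cell are represented by any segment of `S` which
covers the bottom or top side.  The exploration only asks three kinds of queries (`lowF`, `upF`,
`bandF`), each of them the best element of `S` for a strict total order on candidates; the data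
structure answers them exactly, so everything below is deterministic.
-/

namespace SQ

open SFA Classical

noncomputable section

/-! ### tests -/

/-- the point of the line of `r` above, on or below `v` (same real part); `v` itself if `r` is
vertical -/
def wp (r : Seg) (v : ℂ) : ℂ :=
  if r.1.re < r.2.re then
    ⟨v.re, r.1.im + (r.2.im - r.1.im) * ((v.re - r.1.re) / (r.2.re - r.1.re))⟩
  else v

/-- `s` is strictly above `r` just to the right of (the sheared wall of) `v` -/
def abv (s r : Seg) (v : ℂ) : Bool :=
  decide (ori s (wp r v) < 0) || (decide (ori s (wp r v) = 0) &&
    (if v.im < (wp r v).im then decide (cross (r.2 - r.1) (s.2 - s.1) < 0)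
      else decide (0 < cross (r.2 - r.1) (s.2 - s.1))))

/-- `s` is strictly below `r` just to the right of `v` -/
def blw (s r : Seg) (v : ℂ) : Bool :=
  decide (0 < ori s (wp r v)) || (decide (ori s (wp r v) = 0) &&
    (if v.im < (wp r v).im then decide (0 < cross (r.2 - r.1) (s.2 - s.1))
      else decide (cross (r.2 - r.1) (s.2 - s.1) < 0)))

/-- `s` lies on the line of `e` -/
def colB (s e : Seg) : Bool := decide (ori e s.1 = 0) && decide (ori e s.2 = 0)

/-- `s` wins against `e` (for collinear segments): farther right end, then farther left end -/
def tieB (s e : Seg) : Bool := lexB e.2 s.2 || (ptEq e.2 s.2 && lexB s.1 e.1)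

/-- `s` is active just to the right of `v` -/
def act (v : ℂ) (s : Seg) : Bool := !(lexB v s.1) && lexB v s.2

/-- candidates for `low v r`: active and strictly below `r` -/
def candL (v : ℂ) (r : Option Seg) (s : Seg) : Bool :=
  act v s && r.elim true (fun r => blw s r v)

/-- candidates for `up v r`: active and strictly above `r` -/
def candU (v : ℂ) (r : Option Seg) (s : Seg) : Bool :=
  act v s && r.elim true (fun r => abv s r v)

/-- `s` is better than `e` for `low v` -/
def betL (v : ℂ) (s e : Seg) : Bool := abv s e v || (colB s e && tieB s e)

/-- `s` is better than `e` for `up v` -/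
def betU (v : ℂ) (s e : Seg) : Bool := blw s e v || (colB s e && tieB s e)

/-- one step of the search for the best candidate -/
def bestStep (cand : Seg → Bool) (bet : Seg → Seg → Bool) (o : Option Seg) (s : Seg) :
    Option Seg :=
  if cand s then o.elim (some s) (fun e => if bet s e then some s else some e) else o

/-- the best candidate of a list -/
def bestL (cand : Seg → Bool) (bet : Seg → Seg → Bool) (l : List Seg) : Option Seg :=
  l.foldl (bestStep cand bet) none

/-- the highest segment of `S` which is active just right of `v` and strictly below `r` there -/
def lowF (S : List Seg) (v : ℂ) (r : Option Seg) : Option Seg := bestL (candL v r) (betL v) S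

/-- the lowest segment of `S` which is active just right of `v` and strictly above `r` there -/
def upF (S : List Seg) (v : ℂ) (r : Option Seg) : Option Seg := bestL (candU v r) (betU v) S

/-! ### first vertex in the band -/

/-- the crossing of `s` with `e`, if they are not parallel -/
def crs (s : Seg) (e : Option Seg) : List ℂ :=
  e.elim [] (fun e => if cross (s.2 - s.1) (e.2 - e.1) = 0 then [] else (meet s e).toList)

/-- `z` lies in the closed band between `b` and `t` -/
def bnd (b t : Option Seg) (z : ℂ) : Bool :=
  b.elim true (fun b => decide (0 ≤ ori b z)) && t.elim true (fun t => decide (ori t z ≤ 0))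

/-- the candidates given by `s` for the first vertex after `v` in the band: its endpoints in the
closed band and its crossings with `b` and `t` -/
def cnds (b t : Option Seg) (v : ℂ) (s : Seg) : List ℂ :=
  ([s.1, s.2].filter (fun z => bnd b t z) ++ (crs s b ++ crs s t)).filter (fun z => lexB v z)

/-- one step of the search for the lexicographic minimum -/
def minStep (o : Option ℂ) (z : ℂ) : Option ℂ :=
  o.elim (some z) (fun e => if lexB z e then some z else some e)

/-- lexicographic minimum of a list of points -/
def lexMinL (l : List ℂ) : Option ℂ := l.foldl minStep none

/-- the first vertex of `S` after `v` in the band between `b` and `t` -/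
def bandF (S : List Seg) (b t : Option Seg) (v : ℂ) : Option ℂ :=
  lexMinL (S.flatMap (cnds b t v))

/-! ### reflection -/

/-- the segment reflected at the origin, directed lexicographically -/
def negS (s : Seg) : Seg := (-s.2, -s.1)

/-- the reflected cell -/
def negC (c : Cell) : Cell :=
  ⟨c.t.map negS, c.b.map negS, c.q.map (fun z => -z), c.p.map (fun z => -z)⟩

/-! ### exploration, parametric in the oracles -/

/-- Oracles for `S` -/
structure Orc where
  low : ℂ → Option Seg → Option Seg
  up : ℂ → Option Seg → Option Seg
  band : Option Seg → Option Seg → ℂ → Option ℂ

/-- the exact oracles -/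
def orcF (S : List Seg) : Orc := ⟨lowF S, upF S, bandF S⟩

/-- right neighbour with the same top, if the wall point `v` is not on the top -/
def nbT (O : Orc) (c : Cell) (v : ℂ) : List Cell :=
  if offB c.t v then
    [⟨O.low v c.t, c.t, some v, O.band (O.low v c.t) c.t v⟩] else []

/-- right neighbour with the same bottom, if the wall point `v` is not on the bottom -/
def nbB (O : Orc) (c : Cell) (v : ℂ) : List Cell :=
  if offB c.b v then
    [⟨c.b, O.up v c.b, some v, O.band c.b (O.up v c.b) v⟩] else []

/-- the right neighbours -/
def nbR (O : Orc) (c : Cell) : List Cell := c.q.elim [] (fun v => nbT O c v ++ nbB O c v)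

/-- all neighbours; `O'` = oracles for the reflected list -/
def nbs (O O' : Orc) (c : Cell) : List Cell := nbR O c ++ (nbR O' (negC c)).map negC

/-- the cell which contains `x` -/
def rootC (O O' : Orc) (x : ℂ) : Cell :=
  ⟨O.low x (some (x, x + 1)), O.up x (some (x, x + 1)),
    (O'.band ((O.up x (some (x, x + 1))).map negS) ((O.low x (some (x, x + 1))).map negS)
      (-x)).map (fun z => -z),
    O.band (O.low x (some (x, x + 1))) (O.up x (some (x, x + 1))) x⟩

/-- both absent, or both present and on the same line -/
def colO (s e : Option Seg) : Bool :=
  s.elim (e.elim true (fun _ => false)) (fun s => e.elim false (fun e => colB s e))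

/-- the same cell (bottom and top may be represented by different segments) -/
def sameC (c d : Cell) : Bool :=
  opEq c.p d.p && (opEq c.q d.q && (colO c.b d.b && colO c.t d.t))

/-- add the new ones among the cells `l` to `acc`, `old` = cells known before -/
def addNew (old : List Cell) (acc : List Cell) (l : List Cell) : List Cell :=
  l.foldl (fun acc d => if (old ++ acc).any (fun c => sameC c d) then acc else acc ++ [d]) acc

/-- one step: state = (cells done, cells to do) -/
def exStep (nb : Cell → List Cell) (st : List Cell × List Cell) : List Cell × List Cell :=
  match st.2 with
  | [] => st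
  | c :: rest => (c :: st.1, rest ++ addNew (st.1 ++ c :: rest) [] (nb c))

/-- `N` steps of the exploration -/
def explore (nb : Cell → List Cell) (c0 : Cell) (N : ℕ) : List Cell × List Cell :=
  (exStep nb)^[N] ([], [c0])

/-- exploration with given oracles for `S` and for the reflected list -/
def exploreO (O O' : Orc) (x : ℂ) (N : ℕ) : List Cell × List Cell :=
  explore (nbs O O') (rootC O O' x) N

/-- exploration with the exact oracles -/
def exploreF (S : List Seg) (x : ℂ) (N : ℕ) : List Cell × List Cell :=
  exploreO (orcF S) (orcF (S.map negS)) x N

/-! ### witnesses -/

/-- the two parts of `e` if it is cut at `v`, nothing if `v` is not inside `e` -/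
def cutS (e : Seg) (v : ℂ) : List Seg :=
  if decide (ori e v = 0) && (lexB e.1 v && lexB v e.2) then [(e.1, v), (v, e.2)] else []

/-- bottom and top of `c`, also cut at the wall points -/
def witC (c : Cell) : List Seg :=
  (c.b.toList ++ c.t.toList).flatMap
    (fun e => e :: (c.p.toList ++ c.q.toList).flatMap (fun v => cutS e v))

/-- the small list of segments with the same face -/
def wit (F : List Cell) : List Seg := F.flatMap witC

end

end SQ
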