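import Pool.Agent.Lib.SFA.Fin2
import Pool.Agent.Lib.SQ.EDefs

/-!
# SQ.FinA: directed segments; the number of edges of the face
-/

namespace SQ

open SFA Classical

/-- number of undirected edges on the boundary of the face of `x` -/
noncomputable def hNum (S : Finset Seg) (x : ℂ) : ℕ :=
  {e : Sym2 ℂ | ∃ p q, IsSide S (face S x) p q ∧ e = s(p, q)}.ncard

theorem U_dir (Γ : List Seg) : U (Γ.map dirS).toFinset = U Γ.toFinset := by
  ext z
  simp only [U, Set.mem_iUnion, List.mem_toFinset, List.mem_map]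
  constructor
  · rintro ⟨s, ⟨s', hs', rfl⟩, hz⟩
    rw [carrier_dirS] at hz
    exact ⟨s', hs', hz⟩
  · rintro ⟨s, hs, hz⟩
    exact ⟨dirS s, ⟨s, hs, rfl⟩, by rw [carrier_dirS]; exact hz⟩

private theorem cross_dir (s t : Seg) :
    cross ((dirS s).2 - (dirS s).1) ((dirS t).2 - (dirS t).1) ≠ 0 ↔
      cross (s.2 - s.1) (t.2 - t.1) ≠ 0 := by
  have h1 : ∀ a b : ℂ, cross (-a) b = - cross a b := by
    intro a b; simp only [cross, Complex.neg_re, Complex.neg_im]; ring
  have h2 : ∀ a b : ℂ, cross a (-b) = - cross a b := by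
    intro a b; simp only [cross, Complex.neg_re, Complex.neg_im]; ring
  have hs : (dirS s).2 - (dirS s).1 = s.2 - s.1 ∨ (dirS s).2 - (dirS s).1 = -(s.2 - s.1) := by
    rcases dirS_eq s with h | h
    · left; rw [h]
    · right; rw [h]; ring
  have ht : (dirS t).2 - (dirS t).1 = t.2 - t.1 ∨ (dirS t).2 - (dirS t).1 = -(t.2 - t.1) := by
    rcases dirS_eq t with h | h
    · left; rw [h]
    · right; rw [h]; ring
  rcases hs with hs | hs <;> rcases ht with ht | ht <;> rw [hs, ht] <;>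
    simp only [h1, h2, neg_neg, neg_ne_zero, ne_eq]

theorem Vert_dir (Γ : List Seg) : Vert (Γ.map dirS).toFinset = Vert Γ.toFinset := by
  ext z
  simp only [Vert, List.mem_toFinset, Set.mem_ofPred_eq]
  have hend : ∀ s : Seg, (z = (dirS s).1 ∨ z = (dirS s).2) ↔ (z = s.1 ∨ z = s.2) := by
    intro s
    rcases dirS_eq s with h | h
    · rw [h]
    · rw [h]; exact or_comm
  refine or_congr ?_ ?_
  · constructor
    · rintro ⟨s, hs, h⟩
      obtain ⟨s', hs', rfl⟩ := List.mem_map.1 hs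
      exact ⟨s', hs', (hend s').1 h⟩
    · rintro ⟨s, hs, h⟩
      exact ⟨dirS s, List.mem_map.2 ⟨s, hs, rfl⟩, (hend s).2 h⟩
  · constructor
    · rintro ⟨s, hs, t, ht, h1, h2, h3⟩
      obtain ⟨s', hs', rfl⟩ := List.mem_map.1 hs
      obtain ⟨t', ht', rfl⟩ := List.mem_map.1 ht
      rw [carrier_dirS] at h2 h3
      exact ⟨s', hs', t', ht', (cross_dir s' t').1 h1, h2, h3⟩
    · rintro ⟨s, hs, t, ht, h1, h2, h3⟩
      exact ⟨dirS s, List.mem_map.2 ⟨s, hs, rfl⟩, dirS t, List.mem_map.2 ⟨t, ht, rfl⟩,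
        (cross_dir s t).2 h1, by rw [carrier_dirS]; exact h2, by rw [carrier_dirS]; exact h3⟩

/-- all segments nondegenerate: then the directed segments are directed -/
theorem dir_lex {Γ : List Seg} (h : ∀ s ∈ Γ, s.1 ≠ s.2) : ∀ s ∈ Γ.map dirS, lexlt s.1 s.2 := by
  intro s hs
  obtain ⟨s', hs', rfl⟩ := List.mem_map.1 hs
  exact dirS_lt (h s' hs')

/-- the directed edges with the face on the left -/
def sideSet (S : Finset Seg) (x : ℂ) : Set (ℂ × ℂ) := {e | IsSide S (face S x) e.1 e.2}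

theorem sideSet_dir (Γ : List Seg) (x : ℂ) :
    sideSet (Γ.map dirS).toFinset x = sideSet Γ.toFinset x := by
  have hU := U_dir Γ
  have hV := Vert_dir Γ
  have hf : face (Γ.map dirS).toFinset x = face Γ.toFinset x := by unfold face; rw [hU]
  have hd : ∀ p q, IsDEdge (Γ.map dirS).toFinset p q ↔ IsDEdge Γ.toFinset p q := fun p q =>
    ⟨fun e => ⟨e.ne, hV ▸ e.pV, hV ▸ e.qV, hU ▸ e.sub, hV ▸ e.free⟩,
      fun e => ⟨e.ne, hV.symm ▸ e.pV, hV.symm ▸ e.qV, hU.symm ▸ e.sub, hV.symm ▸ e.free⟩⟩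
  ext e
  simp only [sideSet, Set.mem_ofPred_eq, IsSide, hf, hd]

/-- the edges: finitely many; nonempty if there is a segment -/
theorem sides_facts {S : List Seg} (hS : ∀ s ∈ S, s.1 ≠ s.2) {x : ℂ} (hx : x ∉ U S.toFinset) :
    (sideSet S.toFinset x).Finite ∧ (S ≠ [] → (sideSet S.toFinset x).Nonempty) := by
  have hB := alg_correct S hS x hx 0 []
  set W := algL 0 (pre S) x [] with hW
  have hmem : ∀ e : ℂ × ℂ, e ∈ sideSet S.toFinset x ↔ e ∈ W.flatMap cyc := fun e =>
    (hB.sides e.1 e.2).symm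
  have heq : sideSet S.toFinset x = {e | e ∈ W.flatMap cyc} := by
    ext e; exact hmem e
  refine ⟨?_, fun hne => ?_⟩
  · rw [heq]; exact List.finite_toSet _
  · obtain ⟨s, hs⟩ := List.exists_mem_of_ne_nil S hne
    have h1 : s.1 ∈ U S.toFinset := by
      simp only [U, Set.mem_iUnion]
      exact ⟨s, List.mem_toFinset.2 hs, left_mem_segment ℝ _ _⟩
    have h2 : (face S.toFinset x).Nonempty := ⟨x, mem_connectedComponentIn hx⟩
    have h3 : face S.toFinset x ≠ Set.univ := by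
      intro h
      have : s.1 ∈ face S.toFinset x := by rw [h]; trivial
      exact connectedComponentIn_subset _ _ this h1
    obtain ⟨z, hz⟩ := nonempty_frontier_iff.2 ⟨h2, h3⟩
    obtain ⟨a, ha, -⟩ := hB.cover z hz
    exact ⟨a, (hmem a).2 ha⟩

theorem sides_le {S : List Seg} (hS : ∀ s ∈ S, s.1 ≠ s.2) {x : ℂ} (hx : x ∉ U S.toFinset) :
    (sideSet S.toFinset x).ncard ≤ 2 * hNum S.toFinset x := by
  obtain ⟨hfin, -⟩ := sides_facts hS hx
  have himg : {e : Sym2 ℂ | ∃ p q, IsSide S.toFinset (face S.toFinset x) p q ∧ e = s(p, q)} =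
      (fun e : ℂ × ℂ => s(e.1, e.2)) '' sideSet S.toFinset x := by
    ext e
    constructor
    · rintro ⟨p, q, h1, h2⟩
      exact ⟨(p, q), h1, h2.symm⟩
    · rintro ⟨⟨p, q⟩, h1, h2⟩
      exact ⟨p, q, h1, h2.symm⟩
  unfold hNum
  rw [himg]
  have h1 := Set.ncard_eq_toFinset_card _ hfin
  have h2 := Set.ncard_eq_toFinset_card _ (hfin.image (fun e : ℂ × ℂ => s(e.1, e.2)))
  rw [h1, h2]
  have h3 : (hfin.image (fun e : ℂ × ℂ => s(e.1, e.2))).toFinset =
      hfin.toFinset.image (fun e : ℂ × ℂ => s(e.1, e.2)) := by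
    ext e
    simp
  rw [h3]
  refine Finset.card_le_mul_card_image (f := fun e : ℂ × ℂ => s(e.1, e.2)) hfin.toFinset 2 ?_
  intro e he
  induction e using Sym2.ind with
  | h p q =>
    have : ({a ∈ hfin.toFinset | s(a.1, a.2) = s(p, q)} : Finset (ℂ × ℂ)) ⊆
        {(p, q), (q, p)} := by
      intro a ha
      rw [Finset.mem_filter] at ha
      rw [Finset.mem_insert, Finset.mem_singleton]
      rcases Sym2.eq_iff.1 ha.2 with ⟨h1, h2⟩ | ⟨h1, h2⟩
      · left; exact Prod.ext h1 h2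
      · right; exact Prod.ext h1 h2
    exact (Finset.card_le_card this).trans Finset.card_le_two

theorem hNum_pos {S : List Seg} (hS : ∀ s ∈ S, s.1 ≠ s.2) {x : ℂ} (hx : x ∉ U S.toFinset)
    (hne : S ≠ []) : 1 ≤ hNum S.toFinset x := by
  obtain ⟨hfin, h1⟩ := sides_facts hS hx
  have h2 : 0 < (sideSet S.toFinset x).ncard := (Set.ncard_pos hfin).2 (h1 hne)
  have h3 := sides_le hS hx
  omega

end SQ
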