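import Pool.Agent.Lib.SQ.Q
import Pool.Agent.Lib.SFA.RAlg
import Pool.Agent.Lib.SFA.RG1

/-!
# SQ.Phase: the complete algorithm (Q2 of MP_7b5a71)

Phase `i` has the parameter `g = 2 ^ i`.  If `20000 g ≤ ⌈log₂ n⌉`, the search structures are built
with the sampling rate `2 ^ (-g)` and `3072 g` rounds, and the face is explored with at most `2 ^ g`
steps; if the exploration ends, the boundary is computed from the witnesses.  If
`20000 g > ⌈log₂ n⌉`, the whole face is computed by the `O(n log n)` algorithm.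
-/

namespace SQ

open SFA Classical P7m

noncomputable section

/-- the input data: the directed segments, the marked point, `n`, `⌈log₂ n⌉` -/
abbrev Inp := List Seg × ℂ × ℕ × ℕ

/-- the input data of a list of segments and a point -/
def inpOf (Γ : List Seg) (x : ℂ) : Inp := (Γ.map dirS, x, Γ.length, lvl Γ.length)

/-- the oracle data for the list `S` -/
def strOf (ℓ g : ℕ) (S : List Seg) (w : List Bool) : Dat :=
  (lam S, mkStr ℓ g (3072 * g) (elts S) w)

/-- the exploration with parameter `g` -/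
def expl (ℓ g : ℕ) (S : List Seg) (x : ℂ) (w : List Bool) : List Cell × List Cell :=
  exploreO (orcD (strOf ℓ g S w)) (orcD (strOf ℓ g (S.map negS) w)) x (2 ^ g)

/-- the output of the algorithm of Q1 without random bits, for the witnesses -/
def finish (x : ℂ) (st : List Cell × List Cell) : Option (List (ℕ ⊕ ℝ)) :=
  if st.2.isEmpty then some (encOut (algL 0 (pre (wit st.1)) x [])) else none

/-- number of random bits of phase `a.1` -/
def nbP (a : ℕ × Inp) : ℕ :=
  if 20000 * 2 ^ a.1 ≤ a.2.2.2.2 then nBits a.2.2.2.2 (2 ^ a.1) (3072 * 2 ^ a.1) a.2.2.2.1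
  else 2 * a.2.2.2.1 * lvl (2 * a.2.2.2.1)

/-- one phase -/
def phP (a : (ℕ × Inp) × List Bool) : Option (List (ℕ ⊕ ℝ)) :=
  if 20000 * 2 ^ a.1.1 ≤ a.1.2.2.2.2 then
    finish a.1.2.2.1 (expl a.1.2.2.2.2 (2 ^ a.1.1) a.1.2.1 a.1.2.2.1 a.2)
  else some (encOut (algL (lvl (2 * a.1.2.2.2.1)) (pre a.1.2.1) a.1.2.2.1 a.2))

/-- bound for the number of phases -/
def IrP (a : Inp) : ℕ := a.2.2.2 + 2

end

end SQ
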