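import Pool.Agent.Lib.SQ.RD
import Pool.Agent.Lib.SFA.RAssign

/-!
# SQ.RBld (package R, owner helper8): cost of the construction of the search structure

`rc_mkStr`: `mkStr ℓ g r l w` is computed with cost
`|l| * (g + 1) + r * (ℓ + |l| + 1) + 8 ^ r` (`ℓ`, `g`, `r`, `l`, `w` given).
-/

namespace SQ

open P7m SFA Classical

noncomputable section

variable {A B C D V : Type} [Enc A] [Enc B] [Enc C] [Enc D] [Enc V]

private theorem pc {f : A → B} (hf : SFA.CT f) {g : C → A} (hg : SFA.CT g) :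
    SFA.CT (fun c => f (g c)) := SFA.CT.comp hf hg

private theorem sum_map_le {X : Type} (l : List X) (f : X → ℕ) (K : ℕ)
    (h : ∀ x ∈ l, f x ≤ K) : (l.map f).sum ≤ K * l.length := by
  induction l with
  | nil => simp
  | cons x t ih =>
    rw [List.map_cons, List.sum_cons, List.length_cons]
    have h1 := h x (by simp)
    have h2 := ih (fun y hy => h y (by simp [hy]))
    have h3 : K * (t.length + 1) = K * t.length + K := by ring
    omega

/-- take -/
theorem RC.take {n : A → ℕ} {l : A → List B} {cn cl : A → ℕ} (hn : P7m.RC n cn)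
    (hl : P7m.RC l cl) : P7m.RC (fun a => (l a).take (n a)) (fun a => cn a + cl a + n a) := by
  have hs : SFA.CT (fun p : A × List B × List B =>
      (p.2.1.head?).elim p.2 (fun x => (p.2.1.tail, x :: p.2.2))) :=
    SFA.CT.elim (s := fun (p : A × List B × List B) x => (p.2.1.tail, x :: p.2.2))
      (P7m.RC.head? (SFA.CT.fst (SFA.CT.snd SFA.CT.id))) (SFA.CT.snd SFA.CT.id)
      (SFA.CT.pair (P7m.RC.tail (SFA.CT.fst (SFA.CT.snd (SFA.CT.fst SFA.CT.id))))
        (CT.cons (SFA.CT.snd SFA.CT.id) (SFA.CT.snd (SFA.CT.snd (SFA.CT.fst SFA.CT.id)))))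
  have h := P7m.RC.reverse (P7m.RC.snd (P7m.RC.iterate
    (f := fun (_ : A) (s : List B × List B) =>
      (s.1.head?).elim s (fun x => (s.1.tail, x :: s.2)))
    (b := fun a => (l a, ([] : List B))) hn (P7m.RC.pair hl P7m.RC.nil) hs))
  have e : ∀ (n : ℕ) (l r : List B), (fun (s : List B × List B) =>
      (s.1.head?).elim s (fun x => (s.1.tail, x :: s.2)))^[n] (l, r) =
      (l.drop n, (l.take n).reverse ++ r) := by
    intro n
    induction n with
    | zero => intro l r; simp
    | succ n ih =>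
      intro l r
      rw [Function.iterate_succ_apply]
      cases l with
      | nil => simpa using ih [] r
      | cons x t =>
        have := ih t (x :: r)
        simpa using this
  refine (h.mono 2 (fun a => ?_)).congr (fun a => ?_)
  · have h1 := iterCost_le_const (fun (s : List B × List B) =>
      (s.1.head?).elim s (fun x => (s.1.tail, x :: s.2))) (fun _ => 0) 0 (n a) (l a, [])
      (fun s => le_refl _)
    rw [e]
    simp only [List.append_nil, List.length_reverse, List.length_take, zero_add,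
      one_mul] at h1 ⊢
    omega
  · rw [e]; simp

theorem RC.clog {n : A → ℕ} {cn : A → ℕ} (hn : P7m.RC n cn) :
    P7m.RC (fun a => Nat.clog 2 (n a)) (fun a => cn a + n a) :=
  P7m.RC.comp (g := fun N : ℕ => lvl N) rc_lvl hn

theorem RC.bn {w : A → List Bool} {cw : A → ℕ} (hw : P7m.RC w cw) :
    P7m.RC (fun a => bn (w a)) (fun a => cw a + (w a).length) := by
  unfold SQ.bn
  have hb : SFA.CT (fun p : A × ℕ × Bool => if p.2.2 then 1 else 0) :=
    SFA.CT.cond (SFA.CT.snd (SFA.CT.snd SFA.CT.id)) (CT.nat 1) (CT.nat 0)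
  have ha : SFA.CT (fun p : A × ℕ × Bool => p.2.1) := SFA.CT.fst (SFA.CT.snd SFA.CT.id)
  refine (P7m.RC.foldl (f := fun (_ : A) (a : ℕ) (b : Bool) => a + a + if b then 1 else 0)
    (b := fun _ => 0) (cf := fun _ => 0) hw (CT.nat 0)
    (P7m.RC.nadd (P7m.RC.nadd ha ha) hb)).of_le (fun a => ?_)
  have h1 := foldCost_le_const (fun (a : ℕ) (b : Bool) => a + a + if b then 1 else 0)
    (fun _ _ => 0) 0 (w a) 0 (fun _ _ _ => le_refl _)
  simp only [zero_add, one_mul] at h1 ⊢
  omega

theorem bn_ltR (w : List Bool) : bn w + 1 ≤ 2 ^ w.length := by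
  have key : ∀ (w : List Bool) (a : ℕ),
      w.foldl (fun a b => a + a + if b then 1 else 0) a + 1 ≤ (a + 1) * 2 ^ w.length := by
    intro w
    induction w with
    | nil => intro a; simp
    | cons b t ih =>
      intro a
      rw [List.foldl_cons, List.length_cons]
      refine (ih _).trans ?_
      rw [pow_succ, ← mul_assoc, mul_right_comm]
      refine Nat.mul_le_mul_right _ ?_
      cases b <;> simp <;> omega
  have := key w 0
  rw [zero_add, one_mul] at this
  exact this

theorem two_pow_clog_le (n : ℕ) : 2 ^ Nat.clog 2 n ≤ 2 * n + 1 := by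
  rcases Nat.lt_or_ge 1 n with h | h
  · have h1 := Nat.pow_pred_clog_lt_self (b := 2) (by norm_num) h
    have h2 : 0 < Nat.clog 2 n := Nat.clog_pos (by norm_num) h
    have h3 : 2 ^ Nat.clog 2 n = 2 ^ (Nat.clog 2 n).pred * 2 := by
      conv_lhs => rw [← Nat.succ_pred_eq_of_pos h2]
      rw [pow_succ]
    omega
  · have : Nat.clog 2 n = 0 := Nat.clog_of_right_le_one h 2
    rw [this]; simp

theorem rc_pickL {w : A → List Bool} {l : A → List El} (hw : SFA.CT w) (hl : SFA.CT l) :
    P7m.RC (fun a => pickL (w a) (l a)) (fun a => (l a).length) := by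
  unfold pickL
  have h1 := RC.clog (P7m.RC.length hl)
  have h2 := RC.bn (RC.take h1 hw)
  have h3 := P7m.RC.head? (P7m.RC.drop h2 hl)
  refine h3.mono 10 (fun a => ?_)
  have e1 : Nat.clog 2 (l a).length ≤ (l a).length :=
    Nat.clog_le_of_le_pow Nat.lt_two_pow_self.le
  have e2 := bn_ltR ((w a).take (Nat.clog 2 (l a).length))
  have e3 : 2 ^ ((w a).take (Nat.clog 2 (l a).length)).length ≤
      2 ^ Nat.clog 2 (l a).length :=
    Nat.pow_le_pow_right (by norm_num) (by rw [List.length_take]; omega)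
  have e4 := two_pow_clog_le (l a).length
  have e5 : ((w a).take (Nat.clog 2 (l a).length)).length ≤ Nat.clog 2 (l a).length := by
    rw [List.length_take]; omega
  try simp only at e1 e2 e3 e4 e5 ⊢
  omega

/-- total number of elements of a list of classes -/
def tot (cs : List Cls) : ℕ := (cs.map (fun C => C.2.length)).sum

@[simp] theorem tot_nil : tot [] = 0 := rfl
@[simp] theorem tot_cons (C : Cls) (cs : List Cls) : tot (C :: cs) = C.2.length + tot cs := by
  simp [tot]
theorem tot_append (cs ds : List Cls) : tot (cs ++ ds) = tot cs + tot ds := by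
  simp [tot]

private theorem filter_len {X : Type} (l : List X) (p : X → Bool) :
    (l.filter p).length + (l.filter (fun x => !(p x))).length = l.length := by
  induction l with
  | nil => rfl
  | cons x t ih =>
    cases h : p x <;> simp [h] <;> omega

theorem splitC_length (j : ℕ) (w1 w2 w3 : List Bool) (K : Cls) :
    (splitC j w1 w2 w3 K).length ≤ 2 := by
  unfold splitC
  rcases pickL w1 K.2 with _ | b
  · simp
  rcases pickL w2 K.2 with _ | l
  · simp
  rcases pickL w3 K.2 with _ | r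
  · simp
  simp

theorem tot_splitC (j : ℕ) (w1 w2 w3 : List Bool) (K : Cls) :
    tot (splitC j w1 w2 w3 K) = K.2.length := by
  unfold splitC
  rcases pickL w1 K.2 with _ | b
  · simp
  rcases pickL w2 K.2 with _ | l
  · simp
  rcases pickL w3 K.2 with _ | r
  · simp
  simp only [Option.elim_some, tot_cons, tot_nil, add_zero]
  exact filter_len K.2 _

theorem subR_length (ℓ j : ℕ) (w : List Bool) (cs : List Cls) :
    (subR ℓ j w cs).length ≤ 2 * cs.length := by
  unfold subR
  induction cs with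
  | nil => simp
  | cons K t ih =>
    rw [List.flatMap_cons, List.length_append, List.length_cons]
    have := splitC_length j w (w.drop ℓ) ((w.drop ℓ).drop ℓ) K
    omega

theorem tot_subR (ℓ j : ℕ) (w : List Bool) (cs : List Cls) :
    tot (subR ℓ j w cs) = tot cs := by
  unfold subR
  induction cs with
  | nil => simp
  | cons K t ih =>
    rw [List.flatMap_cons, tot_append, tot_cons, ih, tot_splitC]

theorem roundC_length (ℓ : ℕ) (w : List Bool) (cs : List Cls) :
    (roundC ℓ w cs).length ≤ 8 * cs.length := by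
  unfold roundC
  have h1 := subR_length ℓ 2 (w.drop (6 * ℓ)) (subR ℓ 1 (w.drop (3 * ℓ)) (subR ℓ 0 w cs))
  have h2 := subR_length ℓ 1 (w.drop (3 * ℓ)) (subR ℓ 0 w cs)
  have h3 := subR_length ℓ 0 w cs
  omega

theorem tot_roundC (ℓ : ℕ) (w : List Bool) (cs : List Cls) :
    tot (roundC ℓ w cs) = tot cs := by
  unfold roundC
  rw [tot_subR, tot_subR, tot_subR]

/-- split of one class -/
theorem rc_splitC {j : A → ℕ} {w1 w2 w3 : A → List Bool} {K : A → Cls} (hj : SFA.CT j)
    (h1 : SFA.CT w1) (h2 : SFA.CT w2) (h3 : SFA.CT w3) (hK : SFA.CT K) :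
    P7m.RC (fun a => splitC (j a) (w1 a) (w2 a) (w3 a) (K a)) (fun a => (K a).2.length) := by
  have hK1 : SFA.CT (fun p : A × Option El × Option El × Option El => K p.1) :=
    pc hK (SFA.CT.fst SFA.CT.id)
  -- the three picks first
  have hp : P7m.RC (fun a => (a, pickL (w1 a) (K a).2, pickL (w2 a) (K a).2,
      pickL (w3 a) (K a).2)) (fun a => 3 * (K a).2.length) :=
    (P7m.RC.pair SFA.CT.id (P7m.RC.pair (rc_pickL h1 (SFA.CT.snd hK))
      (P7m.RC.pair (rc_pickL h2 (SFA.CT.snd hK)) (rc_pickL h3 (SFA.CT.snd hK))))).of_le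
      (fun a => by (try simp only); omega)
  have hX : ∀ {X : Type} [Enc X] {f : X → A} (_ : SFA.CT f),
      SFA.CT (fun x => [K (f x)]) := fun hf => CT.singleton (pc hK hf)
  -- the certificate and the two filters
  have hE : P7m.RC (fun q : (((A × Option El × Option El × Option El) × El) × El) × El =>
      ([((j q.1.1.1.1, pt (j q.1.1.1.1) q.1.1.2, pt (j q.1.1.1.1) q.1.2, pt (j q.1.1.1.1) q.2)
          :: (K q.1.1.1.1).1,
        (K q.1.1.1.1).2.filter (fun e => inC (j q.1.1.1.1, pt (j q.1.1.1.1) q.1.1.2,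
          pt (j q.1.1.1.1) q.1.2, pt (j q.1.1.1.1) q.2) e)),
      ((K q.1.1.1.1).1, (K q.1.1.1.1).2.filter (fun e => !(inC (j q.1.1.1.1,
        pt (j q.1.1.1.1) q.1.1.2, pt (j q.1.1.1.1) q.1.2, pt (j q.1.1.1.1) q.2) e)))] :
        List Cls)) (fun q => (K q.1.1.1.1).2.length) := by
    have ha : SFA.CT (fun q : (((A × Option El × Option El × Option El) × El) × El) × El =>
        q.1.1.1.1) := SFA.CT.fst (SFA.CT.fst (SFA.CT.fst (SFA.CT.fst SFA.CT.id)))
    have hj' := pc hj ha
    have hK' := pc hK ha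
    have hb : SFA.CT (fun q : (((A × Option El × Option El × Option El) × El) × El) × El =>
        q.1.1.2) := SFA.CT.snd (SFA.CT.fst (SFA.CT.fst SFA.CT.id))
    have hl : SFA.CT (fun q : (((A × Option El × Option El × Option El) × El) × El) × El =>
        q.1.2) := SFA.CT.snd (SFA.CT.fst SFA.CT.id)
    have hr : SFA.CT (fun q : (((A × Option El × Option El × Option El) × El) × El) × El =>
        q.2) := SFA.CT.snd SFA.CT.id
    have hc : SFA.CT (fun q : (((A × Option El × Option El × Option El) × El) × El) × El =>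
        ((j q.1.1.1.1, pt (j q.1.1.1.1) q.1.1.2, pt (j q.1.1.1.1) q.1.2,
          pt (j q.1.1.1.1) q.2) : Cert)) :=
      SFA.CT.pair hj' (SFA.CT.pair (CT.pt hj' hb) (SFA.CT.pair (CT.pt hj' hl) (CT.pt hj' hr)))
    have hin := CT.inC (pc hc (SFA.CT.fst SFA.CT.id)) (SFA.CT.snd (A :=
      ((((A × Option El × Option El × Option El) × El) × El) × El) × El) SFA.CT.id)
    have f1 := P7m.RC.filter (p := fun (q : (((A × Option El × Option El × Option El) × El)
      × El) × El) e => inC (j q.1.1.1.1, pt (j q.1.1.1.1) q.1.1.2, pt (j q.1.1.1.1) q.1.2,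
          pt (j q.1.1.1.1) q.2) e) (SFA.CT.snd hK') hin
    have f2 := P7m.RC.filter (p := fun (q : (((A × Option El × Option El × Option El) × El)
      × El) × El) e => !(inC (j q.1.1.1.1, pt (j q.1.1.1.1) q.1.1.2, pt (j q.1.1.1.1) q.1.2,
          pt (j q.1.1.1.1) q.2) e)) (SFA.CT.snd hK') (SFA.CT.not hin)
    refine (P7m.RC.cons (P7m.RC.pair (CT.cons hc (SFA.CT.fst hK')) f1)
      (P7m.RC.singleton (P7m.RC.pair (SFA.CT.fst hK') f2))).mono 2 (fun q => ?_)
    have h4 := sum_map_le (K q.1.1.1.1).2 (fun _ => 0 + 1) 1 (fun _ _ => by simp)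
    try simp only at h4 ⊢
    omega
  have hC : P7m.RC (fun q : ((A × Option El × Option El × Option El) × El) × El =>
      (q.1.1.2.2.2).elim [K q.1.1.1] (fun r =>
      ([((j q.1.1.1, pt (j q.1.1.1) q.1.2, pt (j q.1.1.1) q.2, pt (j q.1.1.1) r)
          :: (K q.1.1.1).1,
        (K q.1.1.1).2.filter (fun e => inC (j q.1.1.1, pt (j q.1.1.1) q.1.2,
          pt (j q.1.1.1) q.2, pt (j q.1.1.1) r) e)),
      ((K q.1.1.1).1, (K q.1.1.1).2.filter (fun e => !(inC (j q.1.1.1,
        pt (j q.1.1.1) q.1.2, pt (j q.1.1.1) q.2, pt (j q.1.1.1) r) e)))] :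
        List Cls))) (fun q => (K q.1.1.1).2.length) :=
    (P7m.RC.optionElim (SFA.CT.snd (SFA.CT.snd (SFA.CT.snd (SFA.CT.fst (SFA.CT.fst
      SFA.CT.id))))) (hX (SFA.CT.fst (SFA.CT.fst (SFA.CT.fst SFA.CT.id)))) hE).of_le
      (fun q => by rcases q.1.1.2.2.2 with _ | r <;> simp)
  have hB : P7m.RC (fun q : (A × Option El × Option El × Option El) × El =>
      (q.1.2.2.1).elim [K q.1.1] (fun l => (q.1.2.2.2).elim [K q.1.1] (fun r =>
      ([((j q.1.1, pt (j q.1.1) q.2, pt (j q.1.1) l, pt (j q.1.1) r)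
          :: (K q.1.1).1,
        (K q.1.1).2.filter (fun e => inC (j q.1.1, pt (j q.1.1) q.2,
          pt (j q.1.1) l, pt (j q.1.1) r) e)),
      ((K q.1.1).1, (K q.1.1).2.filter (fun e => !(inC (j q.1.1,
        pt (j q.1.1) q.2, pt (j q.1.1) l, pt (j q.1.1) r) e)))] :
        List Cls)))) (fun q => (K q.1.1).2.length) :=
    (P7m.RC.optionElim (SFA.CT.fst (SFA.CT.snd (SFA.CT.snd (SFA.CT.fst SFA.CT.id))))
      (hX (SFA.CT.fst (SFA.CT.fst SFA.CT.id))) hC).of_le
      (fun q => by rcases q.1.2.2.1 with _ | r <;> simp)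
  have hA : P7m.RC (fun q : A × Option El × Option El × Option El =>
      (q.2.1).elim [K q.1] (fun b => (q.2.2.1).elim [K q.1] (fun l => (q.2.2.2).elim [K q.1]
      (fun r =>
      ([((j q.1, pt (j q.1) b, pt (j q.1) l, pt (j q.1) r)
          :: (K q.1).1,
        (K q.1).2.filter (fun e => inC (j q.1, pt (j q.1) b,
          pt (j q.1) l, pt (j q.1) r) e)),
      ((K q.1).1, (K q.1).2.filter (fun e => !(inC (j q.1,
        pt (j q.1) b, pt (j q.1) l, pt (j q.1) r) e)))] :
        List Cls))))) (fun q => (K q.1).2.length) :=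
    (P7m.RC.optionElim (SFA.CT.fst (SFA.CT.snd SFA.CT.id))
      (hX (SFA.CT.fst SFA.CT.id)) hB).of_le
      (fun q => by rcases q.2.1 with _ | r <;> simp)
  exact (P7m.RC.comp hA hp).mono 4 (fun a => by (try simp only); omega)

theorem rc_subR : P7m.RC (fun q : ℕ × ℕ × List Bool × List Cls =>
    subR q.1 q.2.1 q.2.2.1 q.2.2.2) (fun q => q.1 + tot q.2.2.2 + q.2.2.2.length) := by
  unfold subR
  -- context: (j, w, w', w'', cs)
  have h1 : P7m.RC (fun q : ℕ × ℕ × List Bool × List Cls =>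
      (q.2.1, q.2.2.1, q.2.2.1.drop q.1, (q.2.2.1.drop q.1).drop q.1, q.2.2.2))
      (fun q => 3 * q.1) := by
    have hw : SFA.CT (fun q : ℕ × ℕ × List Bool × List Cls => q.2.2.1) :=
      SFA.CT.fst (SFA.CT.snd (SFA.CT.snd SFA.CT.id))
    have hn : SFA.CT (fun q : ℕ × ℕ × List Bool × List Cls => q.1) := SFA.CT.fst SFA.CT.id
    have hd := P7m.RC.drop hn hw
    have hd2 := P7m.RC.drop hn hd
    refine (P7m.RC.pair (SFA.CT.fst (SFA.CT.snd SFA.CT.id)) (P7m.RC.pair hw (P7m.RC.pair hd
      (P7m.RC.pair hd2 (SFA.CT.snd (SFA.CT.snd (SFA.CT.snd SFA.CT.id))))))).of_le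
      (fun q => ?_)
    try simp only
    omega
  have hs := rc_splitC (A := (ℕ × List Bool × List Bool × List Bool × List Cls) × Cls)
    (j := fun p => p.1.1) (w1 := fun p => p.1.2.1) (w2 := fun p => p.1.2.2.1)
    (w3 := fun p => p.1.2.2.2.1) (K := fun p => p.2)
    (SFA.CT.fst (SFA.CT.fst SFA.CT.id)) (SFA.CT.fst (SFA.CT.snd (SFA.CT.fst SFA.CT.id)))
    (SFA.CT.fst (SFA.CT.snd (SFA.CT.snd (SFA.CT.fst SFA.CT.id))))
    (SFA.CT.fst (SFA.CT.snd (SFA.CT.snd (SFA.CT.snd (SFA.CT.fst SFA.CT.id)))))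
    (SFA.CT.snd SFA.CT.id)
  have h2 := P7m.RC.flatMap (l := fun q : ℕ × List Bool × List Bool × List Bool × List Cls =>
    q.2.2.2.2) (f := fun q K => splitC q.1 q.2.1 q.2.2.1 q.2.2.2.1 K)
    (SFA.CT.snd (SFA.CT.snd (SFA.CT.snd (SFA.CT.snd SFA.CT.id)))) hs
  refine (P7m.RC.comp (g := fun q : ℕ × List Bool × List Bool × List Bool × List Cls =>
    q.2.2.2.2.flatMap (fun K => splitC q.1 q.2.1 q.2.2.1 q.2.2.2.1 K)) h2 h1).mono 3
    (fun q => ?_)
  obtain ⟨ℓ, j, w, cs⟩ := q
  simp only [zero_add]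
  have key : ((cs.map (fun x => x.2.length +
      (splitC j w (w.drop ℓ) ((w.drop ℓ).drop ℓ) x).length + 1)).sum) ≤
      tot cs + 3 * cs.length := by
    induction cs with
    | nil => simp
    | cons K t ih =>
      rw [List.map_cons, List.sum_cons, tot_cons, List.length_cons]
      have := splitC_length j w (w.drop ℓ) ((w.drop ℓ).drop ℓ) K
      omega
  omega

theorem RC.subR {ℓ j : A → ℕ} {w : A → List Bool} {cs : A → List Cls} {cw cc : A → ℕ}
    (hℓ : SFA.CT ℓ) (hj : SFA.CT j) (hw : P7m.RC w cw) (hc : P7m.RC cs cc) :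
    P7m.RC (fun a => subR (ℓ a) (j a) (w a) (cs a))
      (fun a => cw a + cc a + (ℓ a + tot (cs a) + (cs a).length)) :=
  (P7m.RC.comp (g := fun q : ℕ × ℕ × List Bool × List Cls => SQ.subR q.1 q.2.1 q.2.2.1
    q.2.2.2) rc_subR (P7m.RC.pair hℓ (P7m.RC.pair hj (P7m.RC.pair hw hc)))).of_le
    (fun a => by (try simp only); omega)

theorem rc_roundC {ℓ : A → ℕ} {w : A → List Bool} {cs : A → List Cls}
    (hℓ : SFA.CT ℓ) (hw : SFA.CT w) (hc : SFA.CT cs) :
    P7m.RC (fun a => roundC (ℓ a) (w a) (cs a))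
      (fun a => ℓ a + tot (cs a) + (cs a).length) := by
  unfold roundC
  have h1 := RC.subR hℓ (CT.nat 0) hw hc
  have d3 := P7m.RC.drop (P7m.RC.nmulConst 3 hℓ) hw
  have d6 := P7m.RC.drop (P7m.RC.nmulConst 6 hℓ) hw
  have h2 := RC.subR hℓ (CT.nat 1) d3 h1
  have h3 := RC.subR hℓ (CT.nat 2) d6 h2
  refine h3.mono 20 (fun a => ?_)
  have e1 := tot_subR (ℓ a) 0 (w a) (cs a)
  have e2 := subR_length (ℓ a) 0 (w a) (cs a)
  have e3 := tot_subR (ℓ a) 1 ((w a).drop (3 * ℓ a)) (SQ.subR (ℓ a) 0 (w a) (cs a))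
  have e4 := subR_length (ℓ a) 1 ((w a).drop (3 * ℓ a)) (SQ.subR (ℓ a) 0 (w a) (cs a))
  try simp only at e1 e2 e3 e4 ⊢
  omega

theorem rc_bstep {ℓ : A → ℕ} {s : A → List Bool × List Cls}
    (hℓ : SFA.CT ℓ) (hs : SFA.CT s) :
    P7m.RC (fun a => bstep (ℓ a) (s a)) (fun a => ℓ a + tot (s a).2 + (s a).2.length) := by
  unfold bstep
  refine (P7m.RC.pair (P7m.RC.drop (P7m.RC.nmulConst 9 hℓ) (SFA.CT.fst hs))
    (rc_roundC hℓ (SFA.CT.fst hs) (SFA.CT.snd hs))).mono 10 (fun a => ?_)
  try simp only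
  omega

theorem iterCost_build (ℓ k : ℕ) (s : List Bool × List Cls) :
    iterCost (bstep ℓ) (fun s => ℓ + tot s.2 + s.2.length) k s ≤
      k * (ℓ + tot s.2 + 1) + (8 ^ k - 1) * s.2.length := by
  induction k generalizing s with
  | zero => simp
  | succ k ih =>
    rw [iterCost_succ]
    have h1 := ih (bstep ℓ s)
    have h2 : tot (bstep ℓ s).2 = tot s.2 := tot_roundC _ _ _
    have h3 : (bstep ℓ s).2.length ≤ 8 * s.2.length := roundC_length _ _ _
    rw [h2] at h1
    have h4 : (8 ^ k - 1) * (bstep ℓ s).2.length ≤ (8 ^ k - 1) * (8 * s.2.length) :=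
      Nat.mul_le_mul_left _ h3
    have h5 : 8 ^ (k + 1) - 1 = 8 * (8 ^ k - 1) + 7 := by
      have : 1 ≤ 8 ^ k := Nat.one_le_pow _ _ (by norm_num)
      rw [pow_succ]; omega
    rw [h5]
    have h6 : (8 * (8 ^ k - 1) + 7) * s.2.length =
      (8 ^ k - 1) * (8 * s.2.length) + 7 * s.2.length := by ring
    have h7 : (k + 1) * (ℓ + tot s.2 + 1) = k * (ℓ + tot s.2 + 1) + (ℓ + tot s.2 + 1) := by
      ring
    omega

theorem rc_build {ℓ r : A → ℕ} {w : A → List Bool} {cs : A → List Cls} {cw cc cr : A → ℕ}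
    (hℓ : SFA.CT ℓ) (hr : P7m.RC r cr) (hw : P7m.RC w cw) (hc : P7m.RC cs cc) :
    P7m.RC (fun a => build (ℓ a) (r a) (w a) (cs a))
      (fun a => cr a + cw a + cc a + r a * (ℓ a + tot (cs a) + 1) +
        8 ^ (r a) * (cs a).length) := by
  unfold build
  refine (P7m.RC.snd (P7m.RC.iterate (f := fun a s => bstep (ℓ a) s) hr (P7m.RC.pair hw hc)
    (rc_bstep (pc hℓ (SFA.CT.fst SFA.CT.id)) (SFA.CT.snd SFA.CT.id)))).of_le (fun a => ?_)
  have h1 := iterCost_build (ℓ a) (r a) (w a, cs a)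
  have h2 : (8 ^ r a - 1) * (cs a).length ≤ 8 ^ r a * (cs a).length :=
    Nat.mul_le_mul_right _ (Nat.sub_le _ _)
  try simp only at h1 h2 ⊢
  have h3 : iterCost (fun s => bstep (ℓ a) s) (fun s => ℓ a + tot s.2 + s.2.length) (r a)
    (w a, cs a) = iterCost (bstep (ℓ a)) (fun s => ℓ a + tot s.2 + s.2.length) (r a)
    (w a, cs a) := rfl
  omega

/-! ### sample -/

theorem samp_length (g : ℕ) (l : List El) (w : List Bool) :
    (samp g l w).length ≤ l.length := by
  induction l generalizing w with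
  | nil => simp [samp]
  | cons e t ih =>
    unfold samp
    split_ifs
    · rw [List.length_cons, List.length_cons]
      have := ih (w.drop g)
      omega
    · rw [List.length_cons]
      have := ih (w.drop g)
      omega

/-- one step of the sampling -/
def sstep (g : ℕ) (s : List Bool × List El) (e : El) : List Bool × List El :=
  (s.1.drop g, if (s.1.take g).all (fun b => b) then e :: s.2 else s.2)

theorem sstep_fold (g : ℕ) (l : List El) (w : List Bool) (out : List El) :
    l.foldl (sstep g) (w, out) = (w.drop (g * l.length), (samp g l w).reverse ++ out) := by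
  induction l generalizing w out with
  | nil => simp [samp]
  | cons e t ih =>
    rw [List.foldl_cons]
    unfold sstep
    simp only
    have := ih (w.drop g) (if (w.take g).all (fun b => b) then e :: out else out)
    unfold sstep at this
    rw [this, List.drop_drop, List.length_cons]
    refine Prod.ext ?_ ?_
    · simp only
      congr 1
      ring
    · simp only [samp]
      split_ifs <;> simp

/-- the sample and the remaining bits -/
theorem rc_samp : P7m.RC (fun q : ℕ × List El × List Bool =>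
    (q.2.2.drop (q.1 * q.2.1.length), samp q.1 q.2.1 q.2.2))
    (fun q => q.2.1.length * (q.1 + 1)) := by
  have hg : SFA.CT (fun p : (ℕ × List El × List Bool) × (List Bool × List El) × El =>
      p.1.1) := SFA.CT.fst (SFA.CT.fst SFA.CT.id)
  have hw : SFA.CT (fun p : (ℕ × List El × List Bool) × (List Bool × List El) × El =>
      p.2.1.1) := SFA.CT.fst (SFA.CT.fst (SFA.CT.snd SFA.CT.id))
  have ho : SFA.CT (fun p : (ℕ × List El × List Bool) × (List Bool × List El) × El =>
      p.2.1.2) := SFA.CT.snd (SFA.CT.fst (SFA.CT.snd SFA.CT.id))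
  have he : SFA.CT (fun p : (ℕ × List El × List Bool) × (List Bool × List El) × El =>
      p.2.2) := SFA.CT.snd (SFA.CT.snd SFA.CT.id)
  have ht := RC.take hg hw
  have hall := P7m.RC.all (p := fun (_ : (ℕ × List El × List Bool) × (List Bool × List El)
    × El) (b : Bool) => b) ht (SFA.CT.snd SFA.CT.id)
  have hstep : P7m.RC (fun p : (ℕ × List El × List Bool) × (List Bool × List El) × El =>
      sstep p.1.1 p.2.1 p.2.2) (fun p => 3 * p.1.1) := by
    unfold sstep
    refine (P7m.RC.pair (P7m.RC.drop hg hw) (P7m.RC.cond hall (CT.cons he ho) ho)).of_le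
      (fun p => ?_)
    have h4 := sum_map_le (p.2.1.1.take p.1.1) (fun _ => 0 + 1) 1 (fun _ _ => by simp)
    have h5 : (p.2.1.1.take p.1.1).length ≤ p.1.1 := by rw [List.length_take]; omega
    try simp only at h4 h5 ⊢
    split_ifs <;> omega
  have hfold := P7m.RC.foldl (f := fun (q : ℕ × List El × List Bool) s e => sstep q.1 s e)
    (l := fun q : ℕ × List El × List Bool => q.2.1)
    (b := fun q => (q.2.2, ([] : List El))) (SFA.CT.fst (SFA.CT.snd SFA.CT.id))
    (SFA.CT.pair (SFA.CT.snd (SFA.CT.snd SFA.CT.id)) CT.nil) hstep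
  have h1 := P7m.RC.comp (g := fun s : List Bool × List El => (s.1, s.2.reverse))
    (P7m.RC.pair (SFA.CT.fst SFA.CT.id) (P7m.RC.reverse (SFA.CT.snd SFA.CT.id))) hfold
  refine (h1.mono 5 (fun q => ?_)).congr (fun q => ?_)
  · have h2 := foldCost_le_const (fun s e => sstep q.1 s e) (fun _ _ => 3 * q.1) (3 * q.1)
      q.2.1 (q.2.2, []) (fun _ _ _ => le_refl _)
    have h3 : (List.foldl (fun s e => sstep q.1 s e) (q.2.2, []) q.2.1).2.length ≤
        q.2.1.length := by
      have := sstep_fold q.1 q.2.1 q.2.2 []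
      have e : List.foldl (fun s e => sstep q.1 s e) (q.2.2, []) q.2.1 =
        List.foldl (sstep q.1) (q.2.2, []) q.2.1 := rfl
      rw [e, this]
      simpa using samp_length q.1 q.2.1 q.2.2
    have h4 : (3 * q.1 + 1) * q.2.1.length ≤ 3 * (q.2.1.length * (q.1 + 1)) := by
      nlinarith [Nat.zero_le (q.1 * q.2.1.length)]
    have h5 : q.2.1.length ≤ q.2.1.length * (q.1 + 1) := Nat.le_mul_of_pos_right _ (by omega)
    try simp only at h2 h3 ⊢
    omega
  · have := sstep_fold q.1 q.2.1 q.2.2 []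
    have e : List.foldl (fun s e => sstep q.1 s e) (q.2.2, []) q.2.1 =
      List.foldl (sstep q.1) (q.2.2, []) q.2.1 := rfl
    rw [e, this]
    simp

/-- **cost of the construction of the search structure** -/
theorem rc_mkStr {ℓ g r : A → ℕ} {l : A → List El} {w : A → List Bool} {cr cl : A → ℕ}
    (hℓ : SFA.CT ℓ) (hg : SFA.CT g) (hr : P7m.RC r cr) (hl : P7m.RC l cl) (hw : SFA.CT w) :
    P7m.RC (fun a => mkStr (ℓ a) (g a) (r a) (l a) (w a))
      (fun a => cr a + cl a + (l a).length * (g a + 1) +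
        r a * (ℓ a + (l a).length + 1) + 8 ^ (r a)) := by
  unfold mkStr
  have h1 := P7m.RC.comp (g := fun q : ℕ × List El × List Bool =>
    (q.2.2.drop (q.1 * q.2.1.length), samp q.1 q.2.1 q.2.2)) rc_samp
    (P7m.RC.pair hg (P7m.RC.pair hl hw))
  have h2 := rc_build (ℓ := fun p : ℕ × ℕ × List El × (List Bool × List El) => p.1)
    (r := fun p => p.2.1) (w := fun p => p.2.2.2.1)
    (cs := fun p => [(([] : List Cert), p.2.2.1)]) (SFA.CT.fst SFA.CT.id)
    (SFA.CT.fst (SFA.CT.snd SFA.CT.id))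
    (SFA.CT.fst (SFA.CT.snd (SFA.CT.snd (SFA.CT.snd SFA.CT.id))))
    (CT.singleton (SFA.CT.pair CT.nil (SFA.CT.fst (SFA.CT.snd (SFA.CT.snd SFA.CT.id)))))
  have h3 := P7m.RC.comp (g := fun p : ℕ × ℕ × List El × (List Bool × List El) =>
    (build p.1 p.2.1 p.2.2.2.1 [(([] : List Cert), p.2.2.1)], p.2.2.2.2))
    (P7m.RC.pair h2 (SFA.CT.snd (SFA.CT.snd (SFA.CT.snd (SFA.CT.snd SFA.CT.id)))))
    (P7m.RC.pair hℓ (P7m.RC.pair hr (P7m.RC.pair hl h1)))
  refine (h3.mono 3 (fun a => ?_)).congr (fun a => by simp [Nat.mul_comm])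
  simp only [tot_cons, tot_nil, add_zero, List.length_singleton, mul_one]
  generalize 8 ^ r a = X
  omega

end

end SQ
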