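import Pool.Agent.Lib.SQ.RQ
import Pool.Agent.Lib.SQ.RBld
import Pool.Agent.Lib.SQ.Phase
import Pool.Agent.Lib.SFA.Fin1

/-!
# SQ.RPh (package R, owner helper8): cost of one phase of the algorithm

* `rc_strOf` (cost `strCost`), `rc_expl` (cost `explCost`), `rc_finish` (cost `finCost`),
* `rc_nbP` (cost `2 ^ i + n`), `rc_phP` (cost `cP`), `rc_IrP`, `rc_inp` (input data from the tape).
-/

namespace SQ

open P7m SFA Classical

noncomputable section

variable {A B C D X Y : Type} [Enc A] [Enc B] [Enc C] [Enc D] [Enc X] [Enc Y]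

private theorem pc {f : A → B} (hf : SFA.CT f) {g : C → A} (hg : SFA.CT g) :
    SFA.CT (fun c => f (g c)) := SFA.CT.comp hf hg

private theorem sum_map_le {X : Type} (l : List X) (f : X → ℕ) (K : ℕ)
    (h : ∀ x ∈ l, f x ≤ K) : (l.map f).sum ≤ K * l.length := by
  induction l with
  | nil => simp
  | cons x t ih =>
    rw [List.map_cons, List.sum_cons, List.length_cons]
    have h1 := h x (by simp)
    have h2 := ih (fun y hy => h y (by simp [hy]))
    have h3 : K * (t.length + 1) = K * t.length + K := by ring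
    omega

theorem RC.nmul {f g : A → ℕ} {cf cg : A → ℕ} (hf : P7m.RC f cf) (hg : P7m.RC g cg) :
    P7m.RC (fun a => f a * g a) (fun a => cf a + cg a + f a) :=
  P7m.RC.comp (g := fun q : ℕ × ℕ => q.1 * q.2) rc_mul (P7m.RC.pair hf hg)

theorem RC.pow2 {n : A → ℕ} {cn : A → ℕ} (hn : P7m.RC n cn) :
    P7m.RC (fun a => 2 ^ n a) (fun a => cn a + n a) := by
  have hs : SFA.CT (fun p : A × ℕ => p.2 + p.2) :=
    P7m.RC.nadd (SFA.CT.snd SFA.CT.id) (SFA.CT.snd SFA.CT.id)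
  have e : ∀ k : ℕ, (fun s : ℕ => s + s)^[k] 1 = 2 ^ k := by
    intro k
    induction k with
    | zero => rfl
    | succ k ih => rw [Function.iterate_succ_apply', ih, pow_succ]; ring
  refine ((P7m.RC.iterate (f := fun (_ : A) (s : ℕ) => s + s) (b := fun _ => 1) hn (CT.nat 1)
    hs).of_le (fun a => ?_)).congr (fun a => (e _).symm)
  have h1 := iterCost_le_const (fun s : ℕ => s + s) (fun _ => 0) 0 (n a) 1
    (fun _ => le_refl _)
  simp only [zero_add, one_mul] at h1 ⊢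
  omega

theorem OrcRC.comp {O : X → Orc} {k : X → OrcCost} (h : OrcRC O k) {f : Y → X}
    (hf : SFA.CT f) : OrcRC (fun y => O (f y)) (fun y => k (f y)) where
  low := h.lowA (pc hf (SFA.CT.fst SFA.CT.id)) (SFA.CT.fst (SFA.CT.snd SFA.CT.id))
    (SFA.CT.snd (SFA.CT.snd SFA.CT.id))
  up := h.upA (pc hf (SFA.CT.fst SFA.CT.id)) (SFA.CT.fst (SFA.CT.snd SFA.CT.id))
    (SFA.CT.snd (SFA.CT.snd SFA.CT.id))
  band := (h.bandA (pc hf (SFA.CT.fst SFA.CT.id)) (SFA.CT.fst (SFA.CT.snd SFA.CT.id))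
    (SFA.CT.fst (SFA.CT.snd (SFA.CT.snd SFA.CT.id)))
    (SFA.CT.snd (SFA.CT.snd (SFA.CT.snd SFA.CT.id)))).of_le (fun _ => by simp)

/-! ### the search structures -/

/-- cost of `strOf ℓ g S w` for `n` segments -/
def strCost (ℓ g n : ℕ) : ℕ := n * (g + 1) + g * (ℓ + n + 1) + 8 ^ (3072 * g)

theorem elts_length (S : List Seg) : (elts S).length = S.length := by simp [elts]

theorem rc_strOf {ℓ g : A → ℕ} {S : A → List Seg} {w : A → List Bool} {cS : A → ℕ}
    (hℓ : SFA.CT ℓ) (hg : SFA.CT g) (hS : P7m.RC S cS) (hw : SFA.CT w) :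
    P7m.RC (fun a => strOf (ℓ a) (g a) (S a) (w a))
      (fun a => cS a + strCost (ℓ a) (g a) (S a).length) := by
  unfold strOf
  have h1 := P7m.RC.comp (g := fun S : List Seg => lam S) rc_lam hS
  have h2 := P7m.RC.comp (g := fun S : List Seg => elts S) rc_elts hS
  have h3 := rc_mkStr hℓ hg (P7m.RC.nmulConst 3072 hg) h2 hw
  refine (P7m.RC.pair h1 h3).mono 3072 (fun a => ?_)
  unfold strCost
  rw [elts_length]
  have e1 : 3072 * g a * (ℓ a + (S a).length + 1) =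
    3072 * (g a * (ℓ a + (S a).length + 1)) := by ring
  have e2 : (S a).length ≤ (S a).length * (g a + 1) := Nat.le_mul_of_pos_right _ (by omega)
  try simp only at e1 e2 ⊢
  rw [e1]
  generalize 8 ^ (3072 * g a) = Z at *
  generalize g a * (ℓ a + (S a).length + 1) = Y at *
  omega

theorem rc_mapNegS {S : A → List Seg} {cS : A → ℕ} (hS : P7m.RC S cS) :
    P7m.RC (fun a => (S a).map negS) (fun a => cS a + (S a).length) := by
  refine (P7m.RC.map (f := fun (_ : A) s => negS s) hS (CT.negS (SFA.CT.snd SFA.CT.id))).of_le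
    (fun a => ?_)
  have h3 := sum_map_le (S a) (fun _ => 0 + 1) 1 (fun _ _ => by simp)
  try simp only at h3 ⊢
  omega

/-! ### the exploration -/

/-- cost of the exploration -/
def explCost (ℓ g : ℕ) (S : List Seg) (x : ℂ) (w : List Bool) : ℕ :=
  strCost ℓ g S.length +
    rootCost (orcD (strOf ℓ g S w)) (costD (strOf ℓ g S w)) (costD (strOf ℓ g (S.map negS) w)) x +
    ((expl ℓ g S x w).1.map (nbsCost (orcD (strOf ℓ g S w)) (orcD (strOf ℓ g (S.map negS) w))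
      (costD (strOf ℓ g S w)) (costD (strOf ℓ g (S.map negS) w)))).sum + (2 ^ g) ^ 2

theorem rc_expl {ℓ g : A → ℕ} {S : A → List Seg} {x : A → ℂ} {w : A → List Bool}
    (hℓ : SFA.CT ℓ) (hg : SFA.CT g) (hS : SFA.CT S) (hx : SFA.CT x) (hw : SFA.CT w) :
    P7m.RC (fun a => expl (ℓ a) (g a) (S a) (x a) (w a))
      (fun a => explCost (ℓ a) (g a) (S a) (x a) (w a)) := by
  have h1 := rc_strOf hℓ hg hS hw
  have h2 := rc_strOf hℓ hg (rc_mapNegS hS) hw
  have h3 := P7m.RC.pair (P7m.RC.pair h1 h2) (P7m.RC.pair hx (RC.pow2 hg))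
  have h4 := rc_exploreO (A := (Dat × Dat) × ℂ × ℕ) (X := Dat × Dat)
    (O := fun d => orcD d.1) (O' := fun d => orcD d.2) (k := fun d => costD d.1)
    (k' := fun d => costD d.2) (orcRC_orcD.comp (SFA.CT.fst SFA.CT.id))
    (orcRC_orcD.comp (SFA.CT.snd SFA.CT.id)) (d := fun q => q.1) (x := fun q => q.2.1)
    (N := fun q => q.2.2) (SFA.CT.fst SFA.CT.id) (SFA.CT.fst (SFA.CT.snd SFA.CT.id))
    (SFA.CT.snd (SFA.CT.snd SFA.CT.id))
  refine (P7m.RC.comp (g := fun q : (Dat × Dat) × ℂ × ℕ => exploreO (orcD q.1.1)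
    (orcD q.1.2) q.2.1 q.2.2) h4 h3).mono 4 (fun a => ?_)
  unfold explCost expl strCost
  simp only [List.length_map, zero_add]
  have e1 : (S a).length ≤ (S a).length * (g a + 1) := Nat.le_mul_of_pos_right _ (by omega)
  have e2 : g a ≤ g a * (ℓ a + (S a).length + 1) := Nat.le_mul_of_pos_right _ (by omega)
  generalize g a * (ℓ a + (S a).length + 1) = Y at *
  generalize (S a).length * (g a + 1) = Y' at *
  generalize 8 ^ (3072 * g a) = Z
  generalize (2 ^ g a) ^ 2 = Z'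
  omega

/-! ### the last step -/

/-- cost of the last step -/
def finCost (x : ℂ) (st : List Cell × List Cell) : ℕ :=
  (if st.2.isEmpty then algCost 0 (pre (wit st.1)) x [] else 0) + st.1.length ^ 2

theorem rc_finish {x : A → ℂ} {st : A → List Cell × List Cell} (hx : SFA.CT x)
    (hs : SFA.CT st) :
    P7m.RC (fun a => finish (x a) (st a)) (fun a => finCost (x a) (st a)) := by
  unfold finish
  have h1 := RC.wit (SFA.CT.fst hs)
  have h2 := P7m.RC.comp (g := fun l : List Seg => pre l) rc_pre' h1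
  have h3 := P7m.RC.comp (g := fun a : ℕ × (List Seg × ℂ) × List Bool =>
    encOut (algL a.1 a.2.1.1 a.2.1.2 a.2.2)) rc_algL
    (P7m.RC.pair (CT.nat 0) (P7m.RC.pair (P7m.RC.pair h2 hx) CT.nil))
  refine (P7m.RC.cond (P7m.RC.isEmpty (SFA.CT.snd hs)) (P7m.RC.some h3) P7m.RC.none).mono 200
    (fun a => ?_)
  unfold finCost
  have e1 := wit_lengthR (st a).1
  have e2 : Nat.clog 2 (wit (st a).1).length ≤ (wit (st a).1).length :=
    Nat.clog_le_of_le_pow Nat.lt_two_pow_self.le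
  have e3 : (wit (st a).1).length * Nat.clog 2 (wit (st a).1).length ≤
      (10 * (st a).1.length) * (10 * (st a).1.length) := Nat.mul_le_mul e1 (e2.trans e1)
  have e4 : (10 * (st a).1.length) * (10 * (st a).1.length) = 100 * (st a).1.length ^ 2 := by
    ring
  have e5 : (st a).1.length ≤ (st a).1.length ^ 2 := Nat.le_self_pow (by norm_num) _
  by_cases h : (st a).2.isEmpty = true
  · simp only [h, if_true]
    omega
  · simp only [h]
    simp

/-! ### one phase -/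

theorem rc_cond2 : SFA.CT (fun p : ℕ × ℕ => decide (20000 * p.1 ≤ p.2)) :=
  P7m.RC.nle (P7m.RC.nmulConst 20000 (SFA.CT.fst SFA.CT.id)) (SFA.CT.snd SFA.CT.id)

theorem rc_nbP : P7m.RC (fun a : ℕ × Inp => nbP a) (fun a => 2 ^ a.1 + a.2.2.2.1) := by
  -- with `g = 2 ^ a.1` as additional argument
  have key : P7m.RC (fun q : (ℕ × Inp) × ℕ =>
      if 20000 * q.2 ≤ q.1.2.2.2.2 then nBits q.1.2.2.2.2 q.2 (3072 * q.2) q.1.2.2.2.1
        else 2 * q.1.2.2.2.1 * lvl (2 * q.1.2.2.2.1)) (fun q => q.2 + q.1.2.2.2.1) := by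
    have hg : SFA.CT (fun q : (ℕ × Inp) × ℕ => q.2) := SFA.CT.snd SFA.CT.id
    have hl : SFA.CT (fun q : (ℕ × Inp) × ℕ => q.1.2.2.2.2) :=
      SFA.CT.snd (SFA.CT.snd (SFA.CT.snd (SFA.CT.snd (SFA.CT.fst SFA.CT.id))))
    have hn : SFA.CT (fun q : (ℕ × Inp) × ℕ => q.1.2.2.2.1) :=
      SFA.CT.fst (SFA.CT.snd (SFA.CT.snd (SFA.CT.snd (SFA.CT.fst SFA.CT.id))))
    have h1 : SFA.CT (fun q : (ℕ × Inp) × ℕ => decide (20000 * q.2 ≤ q.1.2.2.2.2)) :=
      P7m.RC.nle (P7m.RC.nmulConst 20000 hg) hl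
    have h2 : P7m.RC (fun q : (ℕ × Inp) × ℕ => nBits q.1.2.2.2.2 q.2 (3072 * q.2) q.1.2.2.2.1)
        (fun q => q.2) := by
      unfold nBits
      refine ((P7m.RC.nadd (RC.nmul hg hn) (RC.nmul (P7m.RC.nmulConst 3072 hg)
        (P7m.RC.nmulConst 9 hl))).mono 3073 (fun q => ?_)).congr (fun q => ?_)
      · simp only [zero_add]
        omega
      · ring
    have h3 : P7m.RC (fun q : (ℕ × Inp) × ℕ => 2 * q.1.2.2.2.1 * lvl (2 * q.1.2.2.2.1))
        (fun q => q.1.2.2.2.1) :=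
      (P7m.RC.comp (g := fun n : ℕ => 2 * n * lvl (2 * n)) rc_lenb hn).of_le
        (fun q => by simp)
    refine (P7m.RC.ite h1 h2 h3).of_le (fun q => ?_)
    split_ifs <;> omega
  refine (P7m.RC.comp (g := fun q : (ℕ × Inp) × ℕ =>
      if 20000 * q.2 ≤ q.1.2.2.2.2 then nBits q.1.2.2.2.2 q.2 (3072 * q.2) q.1.2.2.2.1
        else 2 * q.1.2.2.2.1 * lvl (2 * q.1.2.2.2.1)) key
    (P7m.RC.pair SFA.CT.id (RC.pow2 (SFA.CT.fst SFA.CT.id)))).mono 2 (fun a => ?_)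
  have h1 : a.1 < 2 ^ a.1 := Nat.lt_two_pow_self
  simp only [zero_add]
  omega

/-- cost of one phase -/
def cP (a : (ℕ × Inp) × List Bool) : ℕ :=
  2 ^ a.1.1 + if 20000 * 2 ^ a.1.1 ≤ a.1.2.2.2.2 then
    explCost a.1.2.2.2.2 (2 ^ a.1.1) a.1.2.1 a.1.2.2.1 a.2 +
      finCost a.1.2.2.1 (expl a.1.2.2.2.2 (2 ^ a.1.1) a.1.2.1 a.1.2.2.1 a.2)
  else algCost (lvl (2 * a.1.2.2.2.1)) (pre a.1.2.1) a.1.2.2.1 a.2 +
    a.1.2.1.length * Nat.clog 2 a.1.2.1.length + a.1.2.1.length + a.1.2.2.2.1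

theorem rc_phP : P7m.RC (fun a : (ℕ × Inp) × List Bool => phP a) cP := by
  have key : P7m.RC (fun q : ((ℕ × Inp) × List Bool) × ℕ =>
      if 20000 * q.2 ≤ q.1.1.2.2.2.2 then
        finish q.1.1.2.2.1 (expl q.1.1.2.2.2.2 q.2 q.1.1.2.1 q.1.1.2.2.1 q.1.2)
      else some (encOut (algL (lvl (2 * q.1.1.2.2.2.1)) (pre q.1.1.2.1) q.1.1.2.2.1 q.1.2)))
      (fun q => if 20000 * q.2 ≤ q.1.1.2.2.2.2 then
        explCost q.1.1.2.2.2.2 q.2 q.1.1.2.1 q.1.1.2.2.1 q.1.2 +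
        finCost q.1.1.2.2.1 (expl q.1.1.2.2.2.2 q.2 q.1.1.2.1 q.1.1.2.2.1 q.1.2)
      else algCost (lvl (2 * q.1.1.2.2.2.1)) (pre q.1.1.2.1) q.1.1.2.2.1 q.1.2 +
        q.1.1.2.1.length * Nat.clog 2 q.1.1.2.1.length + q.1.1.2.1.length +
        q.1.1.2.2.2.1) := by
    have hg : SFA.CT (fun q : ((ℕ × Inp) × List Bool) × ℕ => q.2) := SFA.CT.snd SFA.CT.id
    have hI : SFA.CT (fun q : ((ℕ × Inp) × List Bool) × ℕ => q.1.1.2) :=
      SFA.CT.snd (SFA.CT.fst (SFA.CT.fst SFA.CT.id))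
    have hw : SFA.CT (fun q : ((ℕ × Inp) × List Bool) × ℕ => q.1.2) :=
      SFA.CT.snd (SFA.CT.fst SFA.CT.id)
    have hS : SFA.CT (fun q : ((ℕ × Inp) × List Bool) × ℕ => q.1.1.2.1) := SFA.CT.fst hI
    have hx : SFA.CT (fun q : ((ℕ × Inp) × List Bool) × ℕ => q.1.1.2.2.1) :=
      SFA.CT.fst (SFA.CT.snd hI)
    have hn : SFA.CT (fun q : ((ℕ × Inp) × List Bool) × ℕ => q.1.1.2.2.2.1) :=
      SFA.CT.fst (SFA.CT.snd (SFA.CT.snd hI))
    have hl : SFA.CT (fun q : ((ℕ × Inp) × List Bool) × ℕ => q.1.1.2.2.2.2) :=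
      SFA.CT.snd (SFA.CT.snd (SFA.CT.snd hI))
    have h1 : SFA.CT (fun q : ((ℕ × Inp) × List Bool) × ℕ =>
        decide (20000 * q.2 ≤ q.1.1.2.2.2.2)) :=
      P7m.RC.nle (P7m.RC.nmulConst 20000 hg) hl
    have h2 := P7m.RC.comp (g := fun p : ℂ × List Cell × List Cell => finish p.1 p.2)
      (rc_finish (SFA.CT.fst SFA.CT.id) (SFA.CT.snd SFA.CT.id))
      (P7m.RC.pair hx (rc_expl hl hg hS hx hw))
    have h3 := P7m.RC.comp (g := fun l : List Seg => pre l) rc_pre' hS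
    have h4 := P7m.RC.comp (g := fun N : ℕ => lvl N) rc_lvl (P7m.RC.nmulConst 2 hn)
    have h5 := P7m.RC.comp (g := fun a : ℕ × (List Seg × ℂ) × List Bool =>
      encOut (algL a.1 a.2.1.1 a.2.1.2 a.2.2)) rc_algL
      (P7m.RC.pair h4 (P7m.RC.pair (P7m.RC.pair h3 hx) hw))
    refine (P7m.RC.ite h1 h2 (P7m.RC.some h5)).mono 2 (fun q => ?_)
    split_ifs
    · simp only [zero_add]
      omega
    · simp only [zero_add, add_zero]
      omega
  refine (P7m.RC.comp (g := fun q : ((ℕ × Inp) × List Bool) × ℕ =>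
      if 20000 * q.2 ≤ q.1.1.2.2.2.2 then
        finish q.1.1.2.2.1 (expl q.1.1.2.2.2.2 q.2 q.1.1.2.1 q.1.1.2.2.1 q.1.2)
      else some (encOut (algL (lvl (2 * q.1.1.2.2.2.1)) (pre q.1.1.2.1) q.1.1.2.2.1 q.1.2))) key
    (P7m.RC.pair SFA.CT.id (RC.pow2 (SFA.CT.fst (SFA.CT.fst SFA.CT.id))))).of_le (fun a => ?_)
  have h1 : a.1.1 < 2 ^ a.1.1 := Nat.lt_two_pow_self
  unfold cP
  simp only [zero_add]
  omega

/-! ### number of phases, input -/

theorem rc_IrP : P7m.RC (fun a : Inp => IrP a) (fun _ => 0) :=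
  P7m.RC.succ (P7m.RC.succ (SFA.CT.snd (SFA.CT.snd (SFA.CT.snd SFA.CT.id))))

/-- the input data from the real numbers on the tape -/
def gIn (a : ℕ × List ℝ) : Inp :=
  ((parseSegs a.1 a.2).map dirS, parsePt a.1 a.2, a.1, lvl a.1)

theorem gIn_spec (Γ : List Seg) (x : ℂ) : gIn (Γ.length, realsOf Γ x) = inpOf Γ x := by
  unfold gIn inpOf
  simp only [(parse_spec Γ x).1, (parse_spec Γ x).2]

theorem rc_gIn : P7m.RC gIn (fun a => a.1) := by
  have hit := P7m.RC.iterate (f := fun (_ : ℕ × List ℝ) s => RG1Aux.pstep s)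
    (b := fun a : ℕ × List ℝ => (a.2, ([] : List Seg)))
    (P7m.RC.fst P7m.RC.id) (P7m.RC.pair (P7m.RC.snd P7m.RC.id) P7m.RC.nil)
    (P7m.RC.comp0 (g := RG1Aux.pstep) RG1Aux.rc_pstep (P7m.RC.snd P7m.RC.id))
  have h1 : P7m.RC (fun a : ℕ × List ℝ => RG1Aux.pstep^[a.1] (a.2, ([] : List Seg)))
      (fun a => a.1) := by
    refine hit.of_le (fun a => ?_)
    have h2 := iterCost_le_const (fun s => RG1Aux.pstep s) (fun _ => 0) 0 a.1 (a.2, [])
      (fun _ => le_refl _)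
    simp only [Nat.zero_add, Nat.one_mul] at h2 ⊢
    exact h2
  have h2 : P7m.RC (fun a : ℕ × List ℝ => parseSegs a.1 a.2) (fun a => a.1) := by
    refine ((P7m.RC.reverse (P7m.RC.snd h1)).mono 2 (fun a => ?_)).congr (fun a => ?_)
    · rw [RG1Aux.pstep_iter, List.append_nil, List.length_reverse, RG1Aux.parseSegs_length]
      omega
    · rw [RG1Aux.pstep_iter]; simp
  have h3 : P7m.RC (fun a : ℕ × List ℝ => (parseSegs a.1 a.2).map dirS)
      (fun a => a.1) := by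
    refine (P7m.RC.map (f := fun (_ : ℕ × List ℝ) s => dirS s) h2
      (OPCostAux.zdirS (P7m.RC.snd P7m.RC.id))).mono 2 (fun a => ?_)
    have h3 := sum_map_le (parseSegs a.1 a.2) (fun _ => 0 + 1) 1 (fun _ _ => by simp)
    rw [RG1Aux.parseSegs_length] at h3
    try simp only at h3 ⊢
    omega
  have h4 : P7m.RC (fun a : ℕ × List ℝ => parsePt a.1 a.2) (fun a => a.1) := by
    have hd : P7m.RC (fun a : ℕ × List ℝ => a.2.drop (4 * a.1)) (fun a => a.1) :=
      (P7m.RC.fst h1).congr (fun a => by rw [RG1Aux.pstep_iter])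
    refine ((P7m.RC.complex (P7m.RC.getD (P7m.RC.head? hd) P7m.RC.const_zero)
      (P7m.RC.getD (P7m.RC.head? (P7m.RC.tail hd)) P7m.RC.const_zero)).mono 2
      (fun a => by omega)).congr (fun a => ?_)
    unfold parsePt
    rcases a.2.drop (4 * a.1) with _ | ⟨b, _ | ⟨c, l⟩⟩ <;> simp
  have h5 : P7m.RC (fun a : ℕ × List ℝ => lvl a.1) (fun a => a.1) :=
    (P7m.RC.comp (g := fun N : ℕ => lvl N) rc_lvl (P7m.RC.fst P7m.RC.id)).of_le
      (fun a => by simp)
  exact (P7m.RC.pair h3 (P7m.RC.pair h4 (P7m.RC.pair (P7m.RC.fst P7m.RC.id) h5))).mono 3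
    (fun a => by omega)

end

end SQ
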