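import Pool.Agent.Lib.SFA.PFin

/-!
# SQ.Z0: worst-case cost of the algorithm of Q1 with one round
-/

namespace SQ

open SFA Classical

theorem stepSum_zero_le {eps : ℝ} {T : List Seg} {x : ℂ} (hT : T.Nodup)
    (hG : Gen eps T.toFinset x) (hL : LexOK eps T.toFinset x) (L : ℕ) (w : List Bool) :
    stepSum 12 eps T.toFinset (lvOf L T w) x 0 ≤ (T.length + 1) ^ 13 := by
  have h0 := inv_before hT hG hL L w 0
  have h1 := recs_length_eq hG h0
  have h2 : (TF eps (lev T.toFinset (lvOf L T w) 0) x).ncard = 1 := h1.symm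
  have hfin := finite_TF (x := x) (hG.mono (lev_subset T.toFinset (lvOf L T w) 0))
  obtain ⟨c, hc⟩ := Set.ncard_eq_one.1 h2
  unfold stepSum
  rw [hc, finsum_mem_singleton]
  have hc1 : cN eps T.toFinset (lvOf L T w) 0 c ≤ T.length :=
    (Finset.card_filter_le _ _).trans (List.toFinset_card_le T)
  have hc2 : cK eps T.toFinset c ≤ T.length :=
    (Finset.card_filter_le _ _).trans (List.toFinset_card_le T)
  calc (cN eps T.toFinset (lvOf L T w) 0 c + 1) ^ 12 * (cK eps T.toFinset c + 1)
      ≤ (T.length + 1) ^ 12 * (T.length + 1) :=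
        Nat.mul_le_mul (Nat.pow_le_pow_left (by omega) 12) (by omega)
    _ = (T.length + 1) ^ 13 := by rw [← pow_succ]

theorem ncard_TF_le {eps : ℝ} {T : List Seg} {x : ℂ} (hG : Gen eps T.toFinset x) :
    (TF eps T.toFinset x).ncard ≤ 52000 * (T.length + 1) ^ 2 := by
  have h1 : T.toFinset.card ≤ 2 ^ Nat.clog 2 (T.length + 1) :=
    (List.toFinset_card_le T).trans ((Nat.le_succ _).trans (Nat.le_pow_clog (by norm_num) _))
  have h2 := card_TF_le hG _ h1
  have h3 : 2 ^ Nat.clog 2 (T.length + 1) ≤ 2 * (T.length + 1) := by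
    rcases Nat.eq_zero_or_pos T.length with h0 | h0
    · rw [h0]; norm_num
    · have h := Nat.pow_pred_clog_lt_self (b := 2) (by norm_num) (x := T.length + 1) (by omega)
      have h2 : 0 < Nat.clog 2 (T.length + 1) := Nat.clog_pos (by norm_num) (by omega)
      obtain ⟨k, hk⟩ := Nat.exists_eq_succ_of_ne_zero h2.ne'
      rw [hk, Nat.pred_succ] at h
      rw [hk, pow_succ]
      omega
  have h4 : Nat.clog 2 (T.length + 1) + 1 ≤ 2 * (T.length + 1) :=
    (Nat.lt_two_pow_self (n := Nat.clog 2 (T.length + 1))).trans_le h3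
  have h5 : (2 : ℝ) ^ Nat.clog 2 (T.length + 1) ≤ 2 * (T.length + 1) := by exact_mod_cast h3
  have h6 : (Nat.clog 2 (T.length + 1) : ℝ) + 1 ≤ 2 * (T.length + 1) := by exact_mod_cast h4
  have h7 : ((TF eps T.toFinset x).ncard : ℝ) ≤ 52000 * (T.length + 1) ^ 2 := by
    refine h2.trans ?_
    have := mul_le_mul h5 h6 (by positivity) (by positivity)
    nlinarith
  exact_mod_cast h7

theorem algCost0_le {eps : ℝ} {T : List Seg} {x : ℂ} (hT : T.Nodup)
    (hG : Gen eps T.toFinset x) (hL : LexOK eps T.toFinset x) :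
    algCost 0 T x [] + (finalRecs 0 T x []).length ≤ 600000 * (T.length + 1) ^ 13 := by
  have h1 := algCost_le hT hG hL 0 []
  have h2 := finalRecs_length hT hG hL 0 []
  have h3 := stepSum_zero_le hT hG hL 0 []
  have h4 := ncard_TF_le hG
  simp only [Nat.zero_add, List.range_one, List.map_cons, List.map_nil, List.sum_cons,
    List.sum_nil, Nat.add_zero, Nat.mul_one] at h1
  have h5 : (T.length + 1) ^ 2 ≤ (T.length + 1) ^ 13 :=
    Nat.pow_le_pow_right (Nat.succ_pos _) (by norm_num)
  have h6 : T.length + 1 ≤ (T.length + 1) ^ 13 := by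
    calc T.length + 1 = (T.length + 1) ^ 1 := (pow_one _).symm
      _ ≤ _ := Nat.pow_le_pow_right (Nat.succ_pos _) (by norm_num)
  rw [h2]
  generalize stepSum 12 eps T.toFinset (lvOf 0 T []) x 0 = a at h1 h3
  generalize (TF eps T.toFinset x).ncard = b at *
  generalize (T.length + 1) ^ 13 = p at *
  generalize (T.length + 1) ^ 2 = q at *
  omega

end SQ
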