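import Pool.Agent.Lib.SQ.Arith
import Pool.Agent.Lib.SQ.RPh
import Pool.Agent.Lib.SQ.Z0
import Pool.Agent.Lib.SQ.FinA
import Pool.Agent.Lib.SQ.EMain

/-!
# SQ.AvgA: the average cost of one exploration phase (`20000 * 2 ^ i ≤ ⌈log₂ n⌉`)
-/

namespace SQ

open SFA Classical

section

variable {Γ : List Seg} (hΓ : ∀ s ∈ Γ, s.1 ≠ s.2) {x : ℂ} (hx : x ∉ U Γ.toFinset)
  (hn : 1 ≤ Γ.length) {i : ℕ} (hi : 20000 * 2 ^ i ≤ lvl Γ.length)

theorem lvl_le_n (n : ℕ) : lvl n ≤ n := Nat.clog_le_of_le_pow Nat.lt_two_pow_self.le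

include hi in
theorem nbP_le_A : nbP (i, inpOf Γ x) ≤ 30000 * (Γ.length * 2 ^ i) := by
  have h1 := lvl_le_n Γ.length
  unfold nbP inpOf nBits
  simp only [if_pos hi]
  have h2 : 9 * lvl Γ.length * (3072 * 2 ^ i) ≤ 9 * Γ.length * (3072 * 2 ^ i) :=
    Nat.mul_le_mul (Nat.mul_le_mul_left _ h1) le_rfl
  have h3 : 9 * Γ.length * (3072 * 2 ^ i) = 27648 * (Γ.length * 2 ^ i) := by ring
  have h4 : 2 ^ i * Γ.length = Γ.length * 2 ^ i := by ring
  omega

include hΓ hx in
/-- the exploration does not depend on the random bits -/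
theorem expl_inp (ℓ g : ℕ) (w : List Bool) :
    expl ℓ g (Γ.map dirS) x w = exploreF (Γ.map dirS) x (2 ^ g) :=
  expl_eq (dir_lex hΓ) (by rw [U_dir]; exact hx) ℓ g w

include hΓ hx in
/-- worst case of the last step and its output -/
theorem fin_le {g : ℕ} (hg : 1 ≤ g) (h : 20000 * g ≤ lvl Γ.length) :
    finCost x (exploreF (Γ.map dirS) x (2 ^ g)) +
      (finish x (exploreF (Γ.map dirS) x (2 ^ g))).elim 0 List.length ≤ 30 * Γ.length + 1 := by
  have hS := dir_lex hΓ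
  have hxS : x ∉ U (Γ.map dirS).toFinset := by rw [U_dir]; exact hx
  have hp := poly_le hg h
  have hs := sq_le hg h
  have hlen : (exploreF (Γ.map dirS) x (2 ^ g)).1.length ≤ 2 ^ g := by
    obtain ⟨eps, h⟩ := exists_sys _ hS hxS
    exact (exploreF_spec h (2 ^ g)).2.2
  have hsq : (exploreF (Γ.map dirS) x (2 ^ g)).1.length ^ 2 ≤ Γ.length :=
    (Nat.pow_le_pow_left hlen 2).trans hs
  by_cases he : (exploreF (Γ.map dirS) x (2 ^ g)).2.isEmpty = true
  · have he2 : (exploreF (Γ.map dirS) x (2 ^ g)).2 = [] := List.isEmpty_iff.1 he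
    have hF : exploreF (Γ.map dirS) x (2 ^ g) =
        ((exploreF (Γ.map dirS) x (2 ^ g)).1, []) := by rw [← he2]
    obtain ⟨hw1, hw2⟩ := explore_main _ hS hxS (2 ^ g) hF
    have hne : ∀ s ∈ wit (exploreF (Γ.map dirS) x (2 ^ g)).1, s.1 ≠ s.2 :=
      fun s hs => hw1.ne s (List.mem_toFinset.2 hs)
    obtain ⟨hpl, hnd, hlex, hone, hU, -⟩ := pre_spec _ hne
    have hxw : x ∉ U (pre (wit (exploreF (Γ.map dirS) x (2 ^ g)).1)).toFinset := by
      rw [hU]
      exact fun hxU => hxS (hw1.sub hxU)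
    obtain ⟨eps, -, hG, hL⟩ := exists_eps
      (S := (pre (wit (exploreF (Γ.map dirS) x (2 ^ g)).1)).toFinset) (x := x)
      (fun s hs => hlex s (List.mem_toFinset.1 hs))
      (fun s hs t ht => hone s (List.mem_toFinset.1 hs) t (List.mem_toFinset.1 ht)) hxw
    have h0 := algCost0_le hnd hG hL
    have h1 : (pre (wit (exploreF (Γ.map dirS) x (2 ^ g)).1)).length + 1 ≤
        20 * 2 ^ g + 1 := by omega
    have h2 := Nat.mul_le_mul_left 600000 (Nat.pow_le_pow_left h1 13)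
    have h3 := out_length_le 0 (pre (wit (exploreF (Γ.map dirS) x (2 ^ g)).1)) x []
    unfold finCost finish
    simp only [he, if_true, Option.elim_some]
    omega
  · unfold finCost finish
    simp only [he]
    simp
    omega

include hΓ hx hn hi in
/-- **The average cost of an exploration phase.** -/
theorem avg_A : avg (nbP (i, inpOf Γ x)) (fun w => ((cP ((i, inpOf Γ x), w) +
    (phP ((i, inpOf Γ x), w)).elim 0 List.length : ℕ) : ℝ)) ≤
    3000 * (Γ.length * 2 ^ i) := by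
  have hS := dir_lex hΓ
  have hxS : x ∉ U (Γ.map dirS).toFinset := by rw [U_dir]; exact hx
  have hg : 1 ≤ 2 ^ i := Nat.one_le_two_pow
  have hlen : (Γ.map dirS).length = Γ.length := List.length_map ..
  have hnl : Γ.length ≤ 2 ^ lvl Γ.length := Nat.le_pow_clog (by norm_num) _
  have h1 := avg_explore hS hlen hnl (g := 2 ^ i) hxS
  have h2 := BQ_le hg hi
  have h3 := fin_le hΓ hx hg hi
  have h4 := small_le hg hi
  have h5 := sq_le hg hi
  have h6 := lvl_le_n Γ.length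
  have hnb : nbP (i, inpOf Γ x) = nBits (lvl Γ.length) (2 ^ i) (3072 * 2 ^ i) Γ.length := by
    unfold nbP inpOf
    simp only [if_pos hi]
  have hX : ∀ w : List Bool, cP ((i, inpOf Γ x), w) +
      (phP ((i, inpOf Γ x), w)).elim 0 List.length ≤ 100 * (Γ.length * 2 ^ i) +
      (rootCost (orcD (strOf (lvl Γ.length) (2 ^ i) (Γ.map dirS) w))
      (costD (strOf (lvl Γ.length) (2 ^ i) (Γ.map dirS) w))
      (costD (strOf (lvl Γ.length) (2 ^ i) ((Γ.map dirS).map negS) w)) x +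
      ((exploreO (orcD (strOf (lvl Γ.length) (2 ^ i) (Γ.map dirS) w))
        (orcD (strOf (lvl Γ.length) (2 ^ i) ((Γ.map dirS).map negS) w)) x (2 ^ 2 ^ i)).1.map
        (nbsCost (orcD (strOf (lvl Γ.length) (2 ^ i) (Γ.map dirS) w))
          (orcD (strOf (lvl Γ.length) (2 ^ i) ((Γ.map dirS).map negS) w))
          (costD (strOf (lvl Γ.length) (2 ^ i) (Γ.map dirS) w))
          (costD (strOf (lvl Γ.length) (2 ^ i) ((Γ.map dirS).map negS) w)))).sum) := by
    intro w
    unfold cP phP inpOf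
    simp only [if_pos hi]
    have e := expl_inp hΓ hx (lvl Γ.length) (2 ^ i) w
    unfold explCost
    rw [e]
    have e' : exploreO (orcD (strOf (lvl Γ.length) (2 ^ i) (Γ.map dirS) w))
        (orcD (strOf (lvl Γ.length) (2 ^ i) ((Γ.map dirS).map negS) w)) x (2 ^ 2 ^ i) =
        exploreF (Γ.map dirS) x (2 ^ 2 ^ i) := e
    rw [e']
    have k1 : strCost (lvl Γ.length) (2 ^ i) (Γ.map dirS).length ≤
        6 * (Γ.length * 2 ^ i) := by
      unfold strCost
      rw [hlen]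
      have q1 : Γ.length ≤ Γ.length * 2 ^ i := Nat.le_mul_of_pos_right _ hg
      have q2 : 2 ^ i * (lvl Γ.length + Γ.length + 1) ≤ 2 ^ i * (3 * Γ.length) :=
        Nat.mul_le_mul_left _ (by omega)
      have q3 : 2 ^ i * (3 * Γ.length) = 3 * (Γ.length * 2 ^ i) := by ring
      have q4 : Γ.length * (2 ^ i + 1) = Γ.length * 2 ^ i + Γ.length := by ring
      omega
    have q1 : Γ.length ≤ Γ.length * 2 ^ i := Nat.le_mul_of_pos_right _ hg
    have q5 : 2 ^ i ≤ Γ.length * 2 ^ i := Nat.le_mul_of_pos_left _ hn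
    generalize (List.map (nbsCost _ _ _ _) (exploreF (Γ.map dirS) x (2 ^ 2 ^ i)).1).sum = Y
    generalize rootCost _ _ _ _ = Y'
    omega
  rw [hnb]
  refine (avg_mono (fun w _ => (Nat.cast_le (α := ℝ)).2 (hX w))).trans ?_
  simp only [Nat.cast_add (R := ℝ) (100 * (Γ.length * 2 ^ i))]
  rw [avg_fadd, avg_const]
  have q1 : (Γ.length : ℝ) ≤ Γ.length * 2 ^ i :=
    le_mul_of_one_le_right (Nat.cast_nonneg _) (one_le_pow₀ (by norm_num))
  push_cast at h1 h2 ⊢
  linarith

end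

end SQ
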