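import Pool.Agent.Lib.SQ.DS
import Pool.Agent.Lib.SFA.PAvg

/-!
# SQ.BBits: random members of a list

`bn_cons`: `bn (b :: w) = (if b then 2 ^ w.length else 0) + bn w` (generalise the initial value of
the fold: `w.foldl (fun a b => a + a + if b then 1 else 0) c = c * 2 ^ w.length + bn w`).
`bn_lt`: `bn w < 2 ^ w.length`.
`avg_bn`: `avg a (fun w => h (bn w)) = (∑ i ∈ range (2 ^ a), h i) / 2 ^ a`: induction on `a` for all
`h` (`avg` unfolds to `w = true :: w'`, `false :: w'`, `bn_cons`; `∑_{i < 2^(a+1)}` splits in
`i < 2^a` and `2^a + i`).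
`avg_take`: for `a ≤ ℓ` the average over `ℓ` bits of a function of `w.take a` is the average over
`a` bits (`avg_append a (ℓ - a)`, `List.take_left'`, `avg_congr`, `avg_const`).
`avg_pick`: with `a = Nat.clog 2 l.length` one has `l.length ≤ 2 ^ a ≤ 2 * l.length`
(`Nat.le_pow_clog`, `Nat.pow_pred_clog_lt_self`; for length 1 the clog is 0), `a ≤ ℓ`; `pickL` of the
index `i < l.length` is `some l[i]` (`List.head?_drop`), the other indices give a nonnegative
contribution.  So the average is at least `(∑_{i < |l|} h (some l[i])) / 2 ^ a`.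
-/

namespace SQ

open SFA Classical

private theorem bn_fold (w : List Bool) (c : ℕ) :
    w.foldl (fun a b => a + a + if b then 1 else 0) c = c * 2 ^ w.length + bn w := by
  induction w generalizing c with
  | nil => simp [bn]
  | cons b w ih =>
    have h1 : bn (b :: w) =
        w.foldl (fun a b => a + a + if b then 1 else 0) (0 + 0 + if b then 1 else 0) := rfl
    rw [h1, List.foldl_cons, ih, ih, List.length_cons, pow_succ]
    ring

private theorem bn_cons (b : Bool) (w : List Bool) :
    bn (b :: w) = (if b then 2 ^ w.length else 0) + bn w := by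
  have h1 : bn (b :: w) =
      w.foldl (fun a b => a + a + if b then 1 else 0) (0 + 0 + if b then 1 else 0) := rfl
  rw [h1, bn_fold]
  cases b <;> simp

theorem bn_lt (w : List Bool) : bn w < 2 ^ w.length := by
  induction w with
  | nil => simp [bn]
  | cons b w ih =>
    rw [bn_cons, List.length_cons, pow_succ]
    cases b
    · simp only [Bool.false_eq_true, if_false]
      omega
    · simp only [if_true]
      omega

theorem avg_bn (a : ℕ) (h : ℕ → ℝ) :
    avg a (fun w => h (bn w)) = (∑ i ∈ Finset.range (2 ^ a), h i) / 2 ^ a := by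
  induction a generalizing h with
  | zero => simp [avg, bn]
  | succ a ih =>
    simp only [avg]
    have h1 : avg a (fun w => h (bn (true :: w))) = avg a (fun w => h (2 ^ a + bn w)) := by
      refine avg_congr fun w hw => ?_
      rw [bn_cons, hw]
      simp
    have h2 : avg a (fun w => h (bn (false :: w))) = avg a (fun w => h (bn w)) := by
      refine avg_congr fun w hw => ?_
      rw [bn_cons]
      simp
    rw [h1, h2, ih (fun i => h (2 ^ a + i)), ih h]
    have h3 : (2 : ℕ) ^ (a + 1) = 2 ^ a + 2 ^ a := by rw [pow_succ]; ring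
    rw [h3, Finset.sum_range_add, pow_succ]
    field_simp
    ring

theorem avg_take {a ℓ : ℕ} (ha : a ≤ ℓ) (f : List Bool → ℝ) :
    avg ℓ (fun w => f (w.take a)) = avg a f := by
  obtain ⟨b, rfl⟩ := Nat.exists_eq_add_of_le ha
  rw [avg_append]
  refine avg_congr fun u hu => ?_
  have h1 : avg b (fun v => f ((u ++ v).take a)) = avg b (fun _ => f u) := by
    refine avg_congr fun v _ => ?_
    rw [List.take_left' hu]
  rw [h1, avg_const]

theorem avg_pick {ℓ : ℕ} {l : List El} (h0 : l ≠ []) (hl : l.length ≤ 2 ^ ℓ)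
    (h : Option El → ℝ) (hh : ∀ o, 0 ≤ h o) :
    (∑ i : Fin l.length, h (some (l.get i))) / (2 * l.length) ≤
      avg ℓ (fun w => h (pickL w l)) := by
  set a := Nat.clog 2 l.length with ha
  have hpos : 0 < l.length := List.length_pos_iff.2 h0
  have haℓ : a ≤ ℓ := Nat.clog_le_of_le_pow hl
  have h1 : avg ℓ (fun w => h (pickL w l)) =
      (∑ i ∈ Finset.range (2 ^ a), h ((l.drop i).head?)) / 2 ^ a := by
    rw [← avg_bn a (fun i => h ((l.drop i).head?))]
    rw [← avg_take haℓ (fun w => h ((l.drop (bn w)).head?))]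
    rfl
  have h2 : l.length ≤ 2 ^ a := Nat.le_pow_clog (by norm_num) _
  have h3 : 2 ^ a ≤ 2 * l.length := by
    rcases Nat.lt_or_ge 1 l.length with h4 | h4
    · have h5 := Nat.pow_pred_clog_lt_self (b := 2) (by norm_num) h4
      have h6 : 0 < a := Nat.clog_pos (by norm_num) h4
      have h7 : 2 ^ a = 2 * 2 ^ (a.pred) := by
        conv_lhs => rw [← Nat.succ_pred_eq_of_pos h6, pow_succ]
        ring
      rw [h7]
      have h8 : 2 ^ (a.pred) < l.length := h5
      omega
    · have h5 : l.length = 1 := by omega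
      have h6 : a = 0 := by
        rw [ha, h5]
        simp
      rw [h6]
      omega
  have h4 : ∑ i : Fin l.length, h (some (l.get i)) =
      ∑ i ∈ Finset.range l.length, h ((l.drop i).head?) := by
    rw [← Fin.sum_univ_eq_sum_range (fun i => h ((l.drop i).head?)) l.length]
    refine Finset.sum_congr rfl fun i _ => ?_
    rw [List.head?_drop, List.getElem?_eq_getElem i.2]
    rfl
  have h5 : ∑ i ∈ Finset.range l.length, h ((l.drop i).head?) ≤
      ∑ i ∈ Finset.range (2 ^ a), h ((l.drop i).head?) :=
    Finset.sum_le_sum_of_subset_of_nonneg (Finset.range_mono h2) fun i _ _ => hh _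
  have h6 : 0 ≤ ∑ i ∈ Finset.range (2 ^ a), h ((l.drop i).head?) :=
    Finset.sum_nonneg fun i _ => hh _
  rw [h1, h4]
  refine div_le_div₀ h6 h5 (by positivity) ?_
  exact_mod_cast h3

/-- the pick only depends on the first `ℓ` bits -/
theorem pickL_append {ℓ : ℕ} {l : List El} (hl : l.length ≤ 2 ^ ℓ) {u v : List Bool}
    (hu : ℓ ≤ u.length) : pickL (u ++ v) l = pickL u l := by
  have h1 : Nat.clog 2 l.length ≤ u.length := (Nat.clog_le_of_le_pow hl).trans hu
  unfold pickL
  rw [List.take_append_of_le_length h1]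

end SQ
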