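import Pool.Agent.Lib.SQ.RPh
import Pool.Agent.Lib.SQ.BBits
import Pool.Agent.Lib.SQ.FinA
import Pool.Agent.Lib.SFA.Fin2

/-!
# SQ.AvgB (owner helper8): the average cost of the last phase (`⌈log₂ n⌉ < 20000 * 2 ^ i`)

The algorithm of Q1 reads only the first `|T| * L` of the `2 n L` random bits (`T` = pieces,
`L = ⌈log₂ (2 n)⌉`), and `avg_algCost` bounds its average cost.
-/

namespace SQ

open P7m SFA Classical

theorem assign_takeB (L : ℕ) (S : List Seg) (w : List Bool) :
    assign L S (w.take (S.length * L)) = assign L S w := by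
  induction S generalizing w with
  | nil => rfl
  | cons s t ih =>
    have h1 : (t.length + 1) * L = t.length * L + L := by ring
    have h2 : (w.take ((t.length + 1) * L)).take L = w.take L := by
      rw [List.take_take, h1, min_eq_left (by omega)]
    have h3 : (w.take ((t.length + 1) * L)).drop L = (w.drop L).take (t.length * L) := by
      rw [List.drop_take, h1, Nat.add_sub_cancel]
    simp only [assign, List.length_cons]
    rw [h2, h3, ih]

theorem algCost_takeB (L : ℕ) (S : List Seg) (x : ℂ) (w : List Bool) :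
    algCost L S x (w.take (S.length * L)) = algCost L S x w := by
  unfold algCost finalRecs
  rw [assign_takeB]

theorem finalRecs_takeB (L : ℕ) (S : List Seg) (x : ℂ) (w : List Bool) :
    finalRecs L S x (w.take (S.length * L)) = finalRecs L S x w := by
  unfold finalRecs
  rw [assign_takeB]

/-- **The average cost of the last phase.** -/
theorem avg_B : ∃ K : ℕ, ∀ (Γ : List Seg) (x : ℂ) (i : ℕ), (∀ s ∈ Γ, s.1 ≠ s.2) →
    x ∉ U Γ.toFinset → 1 ≤ Γ.length → lvl Γ.length < 20000 * 2 ^ i →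
    avg (nbP (i, inpOf Γ x)) (fun w => ((cP ((i, inpOf Γ x), w) +
      (phP ((i, inpOf Γ x), w)).elim 0 List.length : ℕ) : ℝ)) ≤
      K * (Γ.length * 2 ^ i) := by
  obtain ⟨C, hC0, hC⟩ := avg_algCost
  refine ⟨⌈100000 + 24 * (C * 4 * 20001)⌉₊, fun Γ x i hΓ hx hn hi => ?_⟩
  set n := Γ.length with hndef
  set S := Γ.map dirS with hSdef
  have hSn : S.length = n := List.length_map _
  have hSne : ∀ s ∈ S, s.1 ≠ s.2 := fun s hs h => by
    have := dir_lex hΓ s hs
    rw [h] at this
    exact absurd this (by unfold lexlt; simp)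
  have hxS : x ∉ U S.toFinset := by rw [hSdef, U_dir]; exact hx
  obtain ⟨hpl, hnd, hlex, hone, hU, -⟩ := pre_spec S hSne
  set T := pre S with hT
  obtain ⟨eps, -, hG, hL⟩ := exists_eps (S := T.toFinset) (x := x)
    (fun s hs => hlex s (List.mem_toFinset.1 hs))
    (fun s hs t ht => hone s (List.mem_toFinset.1 hs) t (List.mem_toFinset.1 ht))
    (by rw [hU]; exact hxS)
  have hTn : T.length ≤ 2 * n := by rw [← hSn]; exact hpl
  have hcl : 2 * n ≤ 2 ^ lvl (2 * n) := Nat.le_pow_clog (by norm_num) _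
  have hl1 : 1 ≤ lvl (2 * n) := Nat.clog_pos (by norm_num) (by omega)
  have hp4 : 2 ^ lvl (2 * n) ≤ 4 * n := by
    have h := Nat.pow_pred_clog_lt_self (b := 2) (by norm_num) (x := 2 * n) (by omega)
    have h2 : 0 < Nat.clog 2 (2 * n) := Nat.clog_pos (by norm_num) (by omega)
    have h3 : 2 ^ Nat.clog 2 (2 * n) = 2 * 2 ^ (Nat.clog 2 (2 * n)).pred := by
      obtain ⟨k, hk⟩ := Nat.exists_eq_succ_of_ne_zero h2.ne'
      rw [hk, Nat.pred_succ, pow_succ]; ring
    show 2 ^ Nat.clog 2 (2 * n) ≤ 4 * n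
    omega
  have hl2 : lvl (2 * n) ≤ lvl n + 1 := by
    refine Nat.clog_le_of_le_pow ?_
    have h : n ≤ 2 ^ lvl n := Nat.le_pow_clog (by norm_num) n
    rw [pow_succ]
    omega
  have hlen1 : 1 ≤ 2 ^ i := Nat.one_le_two_pow
  have hL' : lvl (2 * n) + 1 ≤ 20001 * 2 ^ i := by omega
  set L := lvl (2 * n) with hLdef
  have hi' : ¬ (20000 * 2 ^ i ≤ lvl Γ.length) := not_le.2 hi
  have hnb : nbP (i, inpOf Γ x) = 2 * n * L := by
    unfold nbP inpOf
    simp only [if_neg hi']
    rfl
  have hclog : Nat.clog 2 S.length ≤ 20000 * 2 ^ i := by rw [hSn]; exact hi.le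
  have hX : ∀ w : List Bool, cP ((i, inpOf Γ x), w) +
      (phP ((i, inpOf Γ x), w)).elim 0 List.length ≤ 100000 * (n * 2 ^ i) +
      24 * (algCost L T x (w.take (T.length * L)) +
        (finalRecs L T x (w.take (T.length * L))).length) := by
    intro w
    rw [algCost_takeB, finalRecs_takeB]
    unfold cP phP inpOf
    simp only [if_neg hi', Option.elim_some]
    have h1 := out_length_le L T x w
    have h2 : S.length * Nat.clog 2 S.length ≤ n * (20000 * 2 ^ i) := by
      rw [← hSn]; exact Nat.mul_le_mul_left _ hclog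
    have h3 : n * (20000 * 2 ^ i) = 20000 * (n * 2 ^ i) := by ring
    have h4 : n ≤ n * 2 ^ i := Nat.le_mul_of_pos_right _ hlen1
    have h5 : 2 ^ i ≤ n * 2 ^ i := Nat.le_mul_of_pos_left _ hn
    show 2 ^ i + (algCost L T x w + S.length * Nat.clog 2 S.length + S.length + n) +
      (encOut (algL L T x w)).length ≤ _
    omega
  rw [hnb]
  refine (avg_mono (fun w _ => (Nat.cast_le (α := ℝ)).2 (hX w))).trans ?_
  have hm : T.length * L ≤ 2 * n * L := Nat.mul_le_mul_right _ hTn
  have e1 : avg (2 * n * L) (fun w => ((100000 * (n * 2 ^ i) +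
      24 * (algCost L T x (w.take (T.length * L)) +
        (finalRecs L T x (w.take (T.length * L))).length) : ℕ) : ℝ)) =
      avg (T.length * L) (fun w => ((100000 * (n * 2 ^ i) +
      24 * (algCost L T x w + (finalRecs L T x w).length) : ℕ) : ℝ)) :=
    avg_take hm (fun w => ((100000 * (n * 2 ^ i) +
      24 * (algCost L T x w + (finalRecs L T x w).length) : ℕ) : ℝ))
  rw [e1]
  have e2 : (fun w : List Bool => ((100000 * (n * 2 ^ i) +
      24 * (algCost L T x w + (finalRecs L T x w).length) : ℕ) : ℝ)) =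
      fun w => (100000 * (n * 2 ^ i) : ℝ) +
        24 * ((algCost L T x w + (finalRecs L T x w).length : ℕ) : ℝ) := by
    funext w
    push_cast
    ring
  rw [e2, avg_fadd, avg_const, avg_mul_left, avg_eq]
  have havg := hC T x eps L hnd hG hL (hTn.trans hcl) hl1
  have h6 : (∑ b : Fin (T.length * L) → Bool,
      ((algCost L T x (List.ofFn b) + (finalRecs L T x (List.ofFn b)).length : ℕ) : ℝ)) /
      2 ^ (T.length * L) ≤ C * (2 ^ L * (L + 1)) := by
    rw [div_le_iff₀ (by positivity)]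
    calc _ ≤ _ := havg
      _ = _ := by ring
  have h7 : (2 : ℝ) ^ L ≤ 4 * n := by exact_mod_cast hp4
  have h8 : (L : ℝ) + 1 ≤ 20001 * 2 ^ i := by exact_mod_cast hL'
  have h9 : (2 : ℝ) ^ L * (L + 1) ≤ 4 * n * (20001 * 2 ^ i) :=
    mul_le_mul h7 h8 (by positivity) (by positivity)
  have h10 : C * ((2 : ℝ) ^ L * (L + 1)) ≤ C * (4 * n * (20001 * 2 ^ i)) :=
    mul_le_mul_of_nonneg_left h9 hC0.le
  have h11 : (0 : ℝ) ≤ n * 2 ^ i := by positivity
  have h12 : (100000 + 24 * (C * 4 * 20001) : ℝ) ≤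
      (⌈100000 + 24 * (C * 4 * 20001)⌉₊ : ℝ) := Nat.le_ceil _
  have h13 := mul_le_mul_of_nonneg_right h12 h11
  have h14 : (100000 + 24 * (C * 4 * 20001) : ℝ) * (n * 2 ^ i) =
    100000 * (n * 2 ^ i) + 24 * (C * (4 * n * (20001 * 2 ^ i))) := by ring
  linarith

end SQ
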