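import Pool.Agent.Lib.SQ.BBest
import Pool.Agent.Lib.SFA.PAvg

/-!
# SQ.BSamp: the random sample

`samp_append`: `samp g l w` only uses the first `g * l.length` bits.
`avg_all`: the average over `g` bits of `[all true] * a + [not all true] * b` is
`a / 2 ^ g + (1 - 1 / 2 ^ g) * b` (induction on `g`).
`avg_samp_length`: induction on `l`; `g * (|l| + 1) = g + g * |l|`, `avg_append`, `avg_all`.
`avg_avoid`: the probability that no member of the sample satisfies `P` is
`(1 - 1 / 2 ^ g) ^ #{e ∈ l | P e}`: induction on `l`.
`rank_sum`: `q ∈ [0, 1]`, `le` a total transitive relation on the members of `l`: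
`∑_{e ∈ l} q ^ #{e' ∈ l | le e' e} ≤ ∑_{i < |l|} q ^ (i + 1)`.  Induction on `|l|` (for all `l`):
choose a maximal member `e0` (`le e e0` for all `e ∈ l`; exists by totality and transitivity), write
`l` as a permutation of `e0 :: l'` (`List.perm_cons_erase`; both sides only depend on `l` up to
permutation); the term of `e0` is `q ^ |l|` (all members are counted), for the other `e` the count in
`l` is at least the count in `l'`, and `q ^ a ≤ q ^ b` for `b ≤ a` (`pow_le_pow_of_le_one`).
`avg_report`: for `e ∈ l` with the value `a`, `F (exact Q S0) e` holds iff no member of the sample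
`S0` has a value `b` with `lt a b = false` (`Good.sel` with the threshold `exact Q S0`, which is a
value of `l` or `none` by `best_exact`; if `lt a y` for the best value `y` of `S0` then for every
value `b` of `S0`: `lt b y = false`, so `y = b` or `lt y b`, hence `lt a b`; conversely take for
`b` the best value itself).  So the average of the number is
`∑_{e ∈ l, value a} (1 - p) ^ #{e' ∈ l | e' has a value b with lt a b = false}` by `avg_avoid`
(linearity over the list `l`: `List.countP`/`length_filter` as a sum of indicators, induction), at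
most `∑_{i < n} (1 - p) ^ (i + 1) ≤ (1 - p) / p ≤ 2 ^ g` by `rank_sum` for the list of the elements
with a value, `le e' e := lt (val e) (val e') = false`; geometric series
(`geom_sum_eq` or induction: `p ∑_{i<n} q^i = 1 - q^n ≤ 1`).
-/

namespace SQ

open SFA Classical

namespace BSampAux

theorem avg_all (g : ℕ) (a b : ℝ) :
    avg g (fun w => if w.all (fun b => b) = true then a else b) =
      a / 2 ^ g + (1 - 1 / 2 ^ g) * b := by
  induction g with
  | zero => simp [avg]
  | succ g ih =>
    simp only [avg]
    have h1 : avg g (fun w => if (true :: w).all (fun b => b) = true then a else b) =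
        a / 2 ^ g + (1 - 1 / 2 ^ g) * b := by
      rw [← ih]
      refine avg_congr fun w _ => ?_
      simp
    have h2 : avg g (fun w => if (false :: w).all (fun b => b) = true then a else b) = b := by
      rw [← avg_const g b]
      refine avg_congr fun w _ => ?_
      simp [avg_const]
    rw [h1, h2, pow_succ]
    field_simp
    ring

theorem avg_samp_cons (g : ℕ) (e : El) (t : List El) (Φ : List El → ℝ) :
    avg (g * (e :: t).length) (fun w => Φ (samp g (e :: t) w)) =
      avg (g * t.length) (fun w => Φ (e :: samp g t w)) / 2 ^ g +
        (1 - 1 / 2 ^ g) * avg (g * t.length) (fun w => Φ (samp g t w)) := by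
  have h1 : g * (e :: t).length = g + g * t.length := by
    rw [List.length_cons, Nat.mul_add, Nat.mul_one, Nat.add_comm]
  rw [h1, avg_append, ← avg_all]
  refine avg_congr fun u hu => ?_
  have h2 : ∀ v : List Bool, (u ++ v).take g = u := fun v => by
    rw [← hu, List.take_left']
    rfl
  have h3 : ∀ v : List Bool, (u ++ v).drop g = v := fun v => by
    rw [← hu, List.drop_left']
    rfl
  by_cases h : u.all (fun b => b) = true
  · rw [if_pos h]
    refine avg_congr fun v _ => ?_
    rw [samp, h2, h3, if_pos h]
  · rw [if_neg h]
    refine avg_congr fun v _ => ?_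
    rw [samp, h2, h3, if_neg h]

theorem avg_samp_nil (g : ℕ) (Φ : List El → ℝ) :
    avg (g * ([] : List El).length) (fun w => Φ (samp g [] w)) = Φ [] := by
  have h : g * ([] : List El).length = 0 := by simp
  rw [h]
  rfl

theorem two_pow_ne (g : ℕ) : (2 : ℝ) ^ g ≠ 0 := pow_ne_zero _ two_ne_zero

theorem samp_length_eq (g : ℕ) (l : List El) :
    avg (g * l.length) (fun w => ((samp g l w).length : ℝ)) = l.length / 2 ^ g := by
  induction l with
  | nil =>
    have h := avg_samp_nil g (fun l => (l.length : ℝ))
    rw [h]
    simp
  | cons e t ih =>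
    have h := avg_samp_cons g e t (fun l => (l.length : ℝ))
    rw [h, ih]
    have h2 : avg (g * t.length) (fun w => (((e :: samp g t w).length : ℕ) : ℝ)) =
        t.length / 2 ^ g + 1 := by
      have h3 : (fun w : List Bool => (((e :: samp g t w).length : ℕ) : ℝ)) =
          fun w => ((samp g t w).length : ℝ) + (fun _ : List Bool => (1 : ℝ)) w := by
        funext w
        simp
      rw [h3, avg_fadd, ih, avg_const]
    rw [h2, List.length_cons, Nat.cast_add, Nat.cast_one]
    have := two_pow_ne g
    field_simp
    ring

/-- a maximal member -/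
theorem exists_max {α : Type} (le : α → α → Prop) (l : List α) (hne : l ≠ [])
    (tot : ∀ a ∈ l, ∀ b ∈ l, le a b ∨ le b a)
    (tr : ∀ a ∈ l, ∀ b ∈ l, ∀ c ∈ l, le a b → le b c → le a c) :
    ∃ e ∈ l, ∀ a ∈ l, le a e := by
  induction l with
  | nil => exact absurd rfl hne
  | cons e t ih =>
    have hself : le e e := by
      rcases tot e List.mem_cons_self e List.mem_cons_self with h | h <;> exact h
    by_cases ht : t = []
    · subst ht
      refine ⟨e, List.mem_cons_self, fun a ha => ?_⟩
      rw [List.mem_singleton] at ha
      rw [ha]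
      exact hself
    · obtain ⟨m, hm, hmax⟩ := ih ht
        (fun a ha b hb => tot a (List.mem_cons_of_mem _ ha) b (List.mem_cons_of_mem _ hb))
        (fun a ha b hb c hc => tr a (List.mem_cons_of_mem _ ha) b (List.mem_cons_of_mem _ hb) c
          (List.mem_cons_of_mem _ hc))
      rcases tot e List.mem_cons_self m (List.mem_cons_of_mem _ hm) with h | h
      · refine ⟨m, List.mem_cons_of_mem _ hm, fun a ha => ?_⟩
        rcases List.mem_cons.1 ha with rfl | ha
        · exact h
        · exact hmax a ha
      · refine ⟨e, List.mem_cons_self, fun a ha => ?_⟩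
        rcases List.mem_cons.1 ha with rfl | ha
        · exact hself
        · exact tr a (List.mem_cons_of_mem _ ha) m (List.mem_cons_of_mem _ hm) e
            List.mem_cons_self (hmax a ha) h

theorem rs_perm {α : Type} (le : α → α → Prop) (q : ℝ) {l l' : List α} (h : l.Perm l') :
    (l.map (fun e => q ^ (l.filter (fun e' => decide (le e' e))).length)).sum =
      (l'.map (fun e => q ^ (l'.filter (fun e' => decide (le e' e))).length)).sum := by
  have h1 : (fun e => q ^ (l.filter (fun e' => decide (le e' e))).length) =
      fun e => q ^ (l'.filter (fun e' => decide (le e' e))).length := by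
    funext e
    rw [(h.filter _).length_eq]
  rw [h1]
  exact (h.map _).sum_eq

theorem rank_aux {α : Type} (le : α → α → Prop) (q : ℝ) (h0 : 0 ≤ q) (h1 : q ≤ 1) (n : ℕ) :
    ∀ l : List α, l.length = n → (∀ a ∈ l, ∀ b ∈ l, le a b ∨ le b a) →
    (∀ a ∈ l, ∀ b ∈ l, ∀ c ∈ l, le a b → le b c → le a c) →
    (l.map (fun e => q ^ (l.filter (fun e' => decide (le e' e))).length)).sum ≤
      ∑ i ∈ Finset.range l.length, q ^ (i + 1) := by
  induction n with
  | zero =>
    intro l hl _ _
    rw [List.length_eq_zero_iff.1 hl]
    simp
  | succ n ih =>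
    intro l hl tot tr
    have hne : l ≠ [] := by
      rintro rfl
      simp at hl
    obtain ⟨e0, he0, hmax⟩ := exists_max le l hne tot tr
    obtain ⟨l', hp⟩ : ∃ l', l.Perm (e0 :: l') := ⟨_, List.perm_cons_erase he0⟩
    have hlen : l'.length = n := by
      have := hp.length_eq
      rw [hl, List.length_cons] at this
      omega
    have hmem : ∀ a ∈ l', a ∈ l := fun a ha => hp.mem_iff.2 (List.mem_cons_of_mem _ ha)
    have h2 := ih l' hlen (fun a ha b hb => tot a (hmem a ha) b (hmem b hb))
      (fun a ha b hb c hc => tr a (hmem a ha) b (hmem b hb) c (hmem c hc))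
    rw [rs_perm le q hp, hl, Finset.sum_range_succ, ← hlen, List.map_cons, List.sum_cons,
      add_comm]
    refine add_le_add (le_trans ?_ h2) ?_
    · refine List.sum_le_sum fun e _ => ?_
      refine pow_le_pow_of_le_one h0 h1 ?_
      refine (List.Sublist.filter _ (List.sublist_cons_self e0 l')).length_le
    · have h3 : (e0 :: l').filter (fun e' => decide (le e' e0)) = e0 :: l' := by
        rw [List.filter_eq_self]
        intro a ha
        exact decide_eq_true (hmax a (hp.mem_iff.2 ha))
      rw [h3, List.length_cons]

theorem avg_filter (m : ℕ) (F : List Bool → El → Bool) (l : List El) :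
    avg m (fun w => ((l.filter (F w)).length : ℝ)) =
      (l.map (fun e => avg m (fun w => if F w e = true then (1 : ℝ) else 0))).sum := by
  induction l with
  | nil => simp [avg_const]
  | cons e t ih =>
    rw [List.map_cons, List.sum_cons, ← ih, ← avg_fadd]
    refine avg_congr fun w _ => ?_
    by_cases h : F w e = true
    · rw [List.filter_cons_of_pos h, List.length_cons, if_pos h]
      push_cast
      ring
    · rw [List.filter_cons_of_neg h, if_neg h]
      ring

theorem geo (q : ℝ) (n : ℕ) : (1 - q) * ∑ i ∈ Finset.range n, q ^ (i + 1) = q * (1 - q ^ n) := by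
  induction n with
  | zero => simp
  | succ n ih =>
    rw [Finset.sum_range_succ, mul_add, ih, pow_succ]
    ring

end BSampAux

open BSampAux

theorem samp_append (g : ℕ) (l : List El) (u v : List Bool) (hu : g * l.length ≤ u.length) :
    samp g l (u ++ v) = samp g l u := by
  induction l generalizing u with
  | nil => rfl
  | cons e t ih =>
    have h1 : g * (e :: t).length = g + g * t.length := by
      rw [List.length_cons, Nat.mul_add, Nat.mul_one, Nat.add_comm]
    have h2 : (u ++ v).take g = u.take g := List.take_append_of_le_length (by omega)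
    have h3 : (u ++ v).drop g = u.drop g ++ v := List.drop_append_of_le_length (by omega)
    have h4 := ih (u.drop g) (by rw [List.length_drop]; omega)
    rw [samp, samp, h2, h3, h4]

theorem avg_samp_length (g : ℕ) (l : List El) :
    avg (g * l.length) (fun w => ((samp g l w).length : ℝ)) ≤ l.length / 2 ^ g :=
  (samp_length_eq g l).le

theorem avg_avoid (g : ℕ) (l : List El) (P : El → Bool) :
    avg (g * l.length) (fun w => if ∀ e ∈ samp g l w, P e = false then (1 : ℝ) else 0) =
      (1 - 1 / 2 ^ g) ^ (l.filter P).length := by
  induction l with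
  | nil =>
    have h := avg_samp_nil g (fun l => if ∀ e ∈ l, P e = false then (1 : ℝ) else 0)
    rw [h]
    simp
  | cons e t ih =>
    have h := avg_samp_cons g e t (fun l => if ∀ e ∈ l, P e = false then (1 : ℝ) else 0)
    rw [h, ih]
    by_cases hP : P e = true
    · have h2 : avg (g * t.length) (fun w =>
          if ∀ e' ∈ e :: samp g t w, P e' = false then (1 : ℝ) else 0) = 0 := by
        refine (avg_congr (g := fun _ => 0) fun w _ => ?_).trans (avg_const _ 0)
        rw [if_neg]
        intro h3
        rw [h3 e List.mem_cons_self] at hP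
        exact absurd hP (by simp)
      rw [h2, List.filter_cons_of_pos hP, List.length_cons, pow_succ]
      ring
    · have hP' : P e = false := by simpa using hP
      have h2 : avg (g * t.length) (fun w =>
          if ∀ e' ∈ e :: samp g t w, P e' = false then (1 : ℝ) else 0) =
          (1 - 1 / 2 ^ g) ^ (t.filter P).length := by
        rw [← ih]
        refine avg_congr fun w _ => ?_
        simp [hP']
      rw [h2, List.filter_cons_of_neg hP]
      ring

theorem rank_sum {α : Type} (le : α → α → Prop) (q : ℝ) (h0 : 0 ≤ q) (h1 : q ≤ 1) (l : List α)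
    (tot : ∀ a ∈ l, ∀ b ∈ l, le a b ∨ le b a)
    (tr : ∀ a ∈ l, ∀ b ∈ l, ∀ c ∈ l, le a b → le b c → le a c) :
    (l.map (fun e => q ^ (l.filter (fun e' => decide (le e' e))).length)).sum ≤
      ∑ i ∈ Finset.range l.length, q ^ (i + 1) :=
  rank_aux le q h0 h1 l.length l rfl tot tr

theorem avg_report {V : Type} {Q : Query V} {l : List El} {m : ℕ} (h : Good Q l m) (g : ℕ) :
    avg (g * l.length) (fun w => ((l.filter (Q.F (exact Q (samp g l w)))).length : ℝ)) ≤
      2 ^ g := by
  set q : ℝ := 1 - 1 / 2 ^ g with hq
  have hg1 : (1 : ℝ) ≤ 2 ^ g := one_le_pow₀ (by norm_num)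
  have hg0 : (0 : ℝ) < 2 ^ g := by linarith
  have hp0 : (0 : ℝ) < 1 / 2 ^ g := by positivity
  have hp1 : (1 : ℝ) / 2 ^ g ≤ 1 := by rw [div_le_one hg0]; exact hg1
  have hq0 : 0 ≤ q := by rw [hq]; linarith
  have hq1 : q ≤ 1 := by rw [hq]; linarith
  let le : El → El → Prop := fun e' e =>
    ∃ a b, Q.val e = some a ∧ Q.val e' = some b ∧ Q.lt a b = false
  let l1 : List El := l.filter (fun e => (Q.val e).isSome)
  -- the indicator for one element
  have key : ∀ e ∈ l, avg (g * l.length) (fun w =>
      if Q.F (exact Q (samp g l w)) e = true then (1 : ℝ) else 0) =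
      if (Q.val e).isSome = true then q ^ (l1.filter (fun e' => decide (le e' e))).length
        else 0 := by
    intro e he
    by_cases hv : (Q.val e).isSome = true
    · obtain ⟨a, ha⟩ := Option.isSome_iff_exists.1 hv
      rw [if_pos hv]
      have h1 : l1.filter (fun e' => decide (le e' e)) = l.filter (fun e' => decide (le e' e)) := by
        rw [List.filter_filter]
        refine List.filter_congr fun e' _ => ?_
        by_cases hle : le e' e
        · obtain ⟨a', b, h2, h3, h4⟩ := hle
          rw [h3]
          simp
        · rw [decide_eq_false hle]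
          simp
      rw [h1, ← avg_avoid]
      refine avg_congr fun w _ => ?_
      have hsub : ∀ e' ∈ samp g l w, e' ∈ l := samp_sub g l w
      have hbest := best_exact h hsub
      have hsel : Q.F (exact Q (samp g l w)) e = true ↔
          ∀ e' ∈ samp g l w, decide (le e' e) = false := by
        rcases hbest with ⟨hy, hn⟩ | ⟨b0, hy, ⟨e0, he0, hv0⟩, hmin⟩
        · rw [h.sel _ (Or.inl hy) e he, hy]
          constructor
          · intro _ e' he'
            apply decide_eq_false
            rintro ⟨a', b, _, h3, _⟩
            rw [hn e' he'] at h3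
            exact absurd h3 (by simp)
          · intro _
            exact ⟨a, ha, fun b hb => absurd hb (by simp)⟩
        · have hiv0 : isV Q l b0 := ⟨e0, hsub e0 he0, hv0⟩
          have hiva : isV Q l a := ⟨e, he, ha⟩
          rw [h.sel _ (Or.inr ⟨b0, hy, hiv0⟩) e he, hy]
          constructor
          · rintro ⟨a1, ha1, hlt⟩ e' he'
            have haa : a1 = a := by
              rw [ha] at ha1
              exact (Option.some.inj ha1).symm
            subst haa
            have hlt0 : Q.lt a1 b0 = true := hlt b0 rfl
            apply decide_eq_false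
            rintro ⟨a', c, h2, h3, h4⟩
            have haa' : a' = a1 := by
              rw [ha] at h2
              exact (Option.some.inj h2).symm
            subst haa'
            have hivc : isV Q l c := ⟨e', hsub e' he', h3⟩
            have h5 : Q.lt c b0 = false := hmin e' he' c h3
            by_cases h6 : Q.lt b0 c = true
            · have h7 := h.trans a' b0 c hiva hiv0 hivc hlt0 h6
              rw [h7] at h4
              exact absurd h4 (by simp)
            · have h7 : b0 = c := h.total b0 c hiv0 hivc (by simpa using h6) h5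
              subst h7
              rw [hlt0] at h4
              exact absurd h4 (by simp)
          · intro hall
            refine ⟨a, ha, fun b hb => ?_⟩
            have hbb : b0 = b := by simpa using hb
            subst hbb
            have h8 := hall e0 he0
            by_contra h9
            exact absurd (show le e0 e from ⟨a, b0, ha, hv0, by simpa using h9⟩)
              (of_decide_eq_false h8)
      by_cases hc : Q.F (exact Q (samp g l w)) e = true
      · rw [if_pos hc, if_pos (hsel.1 hc)]
      · rw [if_neg hc, if_neg (fun h' => hc (hsel.2 h'))]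
    · rw [if_neg hv]
      have hv' : Q.val e = none := by simpa using hv
      refine (avg_congr (g := fun _ => 0) fun w _ => ?_).trans (avg_const _ 0)
      rw [if_neg]
      intro hc
      have hsub : ∀ e' ∈ samp g l w, e' ∈ l := samp_sub g l w
      have hyv : exact Q (samp g l w) = none ∨
          ∃ b, exact Q (samp g l w) = some b ∧ isV Q l b := by
        rcases best_exact h hsub with ⟨hy, _⟩ | ⟨b0, hy, ⟨e0, he0, hv0⟩, _⟩
        · exact Or.inl hy
        · exact Or.inr ⟨b0, hy, e0, hsub e0 he0, hv0⟩
      obtain ⟨a, ha, _⟩ := (h.sel _ hyv e he).1 hc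
      rw [hv'] at ha
      exact absurd ha (by simp)
  have hmem1 : ∀ e ∈ l1, e ∈ l ∧ ∃ a, Q.val e = some a := by
    intro e he
    rw [List.mem_filter] at he
    exact ⟨he.1, Option.isSome_iff_exists.1 he.2⟩
  have tot : ∀ a ∈ l1, ∀ b ∈ l1, le a b ∨ le b a := by
    intro e he e' he'
    obtain ⟨h1, a, ha⟩ := hmem1 e he
    obtain ⟨h2, b, hb⟩ := hmem1 e' he'
    by_cases hlt : Q.lt a b = true
    · left
      exact ⟨b, a, hb, ha, h.asymm a b ⟨e, h1, ha⟩ ⟨e', h2, hb⟩ hlt⟩
    · right
      exact ⟨a, b, ha, hb, by simpa using hlt⟩
  have tr : ∀ a ∈ l1, ∀ b ∈ l1, ∀ c ∈ l1, le a b → le b c → le a c := by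
    rintro ex hx ey hy ez hz ⟨y, x, hy1, hx1, h1⟩ ⟨z, y', hz1, hy2, h2⟩
    have hyy : y' = y := by
      rw [hy1] at hy2
      exact (Option.some.inj hy2).symm
    subst hyy
    refine ⟨z, x, hz1, hx1, ?_⟩
    by_contra h3
    have h3' : Q.lt z x = true := by simpa using h3
    have vx : isV Q l x := ⟨ex, (hmem1 ex hx).1, hx1⟩
    have vy : isV Q l y' := ⟨ey, (hmem1 ey hy).1, hy1⟩
    have vz : isV Q l z := ⟨ez, (hmem1 ez hz).1, hz1⟩
    by_cases h4 : Q.lt y' z = true
    · have h5 := h.trans y' z x vy vz vx h4 h3'
      rw [h5] at h1
      exact absurd h1 (by simp)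
    · have h5 : y' = z := h.total y' z vy vz (by simpa using h4) h2
      rw [h5, h3'] at h1
      exact absurd h1 (by simp)
  have hrank := rank_sum le q hq0 hq1 l1 tot tr
  rw [avg_filter (g * l.length) (fun w => Q.F (exact Q (samp g l w))) l,
    List.map_congr_left key]
  have h3 : (l.map (fun e => if (Q.val e).isSome = true then
      q ^ (l1.filter (fun e' => decide (le e' e))).length else 0)).sum =
      (l1.map (fun e => q ^ (l1.filter (fun e' => decide (le e' e))).length)).sum := by
    have gen : ∀ (f : El → ℝ) (L : List El),
        (L.map (fun e => if (Q.val e).isSome = true then f e else 0)).sum =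
        ((L.filter (fun e => (Q.val e).isSome)).map f).sum := by
      intro f L
      induction L with
      | nil => rfl
      | cons e t ih =>
        by_cases hc : (Q.val e).isSome = true
        · rw [List.filter_cons_of_pos (p := fun e => (Q.val e).isSome) hc, List.map_cons,
            List.map_cons, List.sum_cons, List.sum_cons, ih, if_pos hc]
        · rw [List.filter_cons_of_neg (p := fun e => (Q.val e).isSome) hc, List.map_cons,
            List.sum_cons, ih, if_neg hc, zero_add]
    exact gen _ l
  rw [h3]
  refine hrank.trans ?_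
  have h4 := geo q l1.length
  have h5 : (1 : ℝ) - q = 1 / 2 ^ g := by rw [hq]; ring
  have h6 : q * (1 - q ^ l1.length) ≤ 1 := by
    have : 0 ≤ q ^ l1.length := pow_nonneg hq0 _
    have : q ^ l1.length ≤ 1 := pow_le_one₀ hq0 hq1
    nlinarith
  rw [← h4, h5] at h6
  rw [one_div, inv_mul_le_iff₀ hg0, mul_one] at h6
  exact h6

end SQ
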