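import Pool.Agent.Lib.SQ.BRound
import Pool.Agent.Lib.SQ.BSamp

/-!
# SQ.BMain: the expected cost of a query

`und_le_sum`: `und T cs ≤ ∑_{τ ∈ T} und [τ] cs`: for every class, if `decAll T C` is false then some
`τ ∈ T` is not decided, so `|C.2|` occurs in the sum; induction on `cs` (sums of sums), or induction
on `T`: `und (τ :: T) cs ≤ und [τ] cs + und T cs` by cases for every class.
`avg_und`: `nBits = g n + 9 ℓ r`, `avg_append`; for fixed first part `u` the threshold
`exact Q (samp g l u)` is fixed (`samp_append`), the tests are at most `m`, and each has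
`und_build_avg` with `und [τ] [([], l)] ≤ n` (`avg_mono`, `avg_fadd`/`List` sums by induction on the
list of tests); `avg_mono` and `avg_const` for the average over `u`.
`avg_askCost`: `askCost` is the sum of four terms (`avg_fadd`): the sample `≤ n / 2 ^ g`
(`avg_samp_length`), `sizeC ≤ 8 ^ r (3 r + 1)` (`sizeC_build`), `avg_und`, and the report
(`report_perm`, length of a permutation; `avg_report`).  The sample and the report only depend on
the first `g n` bits: `samp_append`, `avg_append`, `avg_const`.
`pow_3072`: `(1 - 1 / 3072) ^ (3072 g) ≤ 1 / 2 ^ g`: `1 - 1/3072 ≤ exp (-1/3072)`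
(`Real.one_sub_le_exp_neg`), so the power is at most `exp (-g)`, and `exp 1 ≥ 2`
(`Real.add_one_le_exp`).
-/

namespace SQ

open SFA Classical

namespace BMainAux

theorem und_cons_le (τ : Test) (T : List Test) (cs : List Cls) :
    und (τ :: T) cs ≤ und [τ] cs + und T cs := by
  induction cs with
  | nil => simp [und]
  | cons C cs ih =>
    rw [und_cons (τ :: T), und_cons [τ], und_cons T]
    have h : (if decAll (τ :: T) C = true then 0 else C.2.length) ≤
        (if decAll [τ] C = true then 0 else C.2.length) +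
          (if decAll T C = true then 0 else C.2.length) := by
      by_cases h1 : decAll [τ] C = true
      · by_cases h2 : decAll T C = true
        · have h3 : decAll (τ :: T) C = true := by
            unfold decAll at h1 h2 ⊢
            rw [List.all_cons]
            rw [List.all_cons, List.all_nil, Bool.and_true] at h1
            rw [h1, h2]; rfl
          rw [if_pos h3]; exact Nat.zero_le _
        · rw [if_neg h2]
          split_ifs <;> omega
      · rw [if_neg h1]
        split_ifs <;> omega
    omega

theorem und_nil (cs : List Cls) : und [] cs = 0 := by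
  induction cs with
  | nil => simp [und]
  | cons C cs ih =>
    rw [und_cons, ih]
    simp [decAll]

theorem avg_list_sum {α : Type} (T : List α) (m : ℕ) (f : α → List Bool → ℝ) :
    avg m (fun w => (T.map (fun τ => f τ w)).sum) = (T.map (fun τ => avg m (f τ))).sum := by
  induction T with
  | nil => simpa using avg_const m 0
  | cons τ T ih =>
    simp only [List.map_cons, List.sum_cons]
    rw [avg_fadd, ih]

theorem cast_und_sum (T : List Test) (cs : List Cls) :
    (((T.map (fun τ => und [τ] cs)).sum : ℕ) : ℝ) = (T.map (fun τ => (und [τ] cs : ℝ))).sum := by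
  induction T with
  | nil => simp
  | cons τ T ih =>
    simp only [List.map_cons, List.sum_cons]
    rw [Nat.cast_add, ih]

theorem sum_le_len {α : Type} (T : List α) (f : α → ℝ) (c : ℝ) (h : ∀ τ ∈ T, f τ ≤ c) :
    (T.map f).sum ≤ T.length * c := by
  induction T with
  | nil => simp
  | cons τ T ih =>
    simp only [List.map_cons, List.sum_cons, List.length_cons]
    have h1 := h τ (by simp)
    have h2 := ih (fun τ hτ => h τ (by simp [hτ]))
    push_cast
    linarith

theorem und_start (τ : Test) (l : List El) : und [τ] [(([] : List Cert), l)] ≤ l.length := by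
  simp [und, decAll]

end BMainAux

theorem und_le_sum (T : List Test) (cs : List Cls) :
    und T cs ≤ (T.map (fun τ => und [τ] cs)).sum := by
  induction T with
  | nil => rw [BMainAux.und_nil]; exact Nat.zero_le _
  | cons τ T ih =>
    have h := BMainAux.und_cons_le τ T cs
    simp only [List.map_cons, List.sum_cons]
    omega

namespace BMainAux

theorem avg_und {T : List Test} {m : ℕ} (hT : T.length ≤ m) (hpl : ∀ τ ∈ T, τ.1 ≤ 2)
    (ℓ r : ℕ) (l : List El) (hl : l.length ≤ 2 ^ ℓ) :
    avg (9 * ℓ * r) (fun w => (und T (build ℓ r w [([], l)]) : ℝ)) ≤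
      m * ((1 - 1 / 3072) ^ r * l.length) := by
  have hsm : small ℓ [(([] : List Cert), l)] := by
    intro C hC
    rw [List.mem_singleton] at hC
    rw [hC]; exact hl
  have h1 : avg (9 * ℓ * r) (fun w => (und T (build ℓ r w [([], l)]) : ℝ)) ≤
      avg (9 * ℓ * r) (fun w => (T.map (fun τ => (und [τ] (build ℓ r w [([], l)]) : ℝ))).sum) := by
    apply avg_mono
    intro w _
    rw [← cast_und_sum]
    exact_mod_cast und_le_sum T _
  rw [avg_list_sum T (9 * ℓ * r) (fun τ w => (und [τ] (build ℓ r w [([], l)]) : ℝ))] at h1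
  have hc0 : (0 : ℝ) ≤ (1 - 1 / 3072) ^ r := by
    apply pow_nonneg; norm_num
  have h2 := sum_le_len T (fun τ => avg (9 * ℓ * r)
    (fun w => (und [τ] (build ℓ r w [([], l)]) : ℝ))) ((1 - 1 / 3072) ^ r * l.length)
    (by
      intro τ hτ
      refine le_trans (und_build_avg τ (hpl τ hτ) r hsm) ?_
      apply mul_le_mul_of_nonneg_left _ hc0
      exact_mod_cast und_start τ l)
  have h3 : (T.length : ℝ) * ((1 - 1 / 3072) ^ r * l.length) ≤
      m * ((1 - 1 / 3072) ^ r * l.length) := by
    apply mul_le_mul_of_nonneg_right (by exact_mod_cast hT)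
    exact mul_nonneg hc0 (Nat.cast_nonneg _)
  exact le_trans h1 (le_trans h2 h3)

theorem avg_first (a b : ℕ) (f : List Bool → ℝ) (g : List Bool → ℝ)
    (h : ∀ u v : List Bool, u.length = a → f (u ++ v) = g u) : avg (a + b) f = avg a g := by
  rw [avg_append]
  apply avg_congr
  intro u hu
  have : avg b (fun v => f (u ++ v)) = avg b (fun _ => g u) := by
    apply avg_congr
    intro v _
    exact h u v hu
  rw [this, avg_const]

end BMainAux

theorem avg_askCost {V : Type} {Q : Query V} {l : List El} {m : ℕ} (h : Good Q l m)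
    (ℓ g r : ℕ) (hl : l.length ≤ 2 ^ ℓ) :
    avg (nBits ℓ g r l.length) (fun w => (askCost Q (mkStr ℓ g r l w) : ℝ)) ≤
      l.length / 2 ^ g + 8 ^ r * (3 * r + 1) + m * ((1 - 1 / 3072) ^ r * l.length) + 2 ^ g := by
  have e : avg (nBits ℓ g r l.length) (fun w => (askCost Q (mkStr ℓ g r l w) : ℝ)) =
      avg (nBits ℓ g r l.length) (fun w => ((samp g l w).length : ℝ)) +
      avg (nBits ℓ g r l.length)
        (fun w => (sizeC (build ℓ r (w.drop (g * l.length)) [([], l)]) : ℝ)) +
      avg (nBits ℓ g r l.length)
        (fun w => (und (Q.T (exact Q (samp g l w)))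
          (build ℓ r (w.drop (g * l.length)) [([], l)]) : ℝ)) +
      avg (nBits ℓ g r l.length)
        (fun w => ((report (Q.F (exact Q (samp g l w))) (Q.T (exact Q (samp g l w)))
          (build ℓ r (w.drop (g * l.length)) [([], l)])).length : ℝ)) := by
    rw [← avg_fadd, ← avg_fadd, ← avg_fadd]
    apply avg_congr
    intro w _
    simp only [askCost, mkStr]
    push_cast
    ring
  rw [e]
  have t1 : avg (nBits ℓ g r l.length) (fun w => ((samp g l w).length : ℝ)) ≤
      l.length / 2 ^ g := by
    unfold nBits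
    rw [BMainAux.avg_first (g * l.length) (9 * ℓ * r) (fun w => ((samp g l w).length : ℝ))
      (fun w => ((samp g l w).length : ℝ))
      (fun u v hu => by rw [samp_append g l u v (le_of_eq hu.symm)])]
    exact avg_samp_length g l
  have t2 : avg (nBits ℓ g r l.length)
        (fun w => (sizeC (build ℓ r (w.drop (g * l.length)) [([], l)]) : ℝ)) ≤
      8 ^ r * (3 * r + 1) := by
    have h1 := avg_mono (m := nBits ℓ g r l.length)
      (f := fun w => (sizeC (build ℓ r (w.drop (g * l.length)) [([], l)]) : ℝ))
      (g := fun _ => (8 : ℝ) ^ r * (3 * r + 1))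
      (fun w _ => by exact_mod_cast sizeC_build ℓ r (w.drop (g * l.length)) l)
    rwa [avg_const] at h1
  have t3 : avg (nBits ℓ g r l.length)
        (fun w => (und (Q.T (exact Q (samp g l w)))
          (build ℓ r (w.drop (g * l.length)) [([], l)]) : ℝ)) ≤
      m * ((1 - 1 / 3072) ^ r * l.length) := by
    unfold nBits
    rw [avg_append]
    have h1 := avg_mono (m := g * l.length)
      (f := fun u => avg (9 * ℓ * r) (fun v => (und (Q.T (exact Q (samp g l (u ++ v))))
          (build ℓ r ((u ++ v).drop (g * l.length)) [([], l)]) : ℝ)))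
      (g := fun _ => (m : ℝ) * ((1 - 1 / 3072) ^ r * l.length))
      (by
        intro u hu
        have e1 : avg (9 * ℓ * r) (fun v => (und (Q.T (exact Q (samp g l (u ++ v))))
            (build ℓ r ((u ++ v).drop (g * l.length)) [([], l)]) : ℝ)) =
            avg (9 * ℓ * r) (fun v => (und (Q.T (exact Q (samp g l u)))
              (build ℓ r v [([], l)]) : ℝ)) := by
          apply avg_congr
          intro v _
          rw [samp_append g l u v (le_of_eq hu.symm), List.drop_left' hu]
        exact le_of_eq_of_le e1 (BMainAux.avg_und (h.len _) (h.pl _) ℓ r l hl))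
    rwa [avg_const] at h1
  have t4 : avg (nBits ℓ g r l.length)
        (fun w => ((report (Q.F (exact Q (samp g l w))) (Q.T (exact Q (samp g l w)))
          (build ℓ r (w.drop (g * l.length)) [([], l)])).length : ℝ)) ≤ 2 ^ g := by
    have e1 : avg (nBits ℓ g r l.length)
        (fun w => ((report (Q.F (exact Q (samp g l w))) (Q.T (exact Q (samp g l w)))
          (build ℓ r (w.drop (g * l.length)) [([], l)])).length : ℝ)) =
        avg (nBits ℓ g r l.length)
          (fun w => ((l.filter (Q.F (exact Q (samp g l w)))).length : ℝ)) := by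
      apply avg_congr
      intro w _
      rw [(report_perm (h.test (exact Q (samp g l w)))
        (okc_build ℓ r (w.drop (g * l.length)) (okc_start l))).length_eq]
    rw [e1]
    unfold nBits
    rw [BMainAux.avg_first (g * l.length) (9 * ℓ * r)
      (fun w => ((l.filter (Q.F (exact Q (samp g l w)))).length : ℝ))
      (fun w => ((l.filter (Q.F (exact Q (samp g l w)))).length : ℝ))
      (fun u v hu => by rw [samp_append g l u v (le_of_eq hu.symm)])]
    exact avg_report h g
  linarith

namespace BMainAux

theorem pow_half (N : ℕ) (hN : 0 < N) : (1 - 1 / (N : ℝ)) ^ N ≤ 1 / 2 := by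
  have hN' : (0 : ℝ) < N := by exact_mod_cast hN
  have hN1 : (1 : ℝ) ≤ N := by exact_mod_cast hN
  have h0 : 0 ≤ 1 - 1 / (N : ℝ) := by
    rw [sub_nonneg, div_le_one hN']; exact hN1
  have h1 : 1 - 1 / (N : ℝ) ≤ Real.exp (-(1 / (N : ℝ))) := Real.one_sub_le_exp_neg _
  have h2 : (1 - 1 / (N : ℝ)) ^ N ≤ Real.exp (-(1 / (N : ℝ))) ^ N := pow_le_pow_left₀ h0 h1 N
  have h3 : Real.exp (-(1 / (N : ℝ))) ^ N = Real.exp (-1) := by
    rw [← Real.exp_nat_mul]
    congr 1
    field_simp
  have h4 : Real.exp (-1) ≤ 1 / 2 := by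
    rw [Real.exp_neg, one_div]
    have h5 := Real.add_one_le_exp (1 : ℝ)
    exact inv_anti₀ (by norm_num) (by linarith)
  rw [h3] at h2
  exact le_trans h2 h4

end BMainAux

theorem pow_3072 (g : ℕ) : (1 - 1 / 3072 : ℝ) ^ (3072 * g) ≤ 1 / 2 ^ g := by
  have h := BMainAux.pow_half 3072 (by norm_num)
  rw [Nat.cast_ofNat] at h
  have h0 : (0 : ℝ) ≤ 1 - 1 / 3072 := by norm_num
  rw [pow_mul]
  calc ((1 - 1 / 3072 : ℝ) ^ 3072) ^ g ≤ (1 / 2) ^ g :=
        pow_le_pow_left₀ (pow_nonneg h0 _) h g
    _ = 1 / 2 ^ g := by rw [one_div, inv_pow, one_div]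

/-- the bound used by the algorithm -/
theorem avg_ask36 {V : Type} {Q : Query V} {l : List El} (h : Good Q l 36)
    (ℓ g : ℕ) (hl : l.length ≤ 2 ^ ℓ) :
    avg (nBits ℓ g (3072 * g) l.length)
      (fun w => (askCost Q (mkStr ℓ g (3072 * g) l w) : ℝ)) ≤
      37 * (l.length / 2 ^ g) + 8 ^ (3072 * g) * (9216 * g + 1) + 2 ^ g := by
  have h1 := avg_askCost h ℓ g (3072 * g) hl
  have h2 := pow_3072 g
  have h3 : (0 : ℝ) ≤ l.length := Nat.cast_nonneg _
  have h4 : (1 - 1 / 3072 : ℝ) ^ (3072 * g) * l.length ≤ l.length / 2 ^ g := by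
    calc (1 - 1 / 3072 : ℝ) ^ (3072 * g) * l.length ≤ 1 / 2 ^ g * l.length :=
          mul_le_mul_of_nonneg_right h2 h3
      _ = l.length / 2 ^ g := by ring
  push_cast at h1 ⊢
  linarith

end SQ
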