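import Pool.Agent.Lib.SQ.DS
import Pool.Agent.Lib.SQ.EDefs

/-!
# SQ.Q: the queries of the exploration as minimum queries of the search structure

All segments are directed to the right (`lexlt s.1 s.2`).  The exact answers are `lowF`, `upF` and
`bandF` (file `SQ.EDefs`).
-/

namespace SQ

open SFA Classical

noncomputable section

/-! ### the dual plane -/

/-- a positive number such that `Δx + lam * Δy > 0` for all segments of the list -/
def lam (S : List Seg) : ℝ :=
  S.foldl (fun a s => if 0 < s.2.re - s.1.re ∧ s.2.im - s.1.im < 0 then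
    min a ((s.2.re - s.1.re) / (2 * (s.1.im - s.2.im))) else a) 1

/-- the normalising factor of the line of `s` -/
def wt (l : ℝ) (s : Seg) : ℝ := (s.2.re - s.1.re) + l * (s.2.im - s.1.im)

/-- the point of the line of `s` in the dual plane -/
def lineP (l : ℝ) (s : Seg) : ℂ :=
  ⟨-(s.2.im - s.1.im) / wt l s,
    ((s.2.im - s.1.im) * s.1.re - (s.2.re - s.1.re) * s.1.im) / wt l s⟩

/-- the element of a segment -/
def mkEl (l : ℝ) (s : Seg) : El := (s, lineP l s)

/-- the elements of a list of segments -/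
def elts (S : List Seg) : List El := S.map (mkEl (lam S))

/-! ### tests -/

/-- `(pt j e).re - c` -/
def tx (j : ℕ) (c : ℝ) : Test := (j, 1, 0, -c)
/-- `(pt j e).im - c` -/
def ty (j : ℕ) (c : ℝ) : Test := (j, 0, 1, -c)
/-- `ori b (pt j e)` -/
def tq (j : ℕ) (b : Seg) : Test :=
  (j, -(b.2.im - b.1.im), b.2.re - b.1.re,
    (b.2.im - b.1.im) * b.1.re - (b.2.re - b.1.re) * b.1.im)
/-- the sign of `ori e.1 g` -/
def tp (l : ℝ) (g : ℂ) : Test := (2, g.re + l * g.im, 1, g.im)
/-- the sign of `cross (e.1.2 - e.1.1) d` -/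
def td (l : ℝ) (d : ℂ) : Test := (2, d.re + l * d.im, 0, d.im)

/-- `v` is lexicographically smaller than `pt j e` -/
def lexGt (j : ℕ) (v : ℂ) (e : El) : Bool :=
  ps (tx j v.re) e || (zr (tx j v.re) e && ps (ty j v.im) e)
/-- `pt j e` is lexicographically smaller than `v` -/
def lexLt (j : ℕ) (v : ℂ) (e : El) : Bool :=
  mi (tx j v.re) e || (zr (tx j v.re) e && mi (ty j v.im) e)

/-- the tests for the sign of an affine function -/
def sg (τ : Test) : List Test := [τ, ng τ]
/-- the tests for `lexGt` and `lexLt` -/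
def sgl (j : ℕ) (v : ℂ) : List Test := sg (tx j v.re) ++ sg (ty j v.im)
/-- the tests for `abE` and `blE` -/
def sgg (l : ℝ) (r : Seg) (v : ℂ) : List Test := sg (tp l (wp r v)) ++ sg (td l (r.2 - r.1))

/-! ### `lowF` and `upF` -/

/-- parameters: `true` for `up`, `false` for `low`; the point; the reference segment -/
abbrev PV := Bool × ℂ × Option Seg

/-- `act v e.1` -/
def actE (v : ℂ) (e : El) : Bool := !(lexGt 0 v e) && lexGt 1 v e
/-- `abv e.1 r v` -/
def abE (l : ℝ) (v : ℂ) (r : Seg) (e : El) : Bool :=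
  mi (tp l (wp r v)) e || (zr (tp l (wp r v)) e &&
    (if v.im < (wp r v).im then ps (td l (r.2 - r.1)) e else mi (td l (r.2 - r.1)) e))
/-- `blw e.1 r v` -/
def blE (l : ℝ) (v : ℂ) (r : Seg) (e : El) : Bool :=
  ps (tp l (wp r v)) e || (zr (tp l (wp r v)) e &&
    (if v.im < (wp r v).im then mi (td l (r.2 - r.1)) e else ps (td l (r.2 - r.1)) e))
/-- `colB e.1 s` -/
def colE (s : Seg) (e : El) : Bool := zr (tq 0 s) e && zr (tq 1 s) e
/-- `tieB e.1 s` -/
def tieE (s : Seg) (e : El) : Bool :=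
  lexGt 1 s.2 e || ((!(lexGt 1 s.2 e) && !(lexLt 1 s.2 e)) && lexLt 0 s.1 e)

/-- the value: the segment itself if it is a candidate -/
def valV (a : PV) (e : El) : Option Seg :=
  if (if a.1 then candU a.2.1 a.2.2 e.1 else candL a.2.1 a.2.2 e.1) then some e.1 else none

def ltV (a : PV) (s s' : Seg) : Bool := if a.1 then betU a.2.1 s s' else betL a.2.1 s s'

def FV (l : ℝ) (a : PV) (y : Option Seg) (e : El) : Bool :=
  actE a.2.1 e &&
    a.2.2.elim true (fun r => if a.1 then abE l a.2.1 r e else blE l a.2.1 r e) &&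
    y.elim true (fun s => (if a.1 then blE l a.2.1 s e else abE l a.2.1 s e) ||
      (colE s e && tieE s e))

def TV (l : ℝ) (a : PV) (y : Option Seg) : List Test :=
  sgl 0 a.2.1 ++ sgl 1 a.2.1 ++ a.2.2.elim [] (fun r => sgg l r a.2.1) ++
    y.elim [] (fun s => sgg l s a.2.1 ++ sg (tq 0 s) ++ sg (tq 1 s) ++ sgl 1 s.2 ++ sgl 0 s.1)

/-- the query for `lowF` (`a.1 = false`) and `upF` (`a.1 = true`) -/
def QV (l : ℝ) (a : PV) : Query Seg := ⟨valV a, ltV a, FV l a, TV l a⟩

/-! ### `bandF` -/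

/-- parameters: bottom, top, point -/
abbrev PW := Option Seg × Option Seg × ℂ

/-- the first candidate given by `e` -/
def valW (a : PW) (e : El) : Option ℂ := lexMinL (cnds a.1 a.2.1 a.2.2 e.1)

/-- endpoint number `j` of `e` is in the band, after `v`, before `y` -/
def endE (j : ℕ) (a : PW) (y : Option ℂ) (e : El) : Bool :=
  lexGt j a.2.2 e && y.elim true (fun y => lexLt j y e) &&
    (a.1.elim true (fun b => nn (tq j b) e) && a.2.1.elim true (fun t => nn (ng (tq j t)) e))

/-- the last point of `u` which has to be considered: its end, or `y` if this is before -/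
def endP (y : Option ℂ) (u : Seg) : ℂ := y.elim u.2 (fun y => if lexB u.2 y then u.2 else y)

/-- the end of `u` counts -/
def endF (y : Option ℂ) (u : Seg) : Bool := y.elim true (fun y => lexB u.2 y)

/-- `e` crosses `u` after `v` and before `m` (or at `m`, if `f`) -/
def crsE (l : ℝ) (v m : ℂ) (f : Bool) (u : Seg) (e : El) : Bool :=
  (!(ps (tq 0 u) e && ps (tq 1 u) e) && !(mi (tq 0 u) e && mi (tq 1 u) e)) &&
    (!(zr (td l (u.2 - u.1)) e) &&
    ((ps (tp l (wp u v)) e && mi (tp l (wp u m)) e) ||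
      (mi (tp l (wp u v)) e && ps (tp l (wp u m)) e) ||
      (zr (tp l (wp u v)) e && (lexB v (wp u v) && (lexB (wp u v) m || (f && ptEq (wp u v) m)))) ||
      (zr (tp l (wp u m)) e && (lexB v (wp u m) && (lexB (wp u m) m || (f && ptEq (wp u m) m))))))

/-- crossings with the optional segment `o` -/
def crsO (l : ℝ) (v : ℂ) (y : Option ℂ) (o : Option Seg) (e : El) : Bool :=
  o.elim false (fun u => crsE l v (endP y u) (endF y u) u e)

def FW (l : ℝ) (a : PW) (y : Option ℂ) (e : El) : Bool :=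
  (endE 0 a y e || endE 1 a y e) || (crsO l a.2.2 y a.1 e || crsO l a.2.2 y a.2.1 e)

/-- the tests for `crsO` and the band -/
def TC (l : ℝ) (v : ℂ) (y : Option ℂ) (o : Option Seg) : List Test :=
  o.elim [] (fun u => sg (tq 0 u) ++ sg (tq 1 u) ++ sg (td l (u.2 - u.1)) ++ sg (tp l (wp u v)) ++
    sg (tp l (wp u (endP y u))))

def TW (l : ℝ) (a : PW) (y : Option ℂ) : List Test :=
  sgl 0 a.2.2 ++ sgl 1 a.2.2 ++ y.elim [] (fun y => sgl 0 y ++ sgl 1 y) ++
    TC l a.2.2 y a.1 ++ TC l a.2.2 y a.2.1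

/-- the query for `bandF` -/
def QW (l : ℝ) (a : PW) : Query ℂ := ⟨valW a, lexB, FW l a, TW l a⟩

/-! ### the oracles of the exploration -/

/-- the data for the oracles: `lam` and the search structure -/
abbrev Dat := ℝ × Str

def lowD (D : Dat) (v : ℂ) (r : Option Seg) : Option Seg := ask (QV D.1 (false, v, r)) D.2
def upD (D : Dat) (v : ℂ) (r : Option Seg) : Option Seg := ask (QV D.1 (true, v, r)) D.2
def bandD (D : Dat) (b t : Option Seg) (v : ℂ) : Option ℂ := ask (QW D.1 (b, t, v)) D.2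

/-- the oracles given by the search structure -/
def orcD (D : Dat) : Orc := ⟨lowD D, upD D, bandD D⟩

end

end SQ
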