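import Pool.Agent.Lib.SQ.RTst

/-!
# SQ.RExp (package R, owner helper8): costs of the searches and of the exploration of `SQ.EDefs`

* `RC.bestL`, `RC.lowF`, `RC.upF`, `RC.bandF`: the exact searches on a plain list, linear cost.
* `RC.exploreO`: the exploration with oracles given by data of type `Dat`, for arbitrary costs of
  the oracles: the cost of `N` steps is the cost of the root + the sum of the costs of the queries
  over the cells done + `(N + 1) ^ 2`.
* `RC.wit`: linear cost.
-/

namespace SQ

open P7m SFA Classical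

noncomputable section

variable {A B C D : Type} [Enc A] [Enc B] [Enc C] [Enc D]

/-! ### searches -/

/-- the search for the best element in a context -/
theorem RC.bestL {l : A → List Seg} {cand : A → Seg → Bool} {bet : A → Seg → Seg → Bool}
    {cl : A → ℕ} (hl : P7m.RC l cl) (hc : SFA.CT (fun p : A × Seg => cand p.1 p.2))
    (hb : SFA.CT (fun p : A × Seg × Seg => bet p.1 p.2.1 p.2.2)) :
    P7m.RC (fun a => bestL (cand a) (bet a) (l a)) (fun a => cl a + (l a).length) := by
  unfold SQ.bestL
  have hstep : SFA.CT (fun p : A × Option Seg × Seg =>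
      bestStep (cand p.1) (bet p.1) p.2.1 p.2.2) := by
    unfold bestStep
    have h1 : SFA.CT (fun p : A × Option Seg × Seg => cand p.1 p.2.2) :=
      SFA.CT.comp (g := fun p : A × Seg => cand p.1 p.2) hc
        (SFA.CT.pair (SFA.CT.fst SFA.CT.id) (SFA.CT.snd (SFA.CT.snd SFA.CT.id)))
    have h2 : SFA.CT (fun p : (A × Option Seg × Seg) × Seg => bet p.1.1 p.1.2.2 p.2) :=
      SFA.CT.comp (g := fun p : A × Seg × Seg => bet p.1 p.2.1 p.2.2) hb
        (SFA.CT.pair (SFA.CT.fst (SFA.CT.fst SFA.CT.id))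
          (SFA.CT.pair (SFA.CT.snd (SFA.CT.snd (SFA.CT.fst SFA.CT.id)))
            (SFA.CT.snd SFA.CT.id)))
    have h3 : SFA.CT (fun p : A × Option Seg × Seg => p.2.2) :=
      SFA.CT.snd (SFA.CT.snd SFA.CT.id)
    have h4 : SFA.CT (fun p : A × Option Seg × Seg => p.2.1) :=
      SFA.CT.fst (SFA.CT.snd SFA.CT.id)
    have h5 : SFA.CT (fun p : (A × Option Seg × Seg) × Seg => p.1.2.2) :=
      SFA.CT.snd (SFA.CT.snd (SFA.CT.fst SFA.CT.id))
    exact SFA.CT.cond h1 (SFA.CT.elim
      (s := fun (p : A × Option Seg × Seg) e => if bet p.1 p.2.2 e then some p.2.2 else some e)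
      h4 (SFA.CT.some h3)
      (SFA.CT.cond h2 (SFA.CT.some h5) (SFA.CT.some (SFA.CT.snd SFA.CT.id)))) h4
  refine (P7m.RC.foldl (f := fun a o s => bestStep (cand a) (bet a) o s)
    (b := fun _ => (none : Option Seg)) hl P7m.RC.none hstep).of_le (fun a => ?_)
  have h1 := foldCost_le_const (fun o s => bestStep (cand a) (bet a) o s) (fun _ _ => 0) 0
    (l a) none (fun _ _ _ => le_refl _)
  simp only [zero_add, one_mul] at h1 ⊢
  omega

private theorem pc {f : A → B} (hf : SFA.CT f) {g : C → A} (hg : SFA.CT g) :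
    SFA.CT (fun c => f (g c)) := SFA.CT.comp hf hg

theorem RC.lowF {l : A → List Seg} {v : A → ℂ} {r : A → Option Seg} {cl : A → ℕ}
    (hl : P7m.RC l cl) (hv : SFA.CT v) (hr : SFA.CT r) :
    P7m.RC (fun a => lowF (l a) (v a) (r a)) (fun a => cl a + (l a).length) :=
  RC.bestL (cand := fun a => candL (v a) (r a)) (bet := fun a => betL (v a)) hl
    (CT.candL (pc hv (SFA.CT.fst SFA.CT.id)) (pc hr (SFA.CT.fst SFA.CT.id))
      (SFA.CT.snd SFA.CT.id))
    (CT.betL (pc hv (SFA.CT.fst SFA.CT.id)) (SFA.CT.fst (SFA.CT.snd SFA.CT.id))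
      (SFA.CT.snd (SFA.CT.snd SFA.CT.id)))

theorem RC.upF {l : A → List Seg} {v : A → ℂ} {r : A → Option Seg} {cl : A → ℕ}
    (hl : P7m.RC l cl) (hv : SFA.CT v) (hr : SFA.CT r) :
    P7m.RC (fun a => upF (l a) (v a) (r a)) (fun a => cl a + (l a).length) :=
  RC.bestL (cand := fun a => candU (v a) (r a)) (bet := fun a => betU (v a)) hl
    (CT.candU (pc hv (SFA.CT.fst SFA.CT.id)) (pc hr (SFA.CT.fst SFA.CT.id))
      (SFA.CT.snd SFA.CT.id))
    (CT.betU (pc hv (SFA.CT.fst SFA.CT.id)) (SFA.CT.fst (SFA.CT.snd SFA.CT.id))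
      (SFA.CT.snd (SFA.CT.snd SFA.CT.id)))

/-- lexicographic minimum, linear cost -/
theorem RC.lexMinL {l : A → List ℂ} {cl : A → ℕ} (hl : P7m.RC l cl) :
    P7m.RC (fun a => lexMinL (l a)) (fun a => cl a + (l a).length) := by
  unfold SQ.lexMinL
  refine (P7m.RC.foldl (f := fun (_ : A) o z => minStep o z)
    (b := fun _ => (none : Option ℂ)) hl P7m.RC.none
    (CT.minStep (SFA.CT.fst (SFA.CT.snd SFA.CT.id)) (SFA.CT.snd (SFA.CT.snd SFA.CT.id)))).of_le
    (fun a => ?_)
  have h1 := foldCost_le_const (fun o z => minStep o z) (fun _ _ => 0) 0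
    (l a) none (fun _ _ _ => le_refl _)
  simp only [zero_add, one_mul] at h1 ⊢
  omega

private theorem sum_map_le {X : Type} (l : List X) (f : X → ℕ) (K : ℕ)
    (h : ∀ x ∈ l, f x ≤ K) : (l.map f).sum ≤ K * l.length := by
  induction l with
  | nil => simp
  | cons x t ih =>
    rw [List.map_cons, List.sum_cons, List.length_cons]
    have h1 := h x (by simp)
    have h2 := ih (fun y hy => h y (by simp [hy]))
    have h3 : K * (t.length + 1) = K * t.length + K := by ring
    omega

private theorem flatMap_length_le {X Y : Type} (l : List X) (f : X → List Y) (L : ℕ)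
    (h : ∀ x, (f x).length ≤ L) : (l.flatMap f).length ≤ L * l.length := by
  induction l with
  | nil => simp
  | cons x t ih =>
    rw [List.flatMap_cons, List.length_append, List.length_cons]
    have h1 := h x
    have h3 : L * (t.length + 1) = L * t.length + L := by ring
    omega

theorem RC.bandF {l : A → List Seg} {b t : A → Option Seg} {v : A → ℂ} {cl : A → ℕ}
    (hl : P7m.RC l cl) (hb : SFA.CT b) (ht : SFA.CT t) (hv : SFA.CT v) :
    P7m.RC (fun a => bandF (l a) (b a) (t a) (v a)) (fun a => cl a + (l a).length) := by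
  unfold SQ.bandF
  have h1 := RC.lexMinL (P7m.RC.flatMap (f := fun a s => cnds (b a) (t a) (v a) s) hl
    (CT.cnds (pc hb (SFA.CT.fst SFA.CT.id)) (pc ht (SFA.CT.fst SFA.CT.id))
      (pc hv (SFA.CT.fst SFA.CT.id)) (SFA.CT.snd SFA.CT.id)))
  refine h1.mono 9 (fun a => ?_)
  have h2 := flatMap_length_le (l a) (fun s => cnds (b a) (t a) (v a) s) 4
    (fun s => cnds_length _ _ _ _)
  have h3 := sum_map_le (l a) (fun x => 0 + (cnds (b a) (t a) (v a) x).length + 1) 5
    (fun x _ => by have := cnds_length (b a) (t a) (v a) x; omega)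
  try simp only at h2 h3 ⊢
  omega

/-! ### neighbours -/

section Nb

variable {X : Type} [Enc X]

/-- cost of the queries for the right neighbours of `c` -/
def nbRCost (cL cU : ℂ → Option Seg → ℕ) (cB : Option Seg → Option Seg → ℂ → ℕ) (O : Orc)
    (c : Cell) : ℕ :=
  c.q.elim 0 (fun v =>
    (if offB c.t v then cL v c.t + cB (O.low v c.t) c.t v else 0) +
    (if offB c.b v then cU v c.b + cB c.b (O.up v c.b) v else 0))

/-- costs of the three oracles -/
structure OrcCost where
  low : ℂ → Option Seg → ℕ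
  up : ℂ → Option Seg → ℕ
  band : Option Seg → Option Seg → ℂ → ℕ

/-- cost of the queries for all neighbours of `c` -/
def nbsCost (O O' : Orc) (k k' : OrcCost) (c : Cell) : ℕ :=
  nbRCost k.low k.up k.band O c + nbRCost k'.low k'.up k'.band O' (negC c)

/-- cost of the queries for the cell of `x` -/
def rootCost (O : Orc) (k k' : OrcCost) (x : ℂ) : ℕ :=
  k.low x (some (x, x + 1)) + k.up x (some (x, x + 1)) +
    k.band (O.low x (some (x, x + 1))) (O.up x (some (x, x + 1))) x +
    k'.band ((O.up x (some (x, x + 1))).map negS) ((O.low x (some (x, x + 1))).map negS) (-x)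

/-- `k` bounds the costs of the oracles `O` which depend on data of type `X` -/
structure OrcRC (O : X → Orc) (k : X → OrcCost) : Prop where
  low : P7m.RC (fun p : X × ℂ × Option Seg => (O p.1).low p.2.1 p.2.2)
    (fun p => (k p.1).low p.2.1 p.2.2)
  up : P7m.RC (fun p : X × ℂ × Option Seg => (O p.1).up p.2.1 p.2.2)
    (fun p => (k p.1).up p.2.1 p.2.2)
  band : P7m.RC (fun p : X × Option Seg × Option Seg × ℂ => (O p.1).band p.2.1 p.2.2.1 p.2.2.2)
    (fun p => (k p.1).band p.2.1 p.2.2.1 p.2.2.2)

theorem OrcRC.lowA {O : X → Orc} {k : X → OrcCost} (h : OrcRC O k) {d : A → X} {v : A → ℂ}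
    {r : A → Option Seg} (hd : SFA.CT d) (hv : SFA.CT v) (hr : SFA.CT r) :
    P7m.RC (fun a => (O (d a)).low (v a) (r a)) (fun a => (k (d a)).low (v a) (r a)) :=
  (P7m.RC.comp (g := fun p : X × ℂ × Option Seg => (O p.1).low p.2.1 p.2.2) h.low
    (SFA.CT.pair hd (SFA.CT.pair hv hr))).of_le (fun a => by simp)

theorem OrcRC.upA {O : X → Orc} {k : X → OrcCost} (h : OrcRC O k) {d : A → X} {v : A → ℂ}
    {r : A → Option Seg} (hd : SFA.CT d) (hv : SFA.CT v) (hr : SFA.CT r) :
    P7m.RC (fun a => (O (d a)).up (v a) (r a)) (fun a => (k (d a)).up (v a) (r a)) :=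
  (P7m.RC.comp (g := fun p : X × ℂ × Option Seg => (O p.1).up p.2.1 p.2.2) h.up
    (SFA.CT.pair hd (SFA.CT.pair hv hr))).of_le (fun a => by simp)

theorem OrcRC.bandA {O : X → Orc} {k : X → OrcCost} (h : OrcRC O k) {d : A → X}
    {b t : A → Option Seg} {v : A → ℂ} {cb ct : A → ℕ} (hd : SFA.CT d) (hb : P7m.RC b cb)
    (ht : P7m.RC t ct) (hv : SFA.CT v) :
    P7m.RC (fun a => (O (d a)).band (b a) (t a) (v a))
      (fun a => cb a + ct a + (k (d a)).band (b a) (t a) (v a)) :=
  (P7m.RC.comp (g := fun p : X × Option Seg × Option Seg × ℂ =>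
    (O p.1).band p.2.1 p.2.2.1 p.2.2.2) h.band
    (P7m.RC.pair hd (P7m.RC.pair hb (P7m.RC.pair ht hv)))).of_le (fun a => by simp only [zero_add, add_zero]; omega)

theorem rc_nbT {O : X → Orc} {k : X → OrcCost} (h : OrcRC O k) {d : A → X} {c : A → Cell}
    {v : A → ℂ} (hd : SFA.CT d) (hc : SFA.CT c) (hv : SFA.CT v) :
    P7m.RC (fun a => nbT (O (d a)) (c a) (v a)) (fun a => if offB (c a).t (v a) then
      (k (d a)).low (v a) (c a).t +
        (k (d a)).band ((O (d a)).low (v a) (c a).t) (c a).t (v a) else 0) := by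
  unfold nbT
  have h1 := h.lowA hd hv (SFA.CT.cellt hc)
  have h2 := h.bandA hd h1 (SFA.CT.cellt hc) hv
  have h3 := P7m.RC.singleton (SFA.RC.cellmk h1 (SFA.CT.cellt hc) (SFA.CT.some hv) h2)
  refine (P7m.RC.cond (SFA.CT.offB (SFA.CT.cellt hc) hv) h3 P7m.RC.nil).mono 3 (fun a => ?_)
  split_ifs <;> simp <;> omega

theorem rc_nbB {O : X → Orc} {k : X → OrcCost} (h : OrcRC O k) {d : A → X} {c : A → Cell}
    {v : A → ℂ} (hd : SFA.CT d) (hc : SFA.CT c) (hv : SFA.CT v) :
    P7m.RC (fun a => nbB (O (d a)) (c a) (v a)) (fun a => if offB (c a).b (v a) then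
      (k (d a)).up (v a) (c a).b +
        (k (d a)).band (c a).b ((O (d a)).up (v a) (c a).b) (v a) else 0) := by
  unfold nbB
  have h1 := h.upA hd hv (SFA.CT.cellb hc)
  have h2 := h.bandA hd (SFA.CT.cellb hc) h1 hv
  have h3 := P7m.RC.singleton (SFA.RC.cellmk (SFA.CT.cellb hc) h1 (SFA.CT.some hv) h2)
  refine (P7m.RC.cond (SFA.CT.offB (SFA.CT.cellb hc) hv) h3 P7m.RC.nil).mono 3 (fun a => ?_)
  split_ifs <;> simp <;> omega

theorem nbT_length (O : Orc) (c : Cell) (v : ℂ) : (nbT O c v).length ≤ 1 := by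
  unfold nbT; split <;> simp

theorem nbB_length (O : Orc) (c : Cell) (v : ℂ) : (nbB O c v).length ≤ 1 := by
  unfold nbB; split <;> simp

theorem nbR_length (O : Orc) (c : Cell) : (nbR O c).length ≤ 2 := by
  unfold nbR
  cases c.q with
  | none => simp
  | some v =>
    simp only [Option.elim_some, List.length_append]
    have h1 := nbT_length O c v
    have h2 := nbB_length O c v
    omega

theorem nbs_length (O O' : Orc) (c : Cell) : (nbs O O' c).length ≤ 4 := by
  unfold nbs
  rw [List.length_append, List.length_map]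
  have h1 := nbR_length O c
  have h2 := nbR_length O' (negC c)
  omega

theorem rc_nbR {O : X → Orc} {k : X → OrcCost} (h : OrcRC O k) {d : A → X} {c : A → Cell}
    (hd : SFA.CT d) (hc : SFA.CT c) :
    P7m.RC (fun a => nbR (O (d a)) (c a))
      (fun a => nbRCost (k (d a)).low (k (d a)).up (k (d a)).band (O (d a)) (c a)) := by
  unfold nbR nbRCost
  have hd' : SFA.CT (fun p : A × ℂ => d p.1) := pc hd (SFA.CT.fst SFA.CT.id)
  have hc' : SFA.CT (fun p : A × ℂ => c p.1) := pc hc (SFA.CT.fst SFA.CT.id)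
  have hv' : SFA.CT (fun p : A × ℂ => p.2) := SFA.CT.snd SFA.CT.id
  have h1 := P7m.RC.append (rc_nbT h hd' hc' hv') (rc_nbB h hd' hc' hv')
  refine (P7m.RC.optionElim (s := fun a v => nbT (O (d a)) (c a) v ++ nbB (O (d a)) (c a) v)
    (SFA.CT.cellq hc) CT.nil h1).mono 2 (fun a => ?_)
  rcases hq : (c a).q with _ | v
  · simp
  · simp only [Option.elim_some]
    have h2 := nbT_length (O (d a)) (c a) v
    omega

theorem rc_nbs {O O' : X → Orc} {k k' : X → OrcCost} (h : OrcRC O k) (h' : OrcRC O' k')
    {d : A → X} {c : A → Cell} (hd : SFA.CT d) (hc : SFA.CT c) :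
    P7m.RC (fun a => nbs (O (d a)) (O' (d a)) (c a))
      (fun a => nbsCost (O (d a)) (O' (d a)) (k (d a)) (k' (d a)) (c a)) := by
  unfold nbs nbsCost
  have h1 := rc_nbR h hd hc
  have h2 := P7m.RC.map (f := fun (_ : A) (e : Cell) => negC e) (rc_nbR h' hd (CT.negC hc))
    (CT.negC (SFA.CT.snd SFA.CT.id))
  refine (P7m.RC.append h1 h2).mono 5 (fun a => ?_)
  have h3 := nbR_length (O (d a)) (c a)
  have h4 := nbR_length (O' (d a)) (negC (c a))
  have h5 := sum_map_le (nbR (O' (d a)) (negC (c a))) (fun _ => 0 + 1) 1 (fun _ _ => by simp)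
  try simp only at h5 ⊢
  omega

theorem rc_rootC {O O' : X → Orc} {k k' : X → OrcCost} (h : OrcRC O k) (h' : OrcRC O' k')
    {d : A → X} {x : A → ℂ} (hd : SFA.CT d) (hx : SFA.CT x) :
    P7m.RC (fun a => rootC (O (d a)) (O' (d a)) (x a))
      (fun a => rootCost (O (d a)) (k (d a)) (k' (d a)) (x a)) := by
  unfold rootC rootCost
  have hr : SFA.CT (fun a => some (x a, x a + 1)) :=
    SFA.CT.some (SFA.CT.pair hx (CT.cadd hx CT.cone))
  have h1 := h.lowA hd hx hr
  have h2 := h.upA hd hx hr
  have h3 := h.bandA hd h1 h2 hx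
  have n1 : P7m.RC (fun a => ((O (d a)).low (x a) (some (x a, x a + 1))).map negS)
      (fun a => (k (d a)).low (x a) (some (x a, x a + 1))) :=
    (P7m.RC.optionMap (f := fun (_ : A) s => negS s) h1 (CT.negS (SFA.CT.snd SFA.CT.id))).of_le
      (fun a => by cases (O (d a)).low (x a) (some (x a, x a + 1)) <;> simp)
  have n2 : P7m.RC (fun a => ((O (d a)).up (x a) (some (x a, x a + 1))).map negS)
      (fun a => (k (d a)).up (x a) (some (x a, x a + 1))) :=
    (P7m.RC.optionMap (f := fun (_ : A) s => negS s) h2 (CT.negS (SFA.CT.snd SFA.CT.id))).of_le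
      (fun a => by cases (O (d a)).up (x a) (some (x a, x a + 1)) <;> simp)
  have h4 := P7m.RC.optionMap (f := fun (_ : A) (z : ℂ) => -z)
    (h'.bandA hd n2 n1 (CT.cneg hx)) (CT.cneg (SFA.CT.snd SFA.CT.id))
  refine (SFA.RC.cellmk h1 h2 h4 h3).mono 3 (fun a => ?_)
  have e : ∀ o : Option ℂ, o.elim 0 (fun _ => 0) = 0 := fun o => by cases o <;> rfl
  simp only [e]
  omega

/-! ### the exploration -/

theorem addNew_length (old : List Cell) (l acc : List Cell) :
    (addNew old acc l).length ≤ acc.length + l.length := by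
  unfold addNew
  induction l generalizing acc with
  | nil => simp
  | cons d t ih =>
    rw [List.foldl_cons, List.length_cons]
    refine (ih _).trans ?_
    split_ifs
    · omega
    · rw [List.length_append]; simp; omega

theorem rc_addNew : P7m.RC (fun q : List Cell × List Cell => addNew q.1 [] q.2)
    (fun q => q.2.length * (q.1.length + q.2.length + 1)) := by
  unfold addNew
  have hstep : P7m.RC (fun p : (List Cell × List Cell) × List Cell × Cell =>
      if (p.1.1 ++ p.2.1).any (fun c => sameC c p.2.2) then p.2.1 else p.2.1 ++ [p.2.2])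
      (fun p => p.1.1.length + p.2.1.length) := by
    have h1 : SFA.CT (fun p : (List Cell × List Cell) × List Cell × Cell => p.1.1) :=
      SFA.CT.fst (SFA.CT.fst SFA.CT.id)
    have h2 : SFA.CT (fun p : (List Cell × List Cell) × List Cell × Cell => p.2.1) :=
      SFA.CT.fst (SFA.CT.snd SFA.CT.id)
    have h3 : SFA.CT (fun p : (List Cell × List Cell) × List Cell × Cell => p.2.2) :=
      SFA.CT.snd (SFA.CT.snd SFA.CT.id)
    have h4 := P7m.RC.any
      (p := fun (p : (List Cell × List Cell) × List Cell × Cell) c => sameC c p.2.2)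
      (P7m.RC.append h1 h2)
      (CT.sameC (SFA.CT.snd SFA.CT.id) (pc h3 (SFA.CT.fst SFA.CT.id)))
    refine (P7m.RC.cond h4 h2 (P7m.RC.append h2 (CT.singleton h3))).mono 3 (fun p => ?_)
    have h5 := sum_map_le (p.1.1 ++ p.2.1) (fun _ => 0 + 1) 1 (fun _ _ => by simp)
    rw [List.length_append] at h5
    split_ifs <;> omega
  refine (P7m.RC.foldl (f := fun (a : List Cell × List Cell) (acc : List Cell) (d : Cell) =>
    if (a.1 ++ acc).any (fun c => sameC c d) then acc else acc ++ [d])
    (b := fun _ => ([] : List Cell)) (SFA.CT.snd SFA.CT.id) CT.nil hstep).of_le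
    (fun a => ?_)
  have key : ∀ (l acc : List Cell) (n : ℕ), acc.length + l.length ≤ n →
      foldCost (fun acc d => if (a.1 ++ acc).any (fun c => sameC c d) then acc
        else acc ++ [d]) (fun s _ => a.1.length + s.length) l acc ≤
        l.length * (a.1.length + n + 1) := by
    intro l
    induction l with
    | nil => intro acc n _; simp
    | cons d t ih =>
      intro acc n hn
      rw [foldCost_cons, List.length_cons]
      rw [List.length_cons] at hn
      have h1 := ih (if (a.1 ++ acc).any (fun c => sameC c d) then acc else acc ++ [d]) n (by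
        split_ifs
        · omega
        · rw [List.length_append]; simp; omega)
      have h2 : (t.length + 1) * (a.1.length + n + 1) =
        t.length * (a.1.length + n + 1) + (a.1.length + n + 1) := by ring
      omega
  have h1 := key a.2 [] a.2.length (by simp)
  simpa using h1

/-- cost of one step, `cn` = cost of the neighbours -/
def exCost (cn : Cell → ℕ) (st : List Cell × List Cell) : ℕ :=
  match st.2 with
  | [] => 0
  | c :: _ => cn c + (st.1.length + st.2.length)

theorem exStep_eq (nb : Cell → List Cell) (st : List Cell × List Cell) :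
    exStep nb st = listElim st.2 st (fun c rest =>
      (c :: st.1, rest ++ addNew (st.1 ++ c :: rest) [] (nb c))) := by
  unfold exStep
  rcases st with ⟨d, _ | ⟨c, rest⟩⟩ <;> rfl

theorem rc_exStep {nb : A → Cell → List Cell} {cn : A × Cell → ℕ}
    (hnb : P7m.RC (fun p : A × Cell => nb p.1 p.2) cn) (hL : ∀ a c, (nb a c).length ≤ 4) :
    P7m.RC (fun p : A × List Cell × List Cell => exStep (nb p.1) p.2)
      (fun p => exCost (fun c => cn (p.1, c)) p.2) := by
  have hc : SFA.CT (fun q : (A × List Cell × List Cell) × Cell × List Cell => q.2.1) :=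
    SFA.CT.fst (SFA.CT.snd SFA.CT.id)
  have hr : SFA.CT (fun q : (A × List Cell × List Cell) × Cell × List Cell => q.2.2) :=
    SFA.CT.snd (SFA.CT.snd SFA.CT.id)
  have hd : SFA.CT (fun q : (A × List Cell × List Cell) × Cell × List Cell => q.1.2.1) :=
    SFA.CT.fst (SFA.CT.snd (SFA.CT.fst SFA.CT.id))
  have ha : SFA.CT (fun q : (A × List Cell × List Cell) × Cell × List Cell => q.1.1) :=
    SFA.CT.fst (SFA.CT.fst SFA.CT.id)
  have h1 : P7m.RC (fun q : (A × List Cell × List Cell) × Cell × List Cell =>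
      nb q.1.1 q.2.1) (fun q => cn (q.1.1, q.2.1)) :=
    (P7m.RC.comp (g := fun p : A × Cell => nb p.1 p.2) hnb (SFA.CT.pair ha hc)).of_le
      (fun q => by simp)
  have h2 : P7m.RC (fun q : (A × List Cell × List Cell) × Cell × List Cell =>
      q.1.2.1 ++ q.2.1 :: q.2.2) (fun q => q.1.2.1.length) :=
    (P7m.RC.append hd (CT.cons hc hr)).of_le (fun q => by simp)
  have h3 := P7m.RC.comp (g := fun q : List Cell × List Cell => addNew q.1 [] q.2) rc_addNew
    (P7m.RC.pair h2 h1)
  have h4 := P7m.RC.pair (CT.cons hc hd) (P7m.RC.append hr h3)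
  refine ((P7m.RC.listElim (s := fun (p : A × List Cell × List Cell) (c : Cell)
    (rest : List Cell) => (c :: p.2.1, rest ++ addNew (p.2.1 ++ c :: rest) [] (nb p.1 c)))
    (SFA.CT.snd (SFA.CT.snd SFA.CT.id)) (SFA.CT.snd SFA.CT.id) h4).mono 30
    (fun p => ?_)).congr (fun p => exStep_eq _ _)
  obtain ⟨a, d, todo⟩ := p
  cases todo with
  | nil => simp
  | cons c rest =>
    simp only [listElim_cons, exCost, List.length_append, List.length_cons]
    have h5 := hL a c
    have h6 : (nb a c).length * (d.length + (rest.length + 1) + (nb a c).length + 1) ≤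
        4 * (d.length + (rest.length + 1) + 4 + 1) := Nat.mul_le_mul h5 (by omega)
    omega

theorem iterCost_explore (nb : Cell → List Cell) (cn : Cell → ℕ)
    (hL : ∀ c, (nb c).length ≤ 4) (k : ℕ) (st : List Cell × List Cell) :
    iterCost (exStep nb) (exCost cn) k st + (st.1.map cn).sum ≤
      (((exStep nb)^[k] st).1.map cn).sum + k * (st.1.length + st.2.length + 4 * k + 1) := by
  induction k generalizing st with
  | zero => simp
  | succ k ih =>
    rw [iterCost_succ, Function.iterate_succ_apply]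
    have h1 := ih (exStep nb st)
    obtain ⟨d, todo⟩ := st
    cases todo with
    | nil =>
      have e : exStep nb (d, []) = (d, []) := rfl
      rw [e] at h1 ⊢
      have e2 : exCost cn (d, []) = 0 := rfl
      rw [e2]
      simp only [List.length_nil, add_zero] at h1 ⊢
      have e3 : (k + 1) * (d.length + 4 * (k + 1) + 1) =
        k * (d.length + 4 * k + 1) + (8 * k + 5 + d.length) := by ring
      omega
    | cons c rest =>
      have e : exStep nb (d, c :: rest) =
        (c :: d, rest ++ addNew (d ++ c :: rest) [] (nb c)) := rfl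
      rw [e] at h1 ⊢
      have e2 : exCost cn (d, c :: rest) = cn c + (d.length + (c :: rest).length) := rfl
      rw [e2]
      simp only [List.length_cons, List.length_append, List.map_cons, List.sum_cons] at h1 ⊢
      have h2 := addNew_length (d ++ c :: rest) (nb c) []
      have h3 := hL c
      simp only [List.length_nil, zero_add] at h2
      set n := (addNew (d ++ c :: rest) [] (nb c)).length with hn
      have h4 : k * (d.length + 1 + (rest.length + n) + 4 * k + 1) ≤
        k * (d.length + rest.length + 4 * k + 6) := Nat.mul_le_mul_left _ (by omega)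
      have e3 : (k + 1) * (d.length + (rest.length + 1) + 4 * (k + 1) + 1) =
        k * (d.length + rest.length + 4 * k + 6) + (d.length + rest.length + 4 * k + 6) := by
        ring
      omega

theorem rc_explore {nb : A → Cell → List Cell} {cn : A × Cell → ℕ} {c0 : A → Cell} {N : A → ℕ}
    {cc cN : A → ℕ} (hnb : P7m.RC (fun p : A × Cell => nb p.1 p.2) cn)
    (hL : ∀ a c, (nb a c).length ≤ 4) (hc : P7m.RC c0 cc) (hN : P7m.RC N cN) :
    P7m.RC (fun a => explore (nb a) (c0 a) (N a)) (fun a => cN a + cc a +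
      ((explore (nb a) (c0 a) (N a)).1.map (fun c => cn (a, c))).sum + N a ^ 2) := by
  have h1 := P7m.RC.iterate (f := fun a st => exStep (nb a) st)
    (b := fun a => (([] : List Cell), [c0 a])) hN
    (P7m.RC.pair CT.nil (P7m.RC.singleton hc)) (rc_exStep hnb hL)
  refine h1.mono 6 (fun a => ?_)
  have h2 := iterCost_explore (nb a) (fun c => cn (a, c)) (hL a) (N a) ([], [c0 a])
  simp only [List.map_nil, List.sum_nil, List.length_nil, List.length_singleton, add_zero,
    zero_add] at h2 ⊢
  unfold explore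
  have e3 : N a * (1 + 4 * N a + 1) = 4 * N a ^ 2 + 2 * N a := by ring
  have e4 : N a ≤ N a ^ 2 := Nat.le_self_pow (by norm_num) _
  set Z := iterCost (exStep (nb a)) (exCost fun c => cn (a, c)) (N a) ([], [c0 a])
  have hZ : iterCost (fun st => exStep (nb a) st) (fun s => exCost (fun c => cn (a, c)) s)
    (N a) ([], [c0 a]) = Z := rfl
  omega

/-- **The exploration with oracles given by data.** -/
theorem rc_exploreO {O O' : X → Orc} {k k' : X → OrcCost} (h : OrcRC O k) (h' : OrcRC O' k')
    {d : A → X} {x : A → ℂ} {N : A → ℕ} {cN : A → ℕ} (hd : SFA.CT d) (hx : SFA.CT x)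
    (hN : P7m.RC N cN) :
    P7m.RC (fun a => exploreO (O (d a)) (O' (d a)) (x a) (N a))
      (fun a => cN a + rootCost (O (d a)) (k (d a)) (k' (d a)) (x a) +
        ((exploreO (O (d a)) (O' (d a)) (x a) (N a)).1.map
          (nbsCost (O (d a)) (O' (d a)) (k (d a)) (k' (d a)))).sum + N a ^ 2) :=
  rc_explore (nb := fun a => nbs (O (d a)) (O' (d a)))
    (rc_nbs h h' (pc hd (SFA.CT.fst SFA.CT.id)) (SFA.CT.snd SFA.CT.id))
    (fun _ _ => nbs_length _ _ _) (rc_rootC h h' hd hx) hN

/-- the number of cells after `N` steps -/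
theorem explore_length (nb : Cell → List Cell) (hL : ∀ c, (nb c).length ≤ 4) (k : ℕ)
    (st : List Cell × List Cell) :
    ((exStep nb)^[k] st).1.length ≤ st.1.length + k ∧
    ((exStep nb)^[k] st).2.length ≤ st.2.length + 4 * k := by
  induction k generalizing st with
  | zero => simp
  | succ k ih =>
    rw [Function.iterate_succ_apply]
    obtain ⟨h1, h2⟩ := ih (exStep nb st)
    obtain ⟨d, todo⟩ := st
    cases todo with
    | nil =>
      have e : exStep nb (d, []) = (d, []) := rfl
      rw [e] at h1 h2 ⊢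
      exact ⟨by simp only at h1 ⊢; omega, by simp only at h2 ⊢; omega⟩
    | cons c rest =>
      have e : exStep nb (d, c :: rest) =
        (c :: d, rest ++ addNew (d ++ c :: rest) [] (nb c)) := rfl
      rw [e] at h1 h2 ⊢
      have h3 := addNew_length (d ++ c :: rest) (nb c) []
      have h4 := hL c
      simp only [List.length_cons, List.length_append, List.length_nil, zero_add] at h1 h2 h3 ⊢
      constructor <;> omega

theorem exploreO_length (O O' : Orc) (x : ℂ) (N : ℕ) : (exploreO O O' x N).1.length ≤ N := by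
  have := (explore_length (nbs O O') (fun c => nbs_length O O' c) N
    (([] : List Cell), [rootC O O' x])).1
  unfold exploreO explore
  simpa using this

/-- witnesses -/
theorem RC.wit {F : A → List Cell} {cF : A → ℕ} (hF : P7m.RC F cF) :
    P7m.RC (fun a => wit (F a)) (fun a => cF a + (F a).length) := by
  unfold SQ.wit
  refine (P7m.RC.flatMap (f := fun (_ : A) c => witC c) hF (CT.witC (SFA.CT.snd SFA.CT.id))).mono
    11 (fun a => ?_)
  have h3 := sum_map_le (F a) (fun x => 0 + (witC x).length + 1) 11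
    (fun x _ => by have := witC_lengthR x; omega)
  try simp only at h3 ⊢
  omega

/-- the exact oracles on a plain list, linear cost -/
theorem orcRC_orcF : OrcRC (fun S : List Seg => orcF S)
    (fun S => ⟨fun _ _ => S.length, fun _ _ => S.length, fun _ _ _ => S.length⟩) where
  low := (RC.lowF (l := fun p : List Seg × ℂ × Option Seg => p.1) (SFA.CT.fst SFA.CT.id)
    (SFA.CT.fst (SFA.CT.snd SFA.CT.id)) (SFA.CT.snd (SFA.CT.snd SFA.CT.id))).of_le
    (fun p => by simp)
  up := (RC.upF (l := fun p : List Seg × ℂ × Option Seg => p.1) (SFA.CT.fst SFA.CT.id)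
    (SFA.CT.fst (SFA.CT.snd SFA.CT.id)) (SFA.CT.snd (SFA.CT.snd SFA.CT.id))).of_le
    (fun p => by simp)
  band := (RC.bandF (l := fun p : List Seg × Option Seg × Option Seg × ℂ => p.1)
    (SFA.CT.fst SFA.CT.id) (SFA.CT.fst (SFA.CT.snd SFA.CT.id))
    (SFA.CT.fst (SFA.CT.snd (SFA.CT.snd SFA.CT.id)))
    (SFA.CT.snd (SFA.CT.snd (SFA.CT.snd SFA.CT.id)))).of_le (fun p => by simp)

end Nb

end

end SQ
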