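import Pool.Agent.Lib.SQ.RD
import Pool.Agent.Lib.SQ.RExp
import Pool.Agent.Lib.SQ.Q

/-!
# SQ.RQ (package R, owner helper8): cost of the oracles of `SQ.Q`

`orcRC_orcD`: the oracles `orcD D` are computed with the costs `askCost` of their queries.
`rc_elts`, `rc_lam`: linear cost.
-/

namespace SQ

open P7m SFA Classical

noncomputable section

variable {A B C D V : Type} [Enc A] [Enc B] [Enc C] [Enc D] [Enc V]

private theorem pc {f : A → B} (hf : SFA.CT f) {g : C → A} (hg : SFA.CT g) :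
    SFA.CT (fun c => f (g c)) := SFA.CT.comp hf hg

private theorem sum_map_le {X : Type} (l : List X) (f : X → ℕ) (K : ℕ)
    (h : ∀ x ∈ l, f x ≤ K) : (l.map f).sum ≤ K * l.length := by
  induction l with
  | nil => simp
  | cons x t ih =>
    rw [List.map_cons, List.sum_cons, List.length_cons]
    have h1 := h x (by simp)
    have h2 := ih (fun y hy => h y (by simp [hy]))
    have h3 : K * (t.length + 1) = K * t.length + K := by ring
    omega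

/-! ### dual plane -/

theorem CT.two : SFA.CT (fun _ : A => (2 : ℝ)) :=
  (RC.const_real 2).congr (fun _ => by norm_num)

theorem CT.rmin {f g : A → ℝ} (hf : SFA.CT f) (hg : SFA.CT g) :
    SFA.CT (fun a => min (f a) (g a)) := RC.rmin hf hg

theorem rc_lam : P7m.RC (fun S : List Seg => lam S) (fun S => S.length) := by
  unfold lam
  have hs : SFA.CT (fun p : List Seg × ℝ × Seg => p.2.2) := SFA.CT.snd (SFA.CT.snd SFA.CT.id)
  have ha : SFA.CT (fun p : List Seg × ℝ × Seg => p.2.1) := SFA.CT.fst (SFA.CT.snd SFA.CT.id)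
  have dx : SFA.CT (fun p : List Seg × ℝ × Seg => p.2.2.2.re - p.2.2.1.re) :=
    SFA.CT.rsub (SFA.CT.re (SFA.CT.snd hs)) (SFA.CT.re (SFA.CT.fst hs))
  have dy : SFA.CT (fun p : List Seg × ℝ × Seg => p.2.2.2.im - p.2.2.1.im) :=
    SFA.CT.rsub (SFA.CT.im (SFA.CT.snd hs)) (SFA.CT.im (SFA.CT.fst hs))
  have dy' : SFA.CT (fun p : List Seg × ℝ × Seg => p.2.2.1.im - p.2.2.2.im) :=
    SFA.CT.rsub (SFA.CT.im (SFA.CT.fst hs)) (SFA.CT.im (SFA.CT.snd hs))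
  have hstep : SFA.CT (fun p : List Seg × ℝ × Seg =>
      if 0 < p.2.2.2.re - p.2.2.1.re ∧ p.2.2.2.im - p.2.2.1.im < 0 then
        min p.2.1 ((p.2.2.2.re - p.2.2.1.re) / (2 * (p.2.2.1.im - p.2.2.2.im))) else p.2.1) :=
    SFA.CT.ite (SFA.CT.dand (SFA.CT.rlt SFA.CT.zero dx) (SFA.CT.rlt dy SFA.CT.zero))
      (CT.rmin ha (SFA.CT.rdiv dx (SFA.CT.rmul CT.two dy'))) ha
  refine (P7m.RC.foldl (f := fun (_ : List Seg) (a : ℝ) (s : Seg) =>
    if 0 < s.2.re - s.1.re ∧ s.2.im - s.1.im < 0 then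
      min a ((s.2.re - s.1.re) / (2 * (s.1.im - s.2.im))) else a) (b := fun _ => (1 : ℝ))
    SFA.CT.id SFA.CT.one hstep).of_le (fun S => ?_)
  have h1 := foldCost_le_const (fun (a : ℝ) (s : Seg) =>
    if 0 < s.2.re - s.1.re ∧ s.2.im - s.1.im < 0 then
      min a ((s.2.re - s.1.re) / (2 * (s.1.im - s.2.im))) else a) (fun _ _ => 0) 0
    S 1 (fun _ _ _ => le_refl _)
  simp only [zero_add, one_mul] at h1 ⊢
  exact h1

theorem CT.wt {l : A → ℝ} {s : A → Seg} (hl : SFA.CT l) (hs : SFA.CT s) :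
    SFA.CT (fun a => wt (l a) (s a)) :=
  SFA.CT.radd (SFA.CT.rsub (SFA.CT.re (SFA.CT.snd hs)) (SFA.CT.re (SFA.CT.fst hs)))
    (SFA.CT.rmul hl (SFA.CT.rsub (SFA.CT.im (SFA.CT.snd hs)) (SFA.CT.im (SFA.CT.fst hs))))

theorem CT.lineP {l : A → ℝ} {s : A → Seg} (hl : SFA.CT l) (hs : SFA.CT s) :
    SFA.CT (fun a => lineP (l a) (s a)) := by
  have h1x : SFA.CT (fun a => (s a).1.re) := SFA.CT.re (SFA.CT.fst hs)
  have h2x : SFA.CT (fun a => (s a).2.re) := SFA.CT.re (SFA.CT.snd hs)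
  have h1y : SFA.CT (fun a => (s a).1.im) := SFA.CT.im (SFA.CT.fst hs)
  have h2y : SFA.CT (fun a => (s a).2.im) := SFA.CT.im (SFA.CT.snd hs)
  have dy := SFA.CT.rsub h2y h1y
  have dx := SFA.CT.rsub h2x h1x
  exact SFA.CT.complex (SFA.CT.rdiv (CT.rneg dy) (CT.wt hl hs))
    (SFA.CT.rdiv (SFA.CT.rsub (SFA.CT.rmul dy h1x) (SFA.CT.rmul dx h1y)) (CT.wt hl hs))

theorem CT.mkEl {l : A → ℝ} {s : A → Seg} (hl : SFA.CT l) (hs : SFA.CT s) :
    SFA.CT (fun a => mkEl (l a) (s a)) := SFA.CT.pair hs (CT.lineP hl hs)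

theorem rc_elts : P7m.RC (fun S : List Seg => elts S) (fun S => S.length) := by
  unfold elts
  have h1 := P7m.RC.map (l := fun p : List Seg × ℝ => p.1)
    (f := fun (p : List Seg × ℝ) s => mkEl p.2 s) (SFA.CT.fst SFA.CT.id)
    (CT.mkEl (SFA.CT.snd (SFA.CT.fst SFA.CT.id)) (SFA.CT.snd SFA.CT.id))
  refine (P7m.RC.comp (g := fun p : List Seg × ℝ => p.1.map (mkEl p.2)) h1
    (P7m.RC.pair SFA.CT.id rc_lam)).mono 2 (fun S => ?_)
  have h3 := sum_map_le S (fun _ => 0 + 1) 1 (fun _ _ => by simp)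
  simp only at h3 ⊢
  omega

/-! ### tests -/

theorem CT.rzero : SFA.CT (fun _ : A => (0 : ℝ)) := SFA.CT.zero

theorem CT.tx {j : A → ℕ} {c : A → ℝ} (hj : SFA.CT j) (hc : SFA.CT c) :
    SFA.CT (fun a => tx (j a) (c a)) :=
  SFA.CT.pair hj (SFA.CT.pair SFA.CT.one (SFA.CT.pair SFA.CT.zero (CT.rneg hc)))

theorem CT.ty {j : A → ℕ} {c : A → ℝ} (hj : SFA.CT j) (hc : SFA.CT c) :
    SFA.CT (fun a => ty (j a) (c a)) :=
  SFA.CT.pair hj (SFA.CT.pair SFA.CT.zero (SFA.CT.pair SFA.CT.one (CT.rneg hc)))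

theorem CT.tq {j : A → ℕ} {b : A → Seg} (hj : SFA.CT j) (hb : SFA.CT b) :
    SFA.CT (fun a => tq (j a) (b a)) := by
  have h1x : SFA.CT (fun a => (b a).1.re) := SFA.CT.re (SFA.CT.fst hb)
  have h2x : SFA.CT (fun a => (b a).2.re) := SFA.CT.re (SFA.CT.snd hb)
  have h1y : SFA.CT (fun a => (b a).1.im) := SFA.CT.im (SFA.CT.fst hb)
  have h2y : SFA.CT (fun a => (b a).2.im) := SFA.CT.im (SFA.CT.snd hb)
  have dy := SFA.CT.rsub h2y h1y
  have dx := SFA.CT.rsub h2x h1x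
  exact SFA.CT.pair hj (SFA.CT.pair (CT.rneg dy) (SFA.CT.pair dx
    (SFA.CT.rsub (SFA.CT.rmul dy h1x) (SFA.CT.rmul dx h1y))))

theorem CT.tp {l : A → ℝ} {g : A → ℂ} (hl : SFA.CT l) (hg : SFA.CT g) :
    SFA.CT (fun a => tp (l a) (g a)) :=
  SFA.CT.pair (CT.nat 2) (SFA.CT.pair (SFA.CT.radd (SFA.CT.re hg) (SFA.CT.rmul hl
    (SFA.CT.im hg))) (SFA.CT.pair SFA.CT.one (SFA.CT.im hg)))

theorem CT.td {l : A → ℝ} {g : A → ℂ} (hl : SFA.CT l) (hg : SFA.CT g) :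
    SFA.CT (fun a => td (l a) (g a)) :=
  SFA.CT.pair (CT.nat 2) (SFA.CT.pair (SFA.CT.radd (SFA.CT.re hg) (SFA.CT.rmul hl
    (SFA.CT.im hg))) (SFA.CT.pair SFA.CT.zero (SFA.CT.im hg)))

theorem CT.lexGt {j : A → ℕ} {v : A → ℂ} {e : A → El} (hj : SFA.CT j) (hv : SFA.CT v)
    (he : SFA.CT e) : SFA.CT (fun a => lexGt (j a) (v a) (e a)) :=
  SFA.CT.or (CT.ps (CT.tx hj (SFA.CT.re hv)) he)
    (SFA.CT.and (CT.zr (CT.tx hj (SFA.CT.re hv)) he) (CT.ps (CT.ty hj (SFA.CT.im hv)) he))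

theorem CT.lexLt {j : A → ℕ} {v : A → ℂ} {e : A → El} (hj : SFA.CT j) (hv : SFA.CT v)
    (he : SFA.CT e) : SFA.CT (fun a => lexLt (j a) (v a) (e a)) :=
  SFA.CT.or (CT.mi (CT.tx hj (SFA.CT.re hv)) he)
    (SFA.CT.and (CT.zr (CT.tx hj (SFA.CT.re hv)) he) (CT.mi (CT.ty hj (SFA.CT.im hv)) he))

theorem CT.sg {τ : A → Test} (hτ : SFA.CT τ) : SFA.CT (fun a => sg (τ a)) :=
  CT.cons hτ (CT.singleton (CT.ng hτ))

@[simp] theorem sg_length (τ : Test) : (sg τ).length = 2 := rfl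

theorem CT.sgl {j : A → ℕ} {v : A → ℂ} (hj : SFA.CT j) (hv : SFA.CT v) :
    SFA.CT (fun a => sgl (j a) (v a)) :=
  CT.append 2 (CT.sg (CT.tx hj (SFA.CT.re hv))) (CT.sg (CT.ty hj (SFA.CT.im hv)))
    (fun _ => le_refl _)

@[simp] theorem sgl_length (j : ℕ) (v : ℂ) : (sgl j v).length = 4 := rfl

private theorem dir {s : A → Seg} (hs : SFA.CT s) : SFA.CT (fun a => (s a).2 - (s a).1) :=
  SFA.CT.csub (SFA.CT.snd hs) (SFA.CT.fst hs)

theorem CT.sgg {l : A → ℝ} {r : A → Seg} {v : A → ℂ} (hl : SFA.CT l) (hr : SFA.CT r)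
    (hv : SFA.CT v) : SFA.CT (fun a => sgg (l a) (r a) (v a)) :=
  CT.append 2 (CT.sg (CT.tp hl (CT.wp hr hv))) (CT.sg (CT.td hl (dir hr)))
    (fun _ => le_refl _)

@[simp] theorem sgg_length (l : ℝ) (r : Seg) (v : ℂ) : (sgg l r v).length = 4 := rfl

/-! ### QV -/

theorem CT.actE {v : A → ℂ} {e : A → El} (hv : SFA.CT v) (he : SFA.CT e) :
    SFA.CT (fun a => actE (v a) (e a)) :=
  SFA.CT.and (SFA.CT.not (CT.lexGt (CT.nat 0) hv he)) (CT.lexGt (CT.nat 1) hv he)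

theorem CT.abE {l : A → ℝ} {v : A → ℂ} {r : A → Seg} {e : A → El} (hl : SFA.CT l)
    (hv : SFA.CT v) (hr : SFA.CT r) (he : SFA.CT e) :
    SFA.CT (fun a => abE (l a) (v a) (r a) (e a)) := by
  unfold SQ.abE
  have hw := CT.wp hr hv
  exact SFA.CT.or (CT.mi (CT.tp hl hw) he) (SFA.CT.and (CT.zr (CT.tp hl hw) he)
    (SFA.CT.ite (SFA.CT.rlt (SFA.CT.im hv) (SFA.CT.im hw)) (CT.ps (CT.td hl (dir hr)) he)
      (CT.mi (CT.td hl (dir hr)) he)))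

theorem CT.blE {l : A → ℝ} {v : A → ℂ} {r : A → Seg} {e : A → El} (hl : SFA.CT l)
    (hv : SFA.CT v) (hr : SFA.CT r) (he : SFA.CT e) :
    SFA.CT (fun a => blE (l a) (v a) (r a) (e a)) := by
  unfold SQ.blE
  have hw := CT.wp hr hv
  exact SFA.CT.or (CT.ps (CT.tp hl hw) he) (SFA.CT.and (CT.zr (CT.tp hl hw) he)
    (SFA.CT.ite (SFA.CT.rlt (SFA.CT.im hv) (SFA.CT.im hw)) (CT.mi (CT.td hl (dir hr)) he)
      (CT.ps (CT.td hl (dir hr)) he)))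

theorem CT.colE {s : A → Seg} {e : A → El} (hs : SFA.CT s) (he : SFA.CT e) :
    SFA.CT (fun a => colE (s a) (e a)) :=
  SFA.CT.and (CT.zr (CT.tq (CT.nat 0) hs) he) (CT.zr (CT.tq (CT.nat 1) hs) he)

theorem CT.tieE {s : A → Seg} {e : A → El} (hs : SFA.CT s) (he : SFA.CT e) :
    SFA.CT (fun a => tieE (s a) (e a)) :=
  SFA.CT.or (CT.lexGt (CT.nat 1) (SFA.CT.snd hs) he)
    (SFA.CT.and (SFA.CT.and (SFA.CT.not (CT.lexGt (CT.nat 1) (SFA.CT.snd hs) he))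
      (SFA.CT.not (CT.lexLt (CT.nat 1) (SFA.CT.snd hs) he)))
      (CT.lexLt (CT.nat 0) (SFA.CT.fst hs) he))

theorem CT.valV {a : A → PV} {e : A → El} (ha : SFA.CT a) (he : SFA.CT e) :
    SFA.CT (fun x => valV (a x) (e x)) := by
  unfold SQ.valV
  exact SFA.CT.cond (SFA.CT.cond (SFA.CT.fst ha)
    (CT.candU (SFA.CT.fst (SFA.CT.snd ha)) (SFA.CT.snd (SFA.CT.snd ha)) (SFA.CT.fst he))
    (CT.candL (SFA.CT.fst (SFA.CT.snd ha)) (SFA.CT.snd (SFA.CT.snd ha)) (SFA.CT.fst he)))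
    (SFA.CT.some (SFA.CT.fst he)) SFA.CT.none

theorem CT.ltV {a : A → PV} {s s' : A → Seg} (ha : SFA.CT a) (hs : SFA.CT s)
    (hs' : SFA.CT s') : SFA.CT (fun x => ltV (a x) (s x) (s' x)) := by
  unfold SQ.ltV
  exact SFA.CT.cond (SFA.CT.fst ha) (CT.betU (SFA.CT.fst (SFA.CT.snd ha)) hs hs')
    (CT.betL (SFA.CT.fst (SFA.CT.snd ha)) hs hs')

theorem CT.FV {l : A → ℝ} {a : A → PV} {y : A → Option Seg} {e : A → El} (hl : SFA.CT l)
    (ha : SFA.CT a) (hy : SFA.CT y) (he : SFA.CT e) :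
    SFA.CT (fun x => FV (l x) (a x) (y x) (e x)) := by
  unfold SQ.FV
  have hv : SFA.CT (fun x => (a x).2.1) := SFA.CT.fst (SFA.CT.snd ha)
  have hl' : SFA.CT (fun p : A × Seg => l p.1) := pc hl (SFA.CT.fst SFA.CT.id)
  have ha' : SFA.CT (fun p : A × Seg => a p.1) := pc ha (SFA.CT.fst SFA.CT.id)
  have hv' : SFA.CT (fun p : A × Seg => (a p.1).2.1) := SFA.CT.fst (SFA.CT.snd ha')
  have he' : SFA.CT (fun p : A × Seg => e p.1) := pc he (SFA.CT.fst SFA.CT.id)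
  have hr : SFA.CT (fun p : A × Seg => p.2) := SFA.CT.snd SFA.CT.id
  refine SFA.CT.and (SFA.CT.and (CT.actE hv he) ?_) ?_
  · exact SFA.CT.elim (s := fun x r => if (a x).1 then SQ.abE (l x) (a x).2.1 r (e x)
      else SQ.blE (l x) (a x).2.1 r (e x)) (SFA.CT.snd (SFA.CT.snd ha)) SFA.CT.tt
      (SFA.CT.cond (SFA.CT.fst ha') (CT.abE hl' hv' hr he') (CT.blE hl' hv' hr he'))
  · exact SFA.CT.elim (s := fun x s => (if (a x).1 then SQ.blE (l x) (a x).2.1 s (e x)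
      else SQ.abE (l x) (a x).2.1 s (e x)) || (SQ.colE s (e x) && SQ.tieE s (e x))) hy
      SFA.CT.tt
      (SFA.CT.or (SFA.CT.cond (SFA.CT.fst ha') (CT.blE hl' hv' hr he') (CT.abE hl' hv' hr he'))
        (SFA.CT.and (CT.colE hr he') (CT.tieE hr he')))

theorem CT.TV {l : A → ℝ} {a : A → PV} {y : A → Option Seg} (hl : SFA.CT l)
    (ha : SFA.CT a) (hy : SFA.CT y) : SFA.CT (fun x => TV (l x) (a x) (y x)) := by
  unfold SQ.TV
  have hv : SFA.CT (fun x => (a x).2.1) := SFA.CT.fst (SFA.CT.snd ha)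
  have hl' : SFA.CT (fun p : A × Seg => l p.1) := pc hl (SFA.CT.fst SFA.CT.id)
  have hv' : SFA.CT (fun p : A × Seg => (a p.1).2.1) := pc hv (SFA.CT.fst SFA.CT.id)
  have hr : SFA.CT (fun p : A × Seg => p.2) := SFA.CT.snd SFA.CT.id
  have h1 : SFA.CT (fun x => (a x).2.2.elim [] (fun r => SQ.sgg (l x) r (a x).2.1)) :=
    SFA.CT.elim (s := fun x r => SQ.sgg (l x) r (a x).2.1) (SFA.CT.snd (SFA.CT.snd ha)) CT.nil
      (CT.sgg hl' hr hv')
  have h2 : SFA.CT (fun p : A × Seg => SQ.sgg (l p.1) p.2 (a p.1).2.1 ++ SQ.sg (SQ.tq 0 p.2) ++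
      SQ.sg (SQ.tq 1 p.2) ++ SQ.sgl 1 p.2.2 ++ SQ.sgl 0 p.2.1) :=
    CT.append 12 (CT.append 8 (CT.append 6 (CT.append 4 (CT.sgg hl' hr hv')
      (CT.sg (CT.tq (CT.nat 0) hr)) (fun _ => by simp))
      (CT.sg (CT.tq (CT.nat 1) hr)) (fun _ => by simp))
      (CT.sgl (CT.nat 1) (SFA.CT.snd hr)) (fun _ => by simp))
      (CT.sgl (CT.nat 0) (SFA.CT.fst hr)) (fun _ => by simp)
  have h3 : SFA.CT (fun x => (y x).elim [] (fun s => SQ.sgg (l x) s (a x).2.1 ++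
      SQ.sg (SQ.tq 0 s) ++ SQ.sg (SQ.tq 1 s) ++ SQ.sgl 1 s.2 ++ SQ.sgl 0 s.1)) :=
    SFA.CT.elim (s := fun x s => SQ.sgg (l x) s (a x).2.1 ++
      SQ.sg (SQ.tq 0 s) ++ SQ.sg (SQ.tq 1 s) ++ SQ.sgl 1 s.2 ++ SQ.sgl 0 s.1) hy CT.nil h2
  exact CT.append 12 (CT.append 8 (CT.append 4 (CT.sgl (CT.nat 0) hv)
    (CT.sgl (CT.nat 1) hv) (fun _ => by simp)) h1 (fun _ => by simp)) h3
    (fun x => by cases (a x).2.2 <;> simp)

theorem TV_length (l : ℝ) (a : PV) (y : Option Seg) : (TV l a y).length ≤ 36 := by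
  unfold TV
  rcases a.2.2 with _ | r <;> rcases y with _ | s <;> simp

theorem qct_QV {l : A → ℝ} {a : A → PV} (hl : SFA.CT l) (ha : SFA.CT a) :
    QCT (fun x => QV (l x) (a x)) 36 where
  val := CT.valV (pc ha (SFA.CT.fst SFA.CT.id)) (SFA.CT.snd SFA.CT.id)
  lt := CT.ltV (pc ha (SFA.CT.fst SFA.CT.id)) (SFA.CT.fst (SFA.CT.snd SFA.CT.id))
    (SFA.CT.snd (SFA.CT.snd SFA.CT.id))
  F := CT.FV (pc hl (SFA.CT.fst SFA.CT.id)) (pc ha (SFA.CT.fst SFA.CT.id))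
    (SFA.CT.fst (SFA.CT.snd SFA.CT.id)) (SFA.CT.snd (SFA.CT.snd SFA.CT.id))
  T := CT.TV (pc hl (SFA.CT.fst SFA.CT.id)) (pc ha (SFA.CT.fst SFA.CT.id))
    (SFA.CT.snd SFA.CT.id)
  len := fun _ _ => TV_length _ _ _

/-! ### QW -/

theorem CT.valW {a : A → PW} {e : A → El} (ha : SFA.CT a) (he : SFA.CT e) :
    SFA.CT (fun x => valW (a x) (e x)) := by
  unfold SQ.valW
  exact (RC.lexMinL (CT.cnds (SFA.CT.fst ha) (SFA.CT.fst (SFA.CT.snd ha))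
    (SFA.CT.snd (SFA.CT.snd ha)) (SFA.CT.fst he))).mono 4 (fun x => by
      have := cnds_length (a x).1 (a x).2.1 (a x).2.2 (e x).1
      omega)

theorem CT.endE {j : A → ℕ} {a : A → PW} {y : A → Option ℂ} {e : A → El} (hj : SFA.CT j)
    (ha : SFA.CT a) (hy : SFA.CT y) (he : SFA.CT e) :
    SFA.CT (fun x => endE (j x) (a x) (y x) (e x)) := by
  unfold SQ.endE
  have hj' : SFA.CT (fun p : A × Seg => j p.1) := pc hj (SFA.CT.fst SFA.CT.id)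
  have he' : SFA.CT (fun p : A × Seg => e p.1) := pc he (SFA.CT.fst SFA.CT.id)
  have hs' : SFA.CT (fun p : A × Seg => p.2) := SFA.CT.snd SFA.CT.id
  refine SFA.CT.and (SFA.CT.and (CT.lexGt hj (SFA.CT.snd (SFA.CT.snd ha)) he) ?_)
    (SFA.CT.and ?_ ?_)
  · exact SFA.CT.elim (s := fun x y => SQ.lexLt (j x) y (e x)) hy SFA.CT.tt
      (CT.lexLt (pc hj (SFA.CT.fst SFA.CT.id)) (SFA.CT.snd SFA.CT.id)
        (pc he (SFA.CT.fst SFA.CT.id)))
  · exact SFA.CT.elim (s := fun x b => SQ.nn (SQ.tq (j x) b) (e x)) (SFA.CT.fst ha) SFA.CT.tt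
      (CT.nn (CT.tq hj' hs') he')
  · exact SFA.CT.elim (s := fun x t => SQ.nn (SQ.ng (SQ.tq (j x) t)) (e x))
      (SFA.CT.fst (SFA.CT.snd ha)) SFA.CT.tt (CT.nn (CT.ng (CT.tq hj' hs')) he')

theorem CT.endP {y : A → Option ℂ} {u : A → Seg} (hy : SFA.CT y) (hu : SFA.CT u) :
    SFA.CT (fun x => endP (y x) (u x)) := by
  unfold SQ.endP
  have hu' : SFA.CT (fun p : A × ℂ => u p.1) := pc hu (SFA.CT.fst SFA.CT.id)
  exact SFA.CT.elim (s := fun x y => if SFA.lexB (u x).2 y then (u x).2 else y) hy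
    (SFA.CT.snd hu) (SFA.CT.cond (SFA.CT.lexB (SFA.CT.snd hu') (SFA.CT.snd SFA.CT.id))
      (SFA.CT.snd hu') (SFA.CT.snd SFA.CT.id))

theorem CT.endF {y : A → Option ℂ} {u : A → Seg} (hy : SFA.CT y) (hu : SFA.CT u) :
    SFA.CT (fun x => endF (y x) (u x)) := by
  unfold SQ.endF
  exact SFA.CT.elim (s := fun x y => SFA.lexB (u x).2 y) hy SFA.CT.tt
    (SFA.CT.lexB (SFA.CT.snd (pc hu (SFA.CT.fst SFA.CT.id))) (SFA.CT.snd SFA.CT.id))

theorem CT.crsE {l : A → ℝ} {v m : A → ℂ} {f : A → Bool} {u : A → Seg} {e : A → El}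
    (hl : SFA.CT l) (hv : SFA.CT v) (hm : SFA.CT m) (hf : SFA.CT f) (hu : SFA.CT u)
    (he : SFA.CT e) : SFA.CT (fun x => crsE (l x) (v x) (m x) (f x) (u x) (e x)) := by
  unfold SQ.crsE
  have hwv := CT.wp hu hv
  have hwm := CT.wp hu hm
  have q0 := CT.tq (CT.nat 0) hu
  have q1 := CT.tq (CT.nat 1) hu
  have pv := CT.tp hl hwv
  have pm := CT.tp hl hwm
  exact SFA.CT.and (SFA.CT.and (SFA.CT.not (SFA.CT.and (CT.ps q0 he) (CT.ps q1 he)))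
      (SFA.CT.not (SFA.CT.and (CT.mi q0 he) (CT.mi q1 he))))
    (SFA.CT.and (SFA.CT.not (CT.zr (CT.td hl (dir hu)) he))
      (SFA.CT.or (SFA.CT.or (SFA.CT.or (SFA.CT.and (CT.ps pv he) (CT.mi pm he))
        (SFA.CT.and (CT.mi pv he) (CT.ps pm he)))
        (SFA.CT.and (CT.zr pv he) (SFA.CT.and (SFA.CT.lexB hv hwv)
          (SFA.CT.or (SFA.CT.lexB hwv hm) (SFA.CT.and hf (SFA.CT.ptEq hwv hm))))))
        (SFA.CT.and (CT.zr pm he) (SFA.CT.and (SFA.CT.lexB hv hwm)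
          (SFA.CT.or (SFA.CT.lexB hwm hm) (SFA.CT.and hf (SFA.CT.ptEq hwm hm)))))))

theorem CT.crsO {l : A → ℝ} {v : A → ℂ} {y : A → Option ℂ} {o : A → Option Seg} {e : A → El}
    (hl : SFA.CT l) (hv : SFA.CT v) (hy : SFA.CT y) (ho : SFA.CT o) (he : SFA.CT e) :
    SFA.CT (fun x => crsO (l x) (v x) (y x) (o x) (e x)) := by
  unfold SQ.crsO
  have hu : SFA.CT (fun p : A × Seg => p.2) := SFA.CT.snd SFA.CT.id
  have hy' : SFA.CT (fun p : A × Seg => y p.1) := pc hy (SFA.CT.fst SFA.CT.id)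
  exact SFA.CT.elim (s := fun x u => SQ.crsE (l x) (v x) (SQ.endP (y x) u) (SQ.endF (y x) u) u
    (e x)) ho SFA.CT.ff (CT.crsE (pc hl (SFA.CT.fst SFA.CT.id)) (pc hv (SFA.CT.fst SFA.CT.id))
      (CT.endP hy' hu) (CT.endF hy' hu) hu (pc he (SFA.CT.fst SFA.CT.id)))

theorem CT.FW {l : A → ℝ} {a : A → PW} {y : A → Option ℂ} {e : A → El} (hl : SFA.CT l)
    (ha : SFA.CT a) (hy : SFA.CT y) (he : SFA.CT e) :
    SFA.CT (fun x => FW (l x) (a x) (y x) (e x)) :=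
  SFA.CT.or (SFA.CT.or (CT.endE (CT.nat 0) ha hy he) (CT.endE (CT.nat 1) ha hy he))
    (SFA.CT.or (CT.crsO hl (SFA.CT.snd (SFA.CT.snd ha)) hy (SFA.CT.fst ha) he)
      (CT.crsO hl (SFA.CT.snd (SFA.CT.snd ha)) hy (SFA.CT.fst (SFA.CT.snd ha)) he))

theorem TC_length (l : ℝ) (v : ℂ) (y : Option ℂ) (o : Option Seg) :
    (TC l v y o).length ≤ 10 := by
  unfold TC
  rcases o with _ | u <;> simp

theorem CT.TC {l : A → ℝ} {v : A → ℂ} {y : A → Option ℂ} {o : A → Option Seg}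
    (hl : SFA.CT l) (hv : SFA.CT v) (hy : SFA.CT y) (ho : SFA.CT o) :
    SFA.CT (fun x => TC (l x) (v x) (y x) (o x)) := by
  unfold SQ.TC
  have hu : SFA.CT (fun p : A × Seg => p.2) := SFA.CT.snd SFA.CT.id
  have hy' : SFA.CT (fun p : A × Seg => y p.1) := pc hy (SFA.CT.fst SFA.CT.id)
  have hl' : SFA.CT (fun p : A × Seg => l p.1) := pc hl (SFA.CT.fst SFA.CT.id)
  have hv' : SFA.CT (fun p : A × Seg => v p.1) := pc hv (SFA.CT.fst SFA.CT.id)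
  refine SFA.CT.elim (s := fun x u => SQ.sg (SQ.tq 0 u) ++ SQ.sg (SQ.tq 1 u) ++
    SQ.sg (SQ.td (l x) (u.2 - u.1)) ++ SQ.sg (SQ.tp (l x) (SQ.wp u (v x))) ++
    SQ.sg (SQ.tp (l x) (SQ.wp u (SQ.endP (y x) u)))) ho CT.nil ?_
  exact CT.append 8 (CT.append 6 (CT.append 4 (CT.append 2 (CT.sg (CT.tq (CT.nat 0) hu))
    (CT.sg (CT.tq (CT.nat 1) hu)) (fun _ => by simp))
    (CT.sg (CT.td hl' (dir hu))) (fun _ => by simp))
    (CT.sg (CT.tp hl' (CT.wp hu hv'))) (fun _ => by simp))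
    (CT.sg (CT.tp hl' (CT.wp hu (CT.endP hy' hu)))) (fun _ => by simp)

theorem TW_length (l : ℝ) (a : PW) (y : Option ℂ) : (TW l a y).length ≤ 36 := by
  unfold TW
  have h1 := TC_length l a.2.2 y a.1
  have h2 := TC_length l a.2.2 y a.2.1
  rcases y with _ | y <;> simp only [List.length_append, sgl_length, Option.elim_none,
    Option.elim_some, List.length_nil] <;> omega

theorem CT.TW {l : A → ℝ} {a : A → PW} {y : A → Option ℂ} (hl : SFA.CT l)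
    (ha : SFA.CT a) (hy : SFA.CT y) : SFA.CT (fun x => TW (l x) (a x) (y x)) := by
  unfold SQ.TW
  have hv : SFA.CT (fun x => (a x).2.2) := SFA.CT.snd (SFA.CT.snd ha)
  have h1 : SFA.CT (fun x => (y x).elim [] (fun y => SQ.sgl 0 y ++ SQ.sgl 1 y)) :=
    SFA.CT.elim (s := fun _ y => SQ.sgl 0 y ++ SQ.sgl 1 y) hy CT.nil
      (CT.append 4 (CT.sgl (CT.nat 0) (SFA.CT.snd SFA.CT.id))
        (CT.sgl (CT.nat 1) (SFA.CT.snd SFA.CT.id)) (fun _ => by simp))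
  have e1 : ∀ x, ((y x).elim [] (fun y => SQ.sgl 0 y ++ SQ.sgl 1 y)).length ≤ 8 := by
    intro x; rcases y x with _ | y <;> simp
  have h2 : SFA.CT (fun x => SQ.sgl 0 (a x).2.2 ++ SQ.sgl 1 (a x).2.2 ++
      (y x).elim [] (fun y => SQ.sgl 0 y ++ SQ.sgl 1 y)) :=
    CT.append 8 (CT.append 4 (CT.sgl (CT.nat 0) hv) (CT.sgl (CT.nat 1) hv)
      (fun _ => by simp)) h1 (fun _ => by simp)
  refine CT.append 26 (CT.append 16 h2 (CT.TC hl hv hy (SFA.CT.fst ha)) (fun x => ?_))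
    (CT.TC hl hv hy (SFA.CT.fst (SFA.CT.snd ha))) (fun x => ?_)
  · have := e1 x
    simp only [List.length_append, sgl_length]
    omega
  · have h3 := e1 x
    have h4 := TC_length (l x) (a x).2.2 (y x) (a x).1
    simp only [List.length_append, sgl_length]
    omega

theorem qct_QW {l : A → ℝ} {a : A → PW} (hl : SFA.CT l) (ha : SFA.CT a) :
    QCT (fun x => QW (l x) (a x)) 36 where
  val := CT.valW (pc ha (SFA.CT.fst SFA.CT.id)) (SFA.CT.snd SFA.CT.id)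
  lt := SFA.CT.lexB (SFA.CT.fst (SFA.CT.snd SFA.CT.id)) (SFA.CT.snd (SFA.CT.snd SFA.CT.id))
  F := CT.FW (pc hl (SFA.CT.fst SFA.CT.id)) (pc ha (SFA.CT.fst SFA.CT.id))
    (SFA.CT.fst (SFA.CT.snd SFA.CT.id)) (SFA.CT.snd (SFA.CT.snd SFA.CT.id))
  T := CT.TW (pc hl (SFA.CT.fst SFA.CT.id)) (pc ha (SFA.CT.fst SFA.CT.id))
    (SFA.CT.snd SFA.CT.id)
  len := fun _ _ => TW_length _ _ _

/-! ### the oracles -/

/-- the costs of the oracles `orcD D` -/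
def costD (D : Dat) : OrcCost :=
  ⟨fun v r => askCost (QV D.1 (false, v, r)) D.2, fun v r => askCost (QV D.1 (true, v, r)) D.2,
    fun b t v => askCost (QW D.1 (b, t, v)) D.2⟩

/-- **The oracles given by the search structure are computed with the costs `askCost`.** -/
theorem orcRC_orcD : OrcRC (fun D : Dat => orcD D) costD where
  low := rc_ask (qct_QV (l := fun p : Dat × ℂ × Option Seg => p.1.1)
    (a := fun p : Dat × ℂ × Option Seg => (false, p.2.1, p.2.2))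
    (SFA.CT.fst (SFA.CT.fst SFA.CT.id)) (SFA.CT.pair SFA.CT.ff (SFA.CT.snd SFA.CT.id)))
    (SFA.CT.snd (SFA.CT.fst SFA.CT.id))
  up := rc_ask (qct_QV (l := fun p : Dat × ℂ × Option Seg => p.1.1)
    (a := fun p : Dat × ℂ × Option Seg => (true, p.2.1, p.2.2))
    (SFA.CT.fst (SFA.CT.fst SFA.CT.id)) (SFA.CT.pair SFA.CT.tt (SFA.CT.snd SFA.CT.id)))
    (SFA.CT.snd (SFA.CT.fst SFA.CT.id))
  band := rc_ask (qct_QW (l := fun p : Dat × Option Seg × Option Seg × ℂ => p.1.1)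
    (a := fun p : Dat × Option Seg × Option Seg × ℂ => (p.2.1, p.2.2.1, p.2.2.2))
    (SFA.CT.fst (SFA.CT.fst SFA.CT.id)) (SFA.CT.snd SFA.CT.id))
    (SFA.CT.snd (SFA.CT.fst SFA.CT.id))

end

end SQ
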