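import Pool.Agent.Lib.SQ.GOrc
import Pool.Agent.Lib.SQ.BMain
import Pool.Agent.Lib.SQ.RQ

/-!
# SQ.AvgE: the average cost of the queries of the exploration
-/

namespace SQ

open SFA Classical

private theorem act_negS {S : List Seg} {x : ℂ}
    (hx : x ∉ U S.toFinset) {u : Seg} (hu : u ∈ S) (h : act x u = true) :
    act (-x) (negS u) = true := by
  unfold act at h ⊢
  rw [Bool.and_eq_true, Bool.not_eq_true', Bool.eq_false_iff, Ne, lexB_iff, lexB_iff] at h ⊢
  have hne : x ≠ u.1 := by
    rintro rfl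
    refine hx (Set.mem_iUnion₂.2 ⟨u, List.mem_toFinset.2 hu, ?_⟩)
    exact left_mem_segment ℝ u.1 u.2
  constructor
  · intro h1
    have h2 : lexlt u.2 x := (lexlt_neg x u.2).1 h1
    rcases h.2 with h3 | ⟨h3, h3'⟩ <;> rcases h2 with h4 | ⟨h4, h4'⟩ <;> linarith
  · refine (lexlt_neg x u.1).2 ?_
    have h1 := h.1
    unfold lexlt at h1 ⊢
    push Not at h1
    rcases lt_or_eq_of_le h1.1 with h2 | h2
    · exact Or.inl h2
    · rcases lt_or_eq_of_le (h1.2 h2.symm) with h3 | h3
      · exact Or.inr ⟨h2, h3⟩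
      · exact absurd (Complex.ext h2.symm h3.symm) hne

/-- the bound for one query -/
noncomputable def BQ (g n : ℕ) : ℝ :=
  37 * (n / 2 ^ g) + 8 ^ (3072 * g) * (9216 * g + 1) + 2 ^ g

theorem BQ_nonneg (g n : ℕ) : 0 ≤ BQ g n := by
  unfold BQ
  positivity

theorem avg_listsum {α : Type} (m : ℕ) (l : List α) (f : α → List Bool → ℝ) :
    avg m (fun w => (l.map (fun c => f c w)).sum) = (l.map (fun c => avg m (f c))).sum := by
  induction l with
  | nil => simp [avg_const]
  | cons a l ih =>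
    simp only [List.map_cons, List.sum_cons]
    rw [avg_fadd m (f a) (fun w => (l.map (fun c => f c w)).sum), ih]

section

variable {S : List Seg} (hS : ∀ s ∈ S, lexlt s.1 s.2) {ℓ g n : ℕ} (hn : S.length = n)
  (hl : n ≤ 2 ^ ℓ)

include hS hn hl

theorem avg_QV (a : PV) :
    avg (nBits ℓ g (3072 * g) n)
      (fun w => (askCost (QV (strOf ℓ g S w).1 a) (strOf ℓ g S w).2 : ℝ)) ≤ BQ g n := by
  have h1 : (elts S).length = n := by unfold elts; rw [List.length_map, hn]
  have h := avg_ask36 (good_QV hS a) ℓ g (by rw [h1]; exact hl)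
  rw [h1] at h
  exact h

theorem avg_QW (a : PW) (hb : ∀ u ∈ a.1, lexlt u.1 u.2 ∧ act a.2.2 u = true)
    (ht : ∀ u ∈ a.2.1, lexlt u.1 u.2 ∧ act a.2.2 u = true) :
    avg (nBits ℓ g (3072 * g) n)
      (fun w => (askCost (QW (strOf ℓ g S w).1 a) (strOf ℓ g S w).2 : ℝ)) ≤ BQ g n := by
  have h1 : (elts S).length = n := by unfold elts; rw [List.length_map, hn]
  have h := avg_ask36 (good_QW hS a hb ht) ℓ g (by rw [h1]; exact hl)
  rw [h1] at h
  exact h

/-- cost of the queries at the right wall of one cell -/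
theorem avg_nbR {c : Cell} (hc : RefOK S c) :
    avg (nBits ℓ g (3072 * g) n) (fun w => (nbRCost (costD (strOf ℓ g S w)).low
      (costD (strOf ℓ g S w)).up (costD (strOf ℓ g S w)).band (orcD (strOf ℓ g S w)) c : ℝ)) ≤
      4 * BQ g n := by
  have h0 := BQ_nonneg g n
  unfold nbRCost
  cases hq : c.q with
  | none =>
    simp only [Option.elim_none, Nat.cast_zero]
    rw [avg_const]
    linarith
  | some v =>
    have h := hc v (by rw [hq]; rfl)
    simp only [Option.elim_some]
    push_cast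
    rw [avg_fadd]
    have h1 : avg (nBits ℓ g (3072 * g) n) (fun w => ((if offB c.t v = true then
        ((costD (strOf ℓ g S w)).low v c.t : ℝ) + ((costD (strOf ℓ g S w)).band
          ((orcD (strOf ℓ g S w)).low v c.t) c.t v : ℝ) else 0) : ℝ)) ≤ 2 * BQ g n := by
      by_cases ho : offB c.t v = true
      · simp only [ho, if_true]
        rw [avg_fadd]
        have e1 : ∀ w, (orcD (strOf ℓ g S w)).low v c.t = lowF S v c.t := fun w =>
          (orcD_ok hS ℓ g (3072 * g) w).low v c.t
        simp only [e1]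
        have a1 := avg_QV hS hn hl (g := g) (false, v, c.t)
        have a2 := avg_QW hS hn hl (g := g) (lowF S v c.t, c.t, v)
          (fun u hu => ⟨hS u (lowF_mem hu).1, (lowF_mem hu).2⟩)
          (fun u hu => ⟨hS u (h.1 ho u hu).1, (h.1 ho u hu).2⟩)
        have a3 : avg (nBits ℓ g (3072 * g) n)
            (fun w => ((costD (strOf ℓ g S w)).low v c.t : ℝ)) ≤ BQ g n := a1
        have a4 : avg (nBits ℓ g (3072 * g) n)
            (fun w => ((costD (strOf ℓ g S w)).band (lowF S v c.t) c.t v : ℝ)) ≤ BQ g n := a2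
        linarith
      · simp only [ho, Bool.false_eq_true, if_false]
        rw [avg_const]
        linarith
    have h2 : avg (nBits ℓ g (3072 * g) n) (fun w => ((if offB c.b v = true then
        ((costD (strOf ℓ g S w)).up v c.b : ℝ) + ((costD (strOf ℓ g S w)).band
          c.b ((orcD (strOf ℓ g S w)).up v c.b) v : ℝ) else 0) : ℝ)) ≤ 2 * BQ g n := by
      by_cases ho : offB c.b v = true
      · simp only [ho, if_true]
        rw [avg_fadd]
        have e1 : ∀ w, (orcD (strOf ℓ g S w)).up v c.b = upF S v c.b := fun w =>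
          (orcD_ok hS ℓ g (3072 * g) w).up v c.b
        simp only [e1]
        have a1 := avg_QV hS hn hl (g := g) (true, v, c.b)
        have a2 := avg_QW hS hn hl (g := g) (c.b, upF S v c.b, v)
          (fun u hu => ⟨hS u (h.2 ho u hu).1, (h.2 ho u hu).2⟩)
          (fun u hu => ⟨hS u (upF_mem hu).1, (upF_mem hu).2⟩)
        have a3 : avg (nBits ℓ g (3072 * g) n)
            (fun w => ((costD (strOf ℓ g S w)).up v c.b : ℝ)) ≤ BQ g n := a1
        have a4 : avg (nBits ℓ g (3072 * g) n)
            (fun w => ((costD (strOf ℓ g S w)).band c.b (upF S v c.b) v : ℝ)) ≤ BQ g n := a2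
        linarith
      · simp only [ho, Bool.false_eq_true, if_false]
        rw [avg_const]
        linarith
    linarith

theorem avg_nbs {c : Cell} (hc : RefOK S c) (hc' : RefOK (S.map negS) (negC c)) :
    avg (nBits ℓ g (3072 * g) n) (fun w => (nbsCost (orcD (strOf ℓ g S w))
      (orcD (strOf ℓ g (S.map negS) w)) (costD (strOf ℓ g S w))
      (costD (strOf ℓ g (S.map negS) w)) c : ℝ)) ≤ 8 * BQ g n := by
  unfold nbsCost
  push_cast
  rw [avg_fadd]
  have h1 := avg_nbR hS hn hl (g := g) hc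
  have h2 := avg_nbR (negS_lex hS) (by rw [List.length_map, hn]) hl (g := g) hc'
  linarith

theorem avg_root {x : ℂ} (hx : x ∉ U S.toFinset) :
    avg (nBits ℓ g (3072 * g) n) (fun w => (rootCost (orcD (strOf ℓ g S w))
      (costD (strOf ℓ g S w)) (costD (strOf ℓ g (S.map negS) w)) x : ℝ)) ≤ 4 * BQ g n := by
  unfold rootCost
  push_cast
  rw [avg_fadd, avg_fadd, avg_fadd]
  have e1 : ∀ w, (orcD (strOf ℓ g S w)).low x (some (x, x + 1)) = lowF S x (some (x, x + 1)) :=
    fun w => (orcD_ok hS ℓ g (3072 * g) w).low _ _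
  have e2 : ∀ w, (orcD (strOf ℓ g S w)).up x (some (x, x + 1)) = upF S x (some (x, x + 1)) :=
    fun w => (orcD_ok hS ℓ g (3072 * g) w).up _ _
  simp only [e1, e2]
  have a1 := avg_QV hS hn hl (g := g) (false, x, some (x, x + 1))
  have a2 := avg_QV hS hn hl (g := g) (true, x, some (x, x + 1))
  have a3 := avg_QW hS hn hl (g := g) (lowF S x (some (x, x + 1)), upF S x (some (x, x + 1)), x)
    (fun u hu => ⟨hS u (lowF_mem hu).1, (lowF_mem hu).2⟩)
    (fun u hu => ⟨hS u (upF_mem hu).1, (upF_mem hu).2⟩)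
  have hn' : (S.map negS).length = n := by rw [List.length_map, hn]
  have a4 := avg_QW (negS_lex hS) hn' hl (g := g) ((upF S x (some (x, x + 1))).map negS,
    (lowF S x (some (x, x + 1))).map negS, -x)
    (fun u hu => by
      obtain ⟨t, ht, rfl⟩ := Option.mem_map.1 hu
      obtain ⟨h1, h2⟩ := upF_mem ht
      exact ⟨negS_lex hS _ (List.mem_map_of_mem h1), act_negS hx h1 h2⟩)
    (fun u hu => by
      obtain ⟨t, ht, rfl⟩ := Option.mem_map.1 hu
      obtain ⟨h1, h2⟩ := lowF_mem ht
      exact ⟨negS_lex hS _ (List.mem_map_of_mem h1), act_negS hx h1 h2⟩)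
  have b1 : avg (nBits ℓ g (3072 * g) n)
      (fun w => ((costD (strOf ℓ g S w)).low x (some (x, x + 1)) : ℝ)) ≤ BQ g n := a1
  have b2 : avg (nBits ℓ g (3072 * g) n)
      (fun w => ((costD (strOf ℓ g S w)).up x (some (x, x + 1)) : ℝ)) ≤ BQ g n := a2
  have b3 : avg (nBits ℓ g (3072 * g) n)
      (fun w => ((costD (strOf ℓ g S w)).band (lowF S x (some (x, x + 1)))
        (upF S x (some (x, x + 1))) x : ℝ)) ≤ BQ g n := a3
  have b4 : avg (nBits ℓ g (3072 * g) n)
      (fun w => ((costD (strOf ℓ g (S.map negS) w)).band ((upF S x (some (x, x + 1))).map negS)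
        ((lowF S x (some (x, x + 1))).map negS) (-x) : ℝ)) ≤ BQ g n := a4
  linarith

/-- **The average cost of the queries of one exploration.** -/
theorem avg_explore {x : ℂ} (hx : x ∉ U S.toFinset) :
    avg (nBits ℓ g (3072 * g) n) (fun w => (((rootCost (orcD (strOf ℓ g S w))
      (costD (strOf ℓ g S w)) (costD (strOf ℓ g (S.map negS) w)) x +
      ((exploreO (orcD (strOf ℓ g S w)) (orcD (strOf ℓ g (S.map negS) w)) x (2 ^ g)).1.map
        (nbsCost (orcD (strOf ℓ g S w)) (orcD (strOf ℓ g (S.map negS) w))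
          (costD (strOf ℓ g S w)) (costD (strOf ℓ g (S.map negS) w)))).sum : ℕ)) : ℝ)) ≤
      (8 * 2 ^ g + 4) * BQ g n := by
  have e : ∀ w, exploreO (orcD (strOf ℓ g S w)) (orcD (strOf ℓ g (S.map negS) w)) x (2 ^ g) =
      exploreF S x (2 ^ g) := fun w => expl_eq hS hx ℓ g w
  simp only [e]
  push_cast
  rw [avg_fadd]
  have h1 := avg_root hS hn hl (g := g) hx
  have hlen : (exploreF S x (2 ^ g)).1.length ≤ 2 ^ g := by
    obtain ⟨eps, h⟩ := exists_sys S hS hx
    exact (exploreF_spec h (2 ^ g)).2.2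
  have href := explore_ref S hS hx (2 ^ g)
  have h2 : avg (nBits ℓ g (3072 * g) n) (fun w => (((exploreF S x (2 ^ g)).1.map
      (fun c => (nbsCost (orcD (strOf ℓ g S w)) (orcD (strOf ℓ g (S.map negS) w))
          (costD (strOf ℓ g S w)) (costD (strOf ℓ g (S.map negS) w)) c : ℝ))).sum)) ≤
      2 ^ g * (8 * BQ g n) := by
    rw [avg_listsum]
    refine (List.sum_le_card_nsmul _ (8 * BQ g n) ?_).trans ?_
    · intro y hy
      obtain ⟨c, hc, rfl⟩ := List.mem_map.1 hy
      have h3 := href c (List.mem_append_left _ hc)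
      exact avg_nbs hS hn hl h3.1 h3.2
    · rw [List.length_map, nsmul_eq_mul]
      refine mul_le_mul_of_nonneg_right ?_ (by linarith [BQ_nonneg g n])
      exact_mod_cast hlen
  have h4 : ∀ w : List Bool, (List.map (Nat.cast : ℕ → ℝ) ((exploreF S x (2 ^ g)).1.map
      (nbsCost (orcD (strOf ℓ g S w)) (orcD (strOf ℓ g (S.map negS) w))
          (costD (strOf ℓ g S w)) (costD (strOf ℓ g (S.map negS) w))))).sum =
      ((exploreF S x (2 ^ g)).1.map
      (fun c => (nbsCost (orcD (strOf ℓ g S w)) (orcD (strOf ℓ g (S.map negS) w))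
          (costD (strOf ℓ g S w)) (costD (strOf ℓ g (S.map negS) w)) c : ℝ))).sum := by
    intro w
    rw [List.map_map]
    rfl
  rw [avg_congr (fun w _ => h4 w)]
  linarith

end

end SQ
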