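import Pool.Agent.Lib.SQ.AvgA
import Pool.Agent.Lib.SQ.AvgB

/-!
# SQ.AvgP: the average cost of a phase
-/

namespace SQ

open P7m SFA Classical

theorem sum_of_avg {m : ℕ} {f g : List Bool → ℕ} {B : ℝ}
    (h : avg m (fun w => ((f w + g w : ℕ) : ℝ)) ≤ B) :
    (∑ b : Fin m → Bool, (f (List.ofFn b) : ℝ)) ≤ B * 2 ^ m := by
  rw [avg_eq, div_le_iff₀ (by positivity)] at h
  refine le_trans (Finset.sum_le_sum (fun b _ => ?_)) h
  push_cast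
  linarith [Nat.cast_nonneg (α := ℝ) (g (List.ofFn b))]

theorem avg_cP : ∃ C1 : ℕ, ∀ (Γ : List Seg) (x : ℂ) (i : ℕ), (∀ s ∈ Γ, s.1 ≠ s.2) →
    x ∉ U Γ.toFinset → 1 ≤ Γ.length → (∀ j < i, 20000 * 2 ^ j ≤ lvl Γ.length) →
    (∑ b : Fin (nbP (i, inpOf Γ x)) → Bool, (cP ((i, inpOf Γ x), List.ofFn b) : ℝ)) ≤
      (C1 * ((Γ.length + 1) * 2 ^ i)) * 2 ^ nbP (i, inpOf Γ x) := by
  obtain ⟨K, hK⟩ := avg_B
  refine ⟨K + 3000, fun Γ x i hΓ hx hn _ => ?_⟩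
  have h2 : (0 : ℝ) ≤ 2 ^ i := by positivity
  have h3 : (0 : ℝ) ≤ (K : ℝ) := Nat.cast_nonneg _
  have h4 : (0 : ℝ) ≤ (Γ.length : ℝ) := Nat.cast_nonneg _
  have h5 : (0 : ℝ) ≤ (Γ.length : ℝ) * 2 ^ i := by positivity
  by_cases hi : 20000 * 2 ^ i ≤ lvl Γ.length
  · refine (sum_of_avg (avg_A hΓ hx hn hi)).trans ?_
    refine mul_le_mul_of_nonneg_right ?_ (by positivity)
    push_cast
    nlinarith [mul_nonneg h3 h5, mul_nonneg h3 h2]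
  · refine (sum_of_avg (hK Γ x i hΓ hx hn (not_le.1 hi))).trans ?_
    refine mul_le_mul_of_nonneg_right ?_ (by positivity)
    push_cast
    nlinarith [mul_nonneg h3 h5, mul_nonneg h3 h2]

end SQ
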