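import Pool.Agent.Lib.SQ.BRep

/-!
# SQ.BBest: the answer with the search structure is the exact answer

`IsBest Q l y`: `y` is the best value on `l`: `none` if no element of `l` has a value, otherwise a
value of an element of `l` such that no value of an element of `l` is smaller.
`best_exact`: `IsBest Q l' (exact Q l')` for every `l' ⊆ l` (induction on `l'` from the right
(`List.reverseRecOn`) or for the fold with an accumulator: if `y` is best for `l1` then
`bestQ .. y l2` is best for `l1 ++ l2`; in the step one uses `asymm` and `trans`: if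
`lt a b = true` and no value `c` on `l1` satisfies `lt c b`, then no value `c` satisfies `lt c a`
(otherwise `lt c b` by `trans`), and `lt a a = false` by `asymm`).
`best_unique`: two best values of lists with the same members are equal (`total`).
`ask_eq`: let `y = exact Q D.2`, `D.2 ⊆ l`.  `ask Q D = bestQ val lt y R`, `R` a permutation of
`l.filter (F y)` (`report_perm` with `Good.test`).  `y` is best for `D.2`, so the answer is best for
`D.2 ++ R`.  It is best for `l`: an element of `l` with a value `a` which is not in `R` has not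
(`lt a b` for all `b ∈ y`) by `sel`; so `y = some b` and `lt a b = false`; the answer `z` satisfies:
`b` is a value on `D.2`, so `lt b z = false`, and if `lt a z = true` then: by totality either
`lt z b = true`, so `lt a b = true` by `trans`, a contradiction, or `z = b`, a contradiction.
The answer is a value of an element of `D.2 ++ R ⊆ l`.
`samp_sub`: the members of `samp g l w` are members of `l`.
-/

namespace SQ

open SFA Classical

/-- `y` is the best value on `l` -/
def IsBest {V : Type} (Q : Query V) (l : List El) (y : Option V) : Prop :=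
  (y = none ∧ ∀ e ∈ l, Q.val e = none) ∨
    ∃ b, y = some b ∧ isV Q l b ∧ ∀ e ∈ l, ∀ a, Q.val e = some a → Q.lt a b = false

namespace BBestAux

theorem lt_self {V : Type} {Q : Query V} {l : List El} {m : ℕ} (h : Good Q l m) {a : V}
    (ha : isV Q l a) : Q.lt a a = false := by
  by_contra hcon
  rw [Bool.not_eq_false] at hcon
  have h1 := h.asymm a a ha ha hcon
  rw [hcon] at h1
  exact absurd h1 (by simp)

theorem step {V : Type} {Q : Query V} {l : List El} {m : ℕ} (h : Good Q l m) {l1 : List El}
    {acc : Option V} {e0 : El} (hb : IsBest Q l1 acc) (hl : ∀ e ∈ l1, e ∈ l) (he0 : e0 ∈ l) :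
    IsBest Q (l1 ++ [e0]) (upd Q.val Q.lt acc e0) := by
  have hmem : ∀ e, e ∈ l1 ++ [e0] ↔ e ∈ l1 ∨ e = e0 := fun e => by simp
  rcases hv : Q.val e0 with _ | a
  · have h1 : upd Q.val Q.lt acc e0 = acc := by
      unfold upd
      rw [hv]
      rfl
    rw [h1]
    rcases hb with ⟨h2, h3⟩ | ⟨b, h2, ⟨e, he, hve⟩, h3⟩
    · refine Or.inl ⟨h2, fun e he => ?_⟩
      rcases (hmem e).1 he with h4 | rfl
      · exact h3 e h4
      · exact hv
    · refine Or.inr ⟨b, h2, ⟨e, (hmem e).2 (Or.inl he), hve⟩, fun e' he' c hc => ?_⟩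
      rcases (hmem e').1 he' with h4 | rfl
      · exact h3 e' h4 c hc
      · rw [hv] at hc
        exact absurd hc (by simp)
  · have hVa : isV Q l a := ⟨e0, he0, hv⟩
    rcases hb with ⟨h2, h3⟩ | ⟨b, h2, ⟨e, he, hve⟩, h3⟩
    · have h1 : upd Q.val Q.lt acc e0 = some a := by
        unfold upd
        rw [hv, h2]
        rfl
      rw [h1]
      refine Or.inr ⟨a, rfl, ⟨e0, (hmem e0).2 (Or.inr rfl), hv⟩, fun e' he' c hc => ?_⟩
      rcases (hmem e').1 he' with h4 | rfl
      · rw [h3 e' h4] at hc
        exact absurd hc (by simp)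
      · rw [hv] at hc
        rw [← Option.some.inj hc]
        exact lt_self h hVa
    · have hVb : isV Q l b := ⟨e, hl e he, hve⟩
      have h1 : upd Q.val Q.lt acc e0 = if Q.lt a b then some a else some b := by
        unfold upd
        rw [hv, h2]
        rfl
      rw [h1]
      by_cases hab : Q.lt a b = true
      · rw [if_pos hab]
        refine Or.inr ⟨a, rfl, ⟨e0, (hmem e0).2 (Or.inr rfl), hv⟩, fun e' he' c hc => ?_⟩
        rcases (hmem e').1 he' with h4 | rfl
        · have h5 := h3 e' h4 c hc
          by_contra hcon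
          rw [Bool.not_eq_false] at hcon
          have h6 := h.trans c a b ⟨e', hl e' h4, hc⟩ hVa hVb hcon hab
          rw [h5] at h6
          exact absurd h6 (by simp)
        · rw [hv] at hc
          rw [← Option.some.inj hc]
          exact lt_self h hVa
      · rw [if_neg hab]
        refine Or.inr ⟨b, rfl, ⟨e, (hmem e).2 (Or.inl he), hve⟩, fun e' he' c hc => ?_⟩
        rcases (hmem e').1 he' with h4 | rfl
        · exact h3 e' h4 c hc
        · rw [hv] at hc
          rw [← Option.some.inj hc]
          rw [← Bool.not_eq_true]; exact hab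

theorem fold {V : Type} {Q : Query V} {l : List El} {m : ℕ} (h : Good Q l m) (l2 : List El) :
    ∀ (l1 : List El) (acc : Option V), IsBest Q l1 acc → (∀ e ∈ l1, e ∈ l) →
      (∀ e ∈ l2, e ∈ l) → IsBest Q (l1 ++ l2) (bestQ Q.val Q.lt acc l2) := by
  induction l2 with
  | nil =>
    intro l1 acc hb _ _
    rw [List.append_nil]
    exact hb
  | cons e t ih =>
    intro l1 acc hb h1 h2
    have h3 := ih (l1 ++ [e]) (upd Q.val Q.lt acc e)
      (step h hb h1 (h2 e List.mem_cons_self)) (by
        intro e' he'
        rcases List.mem_append.1 he' with h4 | h4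
        · exact h1 e' h4
        · rw [List.mem_singleton.1 h4]
          exact h2 e List.mem_cons_self) (fun e' he' => h2 e' (List.mem_cons_of_mem _ he'))
    rw [List.append_assoc] at h3
    exact h3

theorem congr {V : Type} {Q : Query V} {l1 l2 : List El} (he : ∀ e, e ∈ l1 ↔ e ∈ l2)
    {y : Option V} (hy : IsBest Q l1 y) : IsBest Q l2 y := by
  rcases hy with ⟨h2, h3⟩ | ⟨b, h2, ⟨e, hel, hve⟩, h3⟩
  · exact Or.inl ⟨h2, fun e hel => h3 e ((he e).2 hel)⟩
  · exact Or.inr ⟨b, h2, ⟨e, (he e).1 hel, hve⟩, fun e' he' => h3 e' ((he e').2 he')⟩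

end BBestAux

open BBestAux

theorem best_exact {V : Type} {Q : Query V} {l : List El} {m : ℕ} (h : Good Q l m)
    {l' : List El} (hl : ∀ e ∈ l', e ∈ l) : IsBest Q l' (exact Q l') := by
  have h1 := fold h l' [] none (Or.inl ⟨rfl, fun e he => absurd he (by simp)⟩)
    (fun e he => absurd he (by simp)) hl
  rw [List.nil_append] at h1
  exact h1

theorem best_unique {V : Type} {Q : Query V} {l : List El} {m : ℕ} (h : Good Q l m)
    {l1 l2 : List El} (hl : ∀ e ∈ l1, e ∈ l) (he : ∀ e, e ∈ l1 ↔ e ∈ l2) {y z : Option V}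
    (hy : IsBest Q l1 y) (hz : IsBest Q l2 z) : y = z := by
  have hz' : IsBest Q l1 z := BBestAux.congr (fun e => (he e).symm) hz
  rcases hy with ⟨h2, h3⟩ | ⟨b, h2, ⟨e, hel, hve⟩, h3⟩
  · rcases hz' with ⟨h4, h5⟩ | ⟨c, h4, ⟨e', hel', hve'⟩, h5⟩
    · rw [h2, h4]
    · rw [h3 e' hel'] at hve'
      exact absurd hve' (by simp)
  · rcases hz' with ⟨h4, h5⟩ | ⟨c, h4, ⟨e', hel', hve'⟩, h5⟩
    · rw [h5 e hel] at hve
      exact absurd hve (by simp)
    · have h6 := h.total b c ⟨e, hl e hel, hve⟩ ⟨e', hl e' hel', hve'⟩ (h5 e hel b hve)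
        (h3 e' hel' c hve')
      rw [h2, h4, h6]

theorem ask_eq {V : Type} {Q : Query V} {l : List El} {m : ℕ} (h : Good Q l m) {D : Str}
    (h1 : OKC l D.1) (h2 : ∀ e ∈ D.2, e ∈ l) : ask Q D = exact Q l := by
  have hy := best_exact h h2
  obtain ⟨y, hyd⟩ : ∃ y, y = exact Q D.2 := ⟨_, rfl⟩
  obtain ⟨R, hRd⟩ : ∃ R, R = report (Q.F y) (Q.T y) D.1 := ⟨_, rfl⟩
  have hR : R.Perm (l.filter (Q.F y)) := by
    rw [hRd]
    exact report_perm (fun e e' => h.test y e e') h1
  have hRm : ∀ e, e ∈ R ↔ e ∈ l ∧ Q.F y e = true := by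
    intro e
    rw [hR.mem_iff, List.mem_filter]
  have hask : ask Q D = bestQ Q.val Q.lt y R := by
    rw [hRd, hyd]
    rfl
  rw [← hyd] at hy
  have hz := fold h R D.2 y hy h2 (fun e he => ((hRm e).1 he).1)
  rw [hask]
  obtain ⟨z, hzd⟩ : ∃ z, z = bestQ Q.val Q.lt y R := ⟨_, rfl⟩
  rw [← hzd] at hz ⊢
  have hysel : y = none ∨ ∃ b, y = some b ∧ isV Q l b := by
    rcases hy with ⟨h3, _⟩ | ⟨b, h3, ⟨e, he, hv⟩, _⟩
    · exact Or.inl h3
    · exact Or.inr ⟨b, h3, e, h2 e he, hv⟩
  have hzl : IsBest Q l z := by
    rcases hz with ⟨h3, h4⟩ | ⟨c, h3, ⟨e', he', hv'⟩, h4⟩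
    · refine Or.inl ⟨h3, fun e he => ?_⟩
      have hyn : y = none := by
        rcases hy with ⟨h5, _⟩ | ⟨b, h5, ⟨e'', he'', hv''⟩, _⟩
        · exact h5
        · rw [h4 e'' (List.mem_append_left _ he'')] at hv''
          exact absurd hv'' (by simp)
      rcases hv : Q.val e with _ | a
      · rfl
      · have h6 : Q.F y e = true := by
          rw [h.sel y hysel e he]
          exact ⟨a, hv, fun b hb => by
            rw [hyn] at hb
            exact absurd hb (by simp)⟩
        rw [h4 e (List.mem_append_right _ ((hRm e).2 ⟨he, h6⟩))] at hv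
        exact absurd hv (by simp)
    · have hcl : isV Q l c := by
        rcases List.mem_append.1 he' with h5 | h5
        · exact ⟨e', h2 e' h5, hv'⟩
        · exact ⟨e', ((hRm e').1 h5).1, hv'⟩
      refine Or.inr ⟨c, h3, hcl, fun e he a ha => ?_⟩
      by_contra hcon
      rw [Bool.not_eq_false] at hcon
      have hna : ¬ Q.F y e = true := by
        intro h6
        have h7 := h4 e (List.mem_append_right _ ((hRm e).2 ⟨he, h6⟩)) a ha
        rw [hcon] at h7
        exact absurd h7 (by simp)
      rw [h.sel y hysel e he] at hna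
      have h8 : ¬ ∀ b ∈ y, Q.lt a b = true := fun h9 => hna ⟨a, ha, h9⟩
      push Not at h8
      obtain ⟨b, hb, hab⟩ := h8
      have hyb : y = some b := hb
      rcases hy with ⟨h5, _⟩ | ⟨b', h5, ⟨e'', he'', hv''⟩, _⟩
      · rw [h5] at hyb
        exact absurd hyb (by simp)
      · have hbb : b' = b := by
          rw [h5] at hyb
          exact Option.some.inj hyb
        subst hbb
        have hbl : isV Q l b' := ⟨e'', h2 e'' he'', hv''⟩
        have h10 := h4 e'' (List.mem_append_left _ he'') b' hv''
        by_cases h11 : Q.lt c b' = true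
        · exact hab (h.trans a c b' ⟨e, he, ha⟩ hcl hbl hcon h11)
        · have h12 := h.total b' c hbl hcl h10 (by rw [← Bool.not_eq_true]; exact h11)
          rw [h12] at hab
          exact hab hcon
  exact best_unique h (fun e he => he) (fun e => Iff.rfl) hzl (best_exact h (fun e he => he))

theorem samp_sub (g : ℕ) (l : List El) (w : List Bool) : ∀ e ∈ samp g l w, e ∈ l := by
  induction l generalizing w with
  | nil =>
    intro e he
    exact absurd he (by simp [samp])
  | cons a t ih =>
    intro e he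
    unfold samp at he
    split_ifs at he with hc
    · rcases List.mem_cons.1 he with h1 | h1
      · rw [h1]
        exact List.mem_cons_self
      · exact List.mem_cons_of_mem _ (ih _ e h1)
    · exact List.mem_cons_of_mem _ (ih _ e he)

theorem ask_mkStr {V : Type} {Q : Query V} {l : List El} {m : ℕ} (h : Good Q l m)
    (ℓ g r : ℕ) (w : List Bool) : ask Q (mkStr ℓ g r l w) = exact Q l :=
  ask_eq h (okc_build ℓ r _ (okc_start l)) (samp_sub g l w)

end SQ
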