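import Pool.Agent.Lib.SQ.DS

/-!
# SQ.BCone: soundness of the cone test and of certificates

`coneV_sound`: unfold `coneV`.  If `cross u w ≠ 0` take `s = cross v w / cross u w`,
`t = cross u v / cross u w` (Cramer; `cross` is unfolded in coordinates, `field_simp`, `ring`).  If
`cross u w = 0`: `v = 0`: `s = t = 0`; `cross u v = 0`, `0 < dot u v`: then `u ≠ 0`,
`s = dot u v / (u.re ^ 2 + u.im ^ 2)`, `t = 0` (`v = s u`: from `cross u v = 0`); the third case is
the same with `w`.
`coneB_aff`: an affine function, from `coneV_sound` for `L - B`, `R - B`, `E - B` (real and imaginary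
parts), `aff` is affine.
`dec_sound`: `dec τ c = true` gives `c.1 = τ.1` and one of the two sign cases at the apex and the
generators; with `coneB_aff` the value at `pt c.1 e` is `≥` the nonnegative value at the apex
(respectively `≤` the negative one) for `e` and for `e'`.
-/

namespace SQ

open SFA Classical

namespace BConeAux

theorem par {u v : ℂ} (h1 : cross u v = 0) (h2 : 0 < dot u v) :
    ∃ s : ℝ, 0 ≤ s ∧ v.re = s * u.re ∧ v.im = s * u.im := by
  unfold cross at h1
  unfold dot at h2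
  have hu : 0 < u.re ^ 2 + u.im ^ 2 := by
    by_contra hcon
    have h3 : u.re ^ 2 + u.im ^ 2 = 0 := le_antisymm (not_lt.1 hcon) (by positivity)
    have h4 : u.re = 0 := by nlinarith [sq_nonneg u.re, sq_nonneg u.im]
    have h5 : u.im = 0 := by nlinarith [sq_nonneg u.re, sq_nonneg u.im]
    rw [h4, h5] at h2
    simp at h2
  refine ⟨(u.re * v.re + u.im * v.im) / (u.re ^ 2 + u.im ^ 2), (div_pos h2 hu).le, ?_, ?_⟩
  · field_simp
    linear_combination -u.im * h1
  · field_simp
    linear_combination u.re * h1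

end BConeAux

theorem coneV_sound {u w v : ℂ} (h : coneV u w v = true) :
    ∃ s t : ℝ, 0 ≤ s ∧ 0 ≤ t ∧ v.re = s * u.re + t * w.re ∧ v.im = s * u.im + t * w.im := by
  unfold coneV at h
  split_ifs at h with h0
  · simp only [Bool.or_eq_true, Bool.and_eq_true, decide_eq_true_eq] at h
    rcases h with (h | h) | h
    · exact ⟨0, 0, le_refl 0, le_refl 0, by rw [h.1]; ring, by rw [h.2]; ring⟩
    · obtain ⟨s, hs, h1, h2⟩ := BConeAux.par h.1 h.2
      exact ⟨s, 0, hs, le_refl 0, by rw [h1]; ring, by rw [h2]; ring⟩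
    · obtain ⟨s, hs, h1, h2⟩ := BConeAux.par h.1 h.2
      exact ⟨0, s, le_refl 0, hs, by rw [h1]; ring, by rw [h2]; ring⟩
  · simp only [Bool.and_eq_true, decide_eq_true_eq] at h
    refine ⟨cross v w / cross u w, cross u v / cross u w, h.1, h.2, ?_, ?_⟩
    · field_simp
      unfold cross
      ring
    · field_simp
      unfold cross
      ring

theorem coneB_aff {B L R E : ℂ} (h : coneB B L R E = true) (τ : Test) :
    ∃ s t : ℝ, 0 ≤ s ∧ 0 ≤ t ∧
      aff τ E = aff τ B + s * (aff τ L - aff τ B) + t * (aff τ R - aff τ B) := by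
  obtain ⟨s, t, hs, ht, h1, h2⟩ := coneV_sound h
  refine ⟨s, t, hs, ht, ?_⟩
  simp only [Complex.sub_re, Complex.sub_im] at h1 h2
  unfold aff
  linear_combination τ.2.1 * h1 + τ.2.2.1 * h2

theorem dec_sound {τ : Test} {c : Cert} {e e' : El} (h : dec τ c = true) (he : inC c e = true)
    (he' : inC c e' = true) : nn τ e = nn τ e' := by
  unfold dec at h
  simp only [Bool.or_eq_true, Bool.and_eq_true, decide_eq_true_eq] at h
  obtain ⟨hc, h⟩ := h
  unfold inC at he he'
  rw [hc] at he he'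
  obtain ⟨s, t, hs, ht, h1⟩ := coneB_aff he τ
  obtain ⟨s', t', hs', ht', h1'⟩ := coneB_aff he' τ
  unfold nn
  rcases h with ⟨⟨h2, h3⟩, h4⟩ | ⟨⟨h2, h3⟩, h4⟩
  · have e1 : 0 ≤ aff τ (pt τ.1 e) := by
      rw [h1]
      nlinarith [mul_nonneg hs (sub_nonneg.2 h3), mul_nonneg ht (sub_nonneg.2 h4)]
    have e2 : 0 ≤ aff τ (pt τ.1 e') := by
      rw [h1']
      nlinarith [mul_nonneg hs' (sub_nonneg.2 h3), mul_nonneg ht' (sub_nonneg.2 h4)]
    rw [decide_eq_true e1, decide_eq_true e2]
  · have e1 : ¬ 0 ≤ aff τ (pt τ.1 e) := by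
      rw [h1]
      push Not
      nlinarith [mul_nonneg hs (sub_nonneg.2 h3), mul_nonneg ht (sub_nonneg.2 h4)]
    have e2 : ¬ 0 ≤ aff τ (pt τ.1 e') := by
      rw [h1']
      push Not
      nlinarith [mul_nonneg hs' (sub_nonneg.2 h3), mul_nonneg ht' (sub_nonneg.2 h4)]
    rw [decide_eq_false e1, decide_eq_false e2]

end SQ
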