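import Pool.Agent.Lib.SQ.BFour

/-!
# SQ.BCount: many quadruples give a certificate which decides the test

`goodQ τ z x` for `x : Fin 4 → Fin m`: the points `z (x 0)`, `z (x 1)`, `z (x 2)` form a certificate
which decides `τ`, and `z (x 3)` is in its cone.

Proof.  Let `A = {i | 0 ≤ aff τ (z i)}` and `B` the complement.  One of them has at least `m / 2`
elements.  Case `A` (`s ∈ A⁴`, that is `x : Fin 4 → Fin m` with all values in `A`): by `four`
(applied to `z ∘ x`) there is `σ` such that `x ∘ σ` is good (the apex value is `≥ 0` because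
`x (σ 0) ∈ A`).  So `|A|⁴ ≤ ∑_x [x ∈ A⁴] ∑_σ [good (x ∘ σ)] ≤ ∑_σ ∑_x [good (x ∘ σ)] =
24 ∑_x [good x]` (`x ↦ x ∘ σ` is a bijection: `Equiv.sum_comp` with `σ.arrowCongr (Equiv.refl _)`
or `Function.Bijective.sum_comp`; `Fintype.card_perm`, `(4).factorial = 24`; the number of functions
`Fin 4 → Fin m` with values in `A` is `|A|⁴`: `Fintype.card_piFinset_const` or
`Fintype.card_fun`).  Case `B`: the same with `four (ng τ)` (`aff (ng τ) z = - aff τ z`), the apex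
value is `< 0`.  Hence `∑_x [good x] ≥ (m / 2)⁴ / 24 = m⁴ / 384`.
-/

namespace SQ

open SFA Classical

/-- quadruples which give a certificate deciding `τ` -/
def goodQ (τ : Test) {m : ℕ} (z : Fin m → ℂ) (x : Fin 4 → Fin m) : Prop :=
  dec τ (τ.1, z (x 0), z (x 1), z (x 2)) = true ∧
    coneB (z (x 0)) (z (x 1)) (z (x 2)) (z (x 3)) = true

namespace BCountAux

theorem aff_ng (τ : Test) (w : ℂ) : aff (ng τ) w = -aff τ w := by
  simp only [aff, ng]
  ring

theorem good_A (τ : Test) {m : ℕ} (z : Fin m → ℂ) (x : Fin 4 → Fin m)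
    (h : ∀ i, 0 ≤ aff τ (z (x i))) : ∃ σ : Equiv.Perm (Fin 4), goodQ τ z (x ∘ σ) := by
  obtain ⟨σ, h1, h2, h3⟩ := four τ (fun i => z (x i))
  refine ⟨σ, ?_, h1⟩
  unfold dec
  rw [Bool.and_eq_true, Bool.or_eq_true]
  refine ⟨decide_eq_true rfl, Or.inl ?_⟩
  rw [Bool.and_eq_true, Bool.and_eq_true, decide_eq_true_eq, decide_eq_true_eq,
    decide_eq_true_eq]
  exact ⟨⟨h (σ 0), h2⟩, h3⟩

theorem good_B (τ : Test) {m : ℕ} (z : Fin m → ℂ) (x : Fin 4 → Fin m)
    (h : ∀ i, aff τ (z (x i)) < 0) : ∃ σ : Equiv.Perm (Fin 4), goodQ τ z (x ∘ σ) := by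
  obtain ⟨σ, h1, h2, h3⟩ := four (ng τ) (fun i => z (x i))
  rw [aff_ng, aff_ng, neg_le_neg_iff] at h2 h3
  refine ⟨σ, ?_, h1⟩
  unfold dec
  rw [Bool.and_eq_true, Bool.or_eq_true]
  refine ⟨decide_eq_true rfl, Or.inr ?_⟩
  rw [Bool.and_eq_true, Bool.and_eq_true, decide_eq_true_eq, decide_eq_true_eq,
    decide_eq_true_eq]
  exact ⟨⟨h (σ 0), h2⟩, h3⟩

theorem bnd (τ : Test) {m : ℕ} (z : Fin m → ℂ) (A : Finset (Fin m))
    (h : ∀ x : Fin 4 → Fin m, (∀ i, x i ∈ A) → ∃ σ : Equiv.Perm (Fin 4), goodQ τ z (x ∘ σ)) :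
    (A.card : ℝ) ^ 4 ≤ 24 * ∑ x : Fin 4 → Fin m, if goodQ τ z x then (1 : ℝ) else 0 := by
  have h0 : (A.card : ℝ) ^ 4 = ∑ _x ∈ Fintype.piFinset (fun _ : Fin 4 => A), (1 : ℝ) := by
    rw [Finset.sum_const, Fintype.card_piFinset_const, nsmul_eq_mul, mul_one]
    push_cast
    simp
  have h1 : ∀ x ∈ Fintype.piFinset (fun _ : Fin 4 => A), (1 : ℝ) ≤
      ∑ σ : Equiv.Perm (Fin 4), if goodQ τ z (x ∘ σ) then (1 : ℝ) else 0 := by
    intro x hx
    obtain ⟨σ, hσ⟩ := h x (fun i => Fintype.mem_piFinset.1 hx i)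
    have h2 := Finset.single_le_sum (f := fun σ : Equiv.Perm (Fin 4) =>
      if goodQ τ z (x ∘ σ) then (1 : ℝ) else 0)
      (fun σ _ => by split_ifs <;> norm_num) (Finset.mem_univ σ)
    simp only [if_pos hσ] at h2
    exact h2
  have h3 : ∀ σ : Equiv.Perm (Fin 4), (∑ x : Fin 4 → Fin m,
      if goodQ τ z (x ∘ σ) then (1 : ℝ) else 0) =
      ∑ x : Fin 4 → Fin m, if goodQ τ z x then (1 : ℝ) else 0 := fun σ =>
    Equiv.sum_comp (Equiv.arrowCongr σ.symm (Equiv.refl (Fin m)))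
      (fun x : Fin 4 → Fin m => if goodQ τ z x then (1 : ℝ) else 0)
  calc (A.card : ℝ) ^ 4 = ∑ _x ∈ Fintype.piFinset (fun _ : Fin 4 => A), (1 : ℝ) := h0
    _ ≤ ∑ x ∈ Fintype.piFinset (fun _ : Fin 4 => A),
        ∑ σ : Equiv.Perm (Fin 4), (if goodQ τ z (x ∘ σ) then (1 : ℝ) else 0) :=
        Finset.sum_le_sum h1
    _ ≤ ∑ x : Fin 4 → Fin m,
        ∑ σ : Equiv.Perm (Fin 4), (if goodQ τ z (x ∘ σ) then (1 : ℝ) else 0) :=
        Finset.sum_le_sum_of_subset_of_nonneg (Finset.subset_univ _)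
          (fun x _ _ => Finset.sum_nonneg fun σ _ => by split_ifs <;> norm_num)
    _ = ∑ σ : Equiv.Perm (Fin 4), ∑ x : Fin 4 → Fin m,
        (if goodQ τ z (x ∘ σ) then (1 : ℝ) else 0) := Finset.sum_comm
    _ = ∑ _σ : Equiv.Perm (Fin 4), ∑ x : Fin 4 → Fin m,
        (if goodQ τ z x then (1 : ℝ) else 0) := Finset.sum_congr rfl fun σ _ => h3 σ
    _ = 24 * ∑ x : Fin 4 → Fin m, (if goodQ τ z x then (1 : ℝ) else 0) := by
        rw [Finset.sum_const, Finset.card_univ, Fintype.card_perm, Fintype.card_fin,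
          nsmul_eq_mul]
        norm_num [Nat.factorial]

/-- quadruples as functions -/
def quad (m : ℕ) : (Fin m × Fin m × Fin m × Fin m) ≃ (Fin 4 → Fin m) where
  toFun p := ![p.1, p.2.1, p.2.2.1, p.2.2.2]
  invFun x := (x 0, x 1, x 2, x 3)
  left_inv p := rfl
  right_inv x := by
    funext i
    fin_cases i <;> rfl

end BCountAux

open BCountAux

theorem count_good (τ : Test) {m : ℕ} (z : Fin m → ℂ) :
    (m : ℝ) ^ 4 / 384 ≤ ∑ x : Fin 4 → Fin m, if goodQ τ z x then (1 : ℝ) else 0 := by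
  have hsplit : ((Finset.univ.filter (fun i => 0 ≤ aff τ (z i))).card : ℝ) +
      ((Finset.univ.filter (fun i => ¬ 0 ≤ aff τ (z i))).card : ℝ) = m := by
    have h1 := Finset.card_filter_add_card_filter_not (s := (Finset.univ : Finset (Fin m)))
      (fun i => 0 ≤ aff τ (z i))
    rw [Finset.card_univ, Fintype.card_fin] at h1
    exact_mod_cast h1
  have hA := bnd τ z (Finset.univ.filter (fun i => 0 ≤ aff τ (z i)))
    (fun x hx => good_A τ z x (fun i => (Finset.mem_filter.1 (hx i)).2))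
  have hB := bnd τ z (Finset.univ.filter (fun i => ¬ 0 ≤ aff τ (z i)))
    (fun x hx => good_B τ z x (fun i => not_le.1 (Finset.mem_filter.1 (hx i)).2))
  generalize ((Finset.univ.filter (fun i => 0 ≤ aff τ (z i))).card : ℝ) = a at hsplit hA
  have hm0 : (0 : ℝ) ≤ m := Nat.cast_nonneg m
  by_cases h : (m : ℝ) / 2 ≤ a
  · have h1 : ((m : ℝ) / 2) ^ 4 ≤ a ^ 4 := pow_le_pow_left₀ (by linarith) h 4
    have h2 : ((m : ℝ) / 2) ^ 4 = m ^ 4 / 16 := by ring
    linarith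
  · have h3 : (m : ℝ) / 2 ≤ ((Finset.univ.filter (fun i => ¬ 0 ≤ aff τ (z i))).card : ℝ) := by
      linarith
    have h1 := pow_le_pow_left₀ (by linarith) h3 4
    have h2 : ((m : ℝ) / 2) ^ 4 = m ^ 4 / 16 := by ring
    linarith

/-- the same as an iterated sum -/
theorem count_good' (τ : Test) {m : ℕ} (z : Fin m → ℂ) :
    (m : ℝ) ^ 4 / 384 ≤ ∑ i : Fin m, ∑ j : Fin m, ∑ k : Fin m, ∑ l : Fin m,
      if dec τ (τ.1, z i, z j, z k) = true ∧ coneB (z i) (z j) (z k) (z l) = true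
        then (1 : ℝ) else 0 := by
  refine (count_good τ z).trans (le_of_eq ?_)
  rw [← (quad m).sum_comp, Fintype.sum_prod_type]
  refine Finset.sum_congr rfl fun i _ => ?_
  rw [Fintype.sum_prod_type]
  refine Finset.sum_congr rfl fun j _ => ?_
  rw [Fintype.sum_prod_type]
  refine Finset.sum_congr rfl fun k _ => Finset.sum_congr rfl fun l _ => ?_
  by_cases h : goodQ τ z ((quad m) (i, j, k, l))
  · exact (if_pos h).trans (if_pos h).symm
  · exact (if_neg h).trans (if_neg h).symm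

end SQ
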