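import Pool.Agent.Lib.SQ.BHalf

/-!
# SQ.BFour: among four points some labelling gives a certificate

Let `z : Fin 4 → ℂ` and `τ` a test.  Put `(a, b) = (τ.2.1, τ.2.2.1)` if this is not `(0, 0)`, else
`(1, 0)`.  Choose `i0` minimal for the lexicographic order of the pairs
`(a re + b im, -b re + a im)` (for instance `Finset.exists_min_image` on `Finset.univ` with values
in `ℝ ×ₗ ℝ`, `toLex`).  The three differences `z i - z i0` satisfy `HP a b`.  By `three` for the
three other indices there is a permutation `σ` with `σ 0 = i0` and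
`coneB (z (σ 0)) (z (σ 1)) (z (σ 2)) (z (σ 3)) = true`.  The values of `aff τ` at the other points
are at least the value at `z i0`: if `(a, b)` is the linear part of `τ` by minimality, otherwise
`aff τ` is constant.  For the permutations: for every injective choice of four indices there is a
permutation (`Equiv.ofBijective` of the map `![i0, i1, i2, i3]`, or by cases on `i0 : Fin 4` and
`decide` for the existence of the permutations of `Fin 4`; it is enough to prove: for all pairwise
different `i0 i1 i2 i3 : Fin 4` there is `σ` with these values, by `decide`).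
-/

namespace SQ

open SFA Classical

namespace BFourAux

theorem form (τ : Test) : ∃ a b : ℝ, 0 < a ^ 2 + b ^ 2 ∧
    ∀ u v : ℂ, a * u.re + b * u.im ≤ a * v.re + b * v.im → aff τ u ≤ aff τ v := by
  by_cases h : τ.2.1 = 0 ∧ τ.2.2.1 = 0
  · refine ⟨1, 0, by norm_num, ?_⟩
    intro u v _
    unfold aff
    rw [h.1, h.2]
    simp
  · refine ⟨τ.2.1, τ.2.2.1, ?_, ?_⟩
    · rcases not_and_or.1 h with h1 | h1
      · have := sq_pos_of_ne_zero h1
        have := sq_nonneg τ.2.2.1
        linarith
      · have := sq_pos_of_ne_zero h1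
        have := sq_nonneg τ.2.1
        linarith
    · intro u v huv
      unfold aff
      linarith

end BFourAux

theorem four (τ : Test) (z : Fin 4 → ℂ) : ∃ σ : Equiv.Perm (Fin 4),
    coneB (z (σ 0)) (z (σ 1)) (z (σ 2)) (z (σ 3)) = true ∧
      aff τ (z (σ 0)) ≤ aff τ (z (σ 1)) ∧ aff τ (z (σ 0)) ≤ aff τ (z (σ 2)) := by
  obtain ⟨a, b, hab, haff⟩ := BFourAux.form τ
  obtain ⟨i0, -, hi0⟩ := Finset.exists_min_image (Finset.univ : Finset (Fin 4))
    (fun i => toLex (a * (z i).re + b * (z i).im, -b * (z i).re + a * (z i).im))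
    Finset.univ_nonempty
  have hmin : ∀ i, a * (z i0).re + b * (z i0).im < a * (z i).re + b * (z i).im ∨
      (a * (z i0).re + b * (z i0).im = a * (z i).re + b * (z i).im ∧
        -b * (z i0).re + a * (z i0).im ≤ -b * (z i).re + a * (z i).im) := by
    intro i
    have h := hi0 i (Finset.mem_univ i)
    rw [Prod.Lex.toLex_le_toLex] at h
    exact h
  have hHP : ∀ i, HP a b (z i - z i0) := by
    intro i
    unfold HP
    rw [Complex.sub_re, Complex.sub_im]
    rcases hmin i with h | ⟨h1, h2⟩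
    · left
      nlinarith
    · right
      constructor
      · nlinarith
      · nlinarith
  have hA : ∀ i, aff τ (z i0) ≤ aff τ (z i) := by
    intro i
    apply haff
    rcases hmin i with h | ⟨h1, h2⟩
    · exact h.le
    · exact h1.le
  have key : ∀ π : Equiv.Perm (Fin 4), π 0 = 0 →
      coneV (z ((Equiv.swap 0 i0) (π 1)) - z i0) (z ((Equiv.swap 0 i0) (π 2)) - z i0)
        (z ((Equiv.swap 0 i0) (π 3)) - z i0) = true →
      ∃ σ : Equiv.Perm (Fin 4),
      coneB (z (σ 0)) (z (σ 1)) (z (σ 2)) (z (σ 3)) = true ∧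
      aff τ (z (σ 0)) ≤ aff τ (z (σ 1)) ∧ aff τ (z (σ 0)) ≤ aff τ (z (σ 2)) := by
    intro π h0 hc
    refine ⟨π.trans (Equiv.swap 0 i0), ?_⟩
    simp only [Equiv.trans_apply]
    rw [h0, Equiv.swap_apply_left]
    exact ⟨hc, hA _, hA _⟩
  rcases three hab (hHP ((Equiv.swap 0 i0) 1)) (hHP ((Equiv.swap 0 i0) 2))
    (hHP ((Equiv.swap 0 i0) 3)) with h | h | h | h | h | h
  · exact key 1 rfl h
  · refine key (Equiv.swap 1 2) (by decide) ?_
    rw [show (Equiv.swap 1 2 : Equiv.Perm (Fin 4)) 1 = 2 by decide,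
      show (Equiv.swap 1 2 : Equiv.Perm (Fin 4)) 2 = 1 by decide,
      show (Equiv.swap 1 2 : Equiv.Perm (Fin 4)) 3 = 3 by decide]
    exact h
  · refine key (Equiv.swap 2 3) (by decide) ?_
    rw [show (Equiv.swap 2 3 : Equiv.Perm (Fin 4)) 1 = 1 by decide,
      show (Equiv.swap 2 3 : Equiv.Perm (Fin 4)) 2 = 3 by decide,
      show (Equiv.swap 2 3 : Equiv.Perm (Fin 4)) 3 = 2 by decide]
    exact h
  · refine key (Equiv.swap 1 2 * Equiv.swap 1 3) (by decide) ?_
    rw [show (Equiv.swap 1 2 * Equiv.swap 1 3 : Equiv.Perm (Fin 4)) 1 = 3 by decide,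
      show (Equiv.swap 1 2 * Equiv.swap 1 3 : Equiv.Perm (Fin 4)) 2 = 1 by decide,
      show (Equiv.swap 1 2 * Equiv.swap 1 3 : Equiv.Perm (Fin 4)) 3 = 2 by decide]
    exact h
  · refine key (Equiv.swap 1 3 * Equiv.swap 1 2) (by decide) ?_
    rw [show (Equiv.swap 1 3 * Equiv.swap 1 2 : Equiv.Perm (Fin 4)) 1 = 2 by decide,
      show (Equiv.swap 1 3 * Equiv.swap 1 2 : Equiv.Perm (Fin 4)) 2 = 3 by decide,
      show (Equiv.swap 1 3 * Equiv.swap 1 2 : Equiv.Perm (Fin 4)) 3 = 1 by decide]
    exact h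
  · refine key (Equiv.swap 1 3) (by decide) ?_
    rw [show (Equiv.swap 1 3 : Equiv.Perm (Fin 4)) 1 = 3 by decide,
      show (Equiv.swap 1 3 : Equiv.Perm (Fin 4)) 2 = 2 by decide,
      show (Equiv.swap 1 3 : Equiv.Perm (Fin 4)) 3 = 1 by decide]
    exact h

end SQ
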