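import Pool.Agent.Lib.SQ.DS

/-!
# SQ.BHalf: three vectors of a pointed half plane: one of them is in the cone of the two others

`a`, `b` are the coefficients of a nonzero linear form `F v = a v.re + b v.im`; the second form is
`G v = -b v.re + a v.im`.  `HP a b v` means `F v > 0`, or `F v = 0` and `G v ≥ 0`.

Identities (ring): `(a² + b²) cross u v = F u * G v - G u * F v`;
`F v * cross u w = F u * cross v w + F w * cross u v` and the same with `G` in place of `F`.

`cross_trans` (`u`, `v`, `w` in the half plane, `v ≠ 0`, `cross u v ≥ 0`, `cross v w ≥ 0`; then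
`cross u w ≥ 0`): if `F v > 0`, the second identity and `F u ≥ 0`, `F w ≥ 0`.  If `F v = 0` then
`G v > 0` (because `v ≠ 0` and `F v = G v = 0` would give `v = 0`); the first identity for `(v, w)`
gives `(a² + b²) cross v w = -(G v * F w)`, so `F w ≤ 0`, hence `F w = 0`, `cross v w = 0` and
`G w ≥ 0`; the identity with `G`: `G v * cross u w = G u * 0 + G w * cross u v ≥ 0`.

`coneV_mid` (`u`, `v`, `w` in the half plane, `u ≠ 0`, `v ≠ 0`, `w ≠ 0`, `cross u v ≥ 0`,
`cross v w ≥ 0`; then `coneV u w v = true`): let `D = cross u w ≥ 0` by `cross_trans`.  If `D ≠ 0`: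
unfold `coneV`, both quotients are `≥ 0`.  If `D = 0`: `cross u v = 0` and `dot u v > 0`.  Proof of
`cross u v = 0`: by `cross_trans` applied to `(v, w, u)`?  (`cross w u = -D = 0 ≥ 0`), so
`cross v u ≥ 0`, that is `cross u v ≤ 0`.  `dot u v > 0`: `(a² + b²) dot u v = F u F v + G u G v`
(ring), all of `F u`, `F v` are `≥ 0`; from `cross u v = 0`: `F u * G v = G u * F v`.  If `F u > 0`
and `F v > 0` then `G u`, `G v` have the same sign, so the sum is positive; if `F u = 0` then
`G u > 0` and `G u * F v = 0`, so `F v = 0`, `G v > 0`, sum positive; the case `F v = 0` is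
symmetric.

`coneV_zero`: `coneV u w 0 = true` (unfold, the numerators are 0).

`three`: if one of the three vectors is 0, put it at the place of `v`.  Otherwise sort them by
angle: `cross` is a total relation (`cross u v = -cross v u`), so among the six orders one has
`cross u v ≥ 0` and `cross v w ≥ 0` (case distinction on the signs of the three cross products:
`cross x y ≥ 0` or `cross y x ≥ 0`, etc.; cyclic sign patterns such as `cross x y ≥ 0`,
`cross y z ≥ 0` directly give an order), then `coneV_mid`.
-/

namespace SQ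

open SFA Classical

/-- the half plane `a x + b y > 0` together with one half of its boundary line -/
def HP (a b : ℝ) (v : ℂ) : Prop :=
  0 < a * v.re + b * v.im ∨ (a * v.re + b * v.im = 0 ∧ 0 ≤ -b * v.re + a * v.im)

namespace BHalfAux

theorem idF (a b : ℝ) (u v w : ℂ) : (a * v.re + b * v.im) * cross u w =
    (a * u.re + b * u.im) * cross v w + (a * w.re + b * w.im) * cross u v := by
  unfold cross
  ring

theorem idG (a b : ℝ) (u v w : ℂ) : (-b * v.re + a * v.im) * cross u w =
    (-b * u.re + a * u.im) * cross v w + (-b * w.re + a * w.im) * cross u v := by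
  unfold cross
  ring

theorem idC (a b : ℝ) (u v : ℂ) : (a ^ 2 + b ^ 2) * cross u v =
    (a * u.re + b * u.im) * (-b * v.re + a * v.im) -
      (-b * u.re + a * u.im) * (a * v.re + b * v.im) := by
  unfold cross
  ring

theorem idD (a b : ℝ) (u v : ℂ) : (a ^ 2 + b ^ 2) * dot u v =
    (a * u.re + b * u.im) * (a * v.re + b * v.im) +
      (-b * u.re + a * u.im) * (-b * v.re + a * v.im) := by
  unfold dot
  ring

theorem F_nonneg {a b : ℝ} {v : ℂ} (h : HP a b v) : 0 ≤ a * v.re + b * v.im := by
  rcases h with h | h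
  · exact h.le
  · exact h.1.ge

theorem G_pos {a b : ℝ} (hab : 0 < a ^ 2 + b ^ 2) {v : ℂ} (h : HP a b v) (v0 : v ≠ 0)
    (hF : a * v.re + b * v.im = 0) : 0 < -b * v.re + a * v.im := by
  have hG : 0 ≤ -b * v.re + a * v.im := by
    rcases h with h | h
    · rw [hF] at h
      exact absurd h (lt_irrefl _)
    · exact h.2
  refine lt_of_le_of_ne hG fun h0 => v0 ?_
  have h1 : (a ^ 2 + b ^ 2) * v.re = 0 := by
    have : (a ^ 2 + b ^ 2) * v.re = a * (a * v.re + b * v.im) - b * (-b * v.re + a * v.im) := by
      ring
    rw [this, hF, ← h0]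
    ring
  have h2 : (a ^ 2 + b ^ 2) * v.im = 0 := by
    have : (a ^ 2 + b ^ 2) * v.im = b * (a * v.re + b * v.im) + a * (-b * v.re + a * v.im) := by
      ring
    rw [this, hF, ← h0]
    ring
  have h3 : v.re = 0 := (mul_eq_zero.1 h1).resolve_left hab.ne'
  have h4 : v.im = 0 := (mul_eq_zero.1 h2).resolve_left hab.ne'
  exact Complex.ext h3 h4

theorem cross_neg (u v : ℂ) : cross v u = -cross u v := by
  unfold cross
  ring

theorem nonneg_of {c d : ℝ} (hc : 0 < c) (h : 0 ≤ c * d) : 0 ≤ d := by
  by_contra hd
  push Not at hd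
  have := mul_neg_of_pos_of_neg hc hd
  linarith

end BHalfAux

open BHalfAux

theorem cross_trans {a b : ℝ} (hab : 0 < a ^ 2 + b ^ 2) {u v w : ℂ} (hu : HP a b u)
    (hv : HP a b v) (hw : HP a b w) (v0 : v ≠ 0) (h1 : 0 ≤ cross u v) (h2 : 0 ≤ cross v w) :
    0 ≤ cross u w := by
  by_cases hF : 0 < a * v.re + b * v.im
  · refine nonneg_of hF ?_
    rw [idF]
    exact add_nonneg (mul_nonneg (F_nonneg hu) h2) (mul_nonneg (F_nonneg hw) h1)
  · have hF0 : a * v.re + b * v.im = 0 := le_antisymm (not_lt.1 hF) (F_nonneg hv)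
    have hG := G_pos hab hv v0 hF0
    have e1 := idC a b v w
    rw [hF0] at e1
    have hFw0 := F_nonneg hw
    have e2 : 0 ≤ (a ^ 2 + b ^ 2) * cross v w := mul_nonneg hab.le h2
    have e3 : 0 ≤ (-b * v.re + a * v.im) * (a * w.re + b * w.im) := mul_nonneg hG.le hFw0
    have e4 : (-b * v.re + a * v.im) * (a * w.re + b * w.im) = 0 := by linarith
    have e5 : a * w.re + b * w.im = 0 := (mul_eq_zero.1 e4).resolve_left hG.ne'
    have e6 : cross v w = 0 := by
      have : (a ^ 2 + b ^ 2) * cross v w = 0 := by rw [e1, e5]; ring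
      exact (mul_eq_zero.1 this).resolve_left hab.ne'
    have e7 : 0 ≤ -b * w.re + a * w.im := by
      rcases hw with hw | hw
      · rw [e5] at hw
        exact absurd hw (lt_irrefl _)
      · exact hw.2
    refine nonneg_of hG ?_
    rw [idG, e6, mul_zero, zero_add]
    exact mul_nonneg e7 h1

theorem coneV_zero (u w : ℂ) : coneV u w 0 = true := by
  unfold coneV
  have h1 : cross (0 : ℂ) w = 0 := by unfold cross; simp
  have h2 : cross u (0 : ℂ) = 0 := by unfold cross; simp
  split
  · simp
  · simp [h1, h2]

theorem coneV_mid {a b : ℝ} (hab : 0 < a ^ 2 + b ^ 2) {u v w : ℂ} (hu : HP a b u)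
    (hv : HP a b v) (hw : HP a b w) (u0 : u ≠ 0) (v0 : v ≠ 0) (w0 : w ≠ 0)
    (h1 : 0 ≤ cross u v) (h2 : 0 ≤ cross v w) : coneV u w v = true := by
  have hD := cross_trans hab hu hv hw v0 h1 h2
  by_cases h0 : cross u w = 0
  · have e1 : 0 ≤ cross w u := by rw [cross_neg, h0, neg_zero]
    have e2 := cross_trans hab hv hw hu w0 h2 e1
    have e3 : cross u v = 0 := by
      rw [cross_neg] at e2
      linarith
    have hdot : 0 < dot u v := by
      have hid := idD a b u v
      have hc := idC a b u v
      rw [e3, mul_zero] at hc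
      have hpos : 0 < (a * u.re + b * u.im) * (a * v.re + b * v.im) +
          (-b * u.re + a * u.im) * (-b * v.re + a * v.im) := by
        by_cases hFu : 0 < a * u.re + b * u.im
        · by_cases hFv : 0 < a * v.re + b * v.im
          · have k1 : 0 < (a * v.re + b * v.im) * ((a * u.re + b * u.im) * (a * v.re + b * v.im) +
                (-b * u.re + a * u.im) * (-b * v.re + a * v.im)) := by
              have k2 : (a * v.re + b * v.im) * ((a * u.re + b * u.im) * (a * v.re + b * v.im) +
                  (-b * u.re + a * u.im) * (-b * v.re + a * v.im)) =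
                  (a * u.re + b * u.im) * ((a * v.re + b * v.im) ^ 2 +
                    (-b * v.re + a * v.im) ^ 2) := by
                linear_combination (-(-b * v.re + a * v.im)) * hc.symm
              rw [k2]
              have k3 : 0 < (a * v.re + b * v.im) ^ 2 := by positivity
              have k4 := sq_nonneg (-b * v.re + a * v.im)
              exact mul_pos hFu (by linarith)
            exact (mul_pos_iff_of_pos_left hFv).1 k1
          · have hFv0 : a * v.re + b * v.im = 0 := le_antisymm (not_lt.1 hFv) (F_nonneg hv)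
            have hG := G_pos hab hv v0 hFv0
            rw [hFv0] at hc
            have := mul_pos hFu hG
            linarith
        · have hFu0 : a * u.re + b * u.im = 0 := le_antisymm (not_lt.1 hFu) (F_nonneg hu)
          have hG := G_pos hab hu u0 hFu0
          rw [hFu0] at hc ⊢
          have k1 : (-b * u.re + a * u.im) * (a * v.re + b * v.im) = 0 := by linarith
          have hFv0 : a * v.re + b * v.im = 0 := (mul_eq_zero.1 k1).resolve_left hG.ne'
          have hGv := G_pos hab hv v0 hFv0
          have := mul_pos hG hGv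
          linarith
      rw [← hid] at hpos
      exact (mul_pos_iff_of_pos_left hab).1 hpos
    unfold coneV
    rw [if_pos h0]
    simp [e3, hdot]
  · have hD' : 0 < cross u w := lt_of_le_of_ne hD (Ne.symm h0)
    unfold coneV
    rw [if_neg h0]
    simp [div_nonneg h2 hD, div_nonneg h1 hD]

theorem three {a b : ℝ} (hab : 0 < a ^ 2 + b ^ 2) {x y z : ℂ} (hx : HP a b x)
    (hy : HP a b y) (hz : HP a b z) :
    coneV x y z = true ∨ coneV y x z = true ∨ coneV x z y = true ∨ coneV z x y = true ∨
      coneV y z x = true ∨ coneV z y x = true := by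
  by_cases x0 : x = 0
  · subst x0
    exact Or.inr (Or.inr (Or.inr (Or.inr (Or.inl (coneV_zero y z)))))
  by_cases y0 : y = 0
  · subst y0
    exact Or.inr (Or.inr (Or.inl (coneV_zero x z)))
  by_cases z0 : z = 0
  · subst z0
    exact Or.inl (coneV_zero x y)
  have tot : ∀ u v : ℂ, 0 ≤ cross u v ∨ 0 ≤ cross v u := by
    intro u v
    rcases le_total 0 (cross u v) with h | h
    · exact Or.inl h
    · right
      rw [cross_neg]
      linarith
  rcases tot x y with h1 | h1 <;> rcases tot y z with h2 | h2
  · exact Or.inr (Or.inr (Or.inl (coneV_mid hab hx hy hz x0 y0 z0 h1 h2)))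
  · rcases tot x z with h3 | h3
    · exact Or.inl (coneV_mid hab hx hz hy x0 z0 y0 h3 h2)
    · exact Or.inr (Or.inr (Or.inr (Or.inr (Or.inr (coneV_mid hab hz hx hy z0 x0 y0 h3 h1)))))
  · rcases tot x z with h3 | h3
    · exact Or.inr (Or.inr (Or.inr (Or.inr (Or.inl (coneV_mid hab hy hx hz y0 x0 z0 h1 h3)))))
    · exact Or.inr (Or.inl (coneV_mid hab hy hz hx y0 z0 x0 h2 h3))
  · exact Or.inr (Or.inr (Or.inr (Or.inl (coneV_mid hab hz hy hx z0 y0 x0 h2 h1))))

end SQ
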