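import Pool.Agent.Lib.SQ.DS

/-!
# SQ.BInv: invariants of the construction

`OKC l cs`: the elements of the classes are those of `l` (with multiplicity), and every certificate
of a class holds for its elements.
`splitC`: the two parts together are a permutation of the class (`List.filter_append_perm`), the new
certificate holds for the elements of the first part by the definition of the filter.
`subR`, `roundC`, `build`: induction on the list of classes (`List.flatMap_cons`,
`List.Perm.append`), induction on `r`.
Sizes: `splitC` gives at most 2 classes, with at most one certificate more; so a round multiplies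
the number of classes by at most `8` and adds at most 3 certificates to each class.
`sizeC_build`: `sizeC cs ≤ cs.length * (M + 1)` if all classes have at most `M` certificates.
-/

namespace SQ

open SFA Classical

/-- the classes `cs` are a partition of the list `l` with valid certificates -/
structure OKC (l : List El) (cs : List Cls) : Prop where
  perm : (cs.flatMap Prod.snd).Perm l
  cert : ∀ C ∈ cs, ∀ c ∈ C.1, ∀ e ∈ C.2, inC c e = true

namespace BInvAux

theorem split_cases (j : ℕ) (w1 w2 w3 : List Bool) (C : Cls) :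
    splitC j w1 w2 w3 C = [C] ∨ ∃ c : Cert, splitC j w1 w2 w3 C =
      [(c :: C.1, C.2.filter (fun e => inC c e)), (C.1, C.2.filter (fun e => !(inC c e)))] := by
  unfold splitC
  cases pickL w1 C.2 with
  | none => exact Or.inl rfl
  | some B =>
    cases pickL w2 C.2 with
    | none => exact Or.inl rfl
    | some L =>
      cases pickL w3 C.2 with
      | none => exact Or.inl rfl
      | some R => exact Or.inr ⟨_, rfl⟩

theorem split_perm (j : ℕ) (w1 w2 w3 : List Bool) (C : Cls) :
    ((splitC j w1 w2 w3 C).flatMap Prod.snd).Perm C.2 := by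
  rcases split_cases j w1 w2 w3 C with h | ⟨c, h⟩
  · rw [h]
    simp
  · rw [h]
    simp only [List.flatMap_cons, List.flatMap_nil, List.append_nil]
    exact List.filter_append_perm (fun e => inC c e) C.2

theorem split_cert (j : ℕ) (w1 w2 w3 : List Bool) (C : Cls)
    (hC : ∀ c ∈ C.1, ∀ e ∈ C.2, inC c e = true) :
    ∀ C' ∈ splitC j w1 w2 w3 C, ∀ c ∈ C'.1, ∀ e ∈ C'.2, inC c e = true := by
  intro C' hC' c hc e he
  rcases split_cases j w1 w2 w3 C with h | ⟨d, h⟩
  · rw [h, List.mem_singleton] at hC'
    subst hC'
    exact hC c hc e he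
  · rw [h, List.mem_cons, List.mem_singleton] at hC'
    rcases hC' with rfl | rfl
    · simp only [List.mem_filter] at he
      rcases List.mem_cons.1 hc with rfl | hc
      · exact he.2
      · exact hC c hc e he.1
    · simp only [List.mem_filter] at he
      exact hC c hc e he.1

theorem split_length (j : ℕ) (w1 w2 w3 : List Bool) (C : Cls) :
    (splitC j w1 w2 w3 C).length ≤ 2 := by
  rcases split_cases j w1 w2 w3 C with h | ⟨d, h⟩ <;> rw [h] <;> simp

theorem split_certs (j : ℕ) (w1 w2 w3 : List Bool) (C : Cls) :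
    ∀ C' ∈ splitC j w1 w2 w3 C, C'.1.length ≤ C.1.length + 1 := by
  intro C' hC'
  rcases split_cases j w1 w2 w3 C with h | ⟨d, h⟩
  · rw [h, List.mem_singleton] at hC'
    rw [hC']
    omega
  · rw [h, List.mem_cons, List.mem_singleton] at hC'
    rcases hC' with rfl | rfl
    · simp
    · simp

theorem flat_perm (f : Cls → List Cls) (hf : ∀ C, ((f C).flatMap Prod.snd).Perm C.2)
    (cs : List Cls) : ((cs.flatMap f).flatMap Prod.snd).Perm (cs.flatMap Prod.snd) := by
  induction cs with
  | nil => exact List.Perm.refl _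
  | cons C cs ih =>
    rw [List.flatMap_cons, List.flatMap_append, List.flatMap_cons]
    exact (hf C).append ih

theorem okc_sub {l : List El} {cs : List Cls} (ℓ j : ℕ) (w : List Bool) (h : OKC l cs) :
    OKC l (subR ℓ j w cs) where
  perm := (flat_perm _ (split_perm j w (w.drop ℓ) ((w.drop ℓ).drop ℓ)) cs).trans h.perm
  cert := by
    intro C' hC'
    unfold subR at hC'
    obtain ⟨C, hC, hC'⟩ := List.mem_flatMap.1 hC'
    exact split_cert j _ _ _ C (h.cert C hC) C' hC'

theorem length_sub (ℓ j : ℕ) (w : List Bool) (cs : List Cls) :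
    (subR ℓ j w cs).length ≤ 2 * cs.length := by
  unfold subR
  induction cs with
  | nil => simp
  | cons C cs ih =>
    rw [List.flatMap_cons, List.length_append, List.length_cons]
    have := split_length j w (w.drop ℓ) ((w.drop ℓ).drop ℓ) C
    omega

theorem certs_sub (ℓ j : ℕ) (w : List Bool) (cs : List Cls) (M : ℕ)
    (h : ∀ C ∈ cs, C.1.length ≤ M) : ∀ C ∈ subR ℓ j w cs, C.1.length ≤ M + 1 := by
  intro C' hC'
  unfold subR at hC'
  obtain ⟨C, hC, hC'⟩ := List.mem_flatMap.1 hC'
  have h1 := split_certs j _ _ _ C C' hC'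
  have h2 := h C hC
  omega

theorem bsucc (ℓ r : ℕ) (w : List Bool) (cs : List Cls) :
    build ℓ (r + 1) w cs = build ℓ r (w.drop (9 * ℓ)) (roundC ℓ w cs) := by
  unfold build
  rw [Function.iterate_succ_apply]
  rfl

theorem length_round (ℓ : ℕ) (w : List Bool) (cs : List Cls) :
    (roundC ℓ w cs).length ≤ 8 * cs.length := by
  unfold roundC
  have h1 := length_sub ℓ 0 w cs
  have h2 := length_sub ℓ 1 (w.drop (3 * ℓ)) (subR ℓ 0 w cs)
  have h3 := length_sub ℓ 2 (w.drop (6 * ℓ)) (subR ℓ 1 (w.drop (3 * ℓ)) (subR ℓ 0 w cs))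
  omega

theorem certs_round (ℓ : ℕ) (w : List Bool) (cs : List Cls) (M : ℕ)
    (h : ∀ C ∈ cs, C.1.length ≤ M) : ∀ C ∈ roundC ℓ w cs, C.1.length ≤ M + 3 := by
  unfold roundC
  exact certs_sub ℓ 2 _ _ (M + 2) (certs_sub ℓ 1 _ _ (M + 1) (certs_sub ℓ 0 _ _ M h))

theorem sizeC_le (cs : List Cls) (M : ℕ) (h : ∀ C ∈ cs, C.1.length ≤ M) :
    sizeC cs ≤ cs.length * (M + 1) := by
  unfold sizeC
  induction cs with
  | nil => simp
  | cons C cs ih =>
    rw [List.map_cons, List.sum_cons, List.length_cons]
    have h1 := h C (by simp)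
    have h2 := ih (fun C hC => h C (by simp [hC]))
    have h3 : (cs.length + 1) * (M + 1) = cs.length * (M + 1) + (M + 1) := by ring
    omega

end BInvAux

open BInvAux

theorem okc_start (l : List El) : OKC l [([], l)] where
  perm := by simp
  cert := by
    intro C hC c hc
    rw [List.mem_singleton] at hC
    subst hC
    simp at hc

theorem okc_roundC {l : List El} {cs : List Cls} (ℓ : ℕ) (w : List Bool) (h : OKC l cs) :
    OKC l (roundC ℓ w cs) := by
  unfold roundC
  exact okc_sub ℓ 2 _ (okc_sub ℓ 1 _ (okc_sub ℓ 0 _ h))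

theorem okc_build {l : List El} {cs : List Cls} (ℓ r : ℕ) (w : List Bool) (h : OKC l cs) :
    OKC l (build ℓ r w cs) := by
  induction r generalizing w cs with
  | zero => exact h
  | succ r ih =>
    rw [bsucc]
    exact ih _ (okc_roundC ℓ w h)

theorem length_build (ℓ r : ℕ) (w : List Bool) (cs : List Cls) :
    (build ℓ r w cs).length ≤ 8 ^ r * cs.length := by
  induction r generalizing w cs with
  | zero => simp [build]
  | succ r ih =>
    rw [bsucc]
    refine (ih _ _).trans ?_
    rw [pow_succ, mul_assoc]
    exact Nat.mul_le_mul_left _ (length_round ℓ w cs)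

theorem certs_build (ℓ r : ℕ) (w : List Bool) (cs : List Cls) (M : ℕ)
    (h : ∀ C ∈ cs, C.1.length ≤ M) : ∀ C ∈ build ℓ r w cs, C.1.length ≤ M + 3 * r := by
  induction r generalizing w cs M with
  | zero => simpa [build] using h
  | succ r ih =>
    rw [bsucc]
    intro C hC
    have := ih _ _ (M + 3) (certs_round ℓ w cs M h) C hC
    omega

theorem sizeC_build (ℓ r : ℕ) (w : List Bool) (l : List El) :
    sizeC (build ℓ r w [([], l)]) ≤ 8 ^ r * (3 * r + 1) := by
  have h1 := length_build ℓ r w [([], l)]
  have h2 := certs_build ℓ r w [([], l)] 0 (by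
    intro C hC
    rw [List.mem_singleton] at hC
    subst hC
    simp)
  refine (sizeC_le _ _ h2).trans ?_
  rw [List.length_singleton, mul_one] at h1
  rw [zero_add]
  exact Nat.mul_le_mul_right _ h1

end SQ
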