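import Pool.Agent.Lib.SQ.BCone
import Pool.Agent.Lib.SQ.BInv

/-!
# SQ.BRep: the report is correct

`repC F T C = C.2.filter F` for a class with valid certificates, if `F` only depends on the tests
`T`: if not all tests are decided this is the definition.  If all are decided, any two elements of
`C.2` agree on every test of `T` (`dec_sound` with the certificate which decides it), hence on `F`;
so the filter is everything if `F` holds for the head, and nothing otherwise (`C.2 = []` is
trivial).
`report_eq`: flatMap, `List.filter_flatMap` or induction on `cs`.
`report_perm`: `OKC.perm` and `List.Perm.filter`.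
-/

namespace SQ

open SFA Classical

theorem repC_eq {F : El → Bool} {T : List Test} {C : Cls}
    (hF : ∀ e e', (∀ τ ∈ T, nn τ e = nn τ e') → F e = F e')
    (hC : ∀ c ∈ C.1, ∀ e ∈ C.2, inC c e = true) : repC F T C = C.2.filter F := by
  unfold repC
  split_ifs with h
  · rcases hl : C.2 with _ | ⟨e0, t⟩
    · simp
    · have he0 : e0 ∈ C.2 := by rw [hl]; exact List.mem_cons_self
      have key : ∀ e ∈ C.2, F e = F e0 := by
        intro e he
        apply hF
        intro τ hτ
        unfold decAll at h
        have h1 := List.all_eq_true.1 h τ hτ
        obtain ⟨c, hc, hd⟩ := List.any_eq_true.1 h1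
        exact dec_sound hd (hC c hc e he) (hC c hc e0 he0)
      rw [← hl]
      have hh : C.2.head? = some e0 := by rw [hl]; rfl
      rw [hh]
      simp only [Option.elim]
      by_cases hF0 : F e0 = true
      · rw [if_pos hF0]
        symm
        rw [List.filter_eq_self]
        intro e he
        rw [key e he]
        exact hF0
      · rw [if_neg hF0]
        symm
        rw [List.filter_eq_nil_iff]
        intro e he
        rw [key e he]
        exact hF0
  · rfl

theorem report_eq {l : List El} {cs : List Cls} {F : El → Bool} {T : List Test}
    (hF : ∀ e e', (∀ τ ∈ T, nn τ e = nn τ e') → F e = F e') (h : OKC l cs) :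
    report F T cs = (cs.flatMap Prod.snd).filter F := by
  unfold report
  rw [List.filter_flatMap]
  have h1 : ∀ C ∈ cs, repC F T C = C.2.filter F := fun C hC => repC_eq hF (h.cert C hC)
  have h2 : ∀ L : List Cls, (∀ C ∈ L, repC F T C = C.2.filter F) →
      L.flatMap (repC F T) = L.flatMap (fun C => C.2.filter F) := by
    intro L
    induction L with
    | nil => intro _; rfl
    | cons C L ih =>
      intro hL
      rw [List.flatMap_cons, List.flatMap_cons, hL C List.mem_cons_self,
        ih (fun D hD => hL D (List.mem_cons_of_mem _ hD))]
  exact h2 cs h1

theorem report_perm {l : List El} {cs : List Cls} {F : El → Bool} {T : List Test}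
    (hF : ∀ e e', (∀ τ ∈ T, nn τ e = nn τ e') → F e = F e') (h : OKC l cs) :
    (report F T cs).Perm (l.filter F) := by
  rw [report_eq hF h]
  exact h.perm.filter F

end SQ
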