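import Pool.Agent.Lib.SQ.BSplit

/-!
# SQ.BRound: one round reduces the undecided elements by a constant factor on average

`small ℓ cs`: every class has at most `2 ^ ℓ` elements; kept by `splitC`, `subR`, `roundC` (the
parts are filters of the class).
`und_subR_le`: induction on `cs` with `und_append` and `split_le`.
`und_subR_avg`: `subR` is a flatMap, `und` of a flatMap is the sum; `avg_fadd`, induction on `cs`,
`split_avg`.
`subR_append`, `roundC_append`: only the first `3 ℓ` (`9 ℓ`) bits are used (`pickL_append`).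
`und_round_avg`: `9 ℓ = 3 ℓ + (3 ℓ + 3 ℓ)`, `avg_append` twice; `w.drop (3 ℓ)` and `w.drop (6 ℓ)` of
`u ++ (v ++ z)`; according to `τ.1 = 0`, `1` or `2` one of the three splittings gives the factor
(`und_subR_avg`) and the two others do not increase `und [τ]` (`und_subR_le`); `avg_mono`,
`avg_const`.
`und_build_avg`: induction on `r` for all `cs`; `build ℓ (r + 1) w cs = build ℓ r (w.drop (9 ℓ))
(roundC ℓ w cs)` (`Function.iterate_succ_apply`), `9 ℓ (r + 1) = 9 ℓ + 9 ℓ r`, `avg_append`,
`roundC_append`, `List.drop_left'`.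
-/

namespace SQ

open SFA Classical

/-- every class has at most `2 ^ ℓ` elements -/
def small (ℓ : ℕ) (cs : List Cls) : Prop := ∀ C ∈ cs, C.2.length ≤ 2 ^ ℓ

namespace BRoundAux

theorem split_small {ℓ : ℕ} (j : ℕ) (w1 w2 w3 : List Bool) (C : Cls) (hC : C.2.length ≤ 2 ^ ℓ) :
    ∀ C' ∈ splitC j w1 w2 w3 C, C'.2.length ≤ 2 ^ ℓ := by
  intro C' hC'
  unfold splitC at hC'
  cases h1 : pickL w1 C.2 with
  | none =>
    rw [h1] at hC'
    simp only [Option.elim, List.mem_singleton] at hC'
    rw [hC']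
    exact hC
  | some B =>
    rw [h1] at hC'
    cases h2 : pickL w2 C.2 with
    | none =>
      rw [h2] at hC'
      simp only [Option.elim, List.mem_singleton] at hC'
      rw [hC']
      exact hC
    | some L =>
      rw [h2] at hC'
      cases h3 : pickL w3 C.2 with
      | none =>
        rw [h3] at hC'
        simp only [Option.elim, List.mem_singleton] at hC'
        rw [hC']
        exact hC
      | some R =>
        rw [h3] at hC'
        simp only [Option.elim, List.mem_cons, List.not_mem_nil, or_false] at hC'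
        rcases hC' with rfl | rfl
        · exact (List.length_filter_le _ _).trans hC
        · exact (List.length_filter_le _ _).trans hC

theorem small_subR {ℓ : ℕ} (j : ℕ) (w : List Bool) {cs : List Cls} (h : small ℓ cs) :
    small ℓ (subR ℓ j w cs) := by
  intro C' hC'
  unfold subR at hC'
  obtain ⟨C, hC, hC'⟩ := List.mem_flatMap.1 hC'
  exact split_small j _ _ _ C (h C hC) C' hC'

theorem small_tail {ℓ : ℕ} {C : Cls} {cs : List Cls} (h : small ℓ (C :: cs)) : small ℓ cs :=
  fun D hD => h D (List.mem_cons_of_mem _ hD)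

theorem subR_cons (ℓ j : ℕ) (w : List Bool) (C : Cls) (cs : List Cls) :
    subR ℓ j w (C :: cs) = splitC j w (w.drop ℓ) ((w.drop ℓ).drop ℓ) C ++ subR ℓ j w cs := by
  unfold subR
  rw [List.flatMap_cons]

theorem subR_append {ℓ : ℕ} (j : ℕ) {u v : List Bool} {cs : List Cls} (h : small ℓ cs)
    (hu : 3 * ℓ ≤ u.length) : subR ℓ j (u ++ v) cs = subR ℓ j u cs := by
  induction cs with
  | nil => rfl
  | cons C cs ih =>
    rw [subR_cons, subR_cons, ih (small_tail h)]
    congr 1
    have hC : C.2.length ≤ 2 ^ ℓ := h C (by simp)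
    unfold splitC
    rw [List.drop_append_of_le_length (by omega : ℓ ≤ u.length),
      List.drop_append_of_le_length (by rw [List.length_drop]; omega : ℓ ≤ (u.drop ℓ).length),
      pickL_append hC (by omega), pickL_append hC (by rw [List.length_drop]; omega),
      pickL_append hC (by rw [List.length_drop, List.length_drop]; omega)]

theorem und_subR_le (τ : Test) (ℓ j : ℕ) (w : List Bool) (cs : List Cls) :
    und [τ] (subR ℓ j w cs) ≤ und [τ] cs := by
  induction cs with
  | nil => exact le_refl _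
  | cons C cs ih =>
    rw [subR_cons, und_append, und_cons]
    have h1 := split_le τ j w (w.drop ℓ) ((w.drop ℓ).drop ℓ) C
    rw [BSplitAux.und_one] at h1
    omega

theorem und_subR_avg {ℓ : ℕ} (τ : Test) {cs : List Cls} (h : small ℓ cs) :
    avg (3 * ℓ) (fun w => (und [τ] (subR ℓ τ.1 w cs) : ℝ)) ≤ (1 - 1 / 3072) * (und [τ] cs : ℝ) := by
  induction cs with
  | nil =>
    have h1 : ∀ w : List Bool, (und [τ] (subR ℓ τ.1 w []) : ℝ) = 0 := by
      intro w
      simp [subR, und]
    simp only [h1]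
    rw [avg_const]
    simp [und]
  | cons C cs ih =>
    have h1 : ∀ w : List Bool, (und [τ] (subR ℓ τ.1 w (C :: cs)) : ℝ) =
        (und [τ] (splitC τ.1 w (w.drop ℓ) ((w.drop ℓ).drop ℓ) C) : ℝ) +
          (und [τ] (subR ℓ τ.1 w cs) : ℝ) := by
      intro w
      rw [subR_cons, und_append]
      push_cast
      rfl
    simp only [h1]
    rw [avg_fadd, und_cons]
    have h2 := split_avg τ C (h C (by simp))
    rw [BSplitAux.und_one] at h2
    have h3 := ih (small_tail h)
    push_cast at h2 ⊢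
    linarith

theorem und_cast_le (τ : Test) (ℓ j : ℕ) (w : List Bool) (cs : List Cls) :
    (und [τ] (subR ℓ j w cs) : ℝ) ≤ (und [τ] cs : ℝ) := by
  exact_mod_cast und_subR_le τ ℓ j w cs

theorem fac_nonneg : (0 : ℝ) ≤ 1 - 1 / 3072 := by norm_num

end BRoundAux

open BRoundAux

theorem small_roundC {ℓ : ℕ} (w : List Bool) {cs : List Cls} (h : small ℓ cs) :
    small ℓ (roundC ℓ w cs) := by
  unfold roundC
  exact small_subR 2 _ (small_subR 1 _ (small_subR 0 _ h))

theorem roundC_append {ℓ : ℕ} {u v : List Bool} {cs : List Cls} (h : small ℓ cs)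
    (hu : 9 * ℓ ≤ u.length) : roundC ℓ (u ++ v) cs = roundC ℓ u cs := by
  unfold roundC
  rw [List.drop_append_of_le_length (by omega : 3 * ℓ ≤ u.length),
    List.drop_append_of_le_length (by omega : 6 * ℓ ≤ u.length),
    subR_append 0 h (by omega), subR_append 1 (small_subR 0 _ h) (by rw [List.length_drop]; omega),
    subR_append 2 (small_subR 1 _ (small_subR 0 _ h)) (by rw [List.length_drop]; omega)]

theorem und_round_avg {ℓ : ℕ} (τ : Test) (hτ : τ.1 ≤ 2) {cs : List Cls} (h : small ℓ cs) :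
    avg (9 * ℓ) (fun w => (und [τ] (roundC ℓ w cs) : ℝ)) ≤ (1 - 1 / 3072) * (und [τ] cs : ℝ) := by
  have e : 9 * ℓ = 3 * ℓ + (3 * ℓ + 3 * ℓ) := by ring
  rw [e, avg_append]
  have e1 : avg (3 * ℓ) (fun u => avg (3 * ℓ + 3 * ℓ) (fun v =>
      (und [τ] (roundC ℓ (u ++ v) cs) : ℝ))) =
      avg (3 * ℓ) (fun u => avg (3 * ℓ) (fun v => avg (3 * ℓ) (fun z =>
        (und [τ] (subR ℓ 2 z (subR ℓ 1 v (subR ℓ 0 u cs))) : ℝ)))) := by
    refine avg_congr fun u hu => ?_
    rw [avg_append]
    refine avg_congr fun v hv => ?_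
    refine avg_congr fun z hz => ?_
    congr 2
    unfold roundC
    have h1 : (u ++ (v ++ z)).drop (3 * ℓ) = v ++ z := List.drop_left' hu
    have h2 : (u ++ (v ++ z)).drop (6 * ℓ) = z := by
      rw [show 6 * ℓ = 3 * ℓ + 3 * ℓ by ring, ← List.drop_drop, h1]
      exact List.drop_left' hv
    rw [h1, h2, subR_append 0 h hu.ge, subR_append 1 (small_subR 0 _ h) hv.ge]
  rw [e1]
  obtain ⟨j, hj⟩ : ∃ j, j = τ.1 := ⟨_, rfl⟩
  rw [← hj] at hτ
  interval_cases j
  · -- plane 0
    refine le_trans (avg_mono (g := fun u => (und [τ] (subR ℓ τ.1 u cs) : ℝ)) ?_)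
      (und_subR_avg τ h)
    intro u _
    have hb : avg (3 * ℓ) (fun v => avg (3 * ℓ) (fun z =>
        (und [τ] (subR ℓ 2 z (subR ℓ 1 v (subR ℓ 0 u cs))) : ℝ))) ≤
        avg (3 * ℓ) (fun _ => avg (3 * ℓ) (fun _ => (und [τ] (subR ℓ 0 u cs) : ℝ))) := by
      refine avg_mono fun v _ => avg_mono fun z _ => ?_
      exact (und_cast_le τ ℓ 2 z _).trans (und_cast_le τ ℓ 1 v _)
    rw [avg_const, avg_const] at hb
    rw [← hj]
    exact hb
  · -- plane 1
    have hb : ∀ u : List Bool, avg (3 * ℓ) (fun v => avg (3 * ℓ) (fun z =>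
        (und [τ] (subR ℓ 2 z (subR ℓ 1 v (subR ℓ 0 u cs))) : ℝ))) ≤
        (1 - 1 / 3072) * (und [τ] cs : ℝ) := by
      intro u
      have hb1 : avg (3 * ℓ) (fun v => avg (3 * ℓ) (fun z =>
          (und [τ] (subR ℓ 2 z (subR ℓ 1 v (subR ℓ 0 u cs))) : ℝ))) ≤
          avg (3 * ℓ) (fun v => (und [τ] (subR ℓ τ.1 v (subR ℓ 0 u cs)) : ℝ)) := by
        refine avg_mono fun v _ => ?_
        rw [← hj]
        refine (avg_mono (g := fun _ => (und [τ] (subR ℓ 1 v (subR ℓ 0 u cs)) : ℝ))
          fun z _ => und_cast_le τ ℓ 2 z _).trans ?_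
        rw [avg_const]
      refine hb1.trans ((und_subR_avg τ (small_subR 0 u h)).trans ?_)
      exact mul_le_mul_of_nonneg_left (und_cast_le τ ℓ 0 u cs) fac_nonneg
    refine (avg_mono fun u _ => hb u).trans ?_
    rw [avg_const]
  · -- plane 2
    have hb : ∀ u v : List Bool, avg (3 * ℓ) (fun z =>
        (und [τ] (subR ℓ 2 z (subR ℓ 1 v (subR ℓ 0 u cs))) : ℝ)) ≤
        (1 - 1 / 3072) * (und [τ] cs : ℝ) := by
      intro u v
      have h1 := und_subR_avg (ℓ := ℓ) τ (small_subR 1 v (small_subR 0 u h))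
      rw [← hj] at h1
      refine h1.trans ?_
      exact mul_le_mul_of_nonneg_left
        ((und_cast_le τ ℓ 1 v _).trans (und_cast_le τ ℓ 0 u cs)) fac_nonneg
    refine (avg_mono (g := fun _ => (1 - 1 / 3072) * (und [τ] cs : ℝ)) fun u _ =>
      (avg_mono (g := fun _ => (1 - 1 / 3072) * (und [τ] cs : ℝ)) fun v _ => hb u v).trans ?_).trans ?_
    · rw [avg_const]
    · rw [avg_const]

theorem build_succ (ℓ r : ℕ) (w : List Bool) (cs : List Cls) :
    build ℓ (r + 1) w cs = build ℓ r (w.drop (9 * ℓ)) (roundC ℓ w cs) := by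
  unfold build
  rw [Function.iterate_succ_apply]
  rfl

theorem und_build_avg {ℓ : ℕ} (τ : Test) (hτ : τ.1 ≤ 2) (r : ℕ) {cs : List Cls}
    (h : small ℓ cs) :
    avg (9 * ℓ * r) (fun w => (und [τ] (build ℓ r w cs) : ℝ)) ≤
      (1 - 1 / 3072) ^ r * (und [τ] cs : ℝ) := by
  induction r generalizing cs with
  | zero =>
    have h1 : ∀ w : List Bool, build ℓ 0 w cs = cs := fun w => rfl
    simp only [h1]
    rw [avg_const, pow_zero, one_mul]
  | succ r ih =>
    have e : 9 * ℓ * (r + 1) = 9 * ℓ + 9 * ℓ * r := by ring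
    rw [e, avg_append]
    have h1 : avg (9 * ℓ) (fun u => avg (9 * ℓ * r) (fun v =>
        (und [τ] (build ℓ (r + 1) (u ++ v) cs) : ℝ))) ≤
        avg (9 * ℓ) (fun u => (1 - 1 / 3072) ^ r * (und [τ] (roundC ℓ u cs) : ℝ)) := by
      refine avg_mono fun u hu => ?_
      refine le_trans (le_of_eq ?_) (ih (small_roundC u h))
      refine avg_congr fun v _ => ?_
      rw [build_succ, roundC_append h hu.ge, List.drop_left' hu]
    refine h1.trans ?_
    rw [avg_mul_left, pow_succ, mul_assoc]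
    exact mul_le_mul_of_nonneg_left (und_round_avg τ hτ h) (pow_nonneg fac_nonneg _)

end SQ
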