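import Pool.Agent.Lib.SQ.BCount
import Pool.Agent.Lib.SQ.BBits

/-!
# SQ.BSplit: splitting one class

`und1 τ C` is the contribution of one class to `und [τ]`.  If `C` is decided (some certificate of `C`
decides `τ`), every part is decided.  Otherwise, if the picks give the certificate `c`, the part
inside the cone is decided iff `dec τ c`, the part outside is not decided:
`und [τ] (splitC ..) = |C.2| - (if dec τ c then #{e ∈ C.2 | inC c e} else 0)`
(`List.length_eq_length_filter_add` or `List.countP`).

`split_le`: from this (`List.length_filter_le`).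
`split_avg`: let `m = |C.2|`, `h B L R = #{e ∈ C.2 | dec τ c ∧ inC c e}` for
`c = (τ.1, pt τ.1 B, pt τ.1 L, pt τ.1 R)`.  Then
`|C.2| - und [τ] (splitC ..) ≥ H (pickL w1) (pickL w2) (pickL w3)` with `H = h` if all three picks
exist and `0` otherwise.  The average over `3 ℓ` bits is an iterated average over `ℓ + (ℓ + ℓ)` bits
(`avg_append`; `pickL_append` removes the other bits; `List.drop_left'`).  Apply `avg_pick` three
times: average of `H ≥ (∑_{i,j,k} h l_i l_j l_k) / (2 m)³`, and `∑_{i,j,k} h = ∑_{i,j,k,l} [good]
≥ m⁴ / 384` by `count_good'` for `z i = pt τ.1 (l.get i)`.  Total `m⁴ / 384 / (8 m³) = m / 3072`.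
-/

namespace SQ

open SFA Classical

theorem und_cons (T : List Test) (C : Cls) (cs : List Cls) :
    und T (C :: cs) = (if decAll T C then 0 else C.2.length) + und T cs := by
  simp [und]

theorem und_append (T : List Test) (cs cs' : List Cls) :
    und T (cs ++ cs') = und T cs + und T cs' := by
  simp [und]

namespace BSplitAux

theorem und_one (T : List Test) (C : Cls) :
    und T [C] = if decAll T C then 0 else C.2.length := by
  rw [und_cons]
  simp [und]

theorem dec_one (τ : Test) (C : Cls) : decAll [τ] C = C.1.any (fun c => dec τ c) := by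
  simp [decAll]

theorem und_two (τ : Test) (C : Cls) (c : Cert) :
    und [τ] [(c :: C.1, C.2.filter (fun e => inC c e)),
      (C.1, C.2.filter (fun e => !(inC c e)))] =
      if decAll [τ] C then 0 else
        (if dec τ c then 0 else (C.2.filter (fun e => inC c e)).length) +
          (C.2.filter (fun e => !(inC c e))).length := by
  rw [und_cons, und_one]
  have h1 : decAll [τ] (c :: C.1, C.2.filter (fun e => inC c e)) = (dec τ c || decAll [τ] C) := by
    rw [dec_one, dec_one]
    simp
  have h2 : decAll [τ] (C.1, C.2.filter (fun e => !(inC c e))) = decAll [τ] C := by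
    rw [dec_one, dec_one]
  rw [h1, h2]
  by_cases hC : decAll [τ] C = true
  · simp [hC]
  · rw [Bool.not_eq_true] at hC
    simp [hC]

theorem len_add (l : List El) (p : El → Bool) :
    (l.filter p).length + (l.filter (fun e => !(p e))).length = l.length := by
  induction l with
  | nil => simp
  | cons a t ih =>
    cases h : p a
    · simp [h]
      omega
    · simp [h]
      omega

theorem len_filter (l : List El) (p : El → Bool) :
    ((l.filter p).length : ℝ) = ∑ i : Fin l.length, if p (l.get i) = true then (1 : ℝ) else 0 := by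
  have h1 : ∑ i : Fin l.length, (if p (l.get i) = true then (1 : ℝ) else 0) =
      (l.map (fun e => if p e = true then (1 : ℝ) else 0)).sum :=
    Fin.sum_univ_fun_getElem l (fun e => if p e = true then (1 : ℝ) else 0)
  rw [h1]
  induction l with
  | nil => simp
  | cons a t ih =>
    have ih' := ih (Fin.sum_univ_fun_getElem t (fun e => if p e = true then (1 : ℝ) else 0))
    cases h : p a
    · simp [h, ih']
    · simp [h, ih']
      ring

/-- the gain of three picks -/
noncomputable def HH (τ : Test) (l : List El) (oB oL oR : Option El) : ℝ :=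
  oB.elim 0 fun B => oL.elim 0 fun L => oR.elim 0 fun R =>
    if dec τ (τ.1, pt τ.1 B, pt τ.1 L, pt τ.1 R) = true then
      ((l.filter (fun e => inC (τ.1, pt τ.1 B, pt τ.1 L, pt τ.1 R) e)).length : ℝ) else 0

theorem HH_nonneg (τ : Test) (l : List El) (oB oL oR : Option El) : 0 ≤ HH τ l oB oL oR := by
  unfold HH
  cases oB with
  | none => simp
  | some B =>
    cases oL with
    | none => simp
    | some L =>
      cases oR with
      | none => simp
      | some R =>
        simp only [Option.elim]
        split_ifs
        · positivity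
        · exact le_refl 0

theorem und_split (τ : Test) (w1 w2 w3 : List Bool) (C : Cls) (hC : decAll [τ] C = false) :
    (und [τ] (splitC τ.1 w1 w2 w3 C) : ℝ) =
      (C.2.length : ℝ) - HH τ C.2 (pickL w1 C.2) (pickL w2 C.2) (pickL w3 C.2) := by
  have h0 : und [τ] [C] = C.2.length := by
    rw [und_one, hC]
    simp
  unfold splitC HH
  cases pickL w1 C.2 with
  | none => simp [h0]
  | some B =>
    cases pickL w2 C.2 with
    | none => simp [h0]
    | some L =>
      cases pickL w3 C.2 with
      | none => simp [h0]
      | some R =>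
        simp only [Option.elim]
        rw [und_two, hC]
        have h1 := len_add C.2 (fun e => inC (τ.1, pt τ.1 B, pt τ.1 L, pt τ.1 R) e)
        have h2 : (C.2.length : ℝ) =
            ((C.2.filter (fun e => inC (τ.1, pt τ.1 B, pt τ.1 L, pt τ.1 R) e)).length : ℝ) +
            ((C.2.filter (fun e => !(inC (τ.1, pt τ.1 B, pt τ.1 L, pt τ.1 R) e))).length : ℝ) := by
          rw [← h1]
          push_cast
          ring
        rw [h2]
        split_ifs <;> push_cast <;> simp_all

theorem HH_some (τ : Test) (l : List El) (i j k : Fin l.length) :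
    HH τ l (some (l.get i)) (some (l.get j)) (some (l.get k)) =
      ∑ x : Fin l.length, if dec τ (τ.1, pt τ.1 (l.get i), pt τ.1 (l.get j), pt τ.1 (l.get k)) = true ∧
        coneB (pt τ.1 (l.get i)) (pt τ.1 (l.get j)) (pt τ.1 (l.get k)) (pt τ.1 (l.get x)) = true
        then (1 : ℝ) else 0 := by
  unfold HH
  simp only [Option.elim]
  rw [len_filter]
  by_cases h : dec τ (τ.1, pt τ.1 (l.get i), pt τ.1 (l.get j), pt τ.1 (l.get k)) = true
  · rw [if_pos h]
    refine Finset.sum_congr rfl fun x _ => ?_
    simp only [h, true_and, inC]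
    split_ifs <;> rfl
  · rw [if_neg h]
    symm
    refine Finset.sum_eq_zero fun x _ => ?_
    rw [if_neg]
    exact fun h' => h h'.1

theorem avg_three {ℓ : ℕ} (l : List El) (hl : l.length ≤ 2 ^ ℓ)
    (H : Option El → Option El → Option El → ℝ) :
    avg (3 * ℓ) (fun w => H (pickL w l) (pickL (w.drop ℓ) l) (pickL ((w.drop ℓ).drop ℓ) l)) =
      avg ℓ (fun u => avg ℓ (fun v => avg ℓ (fun x => H (pickL u l) (pickL v l) (pickL x l)))) := by
  have e : 3 * ℓ = ℓ + (ℓ + ℓ) := by ring
  rw [e, avg_append]
  refine avg_congr fun u hu => ?_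
  have h1 : ∀ v : List Bool, H (pickL (u ++ v) l) (pickL ((u ++ v).drop ℓ) l)
      (pickL (((u ++ v).drop ℓ).drop ℓ) l) = H (pickL u l) (pickL v l) (pickL (v.drop ℓ) l) := by
    intro v
    rw [pickL_append hl hu.ge, List.drop_left' hu]
  simp only [h1]
  rw [avg_append]
  refine avg_congr fun v hv => ?_
  refine avg_congr fun x _ => ?_
  rw [pickL_append hl hv.ge, List.drop_left' hv]

end BSplitAux

open BSplitAux

theorem split_le (τ : Test) (j : ℕ) (w1 w2 w3 : List Bool) (C : Cls) :
    und [τ] (splitC j w1 w2 w3 C) ≤ und [τ] [C] := by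
  unfold splitC
  cases pickL w1 C.2 with
  | none => exact le_refl _
  | some B =>
    cases pickL w2 C.2 with
    | none => exact le_refl _
    | some L =>
      cases pickL w3 C.2 with
      | none => exact le_refl _
      | some R =>
        simp only [Option.elim]
        rw [und_two, und_one]
        have h1 := len_add C.2 (fun e => inC (j, pt j B, pt j L, pt j R) e)
        split_ifs <;> omega

theorem split_avg {ℓ : ℕ} (τ : Test) (C : Cls) (hl : C.2.length ≤ 2 ^ ℓ) :
    avg (3 * ℓ) (fun w => (und [τ] (splitC τ.1 w (w.drop ℓ) ((w.drop ℓ).drop ℓ) C) : ℝ)) ≤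
      (1 - 1 / 3072) * (und [τ] [C] : ℝ) := by
  by_cases h0 : und [τ] [C] = 0
  · have h1 : avg (3 * ℓ) (fun w => (und [τ] (splitC τ.1 w (w.drop ℓ) ((w.drop ℓ).drop ℓ) C) : ℝ)) ≤
        avg (3 * ℓ) (fun _ => 0) := by
      refine avg_mono fun w _ => ?_
      have h2 := split_le τ τ.1 w (w.drop ℓ) ((w.drop ℓ).drop ℓ) C
      rw [h0] at h2
      have h3 : und [τ] (splitC τ.1 w (w.drop ℓ) ((w.drop ℓ).drop ℓ) C) = 0 := by omega
      rw [h3]
      simp
    rw [avg_const] at h1
    rw [h0]
    simpa using h1
  · have hC : decAll [τ] C = false := by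
      by_contra h
      rw [Bool.not_eq_false] at h
      apply h0
      rw [und_one, h]
      simp
    have hund : und [τ] [C] = C.2.length := by
      rw [und_one, hC]
      simp
    have hne : C.2 ≠ [] := by
      intro h
      apply h0
      rw [hund, h]
      rfl
    have hm : (0 : ℝ) < C.2.length := by
      exact_mod_cast List.length_pos_iff.2 hne
    set l := C.2 with hldef
    set m : ℝ := (l.length : ℝ) with hmdef
    have e1 : avg (3 * ℓ) (fun w => (und [τ] (splitC τ.1 w (w.drop ℓ) ((w.drop ℓ).drop ℓ) C) : ℝ)) =
        m - avg ℓ (fun u => avg ℓ (fun v => avg ℓ (fun x =>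
          HH τ l (pickL u l) (pickL v l) (pickL x l)))) := by
      rw [← avg_three l hl (HH τ l)]
      have e2 : ∀ w : List Bool,
          (und [τ] (splitC τ.1 w (w.drop ℓ) ((w.drop ℓ).drop ℓ) C) : ℝ) =
          m + (-1) * HH τ l (pickL w l) (pickL (w.drop ℓ) l) (pickL ((w.drop ℓ).drop ℓ) l) := by
        intro w
        rw [und_split τ _ _ _ C hC]
        ring
      simp only [e2]
      rw [avg_fadd, avg_const, avg_mul_left]
      ring
    -- the three averages
    have hA : ∀ oB oL : Option El,
        (∑ k : Fin l.length, HH τ l oB oL (some (l.get k))) / (2 * m) ≤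
          avg ℓ (fun x => HH τ l oB oL (pickL x l)) := fun oB oL =>
      avg_pick hne hl (fun o => HH τ l oB oL o) (fun o => HH_nonneg τ l oB oL o)
    have hB : ∀ oB : Option El,
        (∑ j : Fin l.length, (∑ k : Fin l.length,
          HH τ l oB (some (l.get j)) (some (l.get k))) / (2 * m)) / (2 * m) ≤
          avg ℓ (fun v => avg ℓ (fun x => HH τ l oB (pickL v l) (pickL x l))) := by
      intro oB
      refine (avg_pick hne hl (fun o => (∑ k : Fin l.length,
        HH τ l oB o (some (l.get k))) / (2 * m)) ?_).trans (avg_mono fun v _ => hA oB _)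
      intro o
      exact div_nonneg (Finset.sum_nonneg fun k _ => HH_nonneg _ _ _ _ _) (by positivity)
    have hD : (∑ i : Fin l.length, (∑ j : Fin l.length, (∑ k : Fin l.length,
          HH τ l (some (l.get i)) (some (l.get j)) (some (l.get k))) / (2 * m)) / (2 * m)) / (2 * m) ≤
          avg ℓ (fun u => avg ℓ (fun v => avg ℓ (fun x =>
            HH τ l (pickL u l) (pickL v l) (pickL x l)))) := by
      refine (avg_pick hne hl (fun o => (∑ j : Fin l.length, (∑ k : Fin l.length,
        HH τ l o (some (l.get j)) (some (l.get k))) / (2 * m)) / (2 * m)) ?_).trans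
        (avg_mono fun u _ => hB _)
      intro o
      refine div_nonneg (Finset.sum_nonneg fun j _ => div_nonneg (Finset.sum_nonneg fun k _ =>
        HH_nonneg _ _ _ _ _) (by positivity)) (by positivity)
    have hcount := count_good' τ (fun i : Fin l.length => pt τ.1 (l.get i))
    have e3 : (∑ i : Fin l.length, (∑ j : Fin l.length, (∑ k : Fin l.length,
          HH τ l (some (l.get i)) (some (l.get j)) (some (l.get k))) / (2 * m)) / (2 * m)) / (2 * m) =
        (∑ i : Fin l.length, ∑ j : Fin l.length, ∑ k : Fin l.length, ∑ x : Fin l.length,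
          if dec τ (τ.1, pt τ.1 (l.get i), pt τ.1 (l.get j), pt τ.1 (l.get k)) = true ∧
            coneB (pt τ.1 (l.get i)) (pt τ.1 (l.get j)) (pt τ.1 (l.get k)) (pt τ.1 (l.get x)) = true
          then (1 : ℝ) else 0) / (2 * m) ^ 3 := by
      simp only [HH_some, ← Finset.sum_div]
      rw [div_div, div_div]
      congr 1
      ring
    rw [e3] at hD
    have h4 : m / 3072 ≤ (∑ i : Fin l.length, ∑ j : Fin l.length, ∑ k : Fin l.length,
        ∑ x : Fin l.length,
          if dec τ (τ.1, pt τ.1 (l.get i), pt τ.1 (l.get j), pt τ.1 (l.get k)) = true ∧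
            coneB (pt τ.1 (l.get i)) (pt τ.1 (l.get j)) (pt τ.1 (l.get k)) (pt τ.1 (l.get x)) = true
          then (1 : ℝ) else 0) / (2 * m) ^ 3 := by
      rw [le_div_iff₀ (by positivity)]
      refine le_trans (le_of_eq ?_) hcount
      rw [← hmdef]
      ring
    rw [e1, hund]
    have h5 := h4.trans hD
    have h6 : (1 - 1 / 3072) * ((C.2.length : ℕ) : ℝ) = m - m / 3072 := by
      rw [hmdef]
      ring
    rw [← hldef, ← hmdef] at *
    linarith

end SQ
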