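import Pool.Agent.Lib.SFA.PDefs

/-!
# SQ.DS: the search structure (Q2 of MP_7b5a71: a single face in expected time O(n log h))

An element is a segment together with the point of the dual plane which represents its line; so it
gives three points `pt 0`, `pt 1`, `pt 2` of the plane.  A test asks for the sign of an affine
function of one of these points.  The structure is a partition of the elements into classes; every
class has certificates (cones in one of the three planes which contain the points of all elements of
the class); most tests are decided by a certificate for most classes.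
-/

namespace SQ

open SFA Classical

noncomputable section

/-- an element: a segment and the point of its line in the dual plane -/
abbrev El := Seg × ℂ

/-- the three points of an element -/
def pt (j : ℕ) (e : El) : ℂ := if j = 0 then e.1.1 else if j = 1 then e.1.2 else e.2

/-- a test: the plane `j` and the coefficients of an affine function -/
abbrev Test := ℕ × ℝ × ℝ × ℝ

/-- the affine function of a test -/
def aff (τ : Test) (z : ℂ) : ℝ := τ.2.1 * z.re + τ.2.2.1 * z.im + τ.2.2.2

/-- the opposite affine function -/
def ng (τ : Test) : Test := (τ.1, -τ.2.1, -τ.2.2.1, -τ.2.2.2)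

/-- the test: the affine function is nonnegative -/
def nn (τ : Test) (e : El) : Bool := decide (0 ≤ aff τ (pt τ.1 e))

/-- positive -/
def ps (τ : Test) (e : El) : Bool := !(nn (ng τ) e)

/-- zero -/
def zr (τ : Test) (e : El) : Bool := nn τ e && nn (ng τ) e

/-- negative -/
def mi (τ : Test) (e : El) : Bool := !(nn τ e)

/-- scalar product -/
def dot (u v : ℂ) : ℝ := u.re * v.re + u.im * v.im

/-- `v` belongs to the closed cone generated by `u` and `w` -/
def coneV (u w v : ℂ) : Bool :=
  if cross u w = 0 then
    (decide (v.re = 0) && decide (v.im = 0)) || (decide (cross u v = 0) && decide (0 < dot u v)) ||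
      (decide (cross w v = 0) && decide (0 < dot w v))
  else decide (0 ≤ cross v w / cross u w) && decide (0 ≤ cross u v / cross u w)

/-- `E` belongs to the closed cone with apex `B` generated by `L - B` and `R - B` -/
def coneB (B L R E : ℂ) : Bool := coneV (L - B) (R - B) (E - B)

/-- a certificate: plane, apex, two generators -/
abbrev Cert := ℕ × ℂ × ℂ × ℂ

/-- the element satisfies the certificate -/
def inC (c : Cert) (e : El) : Bool := coneB c.2.1 c.2.2.1 c.2.2.2 (pt c.1 e)

/-- the certificate decides the test -/
def dec (τ : Test) (c : Cert) : Bool :=
  decide (c.1 = τ.1) &&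
    ((decide (0 ≤ aff τ c.2.1) && decide (aff τ c.2.1 ≤ aff τ c.2.2.1) &&
        decide (aff τ c.2.1 ≤ aff τ c.2.2.2)) ||
      (decide (aff τ c.2.1 < 0) && decide (aff τ c.2.2.1 ≤ aff τ c.2.1) &&
        decide (aff τ c.2.2.2 ≤ aff τ c.2.1)))

/-- a class: its certificates and its elements -/
abbrev Cls := List Cert × List El

/-! ### random splitting -/

/-- the number with the binary digits `w` (first digit = most significant) -/
def bn (w : List Bool) : ℕ := w.foldl (fun a b => a + a + if b then 1 else 0) 0

/-- a random member of `l`: the first `⌈log₂ |l|⌉` bits of `w` are its index; `none` if the index is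
too large (or `l` is empty) -/
def pickL (w : List Bool) (l : List El) : Option El := (l.drop (bn (w.take (Nat.clog 2 l.length)))).head?

/-- split a class by the cone of three random members in the plane `j` -/
def splitC (j : ℕ) (w1 w2 w3 : List Bool) (C : Cls) : List Cls :=
  (pickL w1 C.2).elim [C] fun B => (pickL w2 C.2).elim [C] fun L => (pickL w3 C.2).elim [C] fun R =>
    [((j, pt j B, pt j L, pt j R) :: C.1, C.2.filter (fun e => inC (j, pt j B, pt j L, pt j R) e)),
      (C.1, C.2.filter (fun e => !(inC (j, pt j B, pt j L, pt j R) e)))]

/-- split all classes in the plane `j`, all with the same `3 ℓ` random bits -/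
def subR (ℓ j : ℕ) (w : List Bool) (cs : List Cls) : List Cls :=
  cs.flatMap (splitC j w (w.drop ℓ) ((w.drop ℓ).drop ℓ))

/-- one round: split in the three planes; `9 ℓ` random bits -/
def roundC (ℓ : ℕ) (w : List Bool) (cs : List Cls) : List Cls :=
  subR ℓ 2 (w.drop (6 * ℓ)) (subR ℓ 1 (w.drop (3 * ℓ)) (subR ℓ 0 w cs))

/-- one step of the construction -/
def bstep (ℓ : ℕ) (a : List Bool × List Cls) : List Bool × List Cls :=
  (a.1.drop (9 * ℓ), roundC ℓ a.1 a.2)

/-- `r` rounds; `9 ℓ r` random bits -/
def build (ℓ r : ℕ) (w : List Bool) (cs : List Cls) : List Cls := ((bstep ℓ)^[r] (w, cs)).2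

/-! ### random sample -/

/-- every element reads `g` bits and belongs to the sample iff all of them are true -/
def samp (g : ℕ) : List El → List Bool → List El
  | [], _ => []
  | e :: t, w => if (w.take g).all (fun b => b) then e :: samp g t (w.drop g) else samp g t (w.drop g)

/-- a search structure: the classes and the sample -/
abbrev Str := List Cls × List El

/-- the search structure for the elements `l` -/
def mkStr (ℓ g r : ℕ) (l : List El) (w : List Bool) : Str :=
  (build ℓ r (w.drop (g * l.length)) [([], l)], samp g l w)

/-- number of random bits of `mkStr` -/
def nBits (ℓ g r n : ℕ) : ℕ := g * n + 9 * ℓ * r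

/-! ### queries -/

/-- all tests are decided -/
def decAll (T : List Test) (C : Cls) : Bool := T.all (fun τ => C.1.any (fun c => dec τ c))

/-- the members of a class with `F`, if `F` only depends on the tests `T` -/
def repC (F : El → Bool) (T : List Test) (C : Cls) : List El :=
  if decAll T C then C.2.head?.elim [] (fun e => if F e then C.2 else []) else C.2.filter F

/-- all elements with `F` -/
def report (F : El → Bool) (T : List Test) (cs : List Cls) : List El := cs.flatMap (repC F T)

/-- the better of the best value so far and the value of `e` -/
def upd {V : Type} (val : El → Option V) (lt : V → V → Bool) (acc : Option V) (e : El) :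
    Option V :=
  (val e).elim acc fun a => acc.elim (some a) fun b => if lt a b then some a else some b

/-- the best value on a list, starting with `acc` -/
def bestQ {V : Type} (val : El → Option V) (lt : V → V → Bool) (acc : Option V)
    (l : List El) : Option V := l.foldl (upd val lt) acc

/-- A minimum query: `val` gives the values, `lt` compares them, `F y` selects the elements with a
value smaller than `y` (`none` = infinity) and only depends on the tests `T y`. -/
structure Query (V : Type) where
  val : El → Option V
  lt : V → V → Bool
  F : Option V → El → Bool
  T : Option V → List Test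

/-- the answer for a plain list of elements -/
def exact {V : Type} (Q : Query V) (l : List El) : Option V := bestQ Q.val Q.lt none l

/-- the answer, computed with the search structure: the best value of the sample, then all elements
which are better -/
def ask {V : Type} (Q : Query V) (D : Str) : Option V :=
  bestQ Q.val Q.lt (exact Q D.2) (report (Q.F (exact Q D.2)) (Q.T (exact Q D.2)) D.1)

/-- the number of elements of the classes where not all tests are decided -/
def und (T : List Test) (cs : List Cls) : ℕ :=
  (cs.map (fun C => if decAll T C then 0 else C.2.length)).sum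

/-- the number of certificates and classes -/
def sizeC (cs : List Cls) : ℕ := (cs.map (fun C => C.1.length + 1)).sum

/-- the cost of a query -/
def askCost {V : Type} (Q : Query V) (D : Str) : ℕ :=
  D.2.length + sizeC D.1 + und (Q.T (exact Q D.2)) D.1 +
    (report (Q.F (exact Q D.2)) (Q.T (exact Q D.2)) D.1).length

/-- a value which occurs -/
def isV {V : Type} (Q : Query V) (l : List El) (a : V) : Prop := ∃ e ∈ l, Q.val e = some a

/-- What is needed for a query on the elements `l`: the values which occur are totally ordered by
`lt`, `F` selects correctly for the thresholds which may occur and only depends on the tests. -/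
structure Good {V : Type} (Q : Query V) (l : List El) (m : ℕ) : Prop where
  asymm : ∀ a b, isV Q l a → isV Q l b → Q.lt a b = true → Q.lt b a = false
  trans : ∀ a b c, isV Q l a → isV Q l b → isV Q l c → Q.lt a b = true → Q.lt b c = true →
    Q.lt a c = true
  total : ∀ a b, isV Q l a → isV Q l b → Q.lt a b = false → Q.lt b a = false → a = b
  sel : ∀ y : Option V, (y = none ∨ ∃ b, y = some b ∧ isV Q l b) →
    ∀ e ∈ l, (Q.F y e = true ↔ ∃ a, Q.val e = some a ∧ ∀ b ∈ y, Q.lt a b = true)
  test : ∀ y e e', (∀ τ ∈ Q.T y, nn τ e = nn τ e') → Q.F y e = Q.F y e'
  len : ∀ y, (Q.T y).length ≤ m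
  pl : ∀ y, ∀ τ ∈ Q.T y, τ.1 ≤ 2

end

end SQ
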