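import Pool.Agent.Lib.SQ.EKey

/-!
# SQ.EAbv: the tests `abv`, `blw` decide the order just to the right of `v`

Notation: `D = cross (r.2 - r.1) (s.2 - s.1)`, `w = wp r v`, `X = X eps`.  `w` is on the line of `r` (`ori r w = 0`): if `r.1.re < r.2.re` by definition (`wp`, `field_simp`); otherwise
`r.1.re = r.2.re` (`lexlt r.1 r.2`), and `¬ lexlt v r.1`, `lexlt v r.2` give `v.re = r.1.re`, `w = v`, `r.1.im ≤ v.im < r.2.im`.
Prove the statement for `abv`; the one for `blw` is the mirror image (same case distinction, the signs of `ori s w` and `D` exchanged).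

* Case `D = 0`.  `ori s z` has the same value for all `z` on the line of `r`: `ori s z - ori s z' = cross (s.2 - s.1) (z - z')` and `z - z'` is a real multiple of `r.2 - r.1`.  Take `z = w`, `z' = pt eps (X v) (ht eps r (X v))`
  (`ori_pt_ht`).  So `ori s w < 0 ↔ ht r (X v) < ht s (X v)` (`ori_neg_iff`).  The slopes are equal (`cross_pos_iff`, `cross_neg_iff`), so `gtR_iff` gives `gtR ↔ ht r (X v) < ht s (X v)`; the second
  alternative of `abv` is false.
* Case `D ≠ 0`.  Let `g c = ht s c - ht r c`, affine with slope `sl s - sl r` of the sign of `D`; it has exactly one zero `c0`, `u = pt eps c0 (ht eps r c0)`: `X u = c0`, `ori r u = 0`, `ori s u = 0`.  By `gtR_iff` (or directly by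
  `ht_affine`): `gtR eps (X v) r s ↔ (0 < D ∧ X u ≤ X v) ∨ (D < 0 ∧ X v < X u)`.
  `w - u = l (r.2 - r.1)` for a real `l` (both on the line of `r`), so `ori s w = cross (s.2 - s.1) (w - u) = - l D`, and `l > 0 ↔ lexlt u w`, `l = 0 ↔ w = u`, `l < 0 ↔ lexlt w u` (as `lexlt r.1 r.2`).
  So `abv ↔ (l ≠ 0 and (0 < D ∧ lexlt u w ∨ D < 0 ∧ lexlt w u)) or (u = w and (if v.im < w.im then D < 0 else 0 < D))`.  It remains to show
  (a) `lexlt u w → X u ≤ X v`; (b) `lexlt w u → X v < X u`; (c) `u = w`: `v.im < w.im → X v < X u`, `w.im ≤ v.im → X u ≤ X v`.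
  (c): `w.re = v.re` in both cases, `X u - X v = eps (w.im - v.im)`, `0 < eps`.
  Vertical `r`: `w = v`, `u.re = v.re`: (a), (b) are clear from `0 < eps` (`lexlt u v` with equal real parts means `u.im < v.im`).
  `r` not vertical: `w.re = v.re` and `u`, `w` are on a non vertical line, so `lexlt u w ↔ u.re < v.re` (`u ≠ w` have different real parts).
   (a) `u.re < v.re`.  Suppose `X v < X u`.  Then `u ∈ carrier r`: `X r.1 ≤ X v < X u`, and `u.re < v.re ≤ r.2.re` (`lexlt v r.2`), so `u` is between `r.1` and `r.2` on the line (parametrise `u = r.1 + m (r.2 - r.1)`: `m ≥ 0` from `X`, `m ≤ 1` from the real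
   parts).  `s` is not vertical (otherwise `s.1.re = s.2.re = v.re` as above and `u.re = v.re`), so in the same way `u ∈ carrier s`.  By `hu` (second part) `lexlt u v → X u < X v`: contradiction.
   (b) `v.re < u.re`; suppose `X u ≤ X v`.  `X u ≤ X v < X r.2`, `r.1.re ≤ v.re < u.re` (`¬ lexlt v r.1`): `u ∈ carrier r`; same for `s`.  `hu` (first part): `X v < X u`: contradiction.
-/

namespace SQ

open SFA Classical Filter Topology

namespace EAbvAux

theorem ori_add (s r : Seg) (p q : ℂ) (m : ℝ) (h1 : q.re = p.re + m * (r.2.re - r.1.re))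
    (h2 : q.im = p.im + m * (r.2.im - r.1.im)) :
    ori s q = ori s p - m * cross (r.2 - r.1) (s.2 - s.1) := by
  simp only [ori, cross, Complex.sub_re, Complex.sub_im]
  rw [h1, h2]
  ring

theorem par {eps : ℝ} {r : Seg} (h : X eps r.1 < X eps r.2) {u : ℂ} (hu : ori r u = 0) :
    ∃ t : ℝ, u.re = r.1.re + t * (r.2.re - r.1.re) ∧ u.im = r.1.im + t * (r.2.im - r.1.im) := by
  have h0 : X eps r.2 - X eps r.1 ≠ 0 := by linarith
  obtain ⟨t, ht'⟩ : ∃ t, t = (X eps u - X eps r.1) / (X eps r.2 - X eps r.1) := ⟨_, rfl⟩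
  have h1 : u.im = r.1.im + t * (r.2.im - r.1.im) := by
    rw [ori_zero_iff h, ht, ← ht'] at hu
    rw [hu]
    ring
  refine ⟨t, ?_, h1⟩
  have h2 : t * (X eps r.2 - X eps r.1) = X eps u - X eps r.1 := by
    rw [ht']
    field_simp
  simp only [X] at h2
  rw [h1] at h2
  linear_combination -h2

theorem X_par {eps : ℝ} {r : Seg} {u : ℂ} {t : ℝ} (h1 : u.re = r.1.re + t * (r.2.re - r.1.re))
    (h2 : u.im = r.1.im + t * (r.2.im - r.1.im)) :
    X eps u = X eps r.1 + t * (X eps r.2 - X eps r.1) := by
  simp only [X]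
  rw [h1, h2]
  ring

theorem right_of {eps : ℝ} {r : Seg} (lr : lexlt r.1 r.2) (ir : X eps r.1 < X eps r.2)
    {v u : ℂ} (r1 : ¬ lexlt v r.1) (r2 : lexlt v r.2) (hu : ori r u = 0) (h : v.re < u.re) :
    X eps r.1 ≤ X eps u := by
  obtain ⟨t, h1, h2⟩ := par ir hu
  rw [X_par h1 h2]
  have h3 : r.1.re ≤ v.re := by
    by_contra h4
    exact r1 (Or.inl (not_le.1 h4))
  have h4 : v.re ≤ r.2.re := by
    rcases r2 with h5 | h5
    · exact h5.le
    · exact h5.1.le
  have h5 : 0 ≤ t := by
    by_contra h6
    push Not at h6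
    nlinarith
  have h6 : 0 ≤ t * (X eps r.2 - X eps r.1) := mul_nonneg h5 (by linarith)
  linarith

theorem left_of {eps : ℝ} {r : Seg} (lr : lexlt r.1 r.2) (ir : X eps r.1 < X eps r.2)
    {v u : ℂ} (r1 : ¬ lexlt v r.1) (r2 : lexlt v r.2) (hu : ori r u = 0) (h : u.re < v.re) :
    X eps u ≤ X eps r.2 := by
  obtain ⟨t, h1, h2⟩ := par ir hu
  rw [X_par h1 h2]
  have h3 : r.1.re ≤ v.re := by
    by_contra h4
    exact r1 (Or.inl (not_le.1 h4))
  have h4 : v.re ≤ r.2.re := by
    rcases r2 with h5 | h5
    · exact h5.le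
    · exact h5.1.le
  have h5 : t ≤ 1 := by
    by_contra h6
    push Not at h6
    nlinarith
  have h6 : 0 ≤ (1 - t) * (X eps r.2 - X eps r.1) := mul_nonneg (by linarith) (by linarith)
  nlinarith

/-- `wp r v` lies on the line of `r`, has the real part of `v`, and equals `v` if `r` is
vertical -/
theorem wp_spec {r : Seg} {v : ℂ} (lr : lexlt r.1 r.2) (r1 : ¬ lexlt v r.1)
    (r2 : lexlt v r.2) :
    ori r (wp r v) = 0 ∧ (wp r v).re = v.re ∧ ((wp r v).im ≠ v.im → r.1.re < r.2.re) := by
  unfold wp
  by_cases h : r.1.re < r.2.re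
  · rw [if_pos h]
    refine ⟨?_, rfl, fun _ => h⟩
    have h0 : r.2.re - r.1.re ≠ 0 := by linarith
    simp only [ori, cross, Complex.sub_re, Complex.sub_im]
    field_simp
    ring
  · rw [if_neg h]
    refine ⟨?_, rfl, fun h1 => absurd rfl h1⟩
    have h1 : r.1.re = r.2.re := by
      rcases lr with h2 | h2
      · exact absurd h2 h
      · exact h2.1
    have h3 : r.1.re ≤ v.re := by
      by_contra h4
      exact r1 (Or.inl (not_le.1 h4))
    have h4 : v.re ≤ r.2.re := by
      rcases r2 with h5 | h5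
      · exact h5.le
      · exact h5.1.le
    have h5 : v.re = r.1.re := le_antisymm (h4.trans h1.ge) h3
    simp only [ori, cross, Complex.sub_re, Complex.sub_im]
    rw [h5, h1]
    ring

/-- the real number version -/
theorem arith {C G m D n : ℝ} (hC : 0 < C) (hD : D ≠ 0) (hn : n * D = -(C * G))
    (b1 : ¬ (m < n ∧ n ≤ 0)) (b2 : ¬ (0 < n ∧ n < m)) :
    ((-(C * G) - m * D < 0 ∨ (-(C * G) - m * D = 0 ∧ (if 0 < m then D < 0 else 0 < D))) ↔
      (0 < G ∨ (G = 0 ∧ 0 < D))) ∧
    ((0 < -(C * G) - m * D ∨ (-(C * G) - m * D = 0 ∧ (if 0 < m then 0 < D else D < 0))) ↔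
      (G < 0 ∨ (G = 0 ∧ D < 0))) := by
  have e1 : -(C * G) - m * D = (n - m) * D := by rw [← hn]; ring
  rw [e1]
  have g1 : 0 < G ↔ n * D < 0 := by
    rw [hn, neg_lt_zero]
    exact (mul_pos_iff_of_pos_left hC).symm
  have g2 : G < 0 ↔ 0 < n * D := by
    rw [hn, neg_pos]
    constructor
    · intro h
      exact mul_neg_of_pos_of_neg hC h
    · intro h
      by_contra h1
      push Not at h1
      have := mul_nonneg hC.le h1
      linarith
  have g3 : G = 0 ↔ n * D = 0 := by
    rw [hn, neg_eq_zero, mul_eq_zero]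
    exact ⟨fun h => Or.inr h, fun h => h.resolve_left hC.ne'⟩
  rw [g1, g2, g3]
  have z1 : ∀ t : ℝ, t * D = 0 ↔ t = 0 := fun t => by
    rw [mul_eq_zero]
    exact ⟨fun h => h.resolve_right hD, fun h => Or.inl h⟩
  rw [z1, z1]
  rcases lt_or_gt_of_ne hD with hD' | hD'
  · have n1 : ∀ t : ℝ, t * D < 0 ↔ 0 < t := fun t =>
      ⟨fun h => by
        by_contra h1
        push Not at h1
        have := mul_nonneg_of_nonpos_of_nonpos h1 hD'.le
        linarith, fun h => mul_neg_of_pos_of_neg h hD'⟩
    have n2 : ∀ t : ℝ, 0 < t * D ↔ t < 0 := fun t =>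
      ⟨fun h => by
        by_contra h1
        push Not at h1
        have := mul_nonpos_of_nonneg_of_nonpos h1 hD'.le
        linarith, fun h => mul_pos_of_neg_of_neg h hD'⟩
    rw [n1, n1, n2, n2]
    have f1 : ¬ (0 < D) := not_lt.2 hD'.le
    simp only [hD', f1, and_false, or_false, and_true]
    constructor
    · constructor
      · rintro (h | ⟨h, h'⟩)
        · by_contra h1
          push Not at h1
          exact b1 ⟨by linarith, h1⟩
        · split_ifs at h' with h2
          linarith
      · intro h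
        by_cases h2 : 0 < m
        · rw [if_pos h2]
          rcases lt_trichotomy m n with h3 | h3 | h3
          · exact Or.inl (by linarith)
          · exact Or.inr ⟨by linarith, trivial⟩
          · exact absurd ⟨h, h3⟩ b2
        · exact Or.inl (by linarith)
    · constructor
      · rintro (h | ⟨h, h'⟩)
        · by_contra h1
          push Not at h1
          have h3 : 0 < n := lt_of_le_of_ne h1.1 (fun h4 => h1.2 h4.symm)
          exact b2 ⟨h3, by linarith⟩
        · split_ifs at h' with h2
          rcases eq_or_ne n 0 with h3 | h3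
          · exact Or.inr h3
          · left
            have h4 : n ≤ 0 := by linarith
            exact lt_of_le_of_ne h4 h3
      · intro h
        have h1 : n ≤ 0 := by
          rcases h with h | h
          · exact h.le
          · exact h.le
        have h2 : n ≤ m := by
          by_contra h3
          push Not at h3
          exact b1 ⟨h3, h1⟩
        rcases eq_or_lt_of_le h2 with h3 | h3
        · have h4 : ¬ 0 < m := by linarith
          rw [if_neg h4]
          exact Or.inr ⟨by linarith, trivial⟩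
        · exact Or.inl (by linarith)
  · have n1 : ∀ t : ℝ, t * D < 0 ↔ t < 0 := fun t =>
      ⟨fun h => by
        by_contra h1
        push Not at h1
        have := mul_nonneg h1 hD'.le
        linarith, fun h => mul_neg_of_neg_of_pos h hD'⟩
    have n2 : ∀ t : ℝ, 0 < t * D ↔ 0 < t := fun t =>
      ⟨fun h => by
        by_contra h1
        push Not at h1
        have := mul_nonpos_of_nonpos_of_nonneg h1 hD'.le
        linarith, fun h => mul_pos h hD'⟩
    rw [n1, n1, n2, n2]
    have f1 : ¬ (D < 0) := not_lt.2 (le_of_lt hD')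
    have f2 : 0 < D := hD'
    simp only [f2, f1, and_false, or_false, and_true]
    constructor
    · constructor
      · rintro (h | ⟨h, h'⟩)
        · by_contra h1
          push Not at h1
          have h3 : 0 < n := lt_of_le_of_ne h1.1 (fun h4 => h1.2 h4.symm)
          exact b2 ⟨h3, by linarith⟩
        · split_ifs at h' with h2
          rcases eq_or_ne n 0 with h3 | h3
          · exact Or.inr h3
          · left
            have h4 : n ≤ 0 := by linarith
            exact lt_of_le_of_ne h4 h3
      · intro h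
        have h1 : n ≤ 0 := by
          rcases h with h | h
          · exact h.le
          · exact h.le
        have h2 : n ≤ m := by
          by_contra h3
          push Not at h3
          exact b1 ⟨h3, h1⟩
        rcases eq_or_lt_of_le h2 with h3 | h3
        · have h4 : ¬ 0 < m := by linarith
          rw [if_neg h4]
          exact Or.inr ⟨by linarith, trivial⟩
        · exact Or.inl (by linarith)
    · constructor
      · rintro (h | ⟨h, h'⟩)
        · by_contra h1
          push Not at h1
          exact b1 ⟨by linarith, h1⟩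
        · split_ifs at h' with h2
          linarith
      · intro h
        by_cases h2 : 0 < m
        · rw [if_pos h2]
          rcases lt_trichotomy m n with h3 | h3 | h3
          · exact Or.inl (by linarith)
          · exact Or.inr ⟨by linarith, trivial⟩
          · exact absurd ⟨h, h3⟩ b2
        · exact Or.inl (by linarith)

end EAbvAux

open EAbvAux in
theorem abv_iff {eps : ℝ} (he : 0 < eps) {s r : Seg} {v : ℂ} (ls : lexlt s.1 s.2)
    (lr : lexlt r.1 r.2) (is : X eps s.1 < X eps s.2) (ir : X eps r.1 < X eps r.2)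
    (s1 : ¬ lexlt v s.1) (s2 : lexlt v s.2) (r1 : ¬ lexlt v r.1) (r2 : lexlt v r.2)
    (s3 : X eps s.1 ≤ X eps v) (s4 : X eps v < X eps s.2) (r3 : X eps r.1 ≤ X eps v)
    (r4 : X eps v < X eps r.2)
    (hu : ∀ u : ℂ, u ∈ carrier s → u ∈ carrier r → cross (r.2 - r.1) (s.2 - s.1) ≠ 0 →
      ((lexlt v u → X eps v < X eps u) ∧ (lexlt u v → X eps u < X eps v))) :
    (abv s r v = true ↔ gtR eps (X eps v) r s) ∧
    (blw s r v = true ↔ gtR eps (X eps v) s r) := by
  obtain ⟨w1, w2, w3⟩ := wp_spec lr r1 r2
  obtain ⟨D, hDd⟩ : ∃ D, D = cross (r.2 - r.1) (s.2 - s.1) := ⟨_, rfl⟩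
  obtain ⟨G, hG⟩ : ∃ G, G = ht eps s (X eps v) - ht eps r (X eps v) := ⟨_, rfl⟩
  obtain ⟨p, hp⟩ : ∃ p, p = pt eps (X eps v) (ht eps r (X eps v)) := ⟨_, rfl⟩
  have hpr : ori r p = 0 := by rw [hp]; exact ori_pt_ht ir _
  have hXp : X eps p = X eps v := by rw [hp]; exact X_pt _ _ _
  have hps : ori s p = -((X eps s.2 - X eps s.1) * G) := by
    rw [ori_ht is, hXp, hG, hp, pt_im]
    ring
  obtain ⟨tp, p1, p2⟩ := par ir hpr
  obtain ⟨tw, q1, q2⟩ := par ir w1
  obtain ⟨m, hm⟩ : ∃ m, m = tw - tp := ⟨_, rfl⟩
  have hw1 : (wp r v).re = p.re + m * (r.2.re - r.1.re) := by rw [q1, p1, hm]; ring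
  have hw2 : (wp r v).im = p.im + m * (r.2.im - r.1.im) := by rw [q2, p2, hm]; ring
  have hO : ori s (wp r v) = -((X eps s.2 - X eps s.1) * G) - m * D := by
    rw [ori_add s r p (wp r v) m hw1 hw2, hps, hDd]
  have hmA : m * (X eps r.2 - X eps r.1) = eps * ((wp r v).im - v.im) := by
    have h1 : X eps (wp r v) = X eps v + m * (X eps r.2 - X eps r.1) := by
      rw [← hXp]
      simp only [X]
      rw [hw1, hw2]
      ring
    have h2 : X eps (wp r v) = X eps v + eps * ((wp r v).im - v.im) := by
      simp only [X]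
      rw [w2]
      ring
    linarith
  have hA : 0 < X eps r.2 - X eps r.1 := by linarith
  have hm0 : v.im < (wp r v).im ↔ 0 < m := by
    constructor
    · intro h
      have h1 : 0 < m * (X eps r.2 - X eps r.1) := by
        rw [hmA]
        exact mul_pos he (by linarith)
      exact pos_of_mul_pos_left h1 hA.le
    · intro h
      have h1 : 0 < m * (X eps r.2 - X eps r.1) := mul_pos h hA
      rw [hmA] at h1
      have h2 := pos_of_mul_pos_right h1 he.le
      linarith
  have hC : 0 < X eps s.2 - X eps s.1 := by linarith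
  have hg1 : gtR eps (X eps v) r s ↔ (0 < G ∨ (G = 0 ∧ 0 < D)) := by
    rw [gtR_iff, hDd, cross_pos_iff ir is, hG]
    constructor
    · rintro (h | ⟨h, h'⟩)
      · exact Or.inl (by linarith)
      · exact Or.inr ⟨by linarith, h'⟩
    · rintro (h | ⟨h, h'⟩)
      · exact Or.inl (by linarith)
      · exact Or.inr ⟨by linarith, h'⟩
  have hg2 : gtR eps (X eps v) s r ↔ (G < 0 ∨ (G = 0 ∧ D < 0)) := by
    rw [gtR_iff, hDd, cross_neg_iff ir is, hG]
    constructor
    · rintro (h | ⟨h, h'⟩)
      · exact Or.inl (by linarith)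
      · exact Or.inr ⟨by linarith, h'⟩
    · rintro (h | ⟨h, h'⟩)
      · exact Or.inl (by linarith)
      · exact Or.inr ⟨by linarith, h'⟩
  have ha : abv s r v = true ↔ (ori s (wp r v) < 0 ∨ (ori s (wp r v) = 0 ∧
      (if 0 < m then D < 0 else 0 < D))) := by
    unfold abv
    rw [Bool.or_eq_true, Bool.and_eq_true, decide_eq_true_eq, decide_eq_true_eq, ← hDd]
    by_cases h : 0 < m
    · rw [if_pos h, if_pos (hm0.2 h), decide_eq_true_eq]
    · rw [if_neg h, if_neg (fun h' => h (hm0.1 h')), decide_eq_true_eq]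
  have hb : blw s r v = true ↔ (0 < ori s (wp r v) ∨ (ori s (wp r v) = 0 ∧
      (if 0 < m then 0 < D else D < 0))) := by
    unfold blw
    rw [Bool.or_eq_true, Bool.and_eq_true, decide_eq_true_eq, decide_eq_true_eq, ← hDd]
    by_cases h : 0 < m
    · rw [if_pos h, if_pos (hm0.2 h), decide_eq_true_eq]
    · rw [if_neg h, if_neg (fun h' => h (hm0.1 h')), decide_eq_true_eq]
  rw [ha, hb, hg1, hg2, hO]
  by_cases hD : D = 0
  · have z3 : ¬ (0 < D) := by rw [hD]; exact lt_irrefl 0
    have z4 : ¬ (D < 0) := by rw [hD]; exact lt_irrefl 0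
    simp only [z3, z4, ite_self, and_false, or_false]
    rw [hD, mul_zero, sub_zero, neg_lt_zero, neg_pos]
    constructor
    · exact mul_pos_iff_of_pos_left hC
    · constructor
      · intro h
        by_contra h1
        push Not at h1
        have := mul_nonneg hC.le h1
        linarith
      · intro h
        exact mul_neg_of_pos_of_neg hC h
  · obtain ⟨n, hn⟩ : ∃ n, n = -((X eps s.2 - X eps s.1) * G) / D := ⟨_, rfl⟩
    have hn' : n * D = -((X eps s.2 - X eps s.1) * G) := by
      rw [hn]
      field_simp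
    obtain ⟨u, hu1, hu2⟩ : ∃ u : ℂ, u.re = p.re + n * (r.2.re - r.1.re) ∧
        u.im = p.im + n * (r.2.im - r.1.im) := ⟨⟨_, _⟩, rfl, rfl⟩
    have hur : ori r u = 0 := by
      rw [ori_add r r p u n hu1 hu2, hpr]
      have h1 : cross (r.2 - r.1) (r.2 - r.1) = 0 := by
        simp only [cross]
        ring
      rw [h1]
      ring
    have hus : ori s u = 0 := by
      rw [ori_add s r p u n hu1 hu2, hps, ← hDd, hn']
      ring
    have hXu : X eps u = X eps v + n * (X eps r.2 - X eps r.1) := by
      rw [← hXp]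
      simp only [X]
      rw [hu1, hu2]
      ring
    have hure : u.re - v.re = (n - m) * (r.2.re - r.1.re) := by
      rw [← w2, hw1, hu1]
      ring
    have hnv : m ≠ 0 → r.1.re < r.2.re := by
      intro h
      apply w3
      intro h1
      rw [h1, sub_self, mul_zero] at hmA
      exact (mul_ne_zero h hA.ne') hmA
    have hcr : cross (r.2 - r.1) (s.2 - s.1) ≠ 0 := by
      rw [← hDd]
      exact hD
    have b1 : ¬ (m < n ∧ n ≤ 0) := by
      rintro ⟨h1, h2⟩
      have h3 := hnv (by linarith)
      have h4 : v.re < u.re := by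
        have : 0 < (n - m) * (r.2.re - r.1.re) := mul_pos (by linarith) (by linarith)
        linarith
      have h5 : X eps u ≤ X eps v := by
        have : 0 ≤ (-n) * (X eps r.2 - X eps r.1) := mul_nonneg (by linarith) hA.le
        rw [hXu]
        linarith
      have h6 : u ∈ carrier r := (mem_carrier_iff ir u).2
        ⟨right_of lr ir r1 r2 hur h4, h5.trans r4.le, hur⟩
      have h7 : u ∈ carrier s := (mem_carrier_iff is u).2
        ⟨right_of ls is s1 s2 hus h4, h5.trans s4.le, hus⟩
      have h8 := (hu u h7 h6 hcr).1 (Or.inl h4)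
      linarith
    have b2 : ¬ (0 < n ∧ n < m) := by
      rintro ⟨h1, h2⟩
      have h3 := hnv (by linarith)
      have h4 : u.re < v.re := by
        have : 0 < (m - n) * (r.2.re - r.1.re) := mul_pos (by linarith) (by linarith)
        linarith
      have h5 : X eps v < X eps u := by
        have : 0 < n * (X eps r.2 - X eps r.1) := mul_pos h1 hA
        rw [hXu]
        linarith
      have h6 : u ∈ carrier r := (mem_carrier_iff ir u).2
        ⟨r3.trans h5.le, left_of lr ir r1 r2 hur h4, hur⟩
      have h7 : u ∈ carrier s := (mem_carrier_iff is u).2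
        ⟨s3.trans h5.le, left_of ls is s1 s2 hus h4, hus⟩
      have h8 := (hu u h7 h6 hcr).2 (Or.inl h4)
      linarith
    exact arith hC hD hn' b1 b2

end SQ
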