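import Pool.Agent.Lib.SQ.EDefs
import Pool.Agent.Lib.SFA.TestB
import Pool.Agent.Lib.SFA.OPLine

/-!
# SQ.EBest: the best candidate of a list, the lexicographic minimum of a list (pure list lemmas)

* `bestL_none`: induction (generalise the start value: if it is `some e` the result is `some _`).
* `bestL_spec`: `bet` is irreflexive, transitive and total on the candidates of `l`.  Induction on the list with a general start value `some e`, `e` a candidate: the result `m` is a candidate, `m = e` or
  `m ∈ l`, and every `s ∈ l` which is a candidate, and `e` itself, is `m` or loses against `m` (`bet m s = true`).  The hypotheses are needed for the elements of `e :: l`, so state the induction for a set of elements closed under nothing: use the hypotheses `∀ s ∈ L`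
  for a fixed list `L` containing all elements that occur.
* `bestL_unique`: if `e` is a candidate in `l` and beats all other candidates of `l` then `bestL = some e`: by `bestL_spec` the result `m` satisfies `e = m` or `bet m e`; and `m = e` or `bet e m`; `trans` + `irrefl` exclude both.
* `lexMinL`: the same with `lexB` on all points (`lexB_iff`, OPLine: `lex_irrefl`, `lex_trans`, `lex_total`; import `Pool.Agent.Lib.SFA.TestB` and `OPLine`).
-/

namespace SQ

open SFA Classical

namespace EBestAux

variable {α : Type*}

/-- one step of the search, on an arbitrary type -/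
def stepG (cand : α → Bool) (bet : α → α → Bool) (o : Option α) (s : α) : Option α :=
  if cand s then o.elim (some s) (fun e => if bet s e then some s else some e) else o

theorem stepG_some (cand : α → Bool) (bet : α → α → Bool) (e s : α) :
    stepG cand bet (some e) s = if cand s = true then (if bet s e = true then some s else some e)
      else some e := by
  simp [stepG]

theorem stepG_none (cand : α → Bool) (bet : α → α → Bool) (s : α) :
    stepG cand bet none s = if cand s = true then some s else none := by
  simp [stepG]

theorem fold_some (cand : α → Bool) (bet : α → α → Bool) (l : List α) (e : α) :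
    ∃ m, l.foldl (stepG cand bet) (some e) = some m := by
  induction l generalizing e with
  | nil => exact ⟨e, rfl⟩
  | cons s l ih =>
    rw [List.foldl_cons, stepG_some]
    split_ifs
    · exact ih s
    · exact ih e
    · exact ih e

theorem fold_none (cand : α → Bool) (bet : α → α → Bool) (l : List α) :
    l.foldl (stepG cand bet) none = none ↔ ∀ s ∈ l, cand s = false := by
  induction l with
  | nil => simp
  | cons s l ih =>
    rw [List.foldl_cons, stepG_none]
    by_cases hs : cand s = true
    · rw [if_pos hs]
      obtain ⟨m, hm⟩ := fold_some cand bet l s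
      rw [hm]
      constructor
      · intro h
        cases h
      · intro h
        have := h s (by simp)
        rw [hs] at this
        cases this
    · rw [if_neg hs, ih]
      simp only [Bool.not_eq_true] at hs
      simp [hs]

theorem spec_some {cand : α → Bool} {bet : α → α → Bool} {L : List α}
    (ht : ∀ s ∈ L, ∀ e ∈ L, ∀ g ∈ L, cand s = true → cand e = true → cand g = true →
      bet s e = true → bet e g = true → bet s g = true)
    (hT : ∀ s ∈ L, ∀ e ∈ L, cand s = true → cand e = true → s ≠ e →
      bet s e = true ∨ bet e s = true) (l : List α) (hl : ∀ s ∈ l, s ∈ L) (e : α) (he : e ∈ L)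
    (hce : cand e = true) :
    ∃ m, l.foldl (stepG cand bet) (some e) = some m ∧ m ∈ L ∧ cand m = true ∧
      (m = e ∨ m ∈ l) ∧ (e = m ∨ bet m e = true) ∧
      ∀ s ∈ l, cand s = true → s = m ∨ bet m s = true := by
  induction l generalizing e with
  | nil => exact ⟨e, rfl, he, hce, Or.inl rfl, Or.inl rfl, fun s hs => by simp at hs⟩
  | cons s l ih =>
    have hl' : ∀ s ∈ l, s ∈ L := fun z hz => hl z (List.mem_cons_of_mem _ hz)
    have hsL : s ∈ L := hl s (by simp)
    rw [List.foldl_cons, stepG_some]
    by_cases hs : cand s = true
    · rw [if_pos hs]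
      by_cases hb : bet s e = true
      · rw [if_pos hb]
        obtain ⟨m, h1, h2, h3, h4, h5, h6⟩ := ih hl' s hsL hs
        refine ⟨m, h1, h2, h3, Or.inr ?_, Or.inr ?_, ?_⟩
        · rcases h4 with rfl | h4
          · simp
          · exact List.mem_cons_of_mem _ h4
        · rcases h5 with rfl | h5
          · exact hb
          · exact ht m h2 s hsL e he h3 hs hce h5 hb
        · intro z hz hcz
          rw [List.mem_cons] at hz
          rcases hz with rfl | hz
          · exact h5
          · exact h6 z hz hcz
      · rw [if_neg hb]
        obtain ⟨m, h1, h2, h3, h4, h5, h6⟩ := ih hl' e he hce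
        refine ⟨m, h1, h2, h3, ?_, h5, ?_⟩
        · rcases h4 with h4 | h4
          · exact Or.inl h4
          · exact Or.inr (List.mem_cons_of_mem _ h4)
        · intro z hz hcz
          rw [List.mem_cons] at hz
          rcases hz with rfl | hz
          · by_cases hze : z = e
            · rw [hze]
              exact h5
            · have h7 : bet e z = true := by
                rcases hT z hsL e he hs hce hze with h | h
                · exact (hb h).elim
                · exact h
              rcases h5 with rfl | h5
              · exact Or.inr h7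
              · exact Or.inr (ht m h2 e he z hsL h3 hce hs h5 h7)
          · exact h6 z hz hcz
    · rw [if_neg hs]
      obtain ⟨m, h1, h2, h3, h4, h5, h6⟩ := ih hl' e he hce
      refine ⟨m, h1, h2, h3, ?_, h5, ?_⟩
      · rcases h4 with h4 | h4
        · exact Or.inl h4
        · exact Or.inr (List.mem_cons_of_mem _ h4)
      · intro z hz hcz
        rw [List.mem_cons] at hz
        rcases hz with rfl | hz
        · exact (hs hcz).elim
        · exact h6 z hz hcz

theorem spec_none {cand : α → Bool} {bet : α → α → Bool} {L : List α}
    (ht : ∀ s ∈ L, ∀ e ∈ L, ∀ g ∈ L, cand s = true → cand e = true → cand g = true →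
      bet s e = true → bet e g = true → bet s g = true)
    (hT : ∀ s ∈ L, ∀ e ∈ L, cand s = true → cand e = true → s ≠ e →
      bet s e = true ∨ bet e s = true) (l : List α) (hl : ∀ s ∈ l, s ∈ L) {m : α}
    (h : l.foldl (stepG cand bet) none = some m) :
    m ∈ l ∧ cand m = true ∧ ∀ s ∈ l, cand s = true → s = m ∨ bet m s = true := by
  induction l with
  | nil => simp at h
  | cons s l ih =>
    have hl' : ∀ s ∈ l, s ∈ L := fun z hz => hl z (List.mem_cons_of_mem _ hz)
    have hsL : s ∈ L := hl s (by simp)
    rw [List.foldl_cons, stepG_none] at h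
    by_cases hs : cand s = true
    · rw [if_pos hs] at h
      obtain ⟨m', h1, h2, h3, h4, h5, h6⟩ := spec_some ht hT l hl' s hsL hs
      rw [h1] at h
      cases h
      refine ⟨?_, h3, ?_⟩
      · rcases h4 with rfl | h4
        · simp
        · exact List.mem_cons_of_mem _ h4
      · intro z hz hcz
        rw [List.mem_cons] at hz
        rcases hz with rfl | hz
        · exact h5
        · exact h6 z hz hcz
    · rw [if_neg hs] at h
      obtain ⟨h1, h2, h3⟩ := ih hl' h
      refine ⟨List.mem_cons_of_mem _ h1, h2, fun z hz hcz => ?_⟩
      rw [List.mem_cons] at hz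
      rcases hz with rfl | hz
      · exact (hs hcz).elim
      · exact h3 z hz hcz

theorem uniq {cand : α → Bool} {bet : α → α → Bool} {l : List α}
    (hi : ∀ s ∈ l, cand s = true → bet s s = false)
    (ht : ∀ s ∈ l, ∀ e ∈ l, ∀ g ∈ l, cand s = true → cand e = true → cand g = true →
      bet s e = true → bet e g = true → bet s g = true)
    (hT : ∀ s ∈ l, ∀ e ∈ l, cand s = true → cand e = true → s ≠ e →
      bet s e = true ∨ bet e s = true) {e : α} (he : e ∈ l) (hc : cand e = true)
    (h : ∀ s ∈ l, cand s = true → s = e ∨ bet e s = true) :
    l.foldl (stepG cand bet) none = some e := by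
  rcases hm : l.foldl (stepG cand bet) none with _ | m
  · rw [fold_none] at hm
    have := hm e he
    rw [hc] at this
    cases this
  · obtain ⟨h1, h2, h3⟩ := spec_none ht hT l (fun _ h => h) hm
    rcases h3 e he hc with h4 | h4
    · rw [h4]
    · rcases h m h1 h2 with h5 | h5
      · rw [h5]
      · exfalso
        have h6 := ht m h1 e he m h1 h2 hc h2 h4 h5
        rw [hi m h1 h2] at h6
        cases h6

theorem minStep_eq : minStep = stepG (fun _ => true) lexB := by
  funext o z
  cases o <;> simp [minStep, stepG]

theorem bestStep_eq (cand : Seg → Bool) (bet : Seg → Seg → Bool) :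
    bestStep cand bet = stepG cand bet := rfl

end EBestAux

theorem bestL_none {cand : Seg → Bool} {bet : Seg → Seg → Bool} {l : List Seg} :
    bestL cand bet l = none ↔ ∀ s ∈ l, cand s = false := by
  unfold bestL
  rw [EBestAux.bestStep_eq]
  exact EBestAux.fold_none cand bet l

theorem bestL_spec {cand : Seg → Bool} {bet : Seg → Seg → Bool} {l : List Seg}
    (hi : ∀ s ∈ l, cand s = true → bet s s = false)
    (ht : ∀ s ∈ l, ∀ e ∈ l, ∀ g ∈ l, cand s = true → cand e = true → cand g = true →
      bet s e = true → bet e g = true → bet s g = true)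
    (hT : ∀ s ∈ l, ∀ e ∈ l, cand s = true → cand e = true → s ≠ e →
      bet s e = true ∨ bet e s = true) {m : Seg} (h : bestL cand bet l = some m) :
    m ∈ l ∧ cand m = true ∧ ∀ s ∈ l, cand s = true → s = m ∨ bet m s = true := by
  unfold bestL at h
  rw [EBestAux.bestStep_eq] at h
  exact EBestAux.spec_none ht hT l (fun _ h => h) h

theorem bestL_unique {cand : Seg → Bool} {bet : Seg → Seg → Bool} {l : List Seg}
    (hi : ∀ s ∈ l, cand s = true → bet s s = false)
    (ht : ∀ s ∈ l, ∀ e ∈ l, ∀ g ∈ l, cand s = true → cand e = true → cand g = true →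
      bet s e = true → bet e g = true → bet s g = true)
    (hT : ∀ s ∈ l, ∀ e ∈ l, cand s = true → cand e = true → s ≠ e →
      bet s e = true ∨ bet e s = true) {e : Seg} (he : e ∈ l) (hc : cand e = true)
    (h : ∀ s ∈ l, cand s = true → s = e ∨ bet e s = true) : bestL cand bet l = some e := by
  unfold bestL
  rw [EBestAux.bestStep_eq]
  exact EBestAux.uniq hi ht hT he hc h

theorem lexMinL_none {l : List ℂ} : lexMinL l = none ↔ l = [] := by
  unfold lexMinL
  rw [EBestAux.minStep_eq, EBestAux.fold_none]
  constructor
  · intro h
    rcases l with _ | ⟨a, l⟩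
    · rfl
    · have := h a (by simp)
      cases this
  · rintro rfl s hs
    simp at hs

theorem lexMinL_spec {l : List ℂ} {m : ℂ} (h : lexMinL l = some m) :
    m ∈ l ∧ ∀ z ∈ l, ¬ lexlt z m := by
  unfold lexMinL at h
  rw [EBestAux.minStep_eq] at h
  obtain ⟨h1, _, h3⟩ := EBestAux.spec_none (cand := fun _ => true) (bet := lexB) (L := l)
    (fun s _ e _ g _ _ _ _ h1 h2 => by
      rw [lexB_iff] at h1 h2 ⊢
      exact lex_trans h1 h2)
    (fun s _ e _ _ _ hne => by
      rw [lexB_iff, lexB_iff]
      rcases lex_total s e with h | h | h
      · exact Or.inl h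
      · exact (hne h).elim
      · exact Or.inr h) l (fun _ h => h) h
  refine ⟨h1, fun z hz hlt => ?_⟩
  rcases h3 z hz rfl with h4 | h4
  · rw [h4] at hlt
    exact lex_irrefl _ hlt
  · rw [lexB_iff] at h4
    exact lex_irrefl _ (lex_trans hlt h4)

theorem lexMinL_unique {l : List ℂ} {m : ℂ} (hm : m ∈ l) (h : ∀ z ∈ l, ¬ lexlt z m) :
    lexMinL l = some m := by
  unfold lexMinL
  rw [EBestAux.minStep_eq]
  refine EBestAux.uniq (cand := fun _ => true) (bet := lexB)
    (fun s _ _ => ?_)
    (fun s _ e _ g _ _ _ _ h1 h2 => by
      rw [lexB_iff] at h1 h2 ⊢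
      exact lex_trans h1 h2)
    (fun s _ e _ _ _ hne => by
      rw [lexB_iff, lexB_iff]
      rcases lex_total s e with h | h | h
      · exact Or.inl h
      · exact (hne h).elim
      · exact Or.inr h) hm rfl (fun z hz _ => ?_)
  · rw [← Bool.not_eq_true, lexB_iff]
    exact lex_irrefl _
  · rcases lex_total z m with h1 | h1 | h1
    · exact (h z hz h1).elim
    · exact Or.inl h1
    · exact Or.inr ((lexB_iff _ _).2 h1)

end SQ
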