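import Pool.Agent.Lib.SQ.EDefs

/-!
# SQ.EExp: the exploration loop, abstractly

`R c d`: `c` represents `d`.  `E` = neighbourhood of the true cells.
* `addNew_spec`: elements of `acc` are kept, everything new is from `l`, every `d ∈ l` has a `c` in `old ++ result` with `sameC c d = true` or `d` itself is in the result; if `old ++ acc` is pairwise not `sameC` (in the order of the list: earlier against later) then so is `old ++ result`.  Induction on `l`.
* `explore_spec`: induction on `N` (`Function.iterate_succ_apply'`) with the invariant: every element of `done ++ todo` represents some `d` reachable from `d0`; no two elements (at different places) represent the same `d` (`Pairwise (fun c c' => ∀ d, R c d → ¬ R c' d)`; the list order `done ++ todo` changes by moving the head of `todo` to the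
  front of `done`: use a permutation invariant formulation, the relation is symmetric: `List.Perm.pairwise_iff`); for every `c ∈ done`, `R c d`, `E d d'`: some `c' ∈ done ++ todo` with `R c' d'` (from `hcomp` and `addNew_spec`, `hsame`); the root is represented in `done ++ todo`; `done.length = N` or `todo = []`, `done.length ≤ N`.
* At the end, if `todo = []`, the set of `d` represented by `done` contains `d0` and is closed under `E`: induction on `ReflTransGen`.
* `R` is functional on the left: `hsame` with `c = c'` gives `d = d'` if `R c d`, `R c d'` (`sameC c c` is then `true` by `hsame` for `d, d`).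
-/

namespace SQ

open SFA Classical

namespace EExpAux

private theorem addNew_cons (old acc : List Cell) (d : Cell) (l : List Cell) :
    addNew old acc (d :: l) =
      addNew old (if (old ++ acc).any (fun c => sameC c d) then acc else acc ++ [d]) l := rfl

private theorem addNew_sub (old : List Cell) (l acc : List Cell) :
    ∀ x ∈ acc, x ∈ addNew old acc l := by
  induction l generalizing acc with
  | nil => exact fun x hx => hx
  | cons d l ih =>
    intro x hx
    rw [addNew_cons]
    apply ih
    split_ifs
    · exact hx
    · exact List.mem_append_left _ hx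

private theorem addNew_mem (old : List Cell) (l acc : List Cell) :
    ∀ x ∈ addNew old acc l, x ∈ acc ∨ x ∈ l := by
  induction l generalizing acc with
  | nil => exact fun x hx => Or.inl hx
  | cons d l ih =>
    intro x hx
    rw [addNew_cons] at hx
    rcases ih _ x hx with h | h
    · split_ifs at h
      · exact Or.inl h
      · rcases List.mem_append.1 h with h | h
        · exact Or.inl h
        · rw [List.mem_singleton.1 h]
          exact Or.inr List.mem_cons_self
    · exact Or.inr (List.mem_cons_of_mem _ h)

private theorem addNew_cov (old : List Cell) (l acc : List Cell) :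
    ∀ d ∈ l, d ∈ addNew old acc l ∨ ∃ c ∈ old ++ addNew old acc l, sameC c d = true := by
  induction l generalizing acc with
  | nil => exact fun d hd => absurd hd List.not_mem_nil
  | cons e l ih =>
    intro d hd
    rw [addNew_cons]
    rcases List.mem_cons.1 hd with rfl | hd
    · by_cases h : (old ++ acc).any (fun c => sameC c d) = true
      · right
        rw [if_pos h]
        obtain ⟨c, hc, hcd⟩ := List.any_eq_true.1 h
        refine ⟨c, ?_, hcd⟩
        rcases List.mem_append.1 hc with hc | hc
        · exact List.mem_append_left _ hc
        · exact List.mem_append_right _ (addNew_sub old l acc c hc)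
      · left
        rw [if_neg h]
        exact addNew_sub old l _ d (List.mem_append_right _ (List.mem_singleton.2 rfl))
    · exact ih _ d hd

private theorem addNew_pw (Q : Cell → Cell → Prop) (hQ : ∀ c d, ¬ sameC c d = true → Q c d)
    (old : List Cell) (l acc : List Cell) (h : (old ++ acc).Pairwise Q) :
    (old ++ addNew old acc l).Pairwise Q := by
  induction l generalizing acc with
  | nil => exact h
  | cons e l ih =>
    rw [addNew_cons]
    apply ih
    by_cases h1 : (old ++ acc).any (fun c => sameC c e) = true
    · rw [if_pos h1]
      exact h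
    · rw [if_neg h1, ← List.append_assoc, List.pairwise_append]
      refine ⟨h, List.pairwise_singleton _ _, fun x hx y hy => ?_⟩
      rw [List.mem_singleton.1 hy]
      apply hQ
      intro h2
      exact h1 (List.any_eq_true.2 ⟨x, hx, h2⟩)

end EExpAux

open EExpAux

theorem explore_spec (R : Cell → Cell → Prop) (E : Cell → Cell → Prop)
    (nb : Cell → List Cell) (c0 d0 : Cell) (h0 : R c0 d0)
    (hsound : ∀ c d, R c d → ∀ c' ∈ nb c, ∃ d', E d d' ∧ R c' d')
    (hcomp : ∀ c d, R c d → ∀ d', E d d' → ∃ c' ∈ nb c, R c' d')
    (hsame : ∀ c c' d d', R c d → R c' d' → (sameC c c' = true ↔ d = d')) (N : ℕ) :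
    (∀ c ∈ (explore nb c0 N).1 ++ (explore nb c0 N).2,
      ∃ d, Relation.ReflTransGen E d0 d ∧ R c d) ∧
    ((explore nb c0 N).1 ++ (explore nb c0 N).2).Pairwise (fun c c' => ∀ d, R c d → ¬ R c' d) ∧
    ((explore nb c0 N).2 = [] → ∀ d, Relation.ReflTransGen E d0 d →
      ∃ c ∈ (explore nb c0 N).1, R c d) ∧
    (explore nb c0 N).1.length ≤ N ∧
    ((explore nb c0 N).2 ≠ [] → (explore nb c0 N).1.length = N) := by
  have hQ : ∀ c c' : Cell, ¬ sameC c c' = true → ∀ d, R c d → ¬ R c' d := by
    intro c c' h d h1 h2
    exact h ((hsame c c' d d h1 h2).2 rfl)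
  have hQs : ∀ {c c' : Cell}, (∀ d, R c d → ¬ R c' d) → ∀ d, R c' d → ¬ R c d :=
    fun h d h1 h2 => h d h2 h1
  have hinv : ∀ N, (∀ c ∈ (explore nb c0 N).1 ++ (explore nb c0 N).2,
      ∃ d, Relation.ReflTransGen E d0 d ∧ R c d) ∧
      ((explore nb c0 N).1 ++ (explore nb c0 N).2).Pairwise
        (fun c c' => ∀ d, R c d → ¬ R c' d) ∧
      (∀ c ∈ (explore nb c0 N).1, ∀ d d', R c d → E d d' →
        ∃ c' ∈ (explore nb c0 N).1 ++ (explore nb c0 N).2, R c' d') ∧
      (∃ c ∈ (explore nb c0 N).1 ++ (explore nb c0 N).2, R c d0) ∧
      (explore nb c0 N).1.length ≤ N ∧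
      ((explore nb c0 N).2 ≠ [] → (explore nb c0 N).1.length = N) := by
    intro N
    induction N with
    | zero =>
      refine ⟨?_, ?_, ?_, ?_, ?_, ?_⟩
      · intro c hc
        have hc' : c ∈ [c0] := hc
        rw [List.mem_singleton.1 hc']
        exact ⟨d0, Relation.ReflTransGen.refl, h0⟩
      · exact List.pairwise_singleton _ _
      · intro c hc
        exact absurd hc List.not_mem_nil
      · exact ⟨c0, List.mem_singleton.2 rfl, h0⟩
      · exact le_rfl
      · exact fun _ => rfl
    | succ N ih =>
      have hst : explore nb c0 (N + 1) = exStep nb (explore nb c0 N) := by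
        unfold explore
        rw [Function.iterate_succ_apply']
      obtain ⟨i1, i2, i3, i4, i5, i6⟩ := ih
      rw [hst]
      generalize explore nb c0 N = st at i1 i2 i3 i4 i5 i6
      obtain ⟨done, todo⟩ := st
      rcases todo with _ | ⟨c, rest⟩
      · have h1 : exStep nb (done, []) = (done, []) := rfl
        rw [h1]
        exact ⟨i1, i2, i3, i4, i5.trans (Nat.le_succ _), fun h => absurd rfl h⟩
      · have h1 : exStep nb (done, c :: rest) =
          (c :: done, rest ++ addNew (done ++ c :: rest) [] (nb c)) := rfl
        rw [h1]
        simp only at i1 i2 i3 i4 i5 i6 ⊢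
        set A := addNew (done ++ c :: rest) [] (nb c) with hA
        have hperm : (c :: done ++ (rest ++ A)).Perm ((done ++ c :: rest) ++ A) := by
          have h2 : (done ++ c :: rest ++ A).Perm (c :: (done ++ rest) ++ A) :=
            List.Perm.append_right A List.perm_middle
          have h3 : c :: (done ++ rest) ++ A = c :: done ++ (rest ++ A) := by
            simp [List.append_assoc]
          rw [h3] at h2
          exact h2.symm
        have hold : ∀ x ∈ done ++ c :: rest, x ∈ c :: done ++ (rest ++ A) := fun x hx =>
          hperm.mem_iff.2 (List.mem_append_left _ hx)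
        have hAm : ∀ x ∈ A, x ∈ nb c := by
          intro x hx
          rcases addNew_mem _ _ _ x hx with h | h
          · exact absurd h List.not_mem_nil
          · exact h
        obtain ⟨dc, hdc1, hdc2⟩ := i1 c (List.mem_append_right _ List.mem_cons_self)
        have hAr : ∀ x ∈ A, ∃ d, Relation.ReflTransGen E d0 d ∧ R x d := by
          intro x hx
          obtain ⟨d', h2, h3⟩ := hsound c dc hdc2 x (hAm x hx)
          exact ⟨d', hdc1.tail h2, h3⟩
        refine ⟨?_, ?_, ?_, ?_, ?_, ?_⟩
        · intro x hx
          rcases List.mem_append.1 (hperm.mem_iff.1 hx) with h | h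
          · exact i1 x h
          · exact hAr x h
        · refine (hperm.pairwise_iff hQs).2 ?_
          apply addNew_pw _ hQ
          rw [List.append_nil]
          exact i2
        · intro x hx d d' hxd hdd
          rcases List.mem_cons.1 hx with rfl | hx
          · obtain ⟨c', hc', hr⟩ := hcomp x d hxd d' hdd
            rcases addNew_cov (done ++ x :: rest) (nb x) [] c' hc' with h | ⟨y, hy, hyc⟩
            · exact ⟨c', hperm.mem_iff.2 (List.mem_append_right _ h), hr⟩
            · refine ⟨y, hperm.mem_iff.2 hy, ?_⟩
              have hyr : ∃ e, Relation.ReflTransGen E d0 e ∧ R y e := by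
                rcases List.mem_append.1 hy with h | h
                · exact i1 y h
                · exact hAr y h
              obtain ⟨e, _, he⟩ := hyr
              have h2 := (hsame y c' e d' he hr).1 hyc
              rw [← h2]
              exact he
          · obtain ⟨c', hc', hr⟩ := i3 x hx d d' hxd hdd
            exact ⟨c', hold c' hc', hr⟩
        · obtain ⟨x, hx, hr⟩ := i4
          exact ⟨x, hold x hx, hr⟩
        · rw [List.length_cons]
          exact Nat.succ_le_succ i5
        · intro _
          rw [List.length_cons, i6 (List.cons_ne_nil _ _)]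
  obtain ⟨i1, i2, i3, i4, i5, i6⟩ := hinv N
  refine ⟨i1, i2, fun hnil d hd => ?_, i5, i6⟩
  rw [hnil, List.append_nil] at i3 i4
  induction hd with
  | refl => exact i4
  | tail _ hE ih =>
    obtain ⟨c, hc, hr⟩ := ih
    exact i3 c hc _ _ hr hE

end SQ
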