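import Pool.Agent.Lib.SQ.EDefs
import Pool.Agent.Lib.SFA.OPre
import Pool.Agent.Lib.SFA.TestB
import Pool.Agent.Lib.SFA.NoCrit

/-!
# SQ.EG (package E, owner helper1): geometric definitions for the correctness of the exploration
(definitions only, nothing to prove)
-/

namespace SQ

open SFA Classical Filter Topology

noncomputable section

/-- slope in sheared coordinates -/
def sl (eps : ℝ) (s : Seg) : ℝ := (s.2.im - s.1.im) / (X eps s.2 - X eps s.1)

/-- `s` is strictly above `r` just to the right of the abscissa `a` -/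
def gtR (eps a : ℝ) (r s : Seg) : Prop := ∀ᶠ c in 𝓝[>] a, ht eps r c < ht eps s c

/-- the reflected set -/
def negR (R : Finset Seg) : Finset Seg := R.image negS

/-- `S` is an arbitrary set of segments directed lexicographically, `T` the set of its pieces
(an `LP` family), `eps` a good shear. -/
structure Sys (eps : ℝ) (S T : Finset Seg) (x : ℂ) : Prop where
  pos : 0 < eps
  gen : Gen eps T x
  lex : LexOK eps T x
  lexS : ∀ s ∈ S, lexlt s.1 s.2
  uni : U T = U S
  crit : ∀ v : ℂ, IsCrit T v ↔ v ∈ Vert S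
  pieceR : ∀ s ∈ S, ∀ a : ℝ, X eps s.1 ≤ a → a < X eps s.2 →
    ∃ s' ∈ T, carrier s' ⊆ carrier s ∧ X eps s'.1 ≤ a ∧ a < X eps s'.2
  pieceL : ∀ s ∈ S, ∀ a : ℝ, X eps s.1 < a → a ≤ X eps s.2 →
    ∃ s' ∈ T, carrier s' ⊆ carrier s ∧ X eps s'.1 < a ∧ a ≤ X eps s'.2
  rep : ∀ s' ∈ T, ∃ s ∈ S, carrier s' ⊆ carrier s

/-- the optional segment `o` of `S` represents (contains) the optional piece `o'` -/
def RepO (S : Finset Seg) (o o' : Option Seg) : Prop :=
  (o = none ∧ o' = none) ∨ ∃ s s', o = some s ∧ o' = some s' ∧ s ∈ S ∧ carrier s' ⊆ carrier s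

/-- the cell `c` of the exploration represents the cell `d` of the decomposition by the pieces -/
structure Rep (S : Finset Seg) (c d : Cell) : Prop where
  p : c.p = d.p
  q : c.q = d.q
  b : RepO S c.b d.b
  t : RepO S c.t d.t

/-- `D` is a set of segments with the same face of `x` and the same vertices on its boundary. -/
structure WitOK (S D : Finset Seg) (x : ℂ) : Prop where
  ne : ∀ s ∈ D, s.1 ≠ s.2
  sub : U D ⊆ U S
  fr : frontier (face S x) ⊆ U D
  V1 : Vert D ⊆ Vert S
  V2 : ∀ v ∈ Vert S, v ∈ closure (face S x) → v ∈ Vert D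

end

end SQ
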