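import Pool.Agent.Lib.SQ.ESys
import Pool.Agent.Lib.SQ.ETF

/-!
# SQ.EInv: the reference segments of the queries of the exploration are active segments of `S`

`exists_sys`, `exploreF_spec`: `c` (done or to do) represents a valid `d` (`InFace.1`).  Let `v ∈ c.q = d.q`, `u ∈ c.t`, `offB c.t v = true` (`offB_iff`: `ori u v ≠ 0`).  `RepO`: `d.t = some t'`, `u ∈ S`, `carrier t' ⊆ carrier u`; `piece_line`: `X u.1 ≤ X t'.1`, `X t'.2 ≤ X u.2`, `ori t' v ≠ 0`.
`spans`: `X t'.1 ≤ X p`, `p ∈ d.p`, `X p < X v` (`shape.lt`), and `X v ≤ X t'.2` (`Option.mem_unique`); equality would give `v = t'.2` (`Gen.inj`, both critical), `ori t' v = 0`.  So `X u.1 ≤ X v < X u.2` and `act_iff` gives `act v u = true`.  Same for the bottom.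
Mirror statement: `negC c` represents `negC d` (`rep_neg`), valid for `negR T` (`valid_neg`), `sys_neg`, `negR_toFinset`: apply the first part (write it as a private lemma for a general `Sys`, `Rep`, `Valid`).
-/

namespace SQ

open SFA Classical

/-- the reference segments used at the right wall of `c` are active segments of `S` -/
def RefOK (S : List Seg) (c : Cell) : Prop :=
  ∀ v ∈ c.q, (offB c.t v = true → ∀ u ∈ c.t, u ∈ S ∧ act v u = true) ∧
    (offB c.b v = true → ∀ u ∈ c.b, u ∈ S ∧ act v u = true)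

private theorem ref_one {eps : ℝ} {S : List Seg} {T : Finset Seg} {x : ℂ}
    (h : Sys eps S.toFinset T x) {d : Cell} (hd : Valid eps T d) {o o' : Option Seg}
    (ho : RepO S.toFinset o o') (hs : ∀ s ∈ o', spans eps d s) (hT : ∀ s ∈ o', s ∈ T)
    {v : ℂ} (hv : v ∈ d.q) (hoff : offB o v = true) {u : Seg} (hu : u ∈ o) :
    u ∈ S ∧ act v u = true := by
  rw [offB_iff] at hoff
  have h0 := hoff u hu
  rcases ho with ⟨h1, -⟩ | ⟨s, s', h1, h2, h3, h4⟩
  · rw [h1] at hu
    simp at hu
  · rw [h1] at hu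
    obtain rfl : s = u := by simpa using hu
    have hs'T : s' ∈ T := hT s' (by rw [h2]; rfl)
    obtain ⟨-, l1, l2, l3⟩ := piece_line h h3 hs'T h4
    obtain ⟨⟨p, hp, hp1⟩, ⟨q, hq, hq1⟩⟩ := hs s' (by rw [h2]; rfl)
    obtain rfl : q = v := Option.mem_unique hq hv
    have hpv := hd.shape.lt p hp q hq
    have hcr : IsCrit T q := hd.defd.qC q hq
    have hlt : X eps q < X eps s'.2 := by
      refine lt_of_le_of_ne hq1 fun heq => h0 ?_
      have : q = s'.2 := h.gen.inj q s'.2 hcr (Or.inl ⟨s', hs'T, Or.inr rfl⟩) heq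
      rw [(l3 q).2.2, this]
      exact ori_right s'
    refine ⟨List.mem_toFinset.1 h3, ?_⟩
    rw [act_iff h h3 (Or.inl hcr)]
    constructor
    · linarith
    · linarith

private theorem ref_rep {eps : ℝ} {S : List Seg} {T : Finset Seg} {x : ℂ}
    (h : Sys eps S.toFinset T x) {c d : Cell} (hd : Valid eps T d)
    (hc : Rep S.toFinset c d) : RefOK S c := by
  intro v hv
  rw [hc.q] at hv
  exact ⟨fun ho u hu => ref_one h hd hc.t hd.shape.ts hd.defd.tR hv ho hu,
    fun ho u hu => ref_one h hd hc.b hd.shape.bs hd.defd.bR hv ho hu⟩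

theorem explore_ref (S : List Seg) (hS : ∀ s ∈ S, lexlt s.1 s.2) {x : ℂ}
    (hx : x ∉ U S.toFinset) (N : ℕ) :
    ∀ c ∈ (exploreF S x N).1 ++ (exploreF S x N).2,
      RefOK S c ∧ RefOK (S.map negS) (negC c) := by
  intro c hc
  obtain ⟨eps, h⟩ := exists_sys S hS hx
  obtain ⟨d, hd, hr⟩ := (exploreF_spec h N).1 c hc
  refine ⟨ref_rep h hd.1 hr, ?_⟩
  have h' := sys_neg h
  rw [← negR_toFinset] at h'
  have hr' := rep_neg hr
  rw [← negR_toFinset] at hr'
  exact ref_rep h' (valid_neg h.gen hd.1) hr'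

end SQ
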