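import Pool.Agent.Lib.SQ.EG

/-!
# SQ.EKey: vertical order just to the right of an abscissa

`ht eps s` is affine: `ht eps s c = ht eps s a + sl eps s * (c - a)` (unfold `ht`, `sl`, `ring`; no hypothesis needed).
* `gtR_iff`: if `ht r a < ht s a`: continuity (`continuous_ht`, `(tendsto ..).eventually_lt`, restricted to `𝓝[>] a`).  If the heights at `a` are equal and
  `sl r < sl s` then `ht r c < ht s c` for all `c > a` (`eventually_mem_nhdsWithin` / `self_mem_nhdsWithin`).  Conversely: if `ht s a < ht r a` then eventually `ht s c < ht r c`, and the two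
  eventualities contradict each other (`(h1.and h2).exists`, `𝓝[>] a` is `NeBot`); if the heights are equal and `sl s ≤ sl r` then `ht s c ≤ ht r c` for all `c > a`: again a contradiction.
* `gtR_trans`, `gtR_asymm`, `gtR_irrefl`: from the eventualities.
* `gtR_total`: trichotomy of the heights at `a` and of the slopes; if both are equal the functions are equal by the affine formula.
* `cross_pos_iff`: `cross_eq` gives `cross (r.2-r.1) (s.2-s.1) = (X r.2 - X r.1) (s.2.im - s.1.im) - (r.2.im - r.1.im) (X s.2 - X s.1) = (X r.2 - X r.1) (X s.2 - X s.1) (sl s - sl r)`.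
-/

namespace SQ

open SFA Classical Filter Topology

theorem ht_affine (eps : ℝ) (s : Seg) (a c : ℝ) :
    ht eps s c = ht eps s a + sl eps s * (c - a) := by
  unfold ht sl
  ring

namespace EKeyAux

theorem of_lt {eps a : ℝ} {r s : Seg} (h : ht eps r a < ht eps s a) : gtR eps a r s := by
  have h1 : ∀ᶠ c in 𝓝 a, ht eps r c < ht eps s c :=
    ((continuous_ht eps r).tendsto a).eventually_lt ((continuous_ht eps s).tendsto a) h
  exact h1.filter_mono nhdsWithin_le_nhds

theorem of_sl {eps a : ℝ} {r s : Seg} (h : ht eps r a = ht eps s a) (h' : sl eps r < sl eps s) :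
    gtR eps a r s := by
  have h1 : ∀ᶠ c in 𝓝[>] a, c ∈ Set.Ioi a := self_mem_nhdsWithin
  refine h1.mono (fun c hc => ?_)
  rw [ht_affine eps r a c, ht_affine eps s a c, h]
  have hc' : 0 < c - a := sub_pos.2 hc
  have := mul_lt_mul_of_pos_right h' hc'
  linarith

theorem not_of_sl {eps a : ℝ} {r s : Seg} (h : ht eps r a = ht eps s a)
    (h' : sl eps s ≤ sl eps r) : ¬ gtR eps a r s := by
  intro hg
  have h1 : ∀ᶠ c in 𝓝[>] a, c ∈ Set.Ioi a := self_mem_nhdsWithin
  obtain ⟨c, hc1, hc2⟩ := (h1.and hg).exists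
  rw [ht_affine eps r a c, ht_affine eps s a c, h] at hc2
  have hc' : 0 < c - a := sub_pos.2 hc1
  have := mul_le_mul_of_nonneg_right h' hc'.le
  linarith

theorem asymm {eps a : ℝ} {r s : Seg} (h : gtR eps a r s) : ¬ gtR eps a s r := by
  intro h'
  obtain ⟨c, h1, h2⟩ := (Filter.Eventually.and h h').exists
  exact lt_asymm h1 h2

end EKeyAux

theorem gtR_iff {eps a : ℝ} {r s : Seg} : gtR eps a r s ↔
    ht eps r a < ht eps s a ∨ (ht eps r a = ht eps s a ∧ sl eps r < sl eps s) := by
  constructor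
  · intro h
    rcases lt_trichotomy (ht eps r a) (ht eps s a) with h1 | h1 | h1
    · exact Or.inl h1
    · right
      refine ⟨h1, ?_⟩
      by_contra h2
      exact EKeyAux.not_of_sl h1 (not_lt.1 h2) h
    · exact absurd h (EKeyAux.asymm (EKeyAux.of_lt h1))
  · rintro (h | ⟨h1, h2⟩)
    · exact EKeyAux.of_lt h
    · exact EKeyAux.of_sl h1 h2

theorem gtR_irrefl {eps a : ℝ} {s : Seg} : ¬ gtR eps a s s :=
  fun h => EKeyAux.asymm h h

theorem gtR_asymm {eps a : ℝ} {r s : Seg} (h : gtR eps a r s) : ¬ gtR eps a s r :=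
  EKeyAux.asymm h

theorem gtR_trans {eps a : ℝ} {r s t : Seg} (h : gtR eps a r s) (h' : gtR eps a s t) :
    gtR eps a r t :=
  (Filter.Eventually.and h h').mono (fun _ hc => hc.1.trans hc.2)

theorem gtR_total (eps a : ℝ) (r s : Seg) :
    gtR eps a r s ∨ gtR eps a s r ∨ ∀ c, ht eps r c = ht eps s c := by
  rcases lt_trichotomy (ht eps r a) (ht eps s a) with h | h | h
  · exact Or.inl (EKeyAux.of_lt h)
  · rcases lt_trichotomy (sl eps r) (sl eps s) with h' | h' | h'
    · exact Or.inl (EKeyAux.of_sl h h')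
    · right
      right
      intro c
      rw [ht_affine eps r a c, ht_affine eps s a c, h, h']
    · exact Or.inr (Or.inl (EKeyAux.of_sl h.symm h'))
  · exact Or.inr (Or.inl (EKeyAux.of_lt h))

theorem gtR_congr_left {eps a : ℝ} {r r' s : Seg} (h : ∀ c, ht eps r c = ht eps r' c) :
    gtR eps a r s ↔ gtR eps a r' s := by
  unfold gtR
  simp only [h]

theorem gtR_congr_right {eps a : ℝ} {r s s' : Seg} (h : ∀ c, ht eps s c = ht eps s' c) :
    gtR eps a r s ↔ gtR eps a r s' := by
  unfold gtR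
  simp only [h]

theorem EKeyAux.cross_sl {eps : ℝ} {r s : Seg} (hr : X eps r.1 < X eps r.2)
    (hs : X eps s.1 < X eps s.2) :
    cross (r.2 - r.1) (s.2 - s.1) =
      (X eps r.2 - X eps r.1) * (X eps s.2 - X eps s.1) * (sl eps s - sl eps r) := by
  have h1 : X eps r.2 - X eps r.1 ≠ 0 := (sub_pos.2 hr).ne'
  have h2 : X eps s.2 - X eps s.1 ≠ 0 := (sub_pos.2 hs).ne'
  rw [cross_eq eps, X_sub, X_sub, Complex.sub_im, Complex.sub_im]
  unfold sl
  field_simp

theorem cross_pos_iff {eps : ℝ} {r s : Seg} (hr : X eps r.1 < X eps r.2)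
    (hs : X eps s.1 < X eps s.2) :
    0 < cross (r.2 - r.1) (s.2 - s.1) ↔ sl eps r < sl eps s := by
  have h1 : 0 < (X eps r.2 - X eps r.1) * (X eps s.2 - X eps s.1) :=
    mul_pos (sub_pos.2 hr) (sub_pos.2 hs)
  rw [EKeyAux.cross_sl hr hs, mul_pos_iff_of_pos_left h1, sub_pos]

theorem cross_neg_iff {eps : ℝ} {r s : Seg} (hr : X eps r.1 < X eps r.2)
    (hs : X eps s.1 < X eps s.2) :
    cross (r.2 - r.1) (s.2 - s.1) < 0 ↔ sl eps s < sl eps r := by
  have h1 : 0 < (X eps r.2 - X eps r.1) * (X eps s.2 - X eps s.1) :=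
    mul_pos (sub_pos.2 hr) (sub_pos.2 hs)
  rw [EKeyAux.cross_sl hr hs, mul_neg_iff]
  constructor
  · rintro (⟨-, h⟩ | ⟨h, -⟩)
    · exact sub_neg.1 h
    · exact absurd h (not_lt.2 h1.le)
  · intro h
    exact Or.inl ⟨h1, sub_neg.2 h⟩

end SQ
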