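import Pool.Agent.Lib.SQ.EG

/-!
# SQ.ENegA: reflection at the origin, elementary facts

`negS s = (-s.2, -s.1)`.  `ori (negS s) z = cross (-s.1 + s.2) (z + s.2) = - ori s (-z)` (unfold `ori`, `cross`, `negS`, `Complex.neg_re` etc., `ring`).  `carrier (negS s)`: `segment ℝ (-s.2) (-s.1)`;
`z = a (-s.2) + b (-s.1) ↔ -z = b s.1 + a s.2`.  `ht`: for `X s.1 ≠ X s.2`: `ht (negS s) c = - s.2.im + (s.2.im - s.1.im) (c + X s.2) / (X s.2 - X s.1)` (`field_simp`, `ring`).
`IsCrit`, `Vert`, `U`: transport along `negS` (an involution, so a bijection of `R` with `negR R`); `cross (-s.1 - -s.2) (-t.1 - -t.2) = cross (s.2 - s.1) (t.2 - t.1)`.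
-/

namespace SQ

open SFA Classical

theorem X_neg' (eps : ℝ) (z : ℂ) : X eps (-z) = - X eps z := by
  unfold X
  simp only [Complex.neg_re, Complex.neg_im]
  ring

theorem negS_negS (s : Seg) : negS (negS s) = s := by
  unfold negS
  simp

theorem negC_negC (c : Cell) : negC (negC c) = c := by
  rcases c with ⟨b, t, p, q⟩
  have h1 : ∀ o : Option Seg, (o.map negS).map negS = o := by
    intro o
    cases o with
    | none => rfl
    | some s => simp [negS_negS]
  have h2 : ∀ o : Option ℂ, (o.map (fun z => -z)).map (fun z => -z) = o := by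
    intro o
    cases o with
    | none => rfl
    | some s => simp
  unfold negC
  simp only [h1, h2]

theorem ori_negS (s : Seg) (z : ℂ) : ori (negS s) z = - ori s (-z) := by
  unfold ori cross negS
  simp only [Complex.sub_re, Complex.sub_im, Complex.neg_re, Complex.neg_im]
  ring

theorem mem_carrier_negS (s : Seg) (z : ℂ) : z ∈ carrier (negS s) ↔ -z ∈ carrier s := by
  unfold carrier negS
  constructor
  · rintro ⟨a, b, ha, hb, hab, rfl⟩
    refine ⟨b, a, hb, ha, by rw [add_comm]; exact hab, ?_⟩
    simp only [smul_neg, neg_add, neg_neg]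
    rw [add_comm]
  · rintro ⟨a, b, ha, hb, hab, h⟩
    refine ⟨b, a, hb, ha, by rw [add_comm]; exact hab, ?_⟩
    rw [← neg_neg z, ← h]
    simp only [smul_neg, neg_add]
    rw [add_comm]

theorem ht_negS {eps : ℝ} {s : Seg} (h : X eps s.1 < X eps s.2) (c : ℝ) :
    ht eps (negS s) c = - ht eps s (-c) := by
  have hD : X eps s.2 - X eps s.1 ≠ 0 := (sub_pos.2 h).ne'
  unfold ht negS
  simp only [X_neg', Complex.neg_im]
  have hD' : -X eps s.1 - -X eps s.2 = X eps s.2 - X eps s.1 := by ring
  rw [hD']
  field_simp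
  ring

theorem lexlt_neg (u v : ℂ) : lexlt (-u) (-v) ↔ lexlt v u := by
  unfold lexlt
  simp only [Complex.neg_re, Complex.neg_im, neg_lt_neg_iff, neg_inj]
  rw [eq_comm (a := u.re)]

theorem mem_negR (R : Finset Seg) (s : Seg) : s ∈ negR R ↔ negS s ∈ R := by
  unfold negR
  rw [Finset.mem_image]
  constructor
  · rintro ⟨t, ht, rfl⟩
    rw [negS_negS]
    exact ht
  · intro h
    exact ⟨negS s, h, negS_negS s⟩

theorem negR_toFinset (S : List Seg) : (S.map negS).toFinset = negR S.toFinset := by
  ext s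
  rw [mem_negR, List.mem_toFinset, List.mem_map, List.mem_toFinset]
  constructor
  · rintro ⟨t, ht, rfl⟩
    rw [negS_negS]
    exact ht
  · intro h
    exact ⟨negS s, h, negS_negS s⟩

theorem mem_U_negR (R : Finset Seg) (z : ℂ) : z ∈ U (negR R) ↔ -z ∈ U R := by
  rw [mem_U, mem_U]
  constructor
  · rintro ⟨s, hs, hz⟩
    refine ⟨negS s, (mem_negR R s).1 hs, ?_⟩
    rw [mem_carrier_negS, neg_neg]
    exact hz
  · rintro ⟨s, hs, hz⟩
    refine ⟨negS s, (mem_negR R (negS s)).2 (by rw [negS_negS]; exact hs), ?_⟩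
    rw [mem_carrier_negS]
    exact hz

theorem crit_negR (R : Finset Seg) (v : ℂ) : IsCrit (negR R) v ↔ IsCrit R (-v) := by
  have key : ∀ (R : Finset Seg) (v : ℂ), IsCrit (negR R) v → IsCrit R (-v) := by
    intro R v hv
    rcases hv with ⟨s, hs, h⟩ | ⟨s, hs, t, ht, hst, h1, h2⟩
    · refine Or.inl ⟨negS s, (mem_negR R s).1 hs, ?_⟩
      rcases h with h | h
      · right
        rw [h]
        rfl
      · left
        rw [h]
        rfl
    · refine Or.inr ⟨negS s, (mem_negR R s).1 hs, negS t, (mem_negR R t).1 ht, ?_, ?_, ?_⟩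
      · intro h
        apply hst
        rw [← negS_negS s, h, negS_negS]
      · rw [mem_carrier_negS, neg_neg]
        exact h1
      · rw [mem_carrier_negS, neg_neg]
        exact h2
  refine ⟨key R v, fun h => ?_⟩
  have hR : negR (negR R) = R := by
    ext s
    rw [mem_negR, mem_negR, negS_negS]
  have h2 := key (negR R) (-v) (by rw [hR]; exact h)
  rw [neg_neg] at h2
  exact h2

theorem vert_negR (R : Finset Seg) (v : ℂ) : v ∈ Vert (negR R) ↔ -v ∈ Vert R := by
  have key : ∀ (R : Finset Seg) (v : ℂ), v ∈ Vert (negR R) → -v ∈ Vert R := by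
    intro R v hv
    rcases hv with ⟨s, hs, h⟩ | ⟨s, hs, t, ht, hst, h1, h2⟩
    · refine Or.inl ⟨negS s, (mem_negR R s).1 hs, ?_⟩
      rcases h with h | h
      · right
        rw [h]
        rfl
      · left
        rw [h]
        rfl
    · refine Or.inr ⟨negS s, (mem_negR R s).1 hs, negS t, (mem_negR R t).1 ht, ?_, ?_, ?_⟩
      · intro h
        apply hst
        rw [← h]
        unfold cross negS
        simp only [Complex.sub_re, Complex.sub_im, Complex.neg_re, Complex.neg_im]
        ring
      · rw [mem_carrier_negS, neg_neg]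
        exact h1
      · rw [mem_carrier_negS, neg_neg]
        exact h2
  refine ⟨key R v, fun h => ?_⟩
  have hR : negR (negR R) = R := by
    ext s
    rw [mem_negR, mem_negR, negS_negS]
  have h2 := key (negR R) (-v) (by rw [hR]; exact h)
  rw [neg_neg] at h2
  exact h2

end SQ
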