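import Pool.Agent.Lib.SQ.EAbv

/-!
# SQ.ETot: `betL v` and `betU v` are strict total orders on the segments active at `v`

No `eps` in the statements.  Given three segments `s, e, g` (active at `v`, directed lexicographically) let `P` be the finite set of `v`, their endpoints and the crossing points of the non-parallel pairs.  There is `eps > 0` such that for `a, b ∈ P`:
`lexlt a b → X eps a < X eps b` (as in `SFA.Eps`: for a fixed pair all small `eps > 0` work; finitely many pairs, `Filter.eventually_all_finite` in `𝓝[>] 0`).  Then `abv_iff` applies to every pair and translates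
`abv`, `blw` into `gtR eps (X eps v)`.
`betL v s e`: `gtR e s`, or collinear and `tieB s e`.  For directed segments active at `v`: `colB s e` (`ori e s.1 = 0 = ori e s.2`) iff the height functions are equal (`ht eps s = ht eps e`): an equivalence relation, excluded by `gtR` in both directions
(`gtR_irrefl`, `gtR_congr_*`).  `tieB` is the lexicographic order of the pair (`s.2` larger, then `s.1` smaller), a strict total order on segments (`lexB_iff`, `ptEq_iff`; `lex_trans`, `lex_total` in OPLine).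
* irrefl: `gtR_irrefl`, `tieB s s = false`.
* trans: cases; `gtR` is compatible with equal height functions.
* total: `gtR_total`: if the height functions are equal then `colB s e` and `colB e s`, and `tieB` decides since `s ≠ e`.
For `betU`: `blw s e v ↔ gtR eps (X eps v) s e`, same proof.
-/

namespace SQ

open SFA Classical Filter Topology

namespace ETotAux

theorem hev (u v : ℂ) (huv : lexlt u v) : ∀ᶠ eps in 𝓝[>] (0 : ℝ), X eps u < X eps v := by
  rcases huv with h | ⟨h1, h2⟩
  · have hc : Continuous (fun eps : ℝ => X eps v - X eps u) := by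
      unfold X; fun_prop
    have h0 : (0 : ℝ) < X 0 v - X 0 u := by simp [X]; linarith
    have h3 := (hc.tendsto 0).eventually (lt_mem_nhds h0)
    have h4 : ∀ᶠ eps in 𝓝[>] (0 : ℝ), 0 < X eps v - X eps u := nhdsWithin_le_nhds h3
    exact h4.mono (fun eps h => by linarith)
  · filter_upwards [self_mem_nhdsWithin] with eps he
    have he' : 0 < eps := he
    unfold X
    nlinarith

theorem ori_carrier {s : Seg} {z : ℂ} (h : z ∈ carrier s) : ori s z = 0 := by
  obtain ⟨a, b, ha, hb, hab, rfl⟩ := h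
  rw [ori_comb s hab]
  simp

theorem crossing_unique {s r : Seg} (h : cross (r.2 - r.1) (s.2 - s.1) ≠ 0) {z z' : ℂ}
    (h1 : ori s z = 0) (h2 : ori r z = 0) (h3 : ori s z' = 0) (h4 : ori r z' = 0) : z = z' := by
  simp only [ori, cross, Complex.sub_re, Complex.sub_im] at *
  have e1 : ((r.2.re - r.1.re) * (s.2.im - s.1.im) - (r.2.im - r.1.im) * (s.2.re - s.1.re)) *
      (z.re - z'.re) = 0 := by
    linear_combination (-(r.2.re - r.1.re)) * h1 + (s.2.re - s.1.re) * h2 +
      (r.2.re - r.1.re) * h3 - (s.2.re - s.1.re) * h4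
  have e2 : ((r.2.re - r.1.re) * (s.2.im - s.1.im) - (r.2.im - r.1.im) * (s.2.re - s.1.re)) *
      (z.im - z'.im) = 0 := by
    linear_combination (-(r.2.im - r.1.im)) * h1 + (s.2.im - s.1.im) * h2 +
      (r.2.im - r.1.im) * h3 - (s.2.im - s.1.im) * h4
  have e3 := (mul_eq_zero.1 e1).resolve_left h
  have e4 := (mul_eq_zero.1 e2).resolve_left h
  exact Complex.ext (by linarith) (by linarith)

/-- a direction of projection for finitely many segments active at `v` -/
theorem ex_model (v : ℂ) (L : Finset Seg)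
    (hL : ∀ s ∈ L, lexlt s.1 s.2 ∧ act v s = true) :
    ∃ eps : ℝ, (∀ s ∈ L, X eps s.1 < X eps s.2) ∧ ∀ s ∈ L, ∀ r ∈ L,
      ((abv s r v = true ↔ gtR eps (X eps v) r s) ∧
      (blw s r v = true ↔ gtR eps (X eps v) s r)) := by
  classical
  have hact : ∀ s ∈ L, ¬ lexlt v s.1 ∧ lexlt v s.2 := by
    intro s hs
    have h1 := (hL s hs).2
    unfold act at h1
    rw [Bool.and_eq_true, Bool.not_eq_true', ← Bool.not_eq_true, lexB_iff, lexB_iff] at h1
    exact h1
  let P : Set ℂ := {v} ∪ (⋃ s ∈ L, ({s.1, s.2} : Set ℂ)) ∪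
    ⋃ s ∈ L, ⋃ r ∈ L, {u : ℂ | u ∈ carrier s ∧ u ∈ carrier r ∧
      cross (r.2 - r.1) (s.2 - s.1) ≠ 0}
  have hP : P.Finite := by
    refine ((Set.finite_singleton v).union (L.finite_toSet.biUnion fun s _ =>
      Set.toFinite _)).union (L.finite_toSet.biUnion fun s _ => L.finite_toSet.biUnion
      fun r _ => Set.Subsingleton.finite ?_)
    rintro z ⟨h1, h2, h3⟩ z' ⟨h4, h5, _⟩
    exact crossing_unique h3 (ori_carrier h1) (ori_carrier h2) (ori_carrier h4) (ori_carrier h5)
  have hev2 : ∀ᶠ eps in 𝓝[>] (0 : ℝ), ∀ a ∈ P, ∀ b ∈ P, lexlt a b → X eps a < X eps b := by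
    rw [Filter.eventually_all_finite hP]
    intro a _
    rw [Filter.eventually_all_finite hP]
    intro b _
    by_cases hab : lexlt a b
    · filter_upwards [hev a b hab] with eps h _
      exact h
    · exact Filter.Eventually.of_forall fun _ h => absurd h hab
  obtain ⟨eps, heps, hpos⟩ := (hev2.and self_mem_nhdsWithin).exists
  have hpos' : 0 < eps := hpos
  have hv : v ∈ P := Or.inl (Or.inl rfl)
  have hs1 : ∀ s ∈ L, s.1 ∈ P := fun s hs => by
    refine Or.inl (Or.inr ?_)
    simp only [Set.mem_iUnion]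
    exact ⟨s, hs, by simp⟩
  have hs2 : ∀ s ∈ L, s.2 ∈ P := fun s hs => by
    refine Or.inl (Or.inr ?_)
    simp only [Set.mem_iUnion]
    exact ⟨s, hs, by simp⟩
  have hX : ∀ s ∈ L, X eps s.1 < X eps s.2 := fun s hs =>
    heps _ (hs1 s hs) _ (hs2 s hs) (hL s hs).1
  have hX1 : ∀ s ∈ L, X eps s.1 ≤ X eps v := by
    intro s hs
    rcases lex_total s.1 v with h | h | h
    · exact (heps _ (hs1 s hs) _ hv h).le
    · rw [h]
    · exact absurd h (hact s hs).1
  have hX2 : ∀ s ∈ L, X eps v < X eps s.2 := fun s hs =>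
    heps _ hv _ (hs2 s hs) (hact s hs).2
  refine ⟨eps, hX, fun s hs r hr => ?_⟩
  refine abv_iff hpos' (hL s hs).1 (hL r hr).1 (hX s hs) (hX r hr) (hact s hs).1 (hact s hs).2
    (hact r hr).1 (hact r hr).2 (hX1 s hs) (hX2 s hs) (hX1 r hr) (hX2 r hr) ?_
  intro u hu1 hu2 hcr
  have hu : u ∈ P := by
    refine Or.inr ?_
    simp only [Set.mem_iUnion]
    exact ⟨s, hs, r, hr, hu1, hu2, hcr⟩
  exact ⟨fun h => heps _ hv _ hu h, fun h => heps _ hu _ hv h⟩

theorem colB_iff {eps : ℝ} {s e : Seg} (hs : X eps s.1 < X eps s.2) (he : X eps e.1 < X eps e.2) :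
    colB s e = true ↔ ∀ c, ht eps s c = ht eps e c := by
  unfold colB
  rw [Bool.and_eq_true, decide_eq_true_iff, decide_eq_true_iff, ori_zero_iff he, ori_zero_iff he]
  have h1 : s.1.im = ht eps s (X eps s.1) := by
    rw [← ori_zero_iff hs]
    simp [ori, cross]
  have h2 : s.2.im = ht eps s (X eps s.2) := by
    rw [← ori_zero_iff hs]
    simp only [ori, cross]
    ring
  constructor
  · rintro ⟨h3, h4⟩ c
    have a1 := ht_affine eps s (X eps s.1) (X eps s.2)
    have a2 := ht_affine eps e (X eps s.1) (X eps s.2)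
    have a3 := ht_affine eps s (X eps s.1) c
    have a4 := ht_affine eps e (X eps s.1) c
    have h5 : (sl eps s - sl eps e) * (X eps s.2 - X eps s.1) = 0 := by linarith
    have h6 : sl eps s - sl eps e = 0 := by
      rcases mul_eq_zero.1 h5 with h | h
      · exact h
      · exact absurd h (by linarith [hs])
    rw [a3, a4, ← h1, ← h3, sub_eq_zero.1 h6]
  · intro h3
    exact ⟨h1.trans (h3 _), h2.trans (h3 _)⟩

theorem tieB_iff (s e : Seg) :
    tieB s e = true ↔ lexlt e.2 s.2 ∨ (e.2 = s.2 ∧ lexlt s.1 e.1) := by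
  unfold tieB
  rw [Bool.or_eq_true, Bool.and_eq_true, lexB_iff, ptEq_iff, lexB_iff]

theorem tieB_irrefl (s : Seg) : ¬ (tieB s s = true) := by
  rw [tieB_iff]
  rintro (h | ⟨_, h⟩)
  · exact lex_irrefl _ h
  · exact lex_irrefl _ h

theorem tieB_trans {s e g : Seg} (h : tieB s e = true) (h' : tieB e g = true) :
    tieB s g = true := by
  rw [tieB_iff] at *
  rcases h with h | ⟨h1, h2⟩
  · rcases h' with h' | ⟨h3, h4⟩
    · exact Or.inl (lex_trans h' h)
    · exact Or.inl (h3 ▸ h)
  · rcases h' with h' | ⟨h3, h4⟩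
    · exact Or.inl (h1 ▸ h')
    · exact Or.inr ⟨h3.trans h1, lex_trans h2 h4⟩

theorem tieB_total {s e : Seg} (h : s ≠ e) : tieB s e = true ∨ tieB e s = true := by
  rw [tieB_iff, tieB_iff]
  rcases lex_total s.2 e.2 with h1 | h1 | h1
  · exact Or.inr (Or.inl h1)
  · rcases lex_total s.1 e.1 with h2 | h2 | h2
    · exact Or.inl (Or.inr ⟨h1.symm, h2⟩)
    · exact absurd (Prod.ext h2 h1) h
    · exact Or.inr (Or.inr ⟨h1, h2⟩)
  · exact Or.inl (Or.inl h1)

theorem betL_eq {v : ℂ} {s e : Seg} :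
    betL v s e = true ↔ abv s e v = true ∨ (colB s e = true ∧ tieB s e = true) := by
  unfold betL
  rw [Bool.or_eq_true, Bool.and_eq_true]

theorem betU_eq {v : ℂ} {s e : Seg} :
    betU v s e = true ↔ blw s e v = true ∨ (colB s e = true ∧ tieB s e = true) := by
  unfold betU
  rw [Bool.or_eq_true, Bool.and_eq_true]

end ETotAux

open ETotAux

theorem betL_irrefl {v : ℂ} {s : Seg} (hs : lexlt s.1 s.2) (as : act v s = true) :
    betL v s s = false := by
  obtain ⟨eps, hX, hm⟩ := ex_model v {s} (by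
    intro t ht
    rw [Finset.mem_singleton.1 ht]
    exact ⟨hs, as⟩)
  rw [← Bool.not_eq_true, betL_eq, (hm s (by simp) s (by simp)).1]
  rintro (h | ⟨_, h⟩)
  · exact gtR_irrefl h
  · exact tieB_irrefl s h

theorem betL_trans {v : ℂ} {s e g : Seg} (hs : lexlt s.1 s.2) (he : lexlt e.1 e.2)
    (hg : lexlt g.1 g.2) (as : act v s = true) (ae : act v e = true) (ag : act v g = true)
    (h1 : betL v s e = true) (h2 : betL v e g = true) : betL v s g = true := by
  obtain ⟨eps, hX, hm⟩ := ex_model v {s, e, g} (by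
    intro t ht
    simp only [Finset.mem_insert, Finset.mem_singleton] at ht
    rcases ht with rfl | rfl | rfl
    · exact ⟨hs, as⟩
    · exact ⟨he, ae⟩
    · exact ⟨hg, ag⟩)
  have ms : s ∈ ({s, e, g} : Finset Seg) := by simp
  have me : e ∈ ({s, e, g} : Finset Seg) := by simp
  have mg : g ∈ ({s, e, g} : Finset Seg) := by simp
  rw [betL_eq] at h1 h2 ⊢
  rw [(hm s ms e me).1, colB_iff (hX s ms) (hX e me)] at h1
  rw [(hm e me g mg).1, colB_iff (hX e me) (hX g mg)] at h2
  rw [(hm s ms g mg).1, colB_iff (hX s ms) (hX g mg)]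
  rcases h1 with h1 | ⟨h1, h1'⟩
  · rcases h2 with h2 | ⟨h2, h2'⟩
    · exact Or.inl (gtR_trans h2 h1)
    · exact Or.inl ((gtR_congr_left h2).1 h1)
  · rcases h2 with h2 | ⟨h2, h2'⟩
    · exact Or.inl ((gtR_congr_right h1).2 h2)
    · exact Or.inr ⟨fun c => (h1 c).trans (h2 c), tieB_trans h1' h2'⟩

theorem betL_total {v : ℂ} {s e : Seg} (hs : lexlt s.1 s.2) (he : lexlt e.1 e.2)
    (as : act v s = true) (ae : act v e = true) (hne : s ≠ e) :
    betL v s e = true ∨ betL v e s = true := by
  obtain ⟨eps, hX, hm⟩ := ex_model v {s, e} (by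
    intro t ht
    simp only [Finset.mem_insert, Finset.mem_singleton] at ht
    rcases ht with rfl | rfl
    · exact ⟨hs, as⟩
    · exact ⟨he, ae⟩)
  have ms : s ∈ ({s, e} : Finset Seg) := by simp
  have me : e ∈ ({s, e} : Finset Seg) := by simp
  rw [betL_eq, betL_eq, (hm s ms e me).1, (hm e me s ms).1, colB_iff (hX s ms) (hX e me),
    colB_iff (hX e me) (hX s ms)]
  rcases gtR_total eps (X eps v) e s with h | h | h
  · exact Or.inl (Or.inl h)
  · exact Or.inr (Or.inl h)
  · rcases tieB_total hne with h' | h'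
    · exact Or.inl (Or.inr ⟨fun c => (h c).symm, h'⟩)
    · exact Or.inr (Or.inr ⟨h, h'⟩)

theorem betU_irrefl {v : ℂ} {s : Seg} (hs : lexlt s.1 s.2) (as : act v s = true) :
    betU v s s = false := by
  obtain ⟨eps, hX, hm⟩ := ex_model v {s} (by
    intro t ht
    rw [Finset.mem_singleton.1 ht]
    exact ⟨hs, as⟩)
  rw [← Bool.not_eq_true, betU_eq, (hm s (by simp) s (by simp)).2]
  rintro (h | ⟨_, h⟩)
  · exact gtR_irrefl h
  · exact tieB_irrefl s h

theorem betU_trans {v : ℂ} {s e g : Seg} (hs : lexlt s.1 s.2) (he : lexlt e.1 e.2)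
    (hg : lexlt g.1 g.2) (as : act v s = true) (ae : act v e = true) (ag : act v g = true)
    (h1 : betU v s e = true) (h2 : betU v e g = true) : betU v s g = true := by
  obtain ⟨eps, hX, hm⟩ := ex_model v {s, e, g} (by
    intro t ht
    simp only [Finset.mem_insert, Finset.mem_singleton] at ht
    rcases ht with rfl | rfl | rfl
    · exact ⟨hs, as⟩
    · exact ⟨he, ae⟩
    · exact ⟨hg, ag⟩)
  have ms : s ∈ ({s, e, g} : Finset Seg) := by simp
  have me : e ∈ ({s, e, g} : Finset Seg) := by simp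
  have mg : g ∈ ({s, e, g} : Finset Seg) := by simp
  rw [betU_eq] at h1 h2 ⊢
  rw [(hm s ms e me).2, colB_iff (hX s ms) (hX e me)] at h1
  rw [(hm e me g mg).2, colB_iff (hX e me) (hX g mg)] at h2
  rw [(hm s ms g mg).2, colB_iff (hX s ms) (hX g mg)]
  rcases h1 with h1 | ⟨h1, h1'⟩
  · rcases h2 with h2 | ⟨h2, h2'⟩
    · exact Or.inl (gtR_trans h1 h2)
    · exact Or.inl ((gtR_congr_right h2).1 h1)
  · rcases h2 with h2 | ⟨h2, h2'⟩
    · exact Or.inl ((gtR_congr_left h1).2 h2)
    · exact Or.inr ⟨fun c => (h1 c).trans (h2 c), tieB_trans h1' h2'⟩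

theorem betU_total {v : ℂ} {s e : Seg} (hs : lexlt s.1 s.2) (he : lexlt e.1 e.2)
    (as : act v s = true) (ae : act v e = true) (hne : s ≠ e) :
    betU v s e = true ∨ betU v e s = true := by
  obtain ⟨eps, hX, hm⟩ := ex_model v {s, e} (by
    intro t ht
    simp only [Finset.mem_insert, Finset.mem_singleton] at ht
    rcases ht with rfl | rfl
    · exact ⟨hs, as⟩
    · exact ⟨he, ae⟩)
  have ms : s ∈ ({s, e} : Finset Seg) := by simp
  have me : e ∈ ({s, e} : Finset Seg) := by simp
  rw [betU_eq, betU_eq, (hm s ms e me).2, (hm e me s ms).2, colB_iff (hX s ms) (hX e me),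
    colB_iff (hX e me) (hX s ms)]
  rcases gtR_total eps (X eps v) s e with h | h | h
  · exact Or.inl (Or.inl h)
  · exact Or.inr (Or.inl h)
  · rcases tieB_total hne with h' | h'
    · exact Or.inl (Or.inr ⟨h, h'⟩)
    · exact Or.inr (Or.inr ⟨fun c => (h c).symm, h'⟩)

end SQ
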