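import Pool.Agent.Lib.SQ.ERepA
import Pool.Agent.Lib.SQ.EBest
import Pool.Agent.Lib.SQ.ETot

/-!
# SQ.ENoB: no piece strictly between bottom and top of a valid cell; the best candidate

* `no_between`: take `c > a` close to `a`: `c < X s'.2`, `c < X q` for `q ∈ d.q`, `ht b' c < ht s' c` (`b' ∈ d.b`), `ht s' c < ht t' c` (`t' ∈ d.t`) (finitely many eventualities in `𝓝[>] a`; `d.b`, `d.t`, `d.q` are options: case on them).  The point `pt eps c (ht eps s' c)` is in `carrier s'`
  (`pt_mem_carrier`) and in `reg eps d`: against `reg_disj_U`.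
* `bot_active`: `b' ∈ d.b` is in `T`, active at `a` (`spans`), and `gtR b' t'` for `t' ∈ d.t`: for `c` in the open slab, `shape.bt` at the point `pt eps c (ht eps b' c)` of `b'` and `ori_neg_iff`.  The upper bound of `a`: `a < X q ≤ X b'.2` where `q ∈ d.q` exists by `spans`.
* `best_low`: if `d.b = some b'`: choose `s_b ∈ S` with `carrier b' ⊆ carrier s_b` (`h.rep`); it is a candidate (`piece_line`, `act_iff`, `gtR_congr_left`, `bot_active`), so the best candidate `e` exists (`bestL_none`), `bestL_spec` (with `betL_irrefl`, `betL_trans`, `betL_total`; candidates are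
  active by `hc`): `s_b = e` or `betL v e s_b`, i.e. `gtR s_b e` (`abv_S`) or equal height functions (`colB`).  `e` is a candidate: active, `gtR e t'`.  Its piece `e'` active at `a = X v` (`pieceR`) has the same heights.  `no_between` excludes `gtR b' e'`.  So the heights are equal and `piece_unique`
  gives `e' = b'`: `carrier b' ⊆ carrier e`.
  If `d.b = none`: a candidate `e` would have a piece `e'` which contradicts `no_between`; so the result is `none`.
* `best_up`: mirror image (`d.t`, `betU`).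
-/

namespace SQ

open SFA Classical

namespace ENoBAux

open Filter Topology

theorem ev_opt {α : Type*} {F : Filter ℝ} {o : Option α} {P : α → ℝ → Prop}
    (h : ∀ a ∈ o, ∀ᶠ r in F, P a r) : ∀ᶠ r in F, ∀ a ∈ o, P a r := by
  cases o with
  | none => exact Eventually.of_forall fun r a ha => by simp at ha
  | some b =>
    filter_upwards [h b rfl] with r hr a ha
    rw [Option.mem_some_iff] at ha
    rw [← ha]
    exact hr

theorem ev_gt (a : ℝ) : ∀ᶠ c in 𝓝[>] a, a < c := self_mem_nhdsWithin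

theorem ev_lt {a b : ℝ} (h : a < b) : ∀ᶠ c in 𝓝[>] a, c < b :=
  (eventually_lt_nhds h).filter_mono nhdsWithin_le_nhds

/-- a segment on the line of another one -/
theorem col_ht {eps : ℝ} {s e : Seg} (hs : X eps s.1 < X eps s.2) (he : X eps e.1 < X eps e.2)
    (h : colB e s = true) : ∀ c, ht eps s c = ht eps e c := by
  unfold colB at h
  rw [Bool.and_eq_true, decide_eq_true_eq, decide_eq_true_eq] at h
  obtain ⟨h1, h2⟩ := h
  have e1 := (ori_zero_iff hs e.1).1 h1
  have e2 := (ori_zero_iff hs e.2).1 h2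
  have e3 := (ori_zero_iff he e.1).1 (ori_left e)
  have e4 := (ori_zero_iff he e.2).1 (ori_right e)
  have e5 : ht eps s (X eps e.1) = ht eps e (X eps e.1) := by rw [← e1, ← e3]
  have e6 : ht eps s (X eps e.2) = ht eps e (X eps e.2) := by rw [← e2, ← e4]
  have e7 : sl eps s = sl eps e := by
    rw [ht_affine eps s (X eps e.1) (X eps e.2), ht_affine eps e (X eps e.1) (X eps e.2),
      e5] at e6
    have h8 := add_left_cancel e6
    exact mul_right_cancel₀ (sub_pos.2 he).ne' h8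
  intro c
  rw [ht_affine eps s (X eps e.1) c, ht_affine eps e (X eps e.1) c, e5, e7]

/-- the order of the candidates is a strict total order -/
theorem spec_low {eps : ℝ} {S : List Seg} {T : Finset Seg} {x : ℂ}
    (h : Sys eps S.toFinset T x) {v : ℂ} {cand : Seg → Bool}
    (hc : ∀ s ∈ S, cand s = true → act v s = true) {m : Seg}
    (hm : bestL cand (betL v) S = some m) :
    m ∈ S ∧ cand m = true ∧ ∀ s ∈ S, cand s = true → s = m ∨ betL v m s = true := by
  have hl : ∀ s ∈ S, lexlt s.1 s.2 := fun s hs => h.lexS s (List.mem_toFinset.2 hs)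
  refine bestL_spec ?_ ?_ ?_ hm
  · intro s hs h1
    exact betL_irrefl (hl s hs) (hc s hs h1)
  · intro s hs e he g hg h1 h2 h3 h4 h5
    exact betL_trans (hl s hs) (hl e he) (hl g hg) (hc s hs h1) (hc e he h2) (hc g hg h3) h4 h5
  · intro s hs e he h1 h2 hne
    exact betL_total (hl s hs) (hl e he) (hc s hs h1) (hc e he h2) hne

theorem spec_up {eps : ℝ} {S : List Seg} {T : Finset Seg} {x : ℂ}
    (h : Sys eps S.toFinset T x) {v : ℂ} {cand : Seg → Bool}
    (hc : ∀ s ∈ S, cand s = true → act v s = true) {m : Seg}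
    (hm : bestL cand (betU v) S = some m) :
    m ∈ S ∧ cand m = true ∧ ∀ s ∈ S, cand s = true → s = m ∨ betU v m s = true := by
  have hl : ∀ s ∈ S, lexlt s.1 s.2 := fun s hs => h.lexS s (List.mem_toFinset.2 hs)
  refine bestL_spec ?_ ?_ ?_ hm
  · intro s hs h1
    exact betU_irrefl (hl s hs) (hc s hs h1)
  · intro s hs e he g hg h1 h2 h3 h4 h5
    exact betU_trans (hl s hs) (hl e he) (hl g hg) (hc s hs h1) (hc e he h2) (hc g hg h3) h4 h5
  · intro s hs e he h1 h2 hne
    exact betU_total (hl s hs) (hl e he) (hc s hs h1) (hc e he h2) hne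

end ENoBAux

open ENoBAux

theorem no_between {eps : ℝ} {S T : Finset Seg} {x : ℂ} (h : Sys eps S T x) {d : Cell}
    (hd : Valid eps T d) {a : ℝ} (h1 : ∀ p ∈ d.p, X eps p ≤ a) (h2 : ∀ q ∈ d.q, a < X eps q)
    {s' : Seg} (hs' : s' ∈ T) (s1 : X eps s'.1 ≤ a) (s2 : a < X eps s'.2)
    (hb : ∀ b' ∈ d.b, gtR eps a b' s') (ht' : ∀ t' ∈ d.t, gtR eps a s' t') : False := by
  have e1 := ev_gt a
  have e2 := ev_lt s2
  have e3 : ∀ᶠ c in nhdsWithin a (Set.Ioi a), ∀ q ∈ d.q, c < X eps q :=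
    ev_opt fun q hq => ev_lt (h2 q hq)
  have e4 : ∀ᶠ c in nhdsWithin a (Set.Ioi a), ∀ b' ∈ d.b, ht eps b' c < ht eps s' c :=
    ev_opt hb
  have e5 : ∀ᶠ c in nhdsWithin a (Set.Ioi a), ∀ t' ∈ d.t, ht eps s' c < ht eps t' c :=
    ev_opt ht'
  obtain ⟨c, ⟨⟨⟨c1, c2⟩, c3⟩, c4⟩, c5⟩ := ((((e1.and e2).and e3).and e4).and e5).exists
  have hz : pt eps c (ht eps s' c) ∈ carrier s' :=
    pt_mem_carrier (h.gen.inc s' hs') (s1.trans c1.le) c2.le
  refine reg_disj_U h.gen hd (z := pt eps c (ht eps s' c)) ⟨⟨?_, ?_⟩, ?_, ?_⟩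
    (mem_U.2 ⟨s', hs', hz⟩)
  · intro p hp
    rw [X_pt]
    exact (h1 p hp).trans_lt c1
  · intro q hq
    rw [X_pt]
    exact c3 q hq
  · intro b hb'
    rw [ori_pos_iff (h.gen.inc b (hd.defd.bR b hb')), X_pt, pt_im]
    exact c4 b hb'
  · intro t htt
    rw [ori_neg_iff (h.gen.inc t (hd.defd.tR t htt)), X_pt, pt_im]
    exact c5 t htt

theorem bot_active {eps : ℝ} {S T : Finset Seg} {x : ℂ} (h : Sys eps S T x) {d : Cell}
    (hd : Valid eps T d) {a : ℝ} (h1 : ∀ p ∈ d.p, X eps p ≤ a) (h2 : ∀ q ∈ d.q, a < X eps q)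
    {b' : Seg} (hb : b' ∈ d.b) :
    b' ∈ T ∧ X eps b'.1 ≤ a ∧ a < X eps b'.2 ∧ ∀ t' ∈ d.t, gtR eps a b' t' := by
  have hbT := hd.defd.bR b' hb
  obtain ⟨⟨p, hp, hp1⟩, q, hq, hq1⟩ := hd.shape.bs b' hb
  refine ⟨hbT, hp1.trans (h1 p hp), (h2 q hq).trans_le hq1, fun t' ht' => ?_⟩
  have e1 := ev_gt a
  have e3 : ∀ᶠ c in nhdsWithin a (Set.Ioi a), ∀ q ∈ d.q, c < X eps q :=
    ev_opt fun q hq => ev_lt (h2 q hq)
  filter_upwards [e1, e3] with c c1 c3
  have hz : pt eps c (ht eps b' c) ∈ carrier b' :=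
    pt_mem_carrier (h.gen.inc b' hbT) ((hp1.trans (h1 p hp)).trans c1.le)
      ((c3 q hq).le.trans hq1)
  have h3 := hd.shape.bt b' hb t' ht' _ hz ⟨fun p hp => by
    rw [X_pt]
    exact (h1 p hp).trans_lt c1, fun q hq => by
    rw [X_pt]
    exact c3 q hq⟩
  rw [ori_neg_iff (h.gen.inc t' (hd.defd.tR t' ht')), X_pt, pt_im] at h3
  exact h3

theorem top_active {eps : ℝ} {S T : Finset Seg} {x : ℂ} (h : Sys eps S T x) {d : Cell}
    (hd : Valid eps T d) {a : ℝ} (h1 : ∀ p ∈ d.p, X eps p ≤ a) (h2 : ∀ q ∈ d.q, a < X eps q)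
    {t' : Seg} (ht' : t' ∈ d.t) :
    t' ∈ T ∧ X eps t'.1 ≤ a ∧ a < X eps t'.2 ∧ ∀ b' ∈ d.b, gtR eps a b' t' := by
  have htT := hd.defd.tR t' ht'
  obtain ⟨⟨p, hp, hp1⟩, q, hq, hq1⟩ := hd.shape.ts t' ht'
  exact ⟨htT, hp1.trans (h1 p hp), (h2 q hq).trans_le hq1,
    fun b' hb => (bot_active h hd h1 h2 hb).2.2.2 t' ht'⟩

theorem best_low {eps : ℝ} {S : List Seg} {T : Finset Seg} {x : ℂ}
    (h : Sys eps S.toFinset T x) {d : Cell} (hd : Valid eps T d) {v : ℂ}
    (hv : IsCrit T v ∨ v = x) (h1 : ∀ p ∈ d.p, X eps p ≤ X eps v)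
    (h2 : ∀ q ∈ d.q, X eps v < X eps q) {cand : Seg → Bool}
    (hc : ∀ s ∈ S, cand s = true ↔ act v s = true ∧ ∀ t' ∈ d.t, gtR eps (X eps v) s t') :
    RepO S.toFinset (bestL cand (betL v) S) d.b := by
  -- the piece of a candidate at `X v`
  have hpiece : ∀ e ∈ S, cand e = true → ∃ e' ∈ T, carrier e' ⊆ carrier e ∧
      (∀ c, ht eps e c = ht eps e' c) ∧ X eps e'.1 ≤ X eps v ∧ X eps v < X eps e'.2 ∧
      ∀ t' ∈ d.t, gtR eps (X eps v) e' t' := by
    intro e he hce
    obtain ⟨hact, hgt⟩ := (hc e he).1 hce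
    have heF := List.mem_toFinset.2 he
    obtain ⟨a1, a2⟩ := (act_iff h heF hv).1 hact
    obtain ⟨e', he', hsub, b1, b2⟩ := h.pieceR e heF (X eps v) a1 a2
    obtain ⟨hl, -, -, -⟩ := piece_line h heF he' hsub
    exact ⟨e', he', hsub, hl, b1, b2, fun t' ht' => (gtR_congr_left hl).1 (hgt t' ht')⟩
  rcases hdb : d.b with _ | b'
  · left
    refine ⟨?_, rfl⟩
    rw [bestL_none]
    intro s hs
    rw [← Bool.not_eq_true]
    intro hcs
    obtain ⟨e', he', -, -, b1, b2, b3⟩ := hpiece s hs hcs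
    exact no_between h hd h1 h2 he' b1 b2 (fun b hb => by rw [hdb] at hb; simp at hb) b3
  · right
    have hb : b' ∈ d.b := by rw [hdb]; rfl
    obtain ⟨hbT, c1, c2, c3⟩ := bot_active h hd h1 h2 hb
    obtain ⟨sb, hsb, hsub⟩ := h.rep b' hbT
    obtain ⟨hl, l1, l2, -⟩ := piece_line h hsb hbT hsub
    have hsbS := List.mem_toFinset.1 hsb
    have hcand : cand sb = true := by
      rw [hc sb hsbS]
      exact ⟨(act_iff h hsb hv).2 ⟨l1.trans c1, c2.trans_le l2⟩,
        fun t' ht' => (gtR_congr_left hl).2 (c3 t' ht')⟩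
    rcases hbest : bestL cand (betL v) S with _ | e
    · rw [bestL_none] at hbest
      rw [hbest sb hsbS] at hcand
      exact absurd hcand Bool.false_ne_true
    · obtain ⟨heS, hce, hbe⟩ := spec_low h (fun s hs hcs => ((hc s hs).1 hcs).1) hbest
      obtain ⟨e', he', hesub, hel, b1, b2, b3⟩ := hpiece e heS hce
      have heF := List.mem_toFinset.2 heS
      have hno : ¬ gtR eps (X eps v) sb e := by
        intro hgt
        refine no_between h hd h1 h2 he' b1 b2 (fun b hb2 => ?_) b3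
        have hbb : b = b' := Option.mem_unique hb2 hb
        rw [hbb]
        exact (gtR_congr_left hl).1 ((gtR_congr_right hel).1 hgt)
      have hhe : ∀ c, ht eps sb c = ht eps e c := by
        rcases hbe sb hsbS hcand with h3 | h3
        · rw [h3]
          exact fun _ => rfl
        · unfold betL at h3
          rw [Bool.or_eq_true, Bool.and_eq_true] at h3
          rcases h3 with h3 | ⟨h3, -⟩
          · exact absurd ((abv_S h heF hsb hv ((hc e heS).1 hce).1
              ((hc sb hsbS).1 hcand).1).1 h3) hno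
          · exact col_ht (h.inc hsb) (h.inc heF) h3
      have heq : e' = b' := piece_unique h he' hbT
        (fun c => by rw [← hel, ← hhe, hl]) b1 b2 c1 c2
      exact ⟨e, b', rfl, rfl, heF, heq ▸ hesub⟩

theorem best_up {eps : ℝ} {S : List Seg} {T : Finset Seg} {x : ℂ}
    (h : Sys eps S.toFinset T x) {d : Cell} (hd : Valid eps T d) {v : ℂ}
    (hv : IsCrit T v ∨ v = x) (h1 : ∀ p ∈ d.p, X eps p ≤ X eps v)
    (h2 : ∀ q ∈ d.q, X eps v < X eps q) {cand : Seg → Bool}
    (hc : ∀ s ∈ S, cand s = true ↔ act v s = true ∧ ∀ b' ∈ d.b, gtR eps (X eps v) b' s) :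
    RepO S.toFinset (bestL cand (betU v) S) d.t := by
  -- the piece of a candidate at `X v`
  have hpiece : ∀ e ∈ S, cand e = true → ∃ e' ∈ T, carrier e' ⊆ carrier e ∧
      (∀ c, ht eps e c = ht eps e' c) ∧ X eps e'.1 ≤ X eps v ∧ X eps v < X eps e'.2 ∧
      ∀ b' ∈ d.b, gtR eps (X eps v) b' e' := by
    intro e he hce
    obtain ⟨hact, hgt⟩ := (hc e he).1 hce
    have heF := List.mem_toFinset.2 he
    obtain ⟨a1, a2⟩ := (act_iff h heF hv).1 hact
    obtain ⟨e', he', hsub, b1, b2⟩ := h.pieceR e heF (X eps v) a1 a2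
    obtain ⟨hl, -, -, -⟩ := piece_line h heF he' hsub
    exact ⟨e', he', hsub, hl, b1, b2, fun b' hb' => (gtR_congr_right hl).1 (hgt b' hb')⟩
  rcases hdt : d.t with _ | t'
  · left
    refine ⟨?_, rfl⟩
    rw [bestL_none]
    intro s hs
    rw [← Bool.not_eq_true]
    intro hcs
    obtain ⟨e', he', -, -, b1, b2, b3⟩ := hpiece s hs hcs
    exact no_between h hd h1 h2 he' b1 b2 b3 (fun b hb => by rw [hdt] at hb; simp at hb)
  · right
    have ht : t' ∈ d.t := by rw [hdt]; rfl
    obtain ⟨htT, c1, c2, c3⟩ := top_active h hd h1 h2 ht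
    obtain ⟨st, hst, hsub⟩ := h.rep t' htT
    obtain ⟨hl, l1, l2, -⟩ := piece_line h hst htT hsub
    have hstS := List.mem_toFinset.1 hst
    have hcand : cand st = true := by
      rw [hc st hstS]
      exact ⟨(act_iff h hst hv).2 ⟨l1.trans c1, c2.trans_le l2⟩,
        fun b' hb' => (gtR_congr_right hl).2 (c3 b' hb')⟩
    rcases hbest : bestL cand (betU v) S with _ | e
    · rw [bestL_none] at hbest
      rw [hbest st hstS] at hcand
      exact absurd hcand Bool.false_ne_true
    · obtain ⟨heS, hce, hbe⟩ := spec_up h (fun s hs hcs => ((hc s hs).1 hcs).1) hbest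
      obtain ⟨e', he', hesub, hel, b1, b2, b3⟩ := hpiece e heS hce
      have heF := List.mem_toFinset.2 heS
      have hno : ¬ gtR eps (X eps v) e st := by
        intro hgt
        refine no_between h hd h1 h2 he' b1 b2 b3 (fun t ht2 => ?_)
        have htt : t = t' := Option.mem_unique ht2 ht
        rw [htt]
        exact (gtR_congr_left hel).1 ((gtR_congr_right hl).1 hgt)
      have hhe : ∀ c, SFA.ht eps st c = SFA.ht eps e c := by
        rcases hbe st hstS hcand with h3 | h3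
        · rw [h3]
          exact fun _ => rfl
        · unfold betU at h3
          rw [Bool.or_eq_true, Bool.and_eq_true] at h3
          rcases h3 with h3 | ⟨h3, -⟩
          · exact absurd ((blw_S h heF hst hv ((hc e heS).1 hce).1
              ((hc st hstS).1 hcand).1).1 h3) hno
          · exact col_ht (h.inc hst) (h.inc heF) h3
      have heq : e' = t' := piece_unique h he' htT
        (fun c => by rw [← hel, ← hhe, hl]) b1 b2 c1 c2
      exact ⟨e, t', rfl, rfl, heF, heq ▸ hesub⟩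

end SQ
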