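import Pool.Agent.Lib.SQ.EKey
import Pool.Agent.Lib.SQ.EAbv
import Pool.Agent.Lib.SFA.Uniq

/-!
# SQ.ERepA: pieces and the segments which contain them

* `Sys.inc`: `s.1`, `s.2` are vertices of `S`, so critical for `T` (`h.crit`), and `h.lex` translates `lexlt s.1 s.2`.
* `piece_line`: `s' ∈ T`, `carrier s' ⊆ carrier s`, `s ∈ S`: both endpoints of `s'` are on `s`, so `ori s s'.1 = ori s s'.2 = 0` and `X s.1 ≤ X s'.1 < X s'.2 ≤ X s.2` (`mem_carrier_iff`).  An affine function of the abscissa is determined by two values: `ht s = ht s'`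
  (`ht_affine`, at the two different abscissas `X s'.1`, `X s'.2`; `mem_carrier_iff'`).  The signs of `ori`: `ori_pos_iff`, `ori_neg_iff`, `ori_zero_iff`.
* `piece_unique`: `s, t ∈ T` with equal height functions, both active at `a`: the two points with abscissas `a` and `min (X s.2) (X t.2)` (`pt_mem_carrier`) are on both carriers, so `s = t` by `h.gen.one`.
* `act_iff`: `act v s = true ↔ X s.1 ≤ X v ∧ X v < X s.2` (`lexB_iff`, `h.lex` for `v` critical or `x` and the vertices `s.1`, `s.2`).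
* `abv_S`, `blw_S`: `abv_iff` with all hypotheses from `Sys`; `hu`: `u` on both and `cross ≠ 0`, so `u ∈ Vert S` is critical for `T` (use the same order of the two segments as in `Vert`; `cross a b = - cross b a`).
* `same_iff`: `c, c'` represent the valid cells `d, d'`.  `sameC c c' = true` iff `c.p = c'.p`, `c.q = c'.q`, bottoms on one line, tops on one line (`colB`: `ori e s.1 = 0 = ori e s.2` iff equal height functions).  (←) is clear (`d = d'`).  (→) `d.p = d'.p`, `d.q = d'.q`.  If `d.b = some b`, `d'.b = some b'` then the height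
  functions are equal and both span `[X p, X q]` (`shape.bs`: then `d.p`, `d.q` are `some`), `piece_unique` at `a = X p`: `b = b'`.  Same for the tops.  `colO` excludes `none`/`some`.  So `d = d'` (`Cell.ext` by cases, or rcases).
-/

namespace SQ

open SFA Classical

namespace ERepAAux

theorem ht_eq_of_two {eps : ℝ} {s t : Seg} {a c : ℝ} (hac : a < c)
    (h1 : ht eps s a = ht eps t a) (h2 : ht eps s c = ht eps t c) :
    ∀ x, ht eps s x = ht eps t x := by
  have e1 := ht_affine eps s a c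
  have e2 := ht_affine eps t a c
  have hsl : sl eps s = sl eps t := by
    have h3 : sl eps s * (c - a) = sl eps t * (c - a) := by linarith
    exact mul_right_cancel₀ (sub_pos.2 hac).ne' h3
  intro x
  rw [ht_affine eps s a x, ht_affine eps t a x, h1, hsl]

theorem im_left {eps : ℝ} {s : Seg} (h : X eps s.1 < X eps s.2) :
    s.1.im = ht eps s (X eps s.1) := (ori_zero_iff h _).1 (ori_left s)

theorem im_right {eps : ℝ} {s : Seg} (h : X eps s.1 < X eps s.2) :
    s.2.im = ht eps s (X eps s.2) := (ori_zero_iff h _).1 (ori_right s)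

end ERepAAux

theorem Sys.inc {eps : ℝ} {S T : Finset Seg} {x : ℂ} (h : Sys eps S T x) {s : Seg}
    (hs : s ∈ S) : X eps s.1 < X eps s.2 := by
  exact (h.lex s.1 s.2 (Or.inl ((h.crit _).2 (Or.inl ⟨s, hs, Or.inl rfl⟩)))
    (Or.inl ((h.crit _).2 (Or.inl ⟨s, hs, Or.inr rfl⟩)))).1 (h.lexS s hs)

theorem piece_line {eps : ℝ} {S T : Finset Seg} {x : ℂ} (h : Sys eps S T x) {s s' : Seg}
    (hs : s ∈ S) (hs' : s' ∈ T) (hsub : carrier s' ⊆ carrier s) :
    (∀ c, ht eps s c = ht eps s' c) ∧ X eps s.1 ≤ X eps s'.1 ∧ X eps s'.2 ≤ X eps s.2 ∧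
      ∀ z, (0 < ori s z ↔ 0 < ori s' z) ∧ (ori s z < 0 ↔ ori s' z < 0) ∧
        (ori s z = 0 ↔ ori s' z = 0) := by
  have hsi := h.inc hs
  have hsi' := h.gen.inc s' hs'
  obtain ⟨a1, a2, a3⟩ := (mem_carrier_iff' hsi s'.1).1 (hsub (left_mem_carrier s'))
  obtain ⟨b1, b2, b3⟩ := (mem_carrier_iff' hsi s'.2).1 (hsub (right_mem_carrier s'))
  have hh : ∀ c, ht eps s c = ht eps s' c := by
    apply ERepAAux.ht_eq_of_two hsi'
    · rw [← a3]
      exact ERepAAux.im_left hsi'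
    · rw [← b3]
      exact ERepAAux.im_right hsi'
  refine ⟨hh, a1, b2, fun z => ⟨?_, ?_, ?_⟩⟩
  · rw [ori_pos_iff hsi, ori_pos_iff hsi', hh]
  · rw [ori_neg_iff hsi, ori_neg_iff hsi', hh]
  · rw [ori_zero_iff hsi, ori_zero_iff hsi', hh]

theorem piece_unique {eps : ℝ} {S T : Finset Seg} {x : ℂ} (h : Sys eps S T x) {s t : Seg}
    (hs : s ∈ T) (ht' : t ∈ T) (he : ∀ c, ht eps s c = ht eps t c) {a : ℝ}
    (s1 : X eps s.1 ≤ a) (s2 : a < X eps s.2) (t1 : X eps t.1 ≤ a) (t2 : a < X eps t.2) :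
    s = t := by
  by_contra hne
  have hss := h.gen.one s hs t ht' hne
  have hsi := h.gen.inc s hs
  have hti := h.gen.inc t ht'
  have hb1 : a < min (X eps s.2) (X eps t.2) := lt_min s2 t2
  have hb2 : min (X eps s.2) (X eps t.2) ≤ X eps s.2 := min_le_left _ _
  have hb3 : min (X eps s.2) (X eps t.2) ≤ X eps t.2 := min_le_right _ _
  generalize min (X eps s.2) (X eps t.2) = b at hb1 hb2 hb3
  have k1 : pt eps a (ht eps s a) ∈ carrier s ∩ carrier t := by
    refine ⟨pt_mem_carrier hsi s1 s2.le, ?_⟩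
    rw [he]
    exact pt_mem_carrier hti t1 t2.le
  have k2 : pt eps b (ht eps s b) ∈ carrier s ∩ carrier t := by
    refine ⟨pt_mem_carrier hsi (s1.trans hb1.le) hb2, ?_⟩
    rw [he]
    exact pt_mem_carrier hti (t1.trans hb1.le) hb3
  have k3 := congrArg (X eps) (hss k1 k2)
  rw [X_pt, X_pt] at k3
  exact hb1.ne k3

theorem act_iff {eps : ℝ} {S T : Finset Seg} {x : ℂ} (h : Sys eps S T x) {s : Seg}
    (hs : s ∈ S) {v : ℂ} (hv : IsCrit T v ∨ v = x) :
    act v s = true ↔ X eps s.1 ≤ X eps v ∧ X eps v < X eps s.2 := by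
  have c1 : IsCrit T s.1 := (h.crit _).2 (Or.inl ⟨s, hs, Or.inl rfl⟩)
  have c2 : IsCrit T s.2 := (h.crit _).2 (Or.inl ⟨s, hs, Or.inr rfl⟩)
  unfold act
  rw [Bool.and_eq_true, lexB_iff, Bool.not_eq_true', Bool.eq_false_iff, ne_eq, lexB_iff,
    h.lex v s.1 hv (Or.inl c1), h.lex v s.2 hv (Or.inl c2), not_lt]

namespace ERepAAux

theorem both {eps : ℝ} {S T : Finset Seg} {x : ℂ} (h : Sys eps S T x) {s r : Seg}
    (hs : s ∈ S) (hr : r ∈ S) {v : ℂ} (hv : IsCrit T v ∨ v = x) (as : act v s = true)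
    (ar : act v r = true) : (abv s r v = true ↔ gtR eps (X eps v) r s) ∧
    (blw s r v = true ↔ gtR eps (X eps v) s r) := by
  have ms := (act_iff h hs hv).1 as
  have mr := (act_iff h hr hv).1 ar
  unfold act at as ar
  rw [Bool.and_eq_true, lexB_iff, Bool.not_eq_true', Bool.eq_false_iff, ne_eq, lexB_iff] at as ar
  refine abv_iff h.pos (h.lexS s hs) (h.lexS r hr) (h.inc hs) (h.inc hr) as.1 as.2 ar.1 ar.2
    ms.1 ms.2 mr.1 mr.2 ?_
  intro u h1 h2 h3
  have hu : IsCrit T u ∨ u = x :=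
    Or.inl ((h.crit _).2 (Or.inr ⟨r, hr, s, hs, h3, h2, h1⟩))
  exact ⟨(h.lex v u hv hu).1, (h.lex u v hu hv).1⟩

end ERepAAux

theorem abv_S {eps : ℝ} {S T : Finset Seg} {x : ℂ} (h : Sys eps S T x) {s r : Seg}
    (hs : s ∈ S) (hr : r ∈ S) {v : ℂ} (hv : IsCrit T v ∨ v = x) (as : act v s = true)
    (ar : act v r = true) : abv s r v = true ↔ gtR eps (X eps v) r s := by
  exact (ERepAAux.both h hs hr hv as ar).1

theorem blw_S {eps : ℝ} {S T : Finset Seg} {x : ℂ} (h : Sys eps S T x) {s r : Seg}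
    (hs : s ∈ S) (hr : r ∈ S) {v : ℂ} (hv : IsCrit T v ∨ v = x) (as : act v s = true)
    (ar : act v r = true) : blw s r v = true ↔ gtR eps (X eps v) s r := by
  exact (ERepAAux.both h hs hr hv as ar).2

namespace ERepAAux

theorem colB_iff {eps : ℝ} {S T : Finset Seg} {x : ℂ} (h : Sys eps S T x) {s e : Seg}
    (hs : s ∈ S) (he : e ∈ S) : colB s e = true ↔ ∀ c, ht eps s c = ht eps e c := by
  have hsi := h.inc hs
  have hei := h.inc he
  unfold colB
  rw [Bool.and_eq_true, decide_eq_true_iff, decide_eq_true_iff, ori_zero_iff hei,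
    ori_zero_iff hei]
  constructor
  · rintro ⟨h1, h2⟩
    apply ht_eq_of_two hsi
    · rw [← h1, ← im_left hsi]
    · rw [← h2, ← im_right hsi]
  · intro hh
    rw [← hh, ← hh]
    exact ⟨im_left hsi, im_right hsi⟩

theorem colO_iff {eps : ℝ} {S T : Finset Seg} {x : ℂ} (h : Sys eps S T x)
    {o o' e e' : Option Seg} (ho : RepO S o e) (ho' : RepO S o' e')
    (he : ∀ b ∈ e, b ∈ T) (he' : ∀ b ∈ e', b ∈ T)
    (hab : ∀ b ∈ e, ∀ b' ∈ e', ∃ a, X eps b.1 ≤ a ∧ a < X eps b.2 ∧ X eps b'.1 ≤ a ∧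
      a < X eps b'.2) :
    colO o o' = true ↔ e = e' := by
  rcases ho with ⟨rfl, rfl⟩ | ⟨s, b, rfl, rfl, hs, hsb⟩ <;>
  rcases ho' with ⟨rfl, rfl⟩ | ⟨s', b', rfl, rfl, hs', hsb'⟩
  · simp [colO]
  · simp [colO]
  · simp [colO]
  · have e1 : colO (some s) (some s') = colB s s' := rfl
    rw [e1, colB_iff h hs hs', Option.some.injEq]
    have l1 := (piece_line h hs (he b rfl) hsb).1
    have l2 := (piece_line h hs' (he' b' rfl) hsb').1
    constructor
    · intro hh
      obtain ⟨a, a1, a2, a3, a4⟩ := hab b rfl b' rfl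
      exact piece_unique h (he b rfl) (he' b' rfl) (fun c => by rw [← l1, hh, l2]) a1 a2 a3 a4
    · rintro rfl c
      rw [l1, l2]

theorem span_common {eps : ℝ} {d d' : Cell} (hp : d.p = d'.p) (hq : d.q = d'.q)
    (hlt : ∀ p ∈ d.p, ∀ q ∈ d.q, X eps p < X eps q) {b b' : Seg} (hb : spans eps d b)
    (hb' : spans eps d' b') :
    ∃ a, X eps b.1 ≤ a ∧ a < X eps b.2 ∧ X eps b'.1 ≤ a ∧ a < X eps b'.2 := by
  obtain ⟨⟨p, hp1, hp2⟩, ⟨q, hq1, hq2⟩⟩ := hb
  obtain ⟨⟨p', hp1', hp2'⟩, ⟨q', hq1', hq2'⟩⟩ := hb'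
  rw [← hp] at hp1'
  rw [← hq] at hq1'
  obtain rfl : p = p' := Option.mem_unique hp1 hp1'
  obtain rfl : q = q' := Option.mem_unique hq1 hq1'
  have := hlt p hp1 q hq1
  exact ⟨X eps p, hp2, this.trans_le hq2, hp2', this.trans_le hq2'⟩

end ERepAAux

theorem same_iff {eps : ℝ} {S T : Finset Seg} {x : ℂ} (h : Sys eps S T x) {c c' d d' : Cell}
    (hd : Valid eps T d) (hd' : Valid eps T d') (hc : Rep S c d) (hc' : Rep S c' d') :
    sameC c c' = true ↔ d = d' := by
  unfold sameC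
  rw [Bool.and_eq_true, Bool.and_eq_true, Bool.and_eq_true, opEq_iff, opEq_iff, hc.p, hc'.p,
    hc.q, hc'.q]
  constructor
  · rintro ⟨hp, hq, hb, ht'⟩
    have hb2 : d.b = d'.b := (ERepAAux.colO_iff h hc.b hc'.b hd.defd.bR hd'.defd.bR
      (fun b h1 b' h2 => ERepAAux.span_common hp hq hd.shape.lt (hd.shape.bs b h1)
        (hd'.shape.bs b' h2))).1 hb
    have ht2 : d.t = d'.t := (ERepAAux.colO_iff h hc.t hc'.t hd.defd.tR hd'.defd.tR
      (fun b h1 b' h2 => ERepAAux.span_common hp hq hd.shape.lt (hd.shape.ts b h1)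
        (hd'.shape.ts b' h2))).1 ht'
    obtain ⟨b1, t1, p1, q1⟩ := d
    obtain ⟨b2, t2, p2, q2⟩ := d'
    simp only at hp hq hb2 ht2
    subst hp hq hb2 ht2
    rfl
  · intro hdd
    subst hdd
    refine ⟨rfl, rfl, ?_, ?_⟩
    · exact (ERepAAux.colO_iff h hc.b hc'.b hd.defd.bR hd.defd.bR
        (fun b h1 b' h2 => ERepAAux.span_common rfl rfl hd.shape.lt (hd.shape.bs b h1)
        (hd.shape.bs b' h2))).2 rfl
    · exact (ERepAAux.colO_iff h hc.t hc'.t hd.defd.tR hd.defd.tR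
        (fun b h1 b' h2 => ERepAAux.span_common rfl rfl hd.shape.lt (hd.shape.ts b h1)
        (hd.shape.ts b' h2))).2 rfl

end SQ
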