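import Pool.Agent.Lib.SQ.EG
import Pool.Agent.Lib.SFA.Eps
import Pool.Agent.Lib.SFA.OPGeo
import Pool.Agent.Lib.SFA.MeetS

/-!
# SQ.ESys: a good shear for `S` and its pieces

`T = (pre S).toFinset`.  `pre_scan` : `(p, q) ∈ pre S ↔ ∃ k, IsPiece S.toFinset k p q`; `pre_spec`: directed, `LP`, same union, same vertices.  `exists_eps` for `T` gives `eps` with `pos`, `gen`, `lex`.
* `crit`: `IsCrit T v ↔ v ∈ Vert T = Vert S`.  (←) two non-parallel segments are different.  (→) `s ≠ t` in `T`, `v` on both; if `cross (s.2 - s.1) (t.2 - t.1) ≠ 0` fine; otherwise `MeetSAux.par` (MeetS.lean; hypotheses from `hG.inc`, `hG.one`) gives `s.2 = t.1 ∨ t.2 = s.1`;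
  then this point is on both, so it is `v` (`Subsingleton`), an endpoint.
* `pieceR`: `s ∈ S`, `X s.1 ≤ a < X s.2`; `dirS s = s` (`lexlt s.1 s.2`, unfold `dirS`, `lexB_iff`).  Let `z = pt eps a (ht eps s a)`, a point of `carrier s` (`X s.1 < X s.2`: `LexOK` for the vertices `s.1`, `s.2`; `pt_mem_carrier`).  `lex_of_mem_seg`:
  `¬ lexlt z s.1`; `z ≠ s.2` since `X z = a < X s.2`, so `lexlt z s.2` (`lex_total`).  `piece_left` gives a piece `(p, q)` on the line of `s` with `¬ lexlt z p`, `lexlt z q`, and (last clause, for the vertices `e` on this line) `p` is the last endpoint `≤ z`, in particular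
  `¬ lexlt p s.1`.  Also `¬ lexlt s.2 q`: by `IsPiece.free` `s.2 ∈ EP` is not strictly between `p` and `q`, and `lexlt p s.2` (`p ≤ z < s.2`).  So `p, q ∈ carrier s` (`mem_seg_of_lex` with `onL_EP`), `segment p q ⊆ carrier s` (convexity).  `z ∈ segment p q` (`mem_seg_of_lex`), `X p < X q` (`hG.inc`), so
  `X p ≤ X z ≤ X q`, and `X z = X q` would give `z = q` (both on the piece, `mem_carrier_iff'`), against `lexlt z q`.
* `pieceL`: the same with `piece_right`.
* `rep`: `piece_sub`.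
-/

namespace SQ

open SFA Classical

namespace ESysAux

theorem dirS_self {s : Seg} (h : lexlt s.1 s.2) : dirS s = s := by
  unfold dirS
  rw [if_pos ((lexB_iff _ _).2 h)]

theorem cross_self (a : ℂ) : cross a a = 0 := by
  unfold cross
  ring

theorem crit_iff {eps : ℝ} {T : Finset Seg} {x : ℂ} (hG : Gen eps T x) (v : ℂ) :
    IsCrit T v ↔ v ∈ Vert T := by
  constructor
  · rintro (h | ⟨s, hs, t, ht', hst, h1, h2⟩)
    · exact Or.inl h
    · by_cases hc : cross (s.2 - s.1) (t.2 - t.1) = 0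
      · left
        rcases MeetSAux.par (hG.inc s hs) (hG.inc t ht') (hG.one s hs t ht' hst) hc h1 h2 with h | h
        · refine ⟨s, hs, Or.inr ?_⟩
          exact hG.one s hs t ht' hst ⟨h1, h2⟩ ⟨right_mem_carrier s, h ▸ left_mem_carrier t⟩
        · refine ⟨s, hs, Or.inl ?_⟩
          exact hG.one s hs t ht' hst ⟨h1, h2⟩ ⟨left_mem_carrier s, h ▸ right_mem_carrier t⟩
      · exact Or.inr ⟨s, hs, t, ht', hc, h1, h2⟩
  · rintro (h | ⟨s, hs, t, ht', hc, h1, h2⟩)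
    · exact Or.inl h
    · refine Or.inr ⟨s, hs, t, ht', ?_, h1, h2⟩
      rintro rfl
      exact hc (cross_self _)

theorem pieceR {S T : Finset Seg} {eps : ℝ} {x : ℂ} (hS : ∀ s ∈ S, lexlt s.1 s.2)
    (hT : ∀ p q, (p, q) ∈ T ↔ ∃ k, IsPiece S k p q) (hG : Gen eps T x)
    {s : Seg} (hs : s ∈ S) {a : ℝ} (h1 : X eps s.1 ≤ a) (h2 : a < X eps s.2) :
    ∃ s' ∈ T, carrier s' ⊆ carrier s ∧ X eps s'.1 ≤ a ∧ a < X eps s'.2 := by
  have hne : ∀ s ∈ S, s.1 ≠ s.2 := fun s hs => OPGeoAux.lex_ne (hS s hs)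
  have hX : X eps s.1 < X eps s.2 := h1.trans_lt h2
  have hd := dirS_self (hS s hs)
  set z : ℂ := pt eps a (ht eps s a) with hz
  have hXz : X eps z = a := X_pt _ _ _
  have hzs : z ∈ carrier s := pt_mem_carrier hX h1 h2.le
  obtain ⟨h3, h4⟩ := lex_of_mem_seg (hS s hs) (show z ∈ segment ℝ s.1 s.2 from hzs)
  have h5 : lexlt z s.2 := by
    rcases lex_total z s.2 with h | h | h
    · exact h
    · rw [← h, hXz] at h2
      exact absurd h2 (lt_irrefl _)
    · exact absurd h h4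
  have m1 : s.1 ∈ EP S (keyS (dirS s)) := by
    have := OPGeoAux.mem1 hs
    rwa [hd] at this ⊢
  have m2 : s.2 ∈ EP S (keyS (dirS s)) := by
    have := OPGeoAux.mem2 hs
    rwa [hd] at this ⊢
  obtain ⟨p, q, hpq, h6, h7, h8⟩ := piece_left hne hs (z := z) (by rw [hd]; exact h3)
    (by rw [hd]; exact h5)
  have hzL : onL (keyS (dirS s)) z := onL_seg (onL_EP hne m1) (onL_EP hne m2) hzs
  have hp : p ∈ carrier s := by
    refine mem_seg_of_lex (onL_EP hne m1) (onL_EP hne m2) (onL_EP hne hpq.hp) (h8 _ m1 h3) ?_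
    intro h
    exact h4 (lex_of_of_not h h6)
  have hq : q ∈ carrier s := by
    refine mem_seg_of_lex (onL_EP hne m1) (onL_EP hne m2) (onL_EP hne hpq.hq) ?_ ?_
    · intro h
      exact h3 (lex_trans h7 h)
    · intro h
      exact hpq.free _ m2 ⟨lex_of_not_of h6 h5, h⟩
  have hmT : (p, q) ∈ T := (hT p q).2 ⟨_, hpq⟩
  have hinc : X eps (p, q).1 < X eps (p, q).2 := hG.inc _ hmT
  have hzpq : z ∈ carrier (p, q) :=
    mem_seg_of_lex (onL_EP hne hpq.hp) (onL_EP hne hpq.hq) hzL h6 (OPGeoAux.lex_asymm h7)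
  obtain ⟨g1, g2, g3⟩ := (mem_carrier_iff' hinc z).1 hzpq
  obtain ⟨_, _, g4⟩ := (mem_carrier_iff' hinc q).1 (right_mem_carrier (p, q))
  refine ⟨(p, q), hmT, (convex_segment _ _).segment_subset hp hq, ?_, ?_⟩
  · rw [← hXz]
    exact g1
  · rw [← hXz]
    refine lt_of_le_of_ne g2 fun he => ?_
    have he' : X eps z = X eps q := he
    have : z = q := ext_X he' (by rw [g3, g4, he'])
    rw [this] at h7
    exact lex_irrefl _ h7

theorem pieceL {S T : Finset Seg} {eps : ℝ} {x : ℂ} (hS : ∀ s ∈ S, lexlt s.1 s.2)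
    (hT : ∀ p q, (p, q) ∈ T ↔ ∃ k, IsPiece S k p q) (hG : Gen eps T x)
    {s : Seg} (hs : s ∈ S) {a : ℝ} (h1 : X eps s.1 < a) (h2 : a ≤ X eps s.2) :
    ∃ s' ∈ T, carrier s' ⊆ carrier s ∧ X eps s'.1 < a ∧ a ≤ X eps s'.2 := by
  have hne : ∀ s ∈ S, s.1 ≠ s.2 := fun s hs => OPGeoAux.lex_ne (hS s hs)
  have hX : X eps s.1 < X eps s.2 := h1.trans_le h2
  have hd := dirS_self (hS s hs)
  set z : ℂ := pt eps a (ht eps s a) with hz
  have hXz : X eps z = a := X_pt _ _ _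
  have hzs : z ∈ carrier s := pt_mem_carrier hX h1.le h2
  obtain ⟨h3, h4⟩ := lex_of_mem_seg (hS s hs) (show z ∈ segment ℝ s.1 s.2 from hzs)
  have h5 : lexlt s.1 z := by
    rcases lex_total s.1 z with h | h | h
    · exact h
    · rw [h, hXz] at h1
      exact absurd h1 (lt_irrefl _)
    · exact absurd h h3
  have m1 : s.1 ∈ EP S (keyS (dirS s)) := by
    have := OPGeoAux.mem1 hs
    rwa [hd] at this ⊢
  have m2 : s.2 ∈ EP S (keyS (dirS s)) := by
    have := OPGeoAux.mem2 hs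
    rwa [hd] at this ⊢
  obtain ⟨p, q, hpq, h6, h7, h8⟩ := piece_right hne hs (z := z) (by rw [hd]; exact h5)
    (by rw [hd]; exact h4)
  have hzL : onL (keyS (dirS s)) z := onL_seg (onL_EP hne m1) (onL_EP hne m2) hzs
  have hq : q ∈ carrier s := by
    refine mem_seg_of_lex (onL_EP hne m1) (onL_EP hne m2) (onL_EP hne hpq.hq) ?_ (h8 _ m2 h4)
    intro h
    exact h3 (lex_of_not_of h7 h)
  have hp : p ∈ carrier s := by
    refine mem_seg_of_lex (onL_EP hne m1) (onL_EP hne m2) (onL_EP hne hpq.hp) ?_ ?_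
    · intro h
      exact hpq.free _ m1 ⟨h, lex_of_of_not h5 h7⟩
    · intro h
      exact h4 (lex_trans h h6)
  have hmT : (p, q) ∈ T := (hT p q).2 ⟨_, hpq⟩
  have hinc : X eps (p, q).1 < X eps (p, q).2 := hG.inc _ hmT
  have hzpq : z ∈ carrier (p, q) :=
    mem_seg_of_lex (onL_EP hne hpq.hp) (onL_EP hne hpq.hq) hzL (OPGeoAux.lex_asymm h6) h7
  obtain ⟨g1, g2, g3⟩ := (mem_carrier_iff' hinc z).1 hzpq
  obtain ⟨_, _, g4⟩ := (mem_carrier_iff' hinc p).1 (left_mem_carrier (p, q))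
  refine ⟨(p, q), hmT, (convex_segment _ _).segment_subset hp hq, ?_, ?_⟩
  · rw [← hXz]
    refine lt_of_le_of_ne g1 fun he => ?_
    have he' : X eps p = X eps z := he
    have : p = z := ext_X he' (by rw [g3, g4, he'])
    rw [this] at h6
    exact lex_irrefl _ h6
  · rw [← hXz]
    exact g2

end ESysAux

theorem exists_sys (S : List Seg) (hS : ∀ s ∈ S, lexlt s.1 s.2) {x : ℂ}
    (hx : x ∉ U S.toFinset) :
    ∃ eps : ℝ, Sys eps S.toFinset (pre S).toFinset x := by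
  have hne : ∀ s ∈ S, s.1 ≠ s.2 := fun s hs => OPGeoAux.lex_ne (hS s hs)
  have hS' : ∀ s ∈ S.toFinset, lexlt s.1 s.2 := fun s hs => hS s (List.mem_toFinset.1 hs)
  have hne' : ∀ s ∈ S.toFinset, s.1 ≠ s.2 := fun s hs => hne s (List.mem_toFinset.1 hs)
  obtain ⟨hsc, -, -⟩ := pre_scan S hne
  obtain ⟨-, -, hdir, hone, hU, hV⟩ := pre_spec S hne
  have hT : ∀ p q, (p, q) ∈ (pre S).toFinset ↔ ∃ k, IsPiece S.toFinset k p q := fun p q => by
    rw [List.mem_toFinset]
    exact hsc p q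
  have hx' : x ∉ U (pre S).toFinset := by
    rw [hU]
    exact hx
  obtain ⟨eps, hpos, hG, hL⟩ := exists_eps (S := (pre S).toFinset) (x := x)
    (fun s hs => hdir s (List.mem_toFinset.1 hs))
    (fun s hs t ht' hst => hone s (List.mem_toFinset.1 hs) t (List.mem_toFinset.1 ht') hst) hx'
  refine ⟨eps, ⟨hpos, hG, hL, hS', hU, fun v => ?_, fun s hs a h1 h2 =>
    ESysAux.pieceR hS' hT hG hs h1 h2, fun s hs a h1 h2 => ESysAux.pieceL hS' hT hG hs h1 h2, ?_⟩⟩
  · rw [ESysAux.crit_iff hG, hV]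
  · rintro ⟨p, q⟩ hs
    obtain ⟨k, hk⟩ := (hT p q).1 hs
    obtain ⟨s, hs', _, hsub⟩ := piece_sub hne' hk
    exact ⟨s, hs', hsub⟩

end SQ
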