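import Pool.Agent.Lib.SQ.ENoB

/-!
# SQ.EWall: bottom and top of the cell to the right of a wall point

`v ∈ d.p`, so `v` is critical for `T` (`hd.defd.pC`), `X p ≤ X v` trivially and `X v < X q` by `shape.lt`.  `r` represents `d.t`; for `s ∈ S` active at `v`: `candL v r s = true ↔ act v s = true ∧ ∀ t' ∈ d.t, gtR eps (X eps v) s t'`: if `r = none = d.t` trivial; if `r = some r0`, `d.t = some t'`:
`act v r0` (`act_iff`, `piece_line`, `top_active`), `blw_S`, `gtR_congr_right` (`piece_line`).  Then `best_low`.  `up_rep`: the same with `best_up`, `abv_S`.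
-/

namespace SQ

open SFA Classical

theorem low_rep {eps : ℝ} {S : List Seg} {T : Finset Seg} {x : ℂ}
    (h : Sys eps S.toFinset T x) {d : Cell} (hd : Valid eps T d) {v : ℂ} (hv : v ∈ d.p)
    {r : Option Seg} (hr : RepO S.toFinset r d.t) : RepO S.toFinset (lowF S v r) d.b := by
  have hcr : IsCrit T v ∨ v = x := Or.inl (hd.defd.pC v hv)
  have h1 : ∀ p ∈ d.p, X eps p ≤ X eps v := fun p hp => by
    rw [Option.mem_unique hp hv]
  have h2 : ∀ q ∈ d.q, X eps v < X eps q := fun q hq => hd.shape.lt v hv q hq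
  refine best_low h hd hcr h1 h2 (fun s hs => ?_)
  unfold candL
  rw [Bool.and_eq_true]
  refine and_congr_right (fun hact => ?_)
  rcases hr with ⟨e1, e2⟩ | ⟨r0, t', e1, e2, e3, e4⟩
  · rw [e1, e2]
    simp
  · have ht' : t' ∈ d.t := by rw [e2]; rfl
    obtain ⟨hT, k1, k2, -⟩ := top_active h hd h1 h2 ht'
    obtain ⟨l1, l2, l3, -⟩ := piece_line h e3 hT e4
    have hact0 : act v r0 = true :=
      (act_iff h e3 hcr).2 ⟨l2.trans k1, lt_of_lt_of_le k2 l3⟩
    rw [e1, e2]
    simp only [Option.elim_some, Option.mem_def, Option.some.injEq, forall_eq']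
    rw [blw_S h (List.mem_toFinset.2 hs) e3 hcr hact hact0]
    exact gtR_congr_right l1

theorem up_rep {eps : ℝ} {S : List Seg} {T : Finset Seg} {x : ℂ}
    (h : Sys eps S.toFinset T x) {d : Cell} (hd : Valid eps T d) {v : ℂ} (hv : v ∈ d.p)
    {r : Option Seg} (hr : RepO S.toFinset r d.b) : RepO S.toFinset (upF S v r) d.t := by
  have hcr : IsCrit T v ∨ v = x := Or.inl (hd.defd.pC v hv)
  have h1 : ∀ p ∈ d.p, X eps p ≤ X eps v := fun p hp => by
    rw [Option.mem_unique hp hv]
  have h2 : ∀ q ∈ d.q, X eps v < X eps q := fun q hq => hd.shape.lt v hv q hq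
  refine best_up h hd hcr h1 h2 (fun s hs => ?_)
  unfold candU
  rw [Bool.and_eq_true]
  refine and_congr_right (fun hact => ?_)
  rcases hr with ⟨e1, e2⟩ | ⟨r0, b', e1, e2, e3, e4⟩
  · rw [e1, e2]
    simp
  · have hb' : b' ∈ d.b := by rw [e2]; rfl
    obtain ⟨hT, k1, k2, -⟩ := bot_active h hd h1 h2 hb'
    obtain ⟨l1, l2, l3, -⟩ := piece_line h e3 hT e4
    have hact0 : act v r0 = true :=
      (act_iff h e3 hcr).2 ⟨l2.trans k1, lt_of_lt_of_le k2 l3⟩
    rw [e1, e2]
    simp only [Option.elim_some, Option.mem_def, Option.some.injEq, forall_eq']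
    rw [abv_S h (List.mem_toFinset.2 hs) e3 hcr hact hact0]
    exact gtR_congr_left l1

end SQ
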