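import Pool.Agent.Lib.SQ.FinC
import Pool.Agent.Lib.SQ.RPh
import Pool.Agent.Lib.SQ.AvgP

/-!
# SQ.Fin: the single face of `n` segments in expected time `O(n log h)` on a real RAM
-/

namespace SQ

open P7m SFA Classical MeasureTheory ENNReal

theorem single_face_h : ∃ (Q : List Instr) (C : ℝ), ∀ S : List Seg, (∀ s ∈ S, s.1 ≠ s.2) →
    ∀ x : ℂ, x ∉ U S.toFinset →
    (∀ w : ℕ → Bool, ∃ (t : ℕ) (W : List (List ℂ)),
      Halted Q (run Q (tape S x) w t (Cfg.init S.length)) ∧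
      (run Q (tape S x) w t (Cfg.init S.length)).out = encOut W ∧
      IsBoundary S.toFinset x W) ∧
    (S ≠ [] → ∫⁻ w, (haltTime Q (tape S x) w S.length : ℝ≥0∞) ∂coins ≤
      ENNReal.ofReal (C * (S.length * Real.log (hNum S.toFinset x + 1)))) := by
  obtain ⟨C1, hC1⟩ := avg_cP
  refine fin_of (c0 := fun a => a.1) (cI := fun _ => 0) (cb := fun a => 2 ^ a.1 + a.2.2.2.1)
    (c := cP) gIn gIn_spec rc_gIn rc_IrP rc_nbP rc_phP (C1 + 2) ?_ ?_ ?_ ?_
  · intro Γ x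
    show Γ.length ≤ _
    nlinarith
  · intro Γ x
    exact Nat.zero_le _
  · intro Γ x i
    show 2 ^ i + Γ.length ≤ _
    have h1 : 1 ≤ 2 ^ i := Nat.one_le_two_pow
    nlinarith [Nat.zero_le (C1 * ((Γ.length + 1) * 2 ^ i)), Nat.zero_le (Γ.length * 2 ^ i)]
  · intro Γ x i h1 h2 h3 h4
    refine (hC1 Γ x i h1 h2 h3 h4).trans ?_
    gcongr
    push_cast
    linarith

end SQ
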