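import Pool.Agent.Lib.SQ.GOrc
import Pool.Agent.Lib.SQ.EMain
import Pool.Agent.Lib.SQ.FinA
import Pool.Agent.Lib.SQ.Z0

/-!
# SQ.FinB: the results of the phases
-/

namespace SQ

open P7m SFA Classical

/-- phase `i` gives a result -/
def okP (S : List Seg) (x : ℂ) (n i : ℕ) : Prop :=
  lvl n < 20000 * 2 ^ i ∨ (exploreF S x (2 ^ 2 ^ i)).2 = []

theorem okP_lvl (S : List Seg) (x : ℂ) (n : ℕ) : okP S x n (lvl n) := by
  left
  have h := Nat.lt_two_pow_self (n := lvl n)
  omega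

theorem lvl_le (n : ℕ) : lvl n ≤ n :=
  Nat.clog_le_of_le_pow (Nat.lt_two_pow_self (n := n)).le

theorem lvl_two_mul (n : ℕ) : lvl (2 * n) ≤ lvl n + 1 := by
  refine Nat.clog_le_of_le_pow ?_
  have h : n ≤ 2 ^ lvl n := Nat.le_pow_clog (by norm_num) n
  rw [pow_succ]
  omega

theorem pow_lvl_le {n : ℕ} (hn : 1 ≤ n) : 2 ^ lvl (2 * n) ≤ 4 * n := by
  have h := Nat.pow_pred_clog_lt_self (b := 2) (by norm_num) (x := 2 * n) (by omega)
  have h2 : 0 < Nat.clog 2 (2 * n) := Nat.clog_pos (by norm_num) (by omega)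
  have h3 : 2 ^ Nat.clog 2 (2 * n) = 2 * 2 ^ (Nat.clog 2 (2 * n)).pred := by
    obtain ⟨k, hk⟩ := Nat.exists_eq_succ_of_ne_zero h2.ne'
    rw [hk, Nat.pred_succ, pow_succ]; ring
  show 2 ^ Nat.clog 2 (2 * n) ≤ 4 * n
  omega

/-- if `m ≤ ⌈log₂ n⌉`, `m ≥ 1`, then `2 ^ (m - 1) ≤ n` -/
theorem pow_le_of_le_lvl {n m : ℕ} (h : m ≤ lvl n) (hm : 1 ≤ m) : 2 ^ (m - 1) ≤ n := by
  by_contra h2
  push Not at h2
  have h3 : lvl n ≤ m - 1 := Nat.clog_le_of_le_pow h2.le
  omega

theorem nbP_le (Γ : List Seg) (x : ℂ) (i : ℕ) :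
    nbP (i, inpOf Γ x) ≤ 50000 * ((Γ.length + 1) * 2 ^ i) := by
  have h1 := lvl_le Γ.length
  have h2 := lvl_two_mul Γ.length
  have hp : 1 ≤ 2 ^ i := Nat.one_le_two_pow
  unfold nbP inpOf nBits
  simp only
  generalize 2 ^ i = g at *
  generalize lvl (2 * Γ.length) = L2 at *
  generalize lvl Γ.length = L at *
  generalize Γ.length = n at *
  split_ifs with h
  · nlinarith [Nat.mul_le_mul_left g h1]
  · push Not at h
    have h3 : L2 ≤ 20000 * g := by omega
    nlinarith [Nat.mul_le_mul_left n h3]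

/-- the phase fails -/
theorem phP_none {Γ : List Seg} (hΓ : ∀ s ∈ Γ, s.1 ≠ s.2) {x : ℂ} (hx : x ∉ U Γ.toFinset)
    {i : ℕ} (h : ¬ okP (Γ.map dirS) x Γ.length i) (w : List Bool) :
    phP ((i, inpOf Γ x), w) = none := by
  unfold okP at h
  push Not at h
  have hx' : x ∉ U (Γ.map dirS).toFinset := by rw [U_dir]; exact hx
  unfold phP inpOf
  simp only
  rw [if_pos h.1, expl_eq (dir_lex hΓ) hx']
  unfold finish
  rw [if_neg]
  rw [List.isEmpty_iff]
  exact h.2

theorem finalRecs0_le {S : List Seg} (hS : ∀ s ∈ S, s.1 ≠ s.2) {x : ℂ}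
    (hx : x ∉ U S.toFinset) : algCost 0 (pre S) x [] + (finalRecs 0 (pre S) x []).length ≤
      600000 * (2 * S.length + 1) ^ 13 := by
  obtain ⟨hpl, hnd, hlex, hone, hU, -⟩ := pre_spec S hS
  obtain ⟨eps, -, hG, hL⟩ := exists_eps (S := (pre S).toFinset) (x := x)
    (fun s hs => hlex s (List.mem_toFinset.1 hs))
    (fun s hs t ht => hone s (List.mem_toFinset.1 hs) t (List.mem_toFinset.1 ht))
    (by rw [hU]; exact hx)
  refine (algCost0_le hnd hG hL).trans (Nat.mul_le_mul_left _ (Nat.pow_le_pow_left ?_ 13))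
  omega

theorem finalRecs_le {S : List Seg} (hS : ∀ s ∈ S, s.1 ≠ s.2) {x : ℂ}
    (hx : x ∉ U S.toFinset) (hn : 1 ≤ S.length) (w : List Bool) :
    (finalRecs (lvl (2 * S.length)) (pre S) x w).length ≤
      52000 * (S.length * (lvl S.length + 2)) := by
  obtain ⟨hpl, hnd, hlex, hone, hU, -⟩ := pre_spec S hS
  obtain ⟨eps, -, hG, hL⟩ := exists_eps (S := (pre S).toFinset) (x := x)
    (fun s hs => hlex s (List.mem_toFinset.1 hs))
    (fun s hs t ht => hone s (List.mem_toFinset.1 hs) t (List.mem_toFinset.1 ht))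
    (by rw [hU]; exact hx)
  rw [finalRecs_length hnd hG hL]
  have h1 : (pre S).toFinset.card ≤ 2 ^ lvl (2 * S.length) :=
    (List.toFinset_card_le _).trans (hpl.trans (Nat.le_pow_clog (by norm_num) _))
  have h2 := card_TF_le hG _ h1
  have h3 : (2 : ℝ) ^ lvl (2 * S.length) ≤ 4 * S.length := by
    exact_mod_cast pow_lvl_le hn
  have h4 : (lvl (2 * S.length) : ℝ) ≤ lvl S.length + 1 := by
    exact_mod_cast lvl_two_mul S.length
  have h5 : ((TF eps (pre S).toFinset x).ncard : ℝ) ≤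
      52000 * (S.length * (lvl S.length + 2)) := by
    refine h2.trans ?_
    have h6 : (0 : ℝ) ≤ lvl (2 * S.length) := Nat.cast_nonneg _
    have h7 := mul_le_mul h3 (by linarith : (lvl (2 * S.length) : ℝ) + 1 ≤ lvl S.length + 2)
      (by positivity) (by positivity)
    nlinarith
  exact_mod_cast h5

/-- the number of witnesses is small -/
theorem small_pow {g : ℕ} (hg : 1 ≤ g) :
    1 + 24 * (600000 * (2 * (10 * 2 ^ g) + 1) ^ 13) ≤ 2 ^ (20000 * g - 1) := by
  have h1 : 2 * (10 * 2 ^ g) + 1 ≤ 2 ^ (g + 5) := by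
    have : 1 ≤ 2 ^ g := Nat.one_le_two_pow
    rw [pow_add]; omega
  have h2 : (2 * (10 * 2 ^ g) + 1) ^ 13 ≤ 2 ^ ((g + 5) * 13) := by
    rw [pow_mul]; exact Nat.pow_le_pow_left h1 13
  have h3 : 1 + 24 * (600000 * (2 * (10 * 2 ^ g) + 1) ^ 13) ≤ 2 ^ 24 * 2 ^ ((g + 5) * 13) := by
    have h4 : 1 ≤ 2 ^ ((g + 5) * 13) := Nat.one_le_two_pow
    generalize 2 ^ ((g + 5) * 13) = B at *
    generalize (2 * (10 * 2 ^ g) + 1) ^ 13 = A at *
    norm_num
    omega
  refine h3.trans ?_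
  rw [← pow_add]
  exact Nat.pow_le_pow_right (by norm_num) (by omega)

/-- the phase succeeds -/
theorem phP_some {Γ : List Seg} (hΓ : ∀ s ∈ Γ, s.1 ≠ s.2) {x : ℂ} (hx : x ∉ U Γ.toFinset)
    {i : ℕ} (h : okP (Γ.map dirS) x Γ.length i) (w : List Bool) :
    ∃ W : List (List ℂ), phP ((i, inpOf Γ x), w) = some (encOut W) ∧
      IsBoundary Γ.toFinset x W ∧
      (1 ≤ Γ.length → (encOut W).length ≤ 10 ^ 11 * ((Γ.length + 1) * 2 ^ i)) := by
  have hx' : x ∉ U (Γ.map dirS).toFinset := by rw [U_dir]; exact hx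
  have hl : (Γ.map dirS).length = Γ.length := List.length_map _
  have hne' : ∀ s ∈ Γ.map dirS, s.1 ≠ s.2 := by
    intro s hs h
    have h2 := dir_lex hΓ s hs
    rw [h] at h2
    rcases h2 with h3 | ⟨-, h3⟩ <;> exact lt_irrefl _ h3
  have hp : 1 ≤ 2 ^ i := Nat.one_le_two_pow
  by_cases h1 : 20000 * 2 ^ i ≤ lvl Γ.length
  · have h2 : (exploreF (Γ.map dirS) x (2 ^ 2 ^ i)).2 = [] := by
      rcases h with h | h
      · omega
      · exact h
    set F := (exploreF (Γ.map dirS) x (2 ^ 2 ^ i)).1 with hF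
    have hF' : exploreF (Γ.map dirS) x (2 ^ 2 ^ i) = (F, []) := Prod.ext hF.symm h2
    obtain ⟨a1, a2⟩ := explore_main (Γ.map dirS) (dir_lex hΓ) hx' _ hF'
    refine ⟨algL 0 (pre (wit F)) x [], ?_, ?_, ?_⟩
    · unfold phP inpOf
      simp only
      rw [if_pos h1, expl_eq (dir_lex hΓ) hx', hF']
      rfl
    · exact isBoundary_congr (U_dir Γ).symm (Vert_dir Γ).symm
        (out_ok (Γ.map dirS) (dir_lex hΓ) hx' _ hF' 0 [])
    · intro _
      have b1 := out_length_le 0 (pre (wit F)) x []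
      have b2 := finalRecs0_le (S := wit F) (fun s hs => a1.ne s (List.mem_toFinset.2 hs))
        (x := x) (fun hh => hx' (a1.sub hh))
      have b3 : (2 * (wit F).length + 1) ^ 13 ≤ (2 * (10 * 2 ^ 2 ^ i) + 1) ^ 13 :=
        Nat.pow_le_pow_left (by omega) 13
      have b4 := small_pow (g := 2 ^ i) hp
      have b5 := pow_le_of_le_lvl h1 (by omega)
      have b6 : (encOut (algL 0 (pre (wit F)) x [])).length ≤ Γ.length := by
        refine le_trans ?_ (b4.trans b5)
        generalize (2 * (10 * 2 ^ 2 ^ i) + 1) ^ 13 = A at *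
        generalize (2 * (wit F).length + 1) ^ 13 = B at *
        omega
      refine b6.trans ?_
      nlinarith
  · refine ⟨algL (lvl (2 * Γ.length)) (pre (Γ.map dirS)) x w, ?_, ?_, ?_⟩
    · unfold phP inpOf
      simp only
      rw [if_neg h1]
    · exact isBoundary_congr (U_dir Γ).symm (Vert_dir Γ).symm
        (alg_correct (Γ.map dirS) hne' x hx' _ _)
    · intro hne
      have b1 := out_length_le (lvl (2 * Γ.length)) (pre (Γ.map dirS)) x w
      have b2 := finalRecs_le hne' hx' (by rw [hl]; exact hne) w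
      rw [hl] at b2
      push Not at h1
      have b3 : lvl Γ.length + 2 ≤ 20001 * 2 ^ i := by omega
      have b4 : Γ.length * (lvl Γ.length + 2) ≤ 20001 * (Γ.length * 2 ^ i) := by
        calc Γ.length * (lvl Γ.length + 2) ≤ Γ.length * (20001 * 2 ^ i) :=
              Nat.mul_le_mul_left _ b3
          _ = 20001 * (Γ.length * 2 ^ i) := by ring
      refine b1.trans ?_
      have b5 : (Γ.length + 1) * 2 ^ i = Γ.length * 2 ^ i + 2 ^ i := by ring
      rw [b5]
      generalize Γ.length * (lvl Γ.length + 2) = A at *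
      generalize Γ.length * 2 ^ i = B at *
      norm_num
      omega

end SQ
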