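import Pool.Agent.Lib.SQ.FinB
import Pool.Agent.Lib.P7m.Top3
import Pool.Agent.Lib.P7m.Coin2

/-!
# SQ.FinC: the final assembly, with the costs of the parts as hypotheses
-/

namespace SQ

open P7m SFA Classical MeasureTheory ENNReal

/-- the number of the first successful phase is small -/
theorem phases_small {S : List Seg} (hS : ∀ s ∈ S, lexlt s.1 s.2) {x : ℂ}
    (hx : x ∉ U S.toFinset) {n h i : ℕ} (hh : (sideSet S.toFinset x).ncard ≤ 2 * h)
    (h1 : 1 ≤ h) (hi : ¬ okP S x n i) : (2 : ℝ) ^ (i + 1) ≤ 10 * Real.log (h + 1) := by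
  unfold okP at hi
  push Not at hi
  have h2 : 2 ^ 2 ^ i < 4 * h + 1 := by
    by_contra hc
    push Not at hc
    exact hi.2 (explore_enough S hS hx (by
      have : {e : ℂ × ℂ | IsSide S.toFinset (face S.toFinset x) e.1 e.2} =
        sideSet S.toFinset x := rfl
      rw [this]; omega))
  have h3 : (2 : ℝ) ^ (2 ^ i : ℕ) ≤ (h + 1) ^ 3 := by
    have h4 : 2 ^ 2 ^ i ≤ (h + 1) ^ 3 := by
      have : 4 * h + 1 ≤ (h + 1) ^ 3 := by nlinarith [Nat.mul_le_mul h1 h1]
      omega
    exact_mod_cast h4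
  have h5 := Real.log_le_log (by positivity) h3
  rw [Real.log_pow, Real.log_pow] at h5
  have h6 : (0.69 : ℝ) < Real.log 2 := by linarith [Real.log_two_gt_d9]
  have h7 : (0 : ℝ) < 2 ^ i := by positivity
  push_cast at h5
  rw [pow_succ]
  nlinarith

theorem log_ge {h : ℕ} (h1 : 1 ≤ h) : (1 : ℝ) ≤ 10 * Real.log (h + 1) := by
  have h6 : (0.69 : ℝ) < Real.log 2 := by linarith [Real.log_two_gt_d9]
  have h2 : (2 : ℝ) ≤ h + 1 := by
    have : (1 : ℝ) ≤ h := by exact_mod_cast h1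
    linarith
  have h3 := Real.log_le_log (by norm_num) h2
  linarith

theorem rc_len : RC (fun n : ℕ => 4 * n + 2) (fun _ => 0) :=
  RC.nadd (RC.nmulConst 4 RC.id) (RC.const_nat 2)

theorem tape_range' (S : List Seg) (x : ℂ) :
    realsOf S x = (List.range (4 * S.length + 2)).map (tape S x) := (tape_range S x).symm

/-- The final assembly. -/
theorem fin_of {c0 : ℕ × List ℝ → ℕ} {cI : Inp → ℕ} {cb : ℕ × Inp → ℕ}
    {c : (ℕ × Inp) × List Bool → ℕ} (g0 : ℕ × List ℝ → Inp)
    (hg0 : ∀ (Γ : List Seg) (x : ℂ), g0 (Γ.length, realsOf Γ x) = inpOf Γ x)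
    (r0 : RC g0 c0) (rI : RC IrP cI) (rb : RC nbP cb) (rc : RC phP c) (C1 : ℕ)
    (b0 : ∀ (Γ : List Seg) (x : ℂ), c0 (Γ.length, realsOf Γ x) ≤ C1 * (Γ.length + 1))
    (bI : ∀ (Γ : List Seg) (x : ℂ), cI (inpOf Γ x) ≤ C1 * (Γ.length + 1))
    (bb : ∀ (Γ : List Seg) (x : ℂ) (i : ℕ),
      cb (i, inpOf Γ x) ≤ C1 * ((Γ.length + 1) * 2 ^ i))
    (bc : ∀ (Γ : List Seg) (x : ℂ) (i : ℕ), (∀ s ∈ Γ, s.1 ≠ s.2) → x ∉ U Γ.toFinset →
      1 ≤ Γ.length → (∀ j < i, 20000 * 2 ^ j ≤ lvl Γ.length) →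
      (∑ b : Fin (nbP (i, inpOf Γ x)) → Bool, (c ((i, inpOf Γ x), List.ofFn b) : ℝ)) ≤
        (C1 * ((Γ.length + 1) * 2 ^ i)) * 2 ^ nbP (i, inpOf Γ x)) :
    ∃ (Q : List Instr) (C : ℝ), ∀ S : List Seg, (∀ s ∈ S, s.1 ≠ s.2) →
    ∀ x : ℂ, x ∉ U S.toFinset →
    (∀ w : ℕ → Bool, ∃ (t : ℕ) (W : List (List ℂ)),
      Halted Q (run Q (tape S x) w t (Cfg.init S.length)) ∧
      (run Q (tape S x) w t (Cfg.init S.length)).out = encOut W ∧
      IsBoundary S.toFinset x W) ∧
    (S ≠ [] → ∫⁻ w, (haltTime Q (tape S x) w S.length : ℝ≥0∞) ∂coins ≤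
      ENNReal.ofReal (C * (S.length * Real.log (hNum S.toFinset x + 1)))) := by
  obtain ⟨Q, C, hQ⟩ := ram_phases (X := Inp) (O := List (ℕ ⊕ ℝ)) g0 IrP nbP phP (fun o => o)
    c0 cI cb c (fun _ => 0) r0 rI rb rc RC.id (fun n => 4 * n + 2) (fun _ => 0) rc_len
  refine ⟨Q, C * ((4 * C1 + 10 ^ 11 + 60000) * 40), fun S hS x hx => ?_⟩
  set n := S.length with hn
  set X := inpOf S x with hX
  have hS' := dir_lex hS
  have hx' : x ∉ U (S.map dirS).toFinset := by rw [U_dir]; exact hx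
  have hex : ∃ i, okP (S.map dirS) x n i := ⟨_, okP_lvl (S.map dirS) x n⟩
  set s := Nat.find hex with hs
  have hok : okP (S.map dirS) x n s := Nat.find_spec hex
  have hlt : ∀ i < s, ¬ okP (S.map dirS) x n i := fun i hi => Nat.find_min hex hi
  have hsI : s < IrP X := by
    have h1 : s ≤ lvl n := Nat.find_min' hex (okP_lvl (S.map dirS) x n)
    show s < lvl n + 2
    omega
  have hmain : ∀ w : ℕ → Bool, ∃ (t : ℕ) (W : List (List ℂ)),
      t ≤ C * (c0 (n, realsOf S x) + cI X + IrP X +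
        ∑ i ∈ Finset.range (s + 1), (nbP (i, X) + cb (i, X) + c ((i, X), phBits nbP w X i)) +
        0 + (4 * n + 2) + 0 + (encOut W).length + 1) ∧
      Halted Q (run Q (tape S x) w t (Cfg.init n)) ∧
      (run Q (tape S x) w t (Cfg.init n)).out = encOut W ∧
      IsBoundary S.toFinset x W ∧
      (1 ≤ n → (encOut W).length ≤ 10 ^ 11 * ((n + 1) * 2 ^ s)) := by
    intro w
    obtain ⟨W, h1, h2, h3⟩ := phP_some hS hx hok (phBits nbP w X s)
    obtain ⟨t, h4, h5, h6, -⟩ := hQ (tape S x) w n (realsOf S x) X (tape_range' S x)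
      (hg0 S x) s (encOut W) hsI (fun i hi => phP_none hS hx (hlt i hi) _) h1
    exact ⟨t, W, h4, h5, h6, h2, h3⟩
  refine ⟨fun w => ?_, fun hne => ?_⟩
  · obtain ⟨t, W, -, h2, h3, h4, -⟩ := hmain w
    exact ⟨t, W, h2, h3, h4⟩
  · have hn1 : 1 ≤ n := List.length_pos_iff.2 hne
    set A : ℕ := (n + 1) * 2 ^ (s + 1) with hA
    have hpow : ∀ i, 1 ≤ 2 ^ i := fun i => Nat.one_le_two_pow
    have hsum2 : ∑ i ∈ Finset.range (s + 1), 2 ^ i ≤ 2 ^ (s + 1) := by
      have := Nat.geomSum_lt (m := 2) (n := s + 1) (s := Finset.range (s + 1)) (le_refl 2)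
        (fun k hk => Finset.mem_range.1 hk)
      exact this.le
    have hnA : n + 1 ≤ A := Nat.le_mul_of_pos_right _ (hpow _)
    have hdet : c0 (n, realsOf S x) + cI X + IrP X +
        ∑ i ∈ Finset.range (s + 1), (nbP (i, X) + cb (i, X)) + (4 * n + 2) +
        10 ^ 11 * ((n + 1) * 2 ^ s) + 1 ≤ (3 * C1 + 10 ^ 11 + 60000) * A := by
      have e1 : c0 (n, realsOf S x) ≤ C1 * (n + 1) := b0 S x
      have e2 : cI X ≤ C1 * (n + 1) := bI S x
      have e3 : IrP X ≤ n + 2 := by
        have := lvl_le n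
        show lvl n + 2 ≤ n + 2
        omega
      have e4 : ∑ i ∈ Finset.range (s + 1), (nbP (i, X) + cb (i, X)) ≤ (50000 + C1) * A := by
        calc ∑ i ∈ Finset.range (s + 1), (nbP (i, X) + cb (i, X))
            ≤ ∑ i ∈ Finset.range (s + 1), ((50000 + C1) * (n + 1)) * 2 ^ i := by
              refine Finset.sum_le_sum (fun i _ => ?_)
              have a1 := nbP_le S x i
              have a2 := bb S x i
              have : ((50000 + C1) * (n + 1)) * 2 ^ i =
                50000 * ((n + 1) * 2 ^ i) + C1 * ((n + 1) * 2 ^ i) := by ring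
              rw [this]
              exact Nat.add_le_add a1 a2
          _ = ((50000 + C1) * (n + 1)) * ∑ i ∈ Finset.range (s + 1), 2 ^ i := by
              rw [Finset.mul_sum]
          _ ≤ ((50000 + C1) * (n + 1)) * 2 ^ (s + 1) := Nat.mul_le_mul_left _ hsum2
          _ = (50000 + C1) * A := by rw [hA]; ring
      have e5 : (n + 1) * 2 ^ s ≤ A := by
        rw [hA]
        exact Nat.mul_le_mul_left _ (Nat.pow_le_pow_right (by norm_num) (Nat.le_succ _))
      have e6 : C1 * (n + 1) ≤ C1 * A := Nat.mul_le_mul_left _ hnA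
      have e7 : (3 * C1 + 10 ^ 11 + 60000) * A =
        C1 * A + C1 * A + (50000 + C1) * A + 10 ^ 11 * A + 10000 * A := by ring
      rw [e7]
      have e8 : 10 ^ 11 * ((n + 1) * 2 ^ s) ≤ 10 ^ 11 * A := Nat.mul_le_mul_left _ e5
      have e9 : n + 2 + (4 * n + 2) + 1 ≤ 10000 * A := by omega
      omega
    set h := hNum S.toFinset x with hh
    have hh1 : 1 ≤ h := hNum_pos hS hx hne
    have hside : (sideSet (S.map dirS).toFinset x).ncard ≤ 2 * h := by
      rw [sideSet_dir]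
      exact sides_le hS hx
    have hlog : (2 : ℝ) ^ s ≤ 10 * Real.log (h + 1) := by
      rcases hs0 : s with _ | i
      · simpa using log_ge hh1
      · exact phases_small hS' hx' hside hh1 (hlt i (by omega))
    have hexp := expected_phases Q (tape S x) n (fun i => nbP (i, X))
      (fun i bits => C * c ((i, X), bits)) (s + 1) (C * ((3 * C1 + 10 ^ 11 + 60000) * A))
      (fun w => ?_) (fun i => C * (C1 * ((n + 1) * 2 ^ i))) (fun i => by positivity) ?_
    · refine hexp.trans (ENNReal.ofReal_le_ofReal ?_)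
      have hsumR : ∑ i ∈ Finset.range (s + 1), ((C : ℝ) * (C1 * ((n + 1) * 2 ^ i))) ≤
          C * (C1 * A) := by
        have f1 : ∑ i ∈ Finset.range (s + 1), ((C : ℝ) * (C1 * ((n + 1) * 2 ^ i))) =
            (C : ℝ) * (C1 * ((n + 1) * ∑ i ∈ Finset.range (s + 1), (2 : ℝ) ^ i)) := by
          simp only [Finset.mul_sum]
        rw [f1]
        have f2 : (∑ i ∈ Finset.range (s + 1), (2 : ℝ) ^ i) ≤ 2 ^ (s + 1) := by
          exact_mod_cast hsum2
        have f3 : (A : ℝ) = (n + 1) * 2 ^ (s + 1) := by rw [hA]; push_cast; ring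
        rw [f3]
        gcongr
      have hAr : (A : ℝ) ≤ 4 * n * (10 * Real.log (h + 1)) := by
        have f3 : (A : ℝ) = (n + 1) * 2 ^ (s + 1) := by rw [hA]; push_cast; ring
        have f4 : ((n : ℝ) + 1) ≤ 2 * n := by
          have : (1 : ℝ) ≤ n := by exact_mod_cast hn1
          linarith
        rw [f3, pow_succ]
        calc ((n : ℝ) + 1) * (2 ^ s * 2) ≤ (2 * n) * ((10 * Real.log (h + 1)) * 2) := by
              gcongr
          _ = 4 * n * (10 * Real.log (h + 1)) := by ring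
      push_cast at hsumR ⊢
      calc (C : ℝ) * ((3 * C1 + 100000000000 + 60000) * A) +
            ∑ i ∈ Finset.range (s + 1), ((C : ℝ) * (C1 * ((n + 1) * 2 ^ i)))
          ≤ (C : ℝ) * ((3 * C1 + 10 ^ 11 + 60000) * A) + (C : ℝ) * (C1 * A) := by
            norm_num at hsumR ⊢
            linarith
        _ = (C : ℝ) * (4 * C1 + 10 ^ 11 + 60000) * A := by ring
        _ ≤ (C : ℝ) * (4 * C1 + 10 ^ 11 + 60000) * (4 * n * (10 * Real.log (h + 1))) := by
            gcongr
        _ = (C : ℝ) * ((4 * C1 + 10 ^ 11 + 60000) * 40) * (n * Real.log (h + 1)) := by ring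
    · obtain ⟨t, W, h1, h2, -, -, h5⟩ := hmain w
      refine (haltTime_le h2).trans (h1.trans ?_)
      have h6 := h5 hn1
      have h7 : ∑ i ∈ Finset.range (s + 1), C * c ((i, X), (List.range (nbP (i, X))).map
          (fun j => w ((∑ i' ∈ Finset.range i, nbP (i', X)) + j))) =
          C * ∑ i ∈ Finset.range (s + 1), c ((i, X), phBits nbP w X i) := by
        rw [Finset.mul_sum]
        rfl
      rw [h7, ← Nat.mul_add]
      refine Nat.mul_le_mul_left _ ?_
      rw [Finset.sum_add_distrib]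
      omega
    · intro i hi
      have h1 := bc S x i hS hx hn1 (fun j hj => by
        have := hlt j (by omega)
        unfold okP at this
        push Not at this
        exact this.1)
      have h2 : (∑ b : Fin (nbP (i, X)) → Bool, ((C * c ((i, X), List.ofFn b) : ℕ) : ℝ)) =
          C * ∑ b : Fin (nbP (i, X)) → Bool, (c ((i, X), List.ofFn b) : ℝ) := by
        rw [Finset.mul_sum]
        push_cast
        rfl
      rw [h2]
      have h3 := mul_le_mul_of_nonneg_left h1 (Nat.cast_nonneg (α := ℝ) C)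
      refine h3.trans (le_of_eq ?_)
      ring

end SQ
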