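import Pool.Agent.Lib.SQ.GExact

/-!
# SQ.GCrs (package G): the crossing formula
-/

namespace SQ

open SFA Classical

theorem lexlt_mv {u : Seg} (hu : lexlt u.1 u.2) (a b : ℝ) :
    lexlt (mv u a) (mv u b) ↔ a < b := by
  unfold lexlt mv at *
  simp only
  rcases hu with h | ⟨h, h'⟩
  · have h0 : 0 < u.2.re - u.1.re := by linarith
    constructor
    · rintro (h1 | ⟨h1, h2⟩)
      · have : a * (u.2.re - u.1.re) < b * (u.2.re - u.1.re) := by linarith
        exact lt_of_mul_lt_mul_right this h0.le
      · exfalso
        have h3 : a * (u.2.re - u.1.re) = b * (u.2.re - u.1.re) := by linarith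
        have h4 := mul_right_cancel₀ h0.ne' h3
        subst h4
        exact lt_irrefl _ h2
    · intro h1
      left
      have := mul_lt_mul_of_pos_right h1 h0
      linarith
  · have h0 : 0 < u.2.im - u.1.im := by linarith
    rw [h, sub_self, mul_zero, mul_zero]
    constructor
    · rintro (h1 | ⟨-, h2⟩)
      · exact absurd h1 (lt_irrefl _)
      · have : a * (u.2.im - u.1.im) < b * (u.2.im - u.1.im) := by linarith
        exact lt_of_mul_lt_mul_right this h0.le
    · intro h1
      right
      have := mul_lt_mul_of_pos_right h1 h0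
      exact ⟨rfl, by linarith⟩

theorem mv_zero (u : Seg) : mv u 0 = u.1 := by
  apply Complex.ext <;> simp [mv]

theorem mv_one (u : Seg) : mv u 1 = u.2 := by
  apply Complex.ext <;> simp [mv]

theorem mv_inj {u : Seg} (hu : lexlt u.1 u.2) {a b : ℝ} (h : mv u a = mv u b) : a = b := by
  by_contra hne
  rcases lt_or_gt_of_ne hne with h1 | h1
  · have := (lexlt_mv hu a b).2 h1
    rw [h] at this
    rcases this with h2 | ⟨-, h2⟩ <;> exact lt_irrefl _ h2
  · have := (lexlt_mv hu b a).2 h1
    rw [h] at this
    rcases this with h2 | ⟨-, h2⟩ <;> exact lt_irrefl _ h2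

/-- the wall point of `v` on the line of `u` -/
theorem wp_mv {u : Seg} (hu : lexlt u.1 u.2) {v : ℂ} (hv : u.1.re = u.2.re → v.re = u.1.re) :
    ∃ ρ : ℝ, wp u v = mv u ρ ∧ (∀ σ, lexlt v (mv u σ) ↔ ρ < σ ∨ (σ = ρ ∧ lexlt v (wp u v))) ∧
      (∀ σ, lexlt (mv u σ) v ↔ σ < ρ ∨ (σ = ρ ∧ lexlt (wp u v) v)) := by
  by_cases h : u.1.re < u.2.re
  · have h0 : 0 < u.2.re - u.1.re := by linarith
    have hwp : wp u v = mv u ((v.re - u.1.re) / (u.2.re - u.1.re)) := by
      unfold wp mv
      rw [if_pos h]
      apply Complex.ext
      · simp only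
        field_simp
        ring
      · simp only
        ring
    refine ⟨(v.re - u.1.re) / (u.2.re - u.1.re), hwp, fun σ => ?_, fun σ => ?_⟩
    · have hre : v.re < (mv u σ).re ↔ (v.re - u.1.re) / (u.2.re - u.1.re) < σ := by
        unfold mv
        simp only
        rw [div_lt_iff₀ h0]
        constructor <;> intro h <;> linarith
      have hre2 : v.re = (mv u σ).re ↔ σ = (v.re - u.1.re) / (u.2.re - u.1.re) := by
        unfold mv
        simp only
        rw [eq_div_iff h0.ne']
        constructor <;> intro h <;> linarith
      rw [lexlt, hre, hre2, hwp]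
      constructor
      · rintro (h1 | ⟨h1, h2⟩)
        · exact Or.inl h1
        · right
          refine ⟨h1, ?_⟩
          rw [← h1]
          right
          exact ⟨hre2.2 h1, h2⟩
      · rintro (h1 | ⟨h1, h2⟩)
        · exact Or.inl h1
        · right
          rw [← h1] at h2
          refine ⟨h1, ?_⟩
          rcases h2 with h2 | ⟨-, h2⟩
          · rw [hre, h1] at h2; exact absurd h2 (lt_irrefl _)
          · exact h2
    · have hre : (mv u σ).re < v.re ↔ σ < (v.re - u.1.re) / (u.2.re - u.1.re) := by
        unfold mv
        simp only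
        rw [lt_div_iff₀ h0]
        constructor <;> intro h <;> linarith
      have hre2 : (mv u σ).re = v.re ↔ σ = (v.re - u.1.re) / (u.2.re - u.1.re) := by
        unfold mv
        simp only
        rw [eq_div_iff h0.ne']
        constructor <;> intro h <;> linarith
      rw [lexlt, hre, hre2, hwp]
      constructor
      · rintro (h1 | ⟨h1, h2⟩)
        · exact Or.inl h1
        · right
          refine ⟨h1, ?_⟩
          rw [← h1]
          right
          exact ⟨hre2.2 h1, h2⟩
      · rintro (h1 | ⟨h1, h2⟩)
        · exact Or.inl h1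
        · right
          rw [← h1] at h2
          refine ⟨h1, ?_⟩
          rcases h2 with h2 | ⟨-, h2⟩
          · rw [hre, h1] at h2; exact absurd h2 (lt_irrefl _)
          · exact h2
  · have h1 : u.1.re = u.2.re ∧ u.1.im < u.2.im := by
      rcases hu with h2 | h2
      · exact absurd h2 h
      · exact h2
    have h0 : 0 < u.2.im - u.1.im := by linarith [h1.2]
    have hvr := hv h1.1
    have hwp : wp u v = v := by unfold wp; rw [if_neg h]
    have hv2 : v = mv u ((v.im - u.1.im) / (u.2.im - u.1.im)) := by
      unfold mv
      apply Complex.ext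
      · simp only
        rw [← h1.1, sub_self, mul_zero, add_zero, hvr]
      · simp only
        rw [div_mul_cancel₀ _ h0.ne']
        ring
    have hirr : ∀ z : ℂ, ¬ lexlt z z := by
      rintro z (h | ⟨-, h⟩) <;> exact lt_irrefl _ h
    refine ⟨(v.im - u.1.im) / (u.2.im - u.1.im), by rw [hwp]; exact hv2, fun σ => ?_,
      fun σ => ?_⟩
    · rw [hwp]
      simp only [hirr v, and_false, or_false]
      conv_lhs => rw [hv2]
      rw [lexlt_mv hu]
    · rw [hwp]
      simp only [hirr v, and_false, or_false]
      conv_lhs => rw [hv2]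
      rw [lexlt_mv hu]

/-- the value of `ori s` on the line of `u` -/
theorem ori_mv {s u : Seg} (hD : cross (s.2 - s.1) (u.2 - u.1) ≠ 0) (ρ : ℝ) :
    ori s (mv u ρ) = (ρ - cross (u.1 - s.1) (s.2 - s.1) / cross (s.2 - s.1) (u.2 - u.1)) *
      cross (s.2 - s.1) (u.2 - u.1) := by
  rw [sub_mul, div_mul_cancel₀ _ hD]
  simp only [ori, mv, cross, Complex.sub_re, Complex.sub_im]
  ring

theorem mv_meet {s u : Seg} (hD : cross (s.2 - s.1) (u.2 - u.1) ≠ 0) :
    mv s (cross (u.1 - s.1) (u.2 - u.1) / cross (s.2 - s.1) (u.2 - u.1)) =
      mv u (cross (u.1 - s.1) (s.2 - s.1) / cross (s.2 - s.1) (u.2 - u.1)) := by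
  apply Complex.ext
  · simp only [mv]
    rw [div_mul_eq_mul_div, div_mul_eq_mul_div, ← sub_eq_zero]
    have : s.1.re + cross (u.1 - s.1) (u.2 - u.1) * (s.2.re - s.1.re) /
        cross (s.2 - s.1) (u.2 - u.1) - (u.1.re + cross (u.1 - s.1) (s.2 - s.1) *
          (u.2.re - u.1.re) / cross (s.2 - s.1) (u.2 - u.1)) =
        ((s.1.re - u.1.re) * cross (s.2 - s.1) (u.2 - u.1) +
          cross (u.1 - s.1) (u.2 - u.1) * (s.2.re - s.1.re) -
          cross (u.1 - s.1) (s.2 - s.1) * (u.2.re - u.1.re)) /
          cross (s.2 - s.1) (u.2 - u.1) := by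
      field_simp
      ring
    rw [this, div_eq_zero_iff]
    left
    simp only [cross, Complex.sub_re, Complex.sub_im]
    ring
  · simp only [mv]
    rw [div_mul_eq_mul_div, div_mul_eq_mul_div, ← sub_eq_zero]
    have : s.1.im + cross (u.1 - s.1) (u.2 - u.1) * (s.2.im - s.1.im) /
        cross (s.2 - s.1) (u.2 - u.1) - (u.1.im + cross (u.1 - s.1) (s.2 - s.1) *
          (u.2.im - u.1.im) / cross (s.2 - s.1) (u.2 - u.1)) =
        ((s.1.im - u.1.im) * cross (s.2 - s.1) (u.2 - u.1) +
          cross (u.1 - s.1) (u.2 - u.1) * (s.2.im - s.1.im) -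
          cross (u.1 - s.1) (s.2 - s.1) * (u.2.im - u.1.im)) /
          cross (s.2 - s.1) (u.2 - u.1) := by
      field_simp
      ring
    rw [this, div_eq_zero_iff]
    left
    simp only [cross, Complex.sub_re, Complex.sub_im]
    ring

/-- the closed segment `s` meets the line of `u` -/
theorem meets_line {s u : Seg} (hD : cross (s.2 - s.1) (u.2 - u.1) ≠ 0) :
    (0 ≤ cross (u.1 - s.1) (u.2 - u.1) / cross (s.2 - s.1) (u.2 - u.1) ∧
      cross (u.1 - s.1) (u.2 - u.1) / cross (s.2 - s.1) (u.2 - u.1) ≤ 1) ↔
    (¬ (0 < ori u s.1 ∧ 0 < ori u s.2) ∧ ¬ (ori u s.1 < 0 ∧ ori u s.2 < 0)) := by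
  have e1 : cross (u.1 - s.1) (u.2 - u.1) = ori u s.1 := by
    simp only [ori, cross, Complex.sub_re, Complex.sub_im]; ring
  have e2 : ori u s.2 = ori u s.1 - cross (s.2 - s.1) (u.2 - u.1) := by
    simp only [ori, cross, Complex.sub_re, Complex.sub_im]; ring
  rw [e1]
  generalize ori u s.1 = a at *
  generalize ori u s.2 = b at *
  generalize cross (s.2 - s.1) (u.2 - u.1) = D at *
  subst e2
  rcases lt_or_gt_of_ne hD with h | h
  · rw [div_le_iff_of_neg h, one_mul]
    have : 0 ≤ a / D ↔ a ≤ 0 := by
      rw [le_div_iff_of_neg h, zero_mul]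
    rw [this]
    constructor
    · rintro ⟨h1, h2⟩
      exact ⟨fun h3 => by linarith [h3.1], fun h3 => by linarith [h3.2]⟩
    · rintro ⟨h1, h2⟩
      constructor
      · by_contra h3
        push Not at h3
        exact h1 ⟨h3, by linarith⟩
      · by_contra h3
        push Not at h3
        exact h2 ⟨by linarith, by linarith⟩
  · rw [div_le_iff₀ h, one_mul, le_div_iff₀ h, zero_mul]
    constructor
    · rintro ⟨h1, h2⟩
      exact ⟨fun h3 => by linarith [h3.2], fun h3 => by linarith [h3.1]⟩
    · rintro ⟨h1, h2⟩
      constructor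
      · by_contra h3
        push Not at h3
        exact h2 ⟨h3, by linarith⟩
      · by_contra h3
        push Not at h3
        exact h1 ⟨by linarith, by linarith⟩

private theorem lexlt_irrefl (z : ℂ) : ¬ lexlt z z := by
  rintro (h | ⟨-, h⟩) <;> exact lt_irrefl _ h

private theorem lexlt_tr {a b c : ℂ} (h1 : lexlt a b) (h2 : lexlt b c) : lexlt a c := by
  rw [← lexB_iff] at *
  exact lexB_trans h1 h2

private theorem lexlt_tot {a b : ℂ} (h : ¬ lexlt a b) : a = b ∨ lexlt b a := by
  by_cases h2 : lexlt b a
  · exact Or.inr h2
  · rw [← lexB_iff, Bool.not_eq_true] at h h2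
    exact Or.inl (lexB_total h h2)

theorem crsE_iff {l : ℝ} {s u : Seg} (hw : 0 < wt l s) (hu : lexlt u.1 u.2) {v : ℂ}
    (h1 : ¬ lexlt v u.1) (h2 : lexlt v u.2) {y : Option ℂ} (hy : ∀ b ∈ y, lexlt v b) :
    crsE l v (endP y u) (endF y u) u (s, lineP l s) = true ↔
      ∃ z ∈ crs s (some u), lexlt v z ∧ ∀ b ∈ y, lexlt z b := by
  have hcrs : crs s (some u) = if cross (s.2 - s.1) (u.2 - u.1) = 0 then [] else
      (meet s u).toList := rfl
  rw [hcrs]
  by_cases hD : cross (s.2 - s.1) (u.2 - u.1) = 0
  · rw [if_pos hD]
    unfold crsE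
    rw [zr_td hw, hD]
    simp
  rw [if_neg hD]
  set m := endP y u with hm
  set f := endF y u with hf
  -- facts about `m` and `f`
  have hm1 : lexlt v m := by
    rw [hm]
    rcases y with _ | b
    · exact h2
    · simp only [endP, Option.elim_some]
      split_ifs
      · exact h2
      · exact hy b rfl
  have hm2 : ¬ lexlt u.2 m := by
    rw [hm]
    rcases y with _ | b
    · exact lexlt_irrefl _
    · simp only [endP, Option.elim_some]
      split_ifs with h
      · exact lexlt_irrefl _
      · rwa [lexB_iff] at h
  have hend : ∀ z : ℂ, (lexlt z m ∨ (f = true ∧ z = m)) ↔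
      (¬ lexlt u.2 z ∧ ∀ b ∈ y, lexlt z b) := by
    intro z
    rw [hm, hf]
    rcases y with _ | b
    · simp only [endP, endF, Option.elim_none, true_and]
      constructor
      · rintro (h | h)
        · refine ⟨fun h3 => lexlt_irrefl _ (lexlt_tr h h3), fun b hb => by simp at hb⟩
        · rw [h]
          exact ⟨lexlt_irrefl _, fun b hb => by simp at hb⟩
      · rintro ⟨h, -⟩
        rcases lexlt_tot h with h | h
        · exact Or.inr h.symm
        · exact Or.inl h
    · simp only [endP, endF, Option.elim_some]
      by_cases hb : lexB u.2 b = true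
      · rw [if_pos hb]
        have hb' := (lexB_iff _ _).1 hb
        constructor
        · rintro (h | ⟨-, h⟩)
          · refine ⟨fun h3 => lexlt_irrefl _ (lexlt_tr h h3), fun c hc => ?_⟩
            rw [Option.mem_def, Option.some.injEq] at hc
            subst hc
            exact lexlt_tr h hb'
          · rw [h]
            refine ⟨lexlt_irrefl _, fun c hc => ?_⟩
            rw [Option.mem_def, Option.some.injEq] at hc
            subst hc
            exact hb'
        · rintro ⟨h, -⟩
          rcases lexlt_tot h with h | h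
          · exact Or.inr ⟨hb, h.symm⟩
          · exact Or.inl h
      · rw [if_neg hb]
        have hb' := hb
        rw [lexB_iff] at hb'
        constructor
        · rintro (h | ⟨h, -⟩)
          · refine ⟨fun h3 => hb' (lexlt_tr h3 h), fun c hc => ?_⟩
            rw [Option.mem_def, Option.some.injEq] at hc
            subst hc
            exact h
          · exact absurd h hb
        · rintro ⟨-, h⟩
          exact Or.inl (h b rfl)
  -- the vertical case
  have hv : u.1.re = u.2.re → v.re = u.1.re := by
    intro h
    have a1 : ¬ v.re < u.1.re := fun h3 => h1 (Or.inl h3)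
    have a2 : v.re ≤ u.2.re := by
      rcases h2 with h3 | ⟨h3, -⟩ <;> linarith
    linarith [not_lt.1 a1]
  have hmv : u.1.re = u.2.re → m.re = u.1.re := by
    intro h
    have a1 := hv h
    have a2 : v.re ≤ m.re := by
      rcases hm1 with h3 | ⟨h3, -⟩ <;> linarith
    have a3 : ¬ u.2.re < m.re := fun h3 => hm2 (Or.inl h3)
    linarith [not_lt.1 a3]
  obtain ⟨ρ, p1, p2, -⟩ := wp_mv hu hv
  obtain ⟨μ, q1, -, q3⟩ := wp_mv hu hmv
  have hρμ : ρ ≤ μ := by
    by_contra h
    push Not at h
    have a1 : lexlt (mv u μ) (mv u ρ) := (lexlt_mv hu μ ρ).2 h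
    by_cases hu' : u.1.re < u.2.re
    · have a2 : (mv u μ).re = m.re := by
        rw [← q1]; unfold wp; rw [if_pos hu']
      have a3 : (mv u ρ).re = v.re := by
        rw [← p1]; unfold wp; rw [if_pos hu']
      have a4 : (mv u μ).re < (mv u ρ).re := by
        simp only [mv]
        have : μ * (u.2.re - u.1.re) < ρ * (u.2.re - u.1.re) :=
          mul_lt_mul_of_pos_right h (by linarith)
        linarith
      have a5 : v.re ≤ m.re := by
        rcases hm1 with h3 | ⟨h3, -⟩ <;> linarith
      linarith
    · have a2 : mv u μ = m := by rw [← q1]; unfold wp; rw [if_neg hu']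
      have a3 : mv u ρ = v := by rw [← p1]; unfold wp; rw [if_neg hu']
      rw [a2, a3] at a1
      exact lexlt_irrefl _ (lexlt_tr a1 hm1)
  set D := cross (s.2 - s.1) (u.2 - u.1) with hDdef
  set σ := cross (u.1 - s.1) (s.2 - s.1) / D with hσ
  have horiv : ori s (wp u v) = (ρ - σ) * D := by rw [p1]; exact ori_mv hD ρ
  have horim : ori s (wp u m) = (μ - σ) * D := by rw [q1]; exact ori_mv hD μ
  have hzero : ∀ a : ℝ, (a - σ) * D = 0 ↔ σ = a := by
    intro a
    rw [mul_eq_zero, or_iff_left hD, sub_eq_zero, eq_comm]
  -- the formula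
  have hform : crsE l v m f u (s, lineP l s) = true ↔
      ((¬ (0 < ori u s.1 ∧ 0 < ori u s.2) ∧ ¬ (ori u s.1 < 0 ∧ ori u s.2 < 0)) ∧
      (lexlt v (mv u σ) ∧ (lexlt (mv u σ) m ∨ (f = true ∧ mv u σ = m)))) := by
    unfold crsE
    simp only [ps_tq, mi_tq, pt_zero, pt_one, ps_tp hw, mi_tp hw, zr_tp hw, zr_td hw, horiv,
      horim, Bool.and_eq_true, Bool.or_eq_true, Bool.not_eq_true', decide_eq_true_eq,
      Bool.and_eq_false_iff, decide_eq_false_iff_not, hzero, lexB_iff, ptEq_iff]
    have hnD : ¬ cross (s.2 - s.1) (u.2 - u.1) = 0 := hD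
    simp only [hnD, not_false_eq_true, true_and]
    refine and_congr ?_ ?_
    · constructor
      · rintro ⟨h3, h4⟩
        refine ⟨fun h5 => ?_, fun h5 => ?_⟩
        · rcases h3 with h6 | h6
          · simp [h5.1] at h6
          · simp [h5.2] at h6
        · rcases h4 with h6 | h6
          · simp [h5.1] at h6
          · simp [h5.2] at h6
      · rintro ⟨h3, h4⟩
        rw [not_and_or] at h3 h4
        refine ⟨?_, ?_⟩
        · rcases h3 with h | h
          · left; simpa using h
          · right; simpa using h
        · rcases h4 with h | h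
          · left; simpa using h
          · right; simpa using h
    · constructor
      · rintro (((⟨h3, h4⟩ | ⟨h3, h4⟩) | ⟨h3, h4, h5⟩) | ⟨h3, h4, h5⟩)
        · have hs : ρ < σ ∧ σ < μ := by
            rcases lt_or_gt_of_ne hD with hD' | hD'
            · constructor
              · by_contra h
                push Not at h
                nlinarith [mul_nonneg (sub_nonneg.2 h) (neg_nonneg.2 hD'.le)]
              · by_contra h
                push Not at h
                nlinarith [mul_nonneg (sub_nonneg.2 h) (neg_nonneg.2 hD'.le)]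
            · exfalso
              have a1 : 0 < ρ - σ := by
                by_contra h
                push Not at h
                exact absurd h3 (not_lt.2 (mul_nonpos_of_nonpos_of_nonneg h hD'.le))
              have a2 : μ - σ < 0 := by
                by_contra h
                push Not at h
                exact absurd h4 (not_lt.2 (mul_nonneg h hD'.le))
              linarith
          exact ⟨(p2 σ).2 (Or.inl hs.1), Or.inl ((q3 σ).2 (Or.inl hs.2))⟩
        · have hs : ρ < σ ∧ σ < μ := by
            rcases lt_or_gt_of_ne hD with hD' | hD'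
            · exfalso
              have a1 : 0 < ρ - σ := by
                by_contra h
                push Not at h
                exact absurd h3 (not_lt.2 (mul_nonneg_of_nonpos_of_nonpos h hD'.le))
              have a2 : μ - σ < 0 := by
                by_contra h
                push Not at h
                exact absurd h4 (not_lt.2 (mul_nonpos_of_nonneg_of_nonpos h hD'.le))
              linarith
            · constructor
              · by_contra h
                push Not at h
                exact absurd h3 (not_lt.2 (mul_nonneg (sub_nonneg.2 h) hD'.le))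
              · by_contra h
                push Not at h
                exact absurd h4 (not_lt.2 (mul_nonpos_of_nonpos_of_nonneg
                  (sub_nonpos.2 h) hD'.le))
          exact ⟨(p2 σ).2 (Or.inl hs.1), Or.inl ((q3 σ).2 (Or.inl hs.2))⟩
        · rw [h3, ← p1]
          exact ⟨h4, h5⟩
        · rw [h3, ← q1]
          exact ⟨h4, h5⟩
      · rintro ⟨h3, h4⟩
        rcases (p2 σ).1 h3 with h5 | ⟨h5, -⟩
        · have h6 : σ < μ ∨ σ = μ := by
            rcases h4 with h4 | ⟨-, h4⟩
            · rcases (q3 σ).1 h4 with h7 | ⟨h7, -⟩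
              · exact Or.inl h7
              · exact Or.inr h7
            · rcases lt_trichotomy σ μ with h7 | h7 | h7
              · exact Or.inl h7
              · exact Or.inr h7
              · exfalso
                have h8 : ¬ lexlt (mv u μ) m → False := by
                  intro h9
                  have h10 : lexlt (mv u μ) m := by
                    rw [← h4]
                    exact (lexlt_mv hu μ σ).2 h7
                  exact h9 h10
                have h9 : lexlt (mv u μ) m := by
                  by_contra h10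
                  exact h8 h10
                rcases (q3 μ).1 h9 with h10 | ⟨-, h10⟩
                · exact lt_irrefl _ h10
                · -- `wp u m <lex m` while `m` is on the line of `u`
                  rw [q1, ← h4] at h10
                  have h11 : lexlt (mv u σ) m ∨ lexlt m (mv u σ) ∨ mv u σ = m :=
                    Or.inr (Or.inr h4)
                  by_cases hu' : u.1.re < u.2.re
                  · have a2 : (mv u μ).re = m.re := by
                      rw [← q1]; unfold wp; rw [if_pos hu']
                    rw [← h4] at a2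
                    simp only [mv] at a2
                    have : μ * (u.2.re - u.1.re) = σ * (u.2.re - u.1.re) := by linarith
                    have := mul_right_cancel₀ (by linarith : u.2.re - u.1.re ≠ 0) this
                    linarith
                  · have a2 : mv u μ = m := by rw [← q1]; unfold wp; rw [if_neg hu']
                    rw [a2, h4] at h10
                    exact lexlt_irrefl _ h10
          rcases h6 with h6 | h6
          · left; left
            rcases lt_or_gt_of_ne hD with hD' | hD'
            · left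
              exact ⟨mul_pos_of_neg_of_neg (by linarith) hD',
                mul_neg_of_pos_of_neg (by linarith) hD'⟩
            · right
              exact ⟨mul_neg_of_neg_of_pos (by linarith) hD',
                mul_pos (by linarith) hD'⟩
          · right
            refine ⟨h6, ?_⟩
            rw [q1, ← h6]
            exact ⟨h3, h4⟩
        · left; right
          refine ⟨h5, ?_⟩
          rw [p1, ← h5]
          exact ⟨h3, h4⟩
  rw [hform, hend]
  have hmeet : meet s u = if 0 ≤ cross (u.1 - s.1) (u.2 - u.1) / D ∧
        cross (u.1 - s.1) (u.2 - u.1) / D ≤ 1 ∧ 0 ≤ σ ∧ σ ≤ 1 then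
      some (mv s (cross (u.1 - s.1) (u.2 - u.1) / D)) else none := by
    unfold meet
    rw [if_neg hD]
  rw [hmeet, mv_meet hD, ← hσ]
  have hml := meets_line hD
  rw [← hDdef] at hml
  constructor
  · rintro ⟨h3, h4, h5, h6⟩
    obtain ⟨h7, h8⟩ := hml.2 h3
    have h9 : 0 ≤ σ := by
      have : lexlt (mv u 0) (mv u σ) := by
        rw [mv_zero]
        rcases lexlt_tot h1 with h | h
        · rw [← h]; exact h4
        · exact lexlt_tr h h4
      exact ((lexlt_mv hu _ _).1 this).le
    have h10 : σ ≤ 1 := by
      by_contra h
      push Not at h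
      apply h5
      rw [← mv_one u, lexlt_mv hu]
      exact h
    rw [if_pos ⟨h7, h8, h9, h10⟩]
    exact ⟨mv u σ, by simp, h4, h6⟩
  · rintro ⟨z, hz, h4, h6⟩
    split_ifs at hz with h
    · obtain ⟨h7, h8, h9, h10⟩ := h
      simp only [Option.toList_some, List.mem_singleton] at hz
      subst hz
      refine ⟨hml.1 ⟨h7, h8⟩, h4, ?_, h6⟩
      rw [← mv_one u, lexlt_mv hu]
      exact not_lt.2 h10
    · simp at hz

end SQ
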