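import Pool.Agent.Lib.SQ.GTest

/-!
# SQ.GExact (package G): the exact answers of the queries
-/

namespace SQ

open SFA Classical

theorem exact_QV (l l' : ℝ) (S : List Seg) (a : PV) :
    exact (QV l a) (S.map (mkEl l')) =
      if a.1 then upF S a.2.1 a.2.2 else lowF S a.2.1 a.2.2 := by
  obtain ⟨b, v, r⟩ := a
  unfold exact bestQ
  rw [List.foldl_map]
  cases b
  · simp only [lowF, bestL, Bool.false_eq_true, if_false]
    congr 1
    funext acc s
    simp only [upd, QV, valV, mkEl, bestStep, ltV, Bool.false_eq_true, if_false]
    by_cases h : candL v r s = true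
    · rw [if_pos h, if_pos h]; rfl
    · rw [if_neg h, if_neg h]; rfl
  · simp only [upF, bestL, if_true]
    congr 1
    funext acc s
    simp only [upd, QV, valV, mkEl, bestStep, ltV, if_true]
    by_cases h : candU v r s = true
    · rw [if_pos h, if_pos h]; rfl
    · rw [if_neg h, if_neg h]; rfl

theorem exact_low (l l' : ℝ) (S : List Seg) (v : ℂ) (r : Option Seg) :
    exact (QV l (false, v, r)) (S.map (mkEl l')) = lowF S v r := by
  rw [exact_QV]; rfl

theorem exact_up (l l' : ℝ) (S : List Seg) (v : ℂ) (r : Option Seg) :
    exact (QV l (true, v, r)) (S.map (mkEl l')) = upF S v r := by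
  rw [exact_QV]; rfl

/-! ### lexicographic minimum -/

theorem lexB_trans {a b c : ℂ} (h1 : lexB a b = true) (h2 : lexB b c = true) :
    lexB a c = true := by
  rw [lexB_iff] at *
  unfold lexlt at *
  rcases h1 with h1 | ⟨h1, h1'⟩ <;> rcases h2 with h2 | ⟨h2, h2'⟩
  · left; linarith
  · left; linarith
  · left; linarith
  · right; exact ⟨by linarith, by linarith⟩

theorem lexB_asymm {a b : ℂ} (h1 : lexB a b = true) : lexB b a = false := by
  rw [Bool.eq_false_iff]
  intro h2
  rw [lexB_iff] at *
  unfold lexlt at *
  rcases h1 with h1 | ⟨h1, h1'⟩ <;> rcases h2 with h2 | ⟨h2, h2'⟩ <;> linarith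

theorem lexB_total {a b : ℂ} (h1 : lexB a b = false) (h2 : lexB b a = false) : a = b := by
  rw [Bool.eq_false_iff, Ne, lexB_iff] at *
  unfold lexlt at *
  push Not at h1 h2
  have hre : a.re = b.re := le_antisymm h2.1 h1.1
  exact Complex.ext hre (le_antisymm (h2.2 hre.symm) (h1.2 hre))

/-- the smaller one of two optional points -/
noncomputable def minO (o o' : Option ℂ) : Option ℂ :=
  o'.elim o (fun a => o.elim (some a) (fun b => if lexB a b then some a else some b))

theorem minStep_eq (o : Option ℂ) (z : ℂ) : minStep o z = minO o (some z) := rfl

theorem minO_assoc (o : Option ℂ) (a : Option ℂ) (z : ℂ) :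
    minO (minO o a) (some z) = minO o (minO a (some z)) := by
  rcases o with _ | b
  · rcases a with _ | a
    · rfl
    · simp only [minO, Option.elim_some, Option.elim_none]
      split_ifs <;> rfl
  · rcases a with _ | a
    · rfl
    · simp only [minO, Option.elim_some]
      by_cases h1 : lexB a b = true <;> by_cases h2 : lexB z a = true
      · have h3 := lexB_trans h2 h1
        simp [h1, h2, h3]
      · simp [h1, h2]
      · simp only [h1, h2, if_true, Option.elim_some, Bool.false_eq_true, if_false]
      · simp only [h1, h2, Option.elim_some, Bool.false_eq_true, if_false]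
        by_cases h3 : lexB z b = true
        · exfalso
          rw [Bool.not_eq_true] at h1 h2
          by_cases h4 : lexB b a = true
          · have := lexB_trans h3 h4
            rw [h2] at this; exact absurd this (by simp)
          · rw [Bool.not_eq_true] at h4
            have := lexB_total h1 h4
            subst this
            rw [h2] at h3; exact absurd h3 (by simp)
        · simp [h3]

theorem minO_none_left (o : Option ℂ) : minO none o = o := by
  rcases o with _ | a <;> rfl

theorem foldl_minStep (o : Option ℂ) (l : List ℂ) :
    l.foldl minStep o = minO o (lexMinL l) := by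
  unfold lexMinL
  induction l using List.reverseRecOn with
  | nil => rfl
  | append_singleton l z ih =>
    rw [List.foldl_append, List.foldl_append, ih]
    simp only [List.foldl_cons, List.foldl_nil]
    rw [minStep_eq, minStep_eq, minO_assoc]

theorem exact_QW (l l' : ℝ) (S : List Seg) (b t : Option Seg) (v : ℂ) :
    exact (QW l (b, t, v)) (S.map (mkEl l')) = bandF S b t v := by
  unfold exact bestQ bandF lexMinL
  rw [List.foldl_map]
  suffices h : ∀ acc : Option ℂ,
      S.foldl (fun acc s => upd (QW l (b, t, v)).val (QW l (b, t, v)).lt acc (mkEl l' s)) acc =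
      (S.flatMap (cnds b t v)).foldl minStep acc from h none
  induction S with
  | nil => intro acc; rfl
  | cons s S ih =>
    intro acc
    rw [List.foldl_cons, ih, List.flatMap_cons, List.foldl_append, foldl_minStep acc]
    rfl

/-- the minimum belongs to the list and is minimal -/
theorem lexMinL_specG (l : List ℂ) :
    (lexMinL l = none ↔ l = []) ∧
      ∀ z, lexMinL l = some z → z ∈ l ∧ ∀ u ∈ l, lexB u z = false := by
  induction l using List.reverseRecOn with
  | nil => exact ⟨⟨fun _ => rfl, fun _ => rfl⟩, fun z h => by simp [lexMinL] at h⟩
  | append_singleton l z ih =>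
    have e : lexMinL (l ++ [z]) = minO (lexMinL l) (some z) := by
      unfold lexMinL
      rw [List.foldl_append]; rfl
    rw [e]
    rcases h : lexMinL l with _ | m
    · have hl : l = [] := ih.1.1 h
      subst hl
      refine ⟨by simp [minO], ?_⟩
      intro u hu
      simp only [minO, Option.elim_some, Option.elim_none, Option.some.injEq] at hu
      subst hu
      simp only [List.nil_append, List.mem_singleton, true_and, forall_eq]
      rw [Bool.eq_false_iff]
      intro hh
      have := lexB_asymm hh
      rw [this] at hh; exact absurd hh (by simp)
    · obtain ⟨h1, h2⟩ := ih.2 m h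
      refine ⟨?_, ?_⟩
      · simp only [minO, Option.elim_some]
        split_ifs <;> simp
      · intro u hu
        simp only [minO, Option.elim_some] at hu
        by_cases hz : lexB z m = true
        · rw [if_pos hz, Option.some.injEq] at hu
          subst hu
          refine ⟨by simp, ?_⟩
          intro a ha
          rcases List.mem_append.1 ha with ha | ha
          · rw [Bool.eq_false_iff]
            intro h3
            have := lexB_trans h3 hz
            rw [h2 a ha] at this; exact absurd this (by simp)
          · rw [List.mem_singleton] at ha
            subst ha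
            rw [Bool.eq_false_iff]
            intro hh
            have := lexB_asymm hh
            rw [this] at hh; exact absurd hh (by simp)
        · rw [if_neg hz, Option.some.injEq] at hu
          subst hu
          refine ⟨by simp [h1], ?_⟩
          intro a ha
          rcases List.mem_append.1 ha with ha | ha
          · exact h2 a ha
          · rw [List.mem_singleton] at ha
            subst ha
            exact Bool.eq_false_iff.2 hz

/-- the minimum is smaller than `y` iff some element is -/
theorem lexMinL_lt (l : List ℂ) (y : Option ℂ) :
    (∃ a, lexMinL l = some a ∧ ∀ b ∈ y, lexB a b = true) ↔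
      ∃ a ∈ l, ∀ b ∈ y, lexB a b = true := by
  constructor
  · rintro ⟨a, h1, h2⟩
    exact ⟨a, ((lexMinL_specG l).2 a h1).1, h2⟩
  · rintro ⟨a, h1, h2⟩
    rcases h : lexMinL l with _ | m
    · rw [(lexMinL_specG l).1.1 h] at h1
      simp at h1
    · obtain ⟨-, h4⟩ := (lexMinL_specG l).2 m h
      refine ⟨m, rfl, fun b hb => ?_⟩
      have h5 := h4 a h1
      have h6 := h2 b hb
      by_cases h7 : lexB m a = true
      · exact lexB_trans h7 h6
      · rw [Bool.not_eq_true] at h7
        rw [lexB_total h7 h5]; exact h6

end SQ
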