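import Pool.Agent.Lib.SQ.GCrs

/-!
# SQ.GW (package G): the query for `bandF` is good
-/

namespace SQ

open SFA Classical

theorem endE_eq (j : ℕ) (a : PW) (y : Option ℂ) (e : El) :
    endE j a y e = (lexB a.2.2 (pt j e) && y.elim true (fun y => lexB (pt j e) y) &&
      bnd a.1 a.2.1 (pt j e)) := by
  obtain ⟨b, t, v⟩ := a
  unfold endE bnd
  rw [lexGt_eq]
  rcases b with _ | b <;> rcases t with _ | t <;> rcases y with _ | y <;>
    simp [lexLt_eq, nn_tq, nn_ng_tq]

theorem crsO_iff {l : ℝ} {s : Seg} (hw : 0 < wt l s) {o : Option Seg} {v : ℂ}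
    (ho : ∀ u ∈ o, lexlt u.1 u.2 ∧ act v u = true) {y : Option ℂ} (hy : ∀ b ∈ y, lexlt v b) :
    crsO l v y o (s, lineP l s) = true ↔
      ∃ z ∈ crs s o, lexlt v z ∧ ∀ b ∈ y, lexlt z b := by
  rcases o with _ | u
  · simp [crsO, crs]
  · obtain ⟨h1, h2⟩ := ho u rfl
    unfold act at h2
    rw [Bool.and_eq_true, Bool.not_eq_true', Bool.eq_false_iff, Ne, lexB_iff, lexB_iff] at h2
    exact crsE_iff hw h1 h2.1 h2.2 hy

theorem mem_cndsG (b t : Option Seg) (v : ℂ) (s : Seg) (z : ℂ) :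
    z ∈ cnds b t v s ↔ (((z = s.1 ∨ z = s.2) ∧ bnd b t z = true) ∨ z ∈ crs s b ∨ z ∈ crs s t) ∧
      lexB v z = true := by
  unfold cnds
  simp only [List.mem_filter, List.mem_append, List.mem_cons, List.not_mem_nil, or_false]

theorem isV_QW {l l' : ℝ} {S : List Seg} {a : PW} {z : ℂ}
    (h : isV (QW l a) (S.map (mkEl l')) z) : lexlt a.2.2 z := by
  obtain ⟨e, -, h⟩ := h
  have h1 : lexMinL (cnds a.1 a.2.1 a.2.2 e.1) = some z := h
  have h2 := ((lexMinL_specG _).2 z h1).1
  rw [mem_cndsG, lexB_iff] at h2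
  exact h2.2

theorem FW_iff {l : ℝ} {s : Seg} (hw : 0 < wt l s) {a : PW}
    (hb : ∀ u ∈ a.1, lexlt u.1 u.2 ∧ act a.2.2 u = true)
    (ht : ∀ u ∈ a.2.1, lexlt u.1 u.2 ∧ act a.2.2 u = true) {y : Option ℂ}
    (hy : ∀ b ∈ y, lexlt a.2.2 b) :
    FW l a y (s, lineP l s) = true ↔ ∃ z, valW a (s, lineP l s) = some z ∧
      ∀ b ∈ y, lexB z b = true := by
  obtain ⟨b, t, v⟩ := a
  unfold valW
  rw [lexMinL_lt]
  simp only at hb ht hy ⊢
  have hel : ∀ z : ℂ, (y.elim true (fun y => lexB z y) = true) ↔ ∀ b ∈ y, lexlt z b := by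
    intro z
    rcases y with _ | y
    · simp
    · simp [lexB_iff]
  have hend : ∀ j, endE j (b, t, v) y (s, lineP l s) = true ↔
      (lexlt v (pt j (s, lineP l s)) ∧ (∀ b ∈ y, lexlt (pt j (s, lineP l s)) b)) ∧
        bnd b t (pt j (s, lineP l s)) = true := by
    intro j
    rw [endE_eq, Bool.and_eq_true, Bool.and_eq_true, hel, lexB_iff]
  unfold FW
  rw [Bool.or_eq_true, Bool.or_eq_true, Bool.or_eq_true, hend, hend, crsO_iff hw hb hy,
    crsO_iff hw ht hy, pt_zero, pt_one]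
  simp only [mem_cndsG, lexB_iff]
  constructor
  · rintro ((h | h) | (⟨z, h1, h2, h3⟩ | ⟨z, h1, h2, h3⟩))
    · exact ⟨s.1, ⟨Or.inl ⟨Or.inl rfl, h.2⟩, h.1.1⟩, h.1.2⟩
    · exact ⟨s.2, ⟨Or.inl ⟨Or.inr rfl, h.2⟩, h.1.1⟩, h.1.2⟩
    · exact ⟨z, ⟨Or.inr (Or.inl h1), h2⟩, h3⟩
    · exact ⟨z, ⟨Or.inr (Or.inr h1), h2⟩, h3⟩
  · rintro ⟨z, ⟨(⟨rfl | rfl, h1⟩ | h1 | h1), h2⟩, h3⟩
    · exact Or.inl (Or.inl ⟨⟨h2, h3⟩, h1⟩)
    · exact Or.inl (Or.inr ⟨⟨h2, h3⟩, h1⟩)
    · exact Or.inr (Or.inl ⟨z, h1, h2, h3⟩)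
    · exact Or.inr (Or.inr ⟨z, h1, h2, h3⟩)

section
variable {T : List Test} {e e' : El}

theorem crsO_congr {l : ℝ} {v : ℂ} {y : Option ℂ} {o : Option Seg}
    (h : ∀ τ ∈ T, nn τ e = nn τ e') (hT : TC l v y o ⊆ T) :
    crsO l v y o e = crsO l v y o e' := by
  rcases o with _ | u
  · rfl
  · have k1 : tq 0 u ∈ T := hT (by simp [TC, sg])
    have k2 : ng (tq 0 u) ∈ T := hT (by simp [TC, sg])
    have k3 : tq 1 u ∈ T := hT (by simp [TC, sg])
    have k4 : ng (tq 1 u) ∈ T := hT (by simp [TC, sg])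
    have k5 : td l (u.2 - u.1) ∈ T := hT (by simp [TC, sg])
    have k6 : ng (td l (u.2 - u.1)) ∈ T := hT (by simp [TC, sg])
    have k7 : tp l (wp u v) ∈ T := hT (by simp [TC, sg])
    have k8 : ng (tp l (wp u v)) ∈ T := hT (by simp [TC, sg])
    have k9 : tp l (wp u (endP y u)) ∈ T := hT (by simp [TC, sg])
    have k10 : ng (tp l (wp u (endP y u))) ∈ T := hT (by simp [TC, sg])
    simp only [crsO, Option.elim_some, crsE]
    rw [ps_congr h k2, ps_congr h k4, mi_congr h k1, mi_congr h k3, zr_congr h k5 k6,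
      ps_congr h k8, mi_congr h k9, mi_congr h k7, ps_congr h k10, zr_congr h k7 k8,
      zr_congr h k9 k10]

theorem nn_congr {τ : Test} (h : ∀ τ ∈ T, nn τ e = nn τ e') (h1 : τ ∈ T) :
    nn τ e = nn τ e' := h _ h1

end

theorem TC_lengthG (l : ℝ) (v : ℂ) (y : Option ℂ) (o : Option Seg) :
    (TC l v y o).length ≤ 10 := by
  rcases o with _ | u <;> simp [TC, sg]

theorem good_QW {S : List Seg} (hS : ∀ s ∈ S, lexlt s.1 s.2) (a : PW)
    (hb : ∀ u ∈ a.1, lexlt u.1 u.2 ∧ act a.2.2 u = true)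
    (ht : ∀ u ∈ a.2.1, lexlt u.1 u.2 ∧ act a.2.2 u = true) :
    Good (QW (lam S) a) (elts S) 36 where
  asymm := fun _ _ _ _ h => lexB_asymm h
  trans := fun _ _ _ _ _ _ h h' => lexB_trans h h'
  total := fun _ _ _ _ h h' => lexB_total h h'
  sel := by
    intro y hy e he
    obtain ⟨s, hs, rfl, hw, -⟩ := mem_elts hS he
    refine FW_iff hw hb ht ?_
    intro c hc
    rw [Option.mem_def] at hc
    rcases hy with h | ⟨c', h1, h2⟩
    · rw [h] at hc; simp at hc
    · rw [h1, Option.some.injEq] at hc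
      subst hc
      exact isV_QW h2
  test := by
    intro y e e' h
    have h' : ∀ τ ∈ TW (lam S) a y, nn τ e = nn τ e' := h
    show FW (lam S) a y e = FW (lam S) a y e'
    have k1 : ∀ j, j = 0 ∨ j = 1 → sgl j a.2.2 ⊆ TW (lam S) a y := by
      rintro j (rfl | rfl) τ hτ <;> unfold TW <;> simp [hτ]
    have k2 : ∀ j, j = 0 ∨ j = 1 → ∀ c, y = some c → sgl j c ⊆ TW (lam S) a y := by
      rintro j (rfl | rfl) c rfl τ hτ <;> unfold TW <;> simp [hτ]
    have k3 : TC (lam S) a.2.2 y a.1 ⊆ TW (lam S) a y := by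
      intro τ hτ; unfold TW; simp [hτ]
    have k4 : TC (lam S) a.2.2 y a.2.1 ⊆ TW (lam S) a y := by
      intro τ hτ; unfold TW; simp [hτ]
    have e1 : ∀ j, j = 0 ∨ j = 1 → endE j a y e = endE j a y e' := by
      intro j hj
      unfold endE
      rw [lexGt_congr h' (k1 j hj)]
      congr 1
      · congr 1
        rcases y with _ | c
        · rfl
        · simp only [Option.elim_some]
          exact lexLt_congr h' (k2 j hj c rfl)
      · have m1 : ∀ u, a.1 = some u → tq j u ∈ TW (lam S) a y := by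
          intro u hu
          apply k3
          rw [hu]
          rcases hj with rfl | rfl <;> simp [TC, sg]
        have m2 : ∀ u, a.2.1 = some u → ng (tq j u) ∈ TW (lam S) a y := by
          intro u hu
          apply k4
          rw [hu]
          rcases hj with rfl | rfl <;> simp [TC, sg]
        congr 1
        · rcases hu : a.1 with _ | u
          · rfl
          · simp only [Option.elim_some]
            exact h' _ (m1 u hu)
        · rcases hu : a.2.1 with _ | u
          · rfl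
          · simp only [Option.elim_some]
            exact h' _ (m2 u hu)
    unfold FW
    rw [e1 0 (Or.inl rfl), e1 1 (Or.inr rfl), crsO_congr h' k3, crsO_congr h' k4]
  pl := by
    intro y τ hτ
    have hτ' : τ ∈ TW (lam S) a y := hτ
    have hsg : ∀ τ0 : Test, τ0.1 ≤ 2 → ∀ τ ∈ sg τ0, τ.1 ≤ 2 := by
      intro τ0 h0 τ hτ
      simp only [sg, List.mem_cons, List.not_mem_nil, or_false] at hτ
      rcases hτ with rfl | rfl
      · exact h0
      · exact h0
    have hsgl : ∀ j : ℕ, j ≤ 2 → ∀ v : ℂ, ∀ τ ∈ sgl j v, τ.1 ≤ 2 := by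
      intro j hj v τ hτ
      rcases List.mem_append.1 hτ with hτ | hτ
      · exact hsg _ hj τ hτ
      · exact hsg _ hj τ hτ
    have hTC : ∀ o : Option Seg, ∀ τ ∈ TC (lam S) a.2.2 y o, τ.1 ≤ 2 := by
      intro o τ hτ
      rcases o with _ | u
      · simp [TC] at hτ
      · simp only [TC, Option.elim_some, List.mem_append] at hτ
        rcases hτ with (((h | h) | h) | h) | h
        · exact hsg _ (by norm_num [tq]) τ h
        · exact hsg _ (by norm_num [tq]) τ h
        · exact hsg _ (le_refl _) τ h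
        · exact hsg _ (le_refl _) τ h
        · exact hsg _ (le_refl _) τ h
    unfold TW at hτ'
    simp only [List.mem_append] at hτ'
    rcases hτ' with (((h | h) | h) | h) | h
    · exact hsgl 0 (by norm_num) _ τ h
    · exact hsgl 1 (by norm_num) _ τ h
    · rcases y with _ | c
      · simp at h
      · rcases List.mem_append.1 h with h | h
        · exact hsgl 0 (by norm_num) _ τ h
        · exact hsgl 1 (by norm_num) _ τ h
    · exact hTC _ τ h
    · exact hTC _ τ h
  len := by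
    intro y
    show (TW (lam S) a y).length ≤ 36
    unfold TW
    have h1 := TC_lengthG (lam S) a.2.2 y a.1
    have h2 := TC_lengthG (lam S) a.2.2 y a.2.1
    rcases y with _ | c
    · simp only [Option.elim_none, List.append_nil, List.length_append, sgl, sg, List.length_cons,
        List.length_nil]
      omega
    · simp only [Option.elim_some, List.length_append, sgl, sg, List.length_cons,
        List.length_nil]
      omega

end SQ
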