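import Pool.Agent.Lib.SQ.GV
import Pool.Agent.Lib.SQ.GW
import Pool.Agent.Lib.SQ.EInv
import Pool.Agent.Lib.SQ.BBest
import Pool.Agent.Lib.SQ.Phase

/-!
# SQ.GOrc (package G): the exploration with the search structures is the exact exploration
-/

namespace SQ

open SFA Classical

/-- the answer of a search on a list is a candidate of the list -/
theorem bestL_mem {cand : Seg → Bool} {bet : Seg → Seg → Bool} {l : List Seg} {s : Seg}
    (h : bestL cand bet l = some s) : s ∈ l ∧ cand s = true := by
  unfold bestL at h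
  induction l using List.reverseRecOn generalizing s with
  | nil => simp at h
  | append_singleton l a ih =>
    rw [List.foldl_append] at h
    simp only [List.foldl_cons, List.foldl_nil, bestStep] at h
    by_cases hc : cand a = true
    · rw [if_pos hc] at h
      rcases ho : l.foldl (bestStep cand bet) none with _ | e
      · rw [ho, Option.elim_none, Option.some.injEq] at h
        subst h
        exact ⟨by simp, hc⟩
      · rw [ho, Option.elim_some] at h
        split_ifs at h
        · rw [Option.some.injEq] at h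
          subst h
          exact ⟨by simp, hc⟩
        · rw [Option.some.injEq] at h
          subst h
          obtain ⟨h1, h2⟩ := ih ho
          exact ⟨by simp [h1], h2⟩
    · rw [if_neg hc] at h
      obtain ⟨h1, h2⟩ := ih h
      exact ⟨by simp [h1], h2⟩

theorem lowF_mem {S : List Seg} {v : ℂ} {r : Option Seg} {s : Seg} (h : s ∈ lowF S v r) :
    s ∈ S ∧ act v s = true := by
  obtain ⟨h1, h2⟩ := bestL_mem (Option.mem_def.1 h)
  unfold candL at h2
  rw [Bool.and_eq_true] at h2
  exact ⟨h1, h2.1⟩

theorem upF_mem {S : List Seg} {v : ℂ} {r : Option Seg} {s : Seg} (h : s ∈ upF S v r) :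
    s ∈ S ∧ act v s = true := by
  obtain ⟨h1, h2⟩ := bestL_mem (Option.mem_def.1 h)
  unfold candU at h2
  rw [Bool.and_eq_true] at h2
  exact ⟨h1, h2.1⟩

theorem negS_lex {S : List Seg} (hS : ∀ s ∈ S, lexlt s.1 s.2) :
    ∀ s ∈ S.map negS, lexlt s.1 s.2 := by
  intro s hs
  obtain ⟨s', hs', rfl⟩ := List.mem_map.1 hs
  have h := hS s' hs'
  unfold lexlt negS at *
  simp only [Complex.neg_re, Complex.neg_im]
  rcases h with h | ⟨h, h'⟩
  · left; linarith
  · right; exact ⟨by linarith, by linarith⟩

/-- What the oracles have to do for the list `S`. -/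
structure OrcOK (O : Orc) (S : List Seg) : Prop where
  low : ∀ v r, O.low v r = lowF S v r
  up : ∀ v r, O.up v r = upF S v r
  band : ∀ b t v, (∀ u ∈ b, u ∈ S ∧ act v u = true) → (∀ u ∈ t, u ∈ S ∧ act v u = true) →
    O.band b t v = bandF S b t v

theorem orcD_ok {S : List Seg} (hS : ∀ s ∈ S, lexlt s.1 s.2) (ℓ g r : ℕ) (w : List Bool) :
    OrcOK (orcD (lam S, mkStr ℓ g r (elts S) w)) S where
  low := by
    intro v r'
    show ask (QV (lam S) (false, v, r')) (mkStr ℓ g r (elts S) w) = _
    rw [ask_mkStr (good_QV hS _)]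
    exact exact_low _ _ _ _ _
  up := by
    intro v r'
    show ask (QV (lam S) (true, v, r')) (mkStr ℓ g r (elts S) w) = _
    rw [ask_mkStr (good_QV hS _)]
    exact exact_up _ _ _ _ _
  band := by
    intro b t v hb ht
    show ask (QW (lam S) (b, t, v)) (mkStr ℓ g r (elts S) w) = _
    rw [ask_mkStr (good_QW hS _ (fun u hu => ⟨hS u (hb u hu).1, (hb u hu).2⟩)
      (fun u hu => ⟨hS u (ht u hu).1, (ht u hu).2⟩))]
    exact exact_QW _ _ _ _ _ _

theorem nbR_congr {O : Orc} {S : List Seg} (hO : OrcOK O S) {c : Cell} (hc : RefOK S c) :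
    nbR O c = nbR (orcF S) c := by
  unfold nbR
  rcases hq : c.q with _ | v
  · rfl
  · obtain ⟨h1, h2⟩ := hc v hq
    simp only [Option.elim_some]
    congr 1
    · unfold nbT
      by_cases ho : offB c.t v = true
      · rw [if_pos ho, if_pos ho, hO.low]
        rw [hO.band _ _ _ (fun u hu => lowF_mem hu) (h1 ho)]
        rfl
      · rw [if_neg ho, if_neg ho]
    · unfold nbB
      by_cases ho : offB c.b v = true
      · rw [if_pos ho, if_pos ho, hO.up]
        rw [hO.band _ _ _ (h2 ho) (fun u hu => upF_mem hu)]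
        rfl
      · rw [if_neg ho, if_neg ho]

theorem nbs_congr {O O' : Orc} {S : List Seg} (hO : OrcOK O S) (hO' : OrcOK O' (S.map negS))
    {c : Cell} (hc : RefOK S c) (hc' : RefOK (S.map negS) (negC c)) :
    nbs O O' c = nbs (orcF S) (orcF (S.map negS)) c := by
  unfold nbs
  rw [nbR_congr hO hc, nbR_congr hO' hc']

theorem rootC_congr {O O' : Orc} {S : List Seg} (hO : OrcOK O S) (hO' : OrcOK O' (S.map negS))
    (hS : ∀ s ∈ S, lexlt s.1 s.2) {x : ℂ} (hx : x ∉ U S.toFinset) :
    rootC O O' x = rootC (orcF S) (orcF (S.map negS)) x := by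
  have hneg : ∀ o : Option Seg, (∀ u ∈ o, u ∈ S ∧ act x u = true) →
      ∀ u ∈ o.map negS, u ∈ S.map negS ∧ act (-x) u = true := by
    intro o ho u hu
    rw [Option.mem_def, Option.map_eq_some_iff] at hu
    obtain ⟨u', hu', rfl⟩ := hu
    obtain ⟨h1, h2⟩ := ho u' hu'
    refine ⟨List.mem_map_of_mem h1, ?_⟩
    have hne : u'.1 ≠ x := by
      intro h
      apply hx
      simp only [U, Set.mem_iUnion]
      exact ⟨u', List.mem_toFinset.2 h1, by rw [← h]; exact left_mem_segment ℝ _ _⟩
    unfold act at h2 ⊢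
    rw [Bool.and_eq_true, Bool.not_eq_true', Bool.eq_false_iff, Ne, lexB_iff, lexB_iff] at h2 ⊢
    unfold lexlt negS at *
    simp only [Complex.neg_re, Complex.neg_im, neg_lt_neg_iff, neg_inj]
    obtain ⟨h3, h4⟩ := h2
    push Not at h3
    constructor
    · push Not
      rcases h4 with h4 | ⟨h4, h5⟩
      · exact ⟨by linarith, fun h => by linarith⟩
      · exact ⟨by linarith, fun h => by linarith⟩
    · rcases lt_or_eq_of_le h3.1 with h5 | h5
      · left; exact h5
      · right
        refine ⟨h5.symm, lt_of_le_of_ne (h3.2 h5.symm) ?_⟩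
        intro h6
        exact hne (Complex.ext h5 h6)
  unfold rootC
  rw [hO.low, hO.up, hO'.band _ _ _ (hneg _ (fun u hu => upF_mem hu))
    (hneg _ (fun u hu => lowF_mem hu)),
    hO.band _ _ _ (fun u hu => lowF_mem hu) (fun u hu => upF_mem hu)]
  rfl

theorem exploreO_congr {O O' : Orc} {S : List Seg} (hO : OrcOK O S)
    (hO' : OrcOK O' (S.map negS)) (hS : ∀ s ∈ S, lexlt s.1 s.2) {x : ℂ}
    (hx : x ∉ U S.toFinset) (N : ℕ) : exploreO O O' x N = exploreF S x N := by
  induction N with
  | zero =>
    unfold exploreF exploreO explore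
    rw [Function.iterate_zero, Function.iterate_zero, id, id, rootC_congr hO hO' hS hx]
  | succ N ih =>
    have h1 : exploreO O O' x (N + 1) = exStep (nbs O O') (exploreO O O' x N) := by
      unfold exploreO explore
      rw [Function.iterate_succ_apply']
    have h2 : exploreF S x (N + 1) =
        exStep (nbs (orcF S) (orcF (S.map negS))) (exploreF S x N) := by
      unfold exploreF exploreO explore
      rw [Function.iterate_succ_apply']
    rw [h1, h2, ih]
    unfold exStep
    have h3 := explore_ref S hS hx N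
    rcases h : (exploreF S x N).2 with _ | ⟨c, rest⟩
    · rfl
    · obtain ⟨h4, h5⟩ := h3 c (by rw [h]; simp)
      simp only
      rw [nbs_congr hO hO' h4 h5]

/-- For all random bits, the exploration of the algorithm is the exact exploration. -/
theorem expl_eq {S : List Seg} (hS : ∀ s ∈ S, lexlt s.1 s.2) {x : ℂ} (hx : x ∉ U S.toFinset)
    (ℓ g : ℕ) (w : List Bool) : expl ℓ g S x w = exploreF S x (2 ^ g) :=
  exploreO_congr (orcD_ok hS ℓ g (3072 * g) w) (orcD_ok (negS_lex hS) ℓ g (3072 * g) w) hS hx _

end SQ
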