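import Pool.Agent.Lib.SQ.Q
import Pool.Agent.Lib.SFA.TestB

/-!
# SQ.GTest (package G): the signs of the tests
-/

namespace SQ

open SFA Classical

/-! ### `lam` -/

private theorem lam_aux (S : List Seg) (a : ℝ) (ha : 0 < a) :
    0 < S.foldl (fun a s => if 0 < s.2.re - s.1.re ∧ s.2.im - s.1.im < 0 then
      min a ((s.2.re - s.1.re) / (2 * (s.1.im - s.2.im))) else a) a ∧
    S.foldl (fun a s => if 0 < s.2.re - s.1.re ∧ s.2.im - s.1.im < 0 then
      min a ((s.2.re - s.1.re) / (2 * (s.1.im - s.2.im))) else a) a ≤ a ∧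
    ∀ s ∈ S, 0 < s.2.re - s.1.re → s.2.im - s.1.im < 0 →
      S.foldl (fun a s => if 0 < s.2.re - s.1.re ∧ s.2.im - s.1.im < 0 then
        min a ((s.2.re - s.1.re) / (2 * (s.1.im - s.2.im))) else a) a ≤
        (s.2.re - s.1.re) / (2 * (s.1.im - s.2.im)) := by
  induction S generalizing a with
  | nil => exact ⟨ha, le_refl _, by simp⟩
  | cons s S ih =>
    rw [List.foldl_cons]
    by_cases h : 0 < s.2.re - s.1.re ∧ s.2.im - s.1.im < 0
    · rw [if_pos h]
      have h1 : 0 < (s.2.re - s.1.re) / (2 * (s.1.im - s.2.im)) :=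
        div_pos h.1 (by linarith [h.2])
      obtain ⟨i1, i2, i3⟩ := ih (min a ((s.2.re - s.1.re) / (2 * (s.1.im - s.2.im))))
        (lt_min ha h1)
      refine ⟨i1, i2.trans (min_le_left _ _), ?_⟩
      intro s' hs' h2 h3
      rcases List.mem_cons.1 hs' with rfl | hs'
      · exact i2.trans (min_le_right _ _)
      · exact i3 s' hs' h2 h3
    · rw [if_neg h]
      obtain ⟨i1, i2, i3⟩ := ih a ha
      refine ⟨i1, i2, ?_⟩
      intro s' hs' h2 h3
      rcases List.mem_cons.1 hs' with rfl | hs'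
      · exact absurd ⟨h2, h3⟩ h
      · exact i3 s' hs' h2 h3

theorem wt_pos {S : List Seg} {s : Seg} (hs : s ∈ S) (h : lexlt s.1 s.2) :
    0 < wt (lam S) s := by
  obtain ⟨h1, -, h3⟩ := lam_aux S 1 one_pos
  have h1' : 0 < lam S := h1
  unfold wt
  rcases h with h | ⟨h, h'⟩
  · by_cases h2 : s.2.im - s.1.im < 0
    · have h4 : lam S ≤ _ := h3 s hs (by linarith) h2
      rw [le_div_iff₀ (by linarith)] at h4
      nlinarith
    · have : 0 ≤ lam S * (s.2.im - s.1.im) := mul_nonneg h1'.le (not_lt.1 h2)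
      linarith
  · have : 0 < lam S * (s.2.im - s.1.im) := mul_pos h1' (by linarith)
    linarith

/-! ### tests -/

theorem nn_iff (τ : Test) (e : El) : nn τ e = true ↔ 0 ≤ aff τ (pt τ.1 e) := by
  simp [nn]

theorem aff_ng (τ : Test) (z : ℂ) : aff (ng τ) z = - aff τ z := by
  simp only [aff, ng]; ring

theorem ps_iff (τ : Test) (e : El) : ps τ e = true ↔ 0 < aff τ (pt τ.1 e) := by
  have h : (ng τ).1 = τ.1 := rfl
  simp only [ps, nn, Bool.not_eq_true', decide_eq_false_iff_not, h, aff_ng, not_le]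
  constructor <;> intro h <;> linarith

theorem mi_iff (τ : Test) (e : El) : mi τ e = true ↔ aff τ (pt τ.1 e) < 0 := by
  simp [mi, nn]

theorem zr_iff (τ : Test) (e : El) : zr τ e = true ↔ aff τ (pt τ.1 e) = 0 := by
  have h : (ng τ).1 = τ.1 := rfl
  simp only [zr, nn, Bool.and_eq_true, decide_eq_true_eq, h, aff_ng]
  constructor
  · rintro ⟨h1, h2⟩; linarith
  · intro h; rw [h]; simp

theorem aff_tx (j : ℕ) (c : ℝ) (z : ℂ) : aff (tx j c) z = z.re - c := by
  simp only [aff, tx]; ring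

theorem aff_ty (j : ℕ) (c : ℝ) (z : ℂ) : aff (ty j c) z = z.im - c := by
  simp only [aff, ty]; ring

theorem aff_tq (j : ℕ) (b : Seg) (z : ℂ) : aff (tq j b) z = ori b z := by
  simp only [aff, tq, ori, cross, Complex.sub_re, Complex.sub_im]; ring

theorem aff_tp {l : ℝ} {s : Seg} (h : 0 < wt l s) (g : ℂ) :
    aff (tp l g) (lineP l s) = ori s g / wt l s := by
  have h' : wt l s ≠ 0 := h.ne'
  simp only [aff, tp, lineP]
  rw [eq_div_iff h']
  have e1 : ∀ a b : ℝ, (a * (-(s.2.im - s.1.im) / wt l s) + 1 * (((s.2.im - s.1.im) * s.1.re -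
      (s.2.re - s.1.re) * s.1.im) / wt l s) + b) * wt l s =
      a * (-(s.2.im - s.1.im)) + ((s.2.im - s.1.im) * s.1.re -
      (s.2.re - s.1.re) * s.1.im) + b * wt l s := by
    intro a b; field_simp
  rw [e1]
  simp only [wt, ori, cross, Complex.sub_re, Complex.sub_im]
  ring

theorem aff_td {l : ℝ} {s : Seg} (h : 0 < wt l s) (d : ℂ) :
    aff (td l d) (lineP l s) = cross (s.2 - s.1) d / wt l s := by
  have h' : wt l s ≠ 0 := h.ne'
  simp only [aff, td, lineP]
  rw [eq_div_iff h']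
  have e1 : ∀ a b c : ℝ, (a * (-(s.2.im - s.1.im) / wt l s) + 0 * c + b) * wt l s =
      a * (-(s.2.im - s.1.im)) + b * wt l s := by
    intro a b c; field_simp; ring
  rw [e1]
  simp only [wt, cross, Complex.sub_re, Complex.sub_im]
  ring

/-- the elements: segments with positive weight -/
theorem mem_elts {S : List Seg} (hS : ∀ s ∈ S, lexlt s.1 s.2) {e : El} (he : e ∈ elts S) :
    ∃ s ∈ S, e = (s, lineP (lam S) s) ∧ 0 < wt (lam S) s ∧ lexlt s.1 s.2 := by
  obtain ⟨s, hs, rfl⟩ := List.mem_map.1 he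
  exact ⟨s, hs, rfl, wt_pos hs (hS s hs), hS s hs⟩

section
variable {l : ℝ} {s : Seg}

@[simp] theorem pt_zero (e : El) : pt 0 e = e.1.1 := rfl
@[simp] theorem pt_one (e : El) : pt 1 e = e.1.2 := rfl
@[simp] theorem pt_two (e : El) : pt 2 e = e.2 := rfl

theorem lexGt_iff (j : ℕ) (v : ℂ) (e : El) : lexGt j v e = true ↔ lexlt v (pt j e) := by
  have h1 : (tx j v.re).1 = j := rfl
  have h2 : (ty j v.im).1 = j := rfl
  simp only [lexGt, Bool.or_eq_true, Bool.and_eq_true, ps_iff, zr_iff, aff_tx, aff_ty, h1, h2,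
    lexlt]
  constructor
  · rintro (h | ⟨h, h'⟩)
    · left; linarith
    · right; exact ⟨by linarith, by linarith⟩
  · rintro (h | ⟨h, h'⟩)
    · left; linarith
    · right; exact ⟨by linarith, by linarith⟩

theorem lexLt_iff (j : ℕ) (v : ℂ) (e : El) : lexLt j v e = true ↔ lexlt (pt j e) v := by
  have h1 : (tx j v.re).1 = j := rfl
  have h2 : (ty j v.im).1 = j := rfl
  simp only [lexLt, Bool.or_eq_true, Bool.and_eq_true, mi_iff, zr_iff, aff_tx, aff_ty, h1, h2,
    lexlt]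
  constructor
  · rintro (h | ⟨h, h'⟩)
    · left; linarith
    · right; exact ⟨by linarith, by linarith⟩
  · rintro (h | ⟨h, h'⟩)
    · left; linarith
    · right; exact ⟨by linarith, by linarith⟩

theorem lexGt_eq (j : ℕ) (v : ℂ) (e : El) : lexGt j v e = lexB v (pt j e) := by
  rw [Bool.eq_iff_iff, lexGt_iff, lexB_iff]

theorem lexLt_eq (j : ℕ) (v : ℂ) (e : El) : lexLt j v e = lexB (pt j e) v := by
  rw [Bool.eq_iff_iff, lexLt_iff, lexB_iff]

theorem ps_tp (h : 0 < wt l s) (g : ℂ) :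
    ps (tp l g) (s, lineP l s) = decide (0 < ori s g) := by
  have h1 : (tp l g).1 = 2 := rfl
  rw [Bool.eq_iff_iff, ps_iff, h1, pt_two, aff_tp h, decide_eq_true_eq, div_pos_iff_of_pos_right h]

theorem mi_tp (h : 0 < wt l s) (g : ℂ) :
    mi (tp l g) (s, lineP l s) = decide (ori s g < 0) := by
  have h1 : (tp l g).1 = 2 := rfl
  rw [Bool.eq_iff_iff, mi_iff, h1, pt_two, aff_tp h, decide_eq_true_eq, div_lt_iff₀ h, zero_mul]

theorem zr_tp (h : 0 < wt l s) (g : ℂ) :
    zr (tp l g) (s, lineP l s) = decide (ori s g = 0) := by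
  have h1 : (tp l g).1 = 2 := rfl
  rw [Bool.eq_iff_iff, zr_iff, h1, pt_two, aff_tp h, decide_eq_true_eq, div_eq_zero_iff,
    or_iff_left h.ne']

theorem ps_td (h : 0 < wt l s) (d : ℂ) :
    ps (td l d) (s, lineP l s) = decide (0 < cross (s.2 - s.1) d) := by
  have h1 : (td l d).1 = 2 := rfl
  rw [Bool.eq_iff_iff, ps_iff, h1, pt_two, aff_td h, decide_eq_true_eq, div_pos_iff_of_pos_right h]

theorem mi_td (h : 0 < wt l s) (d : ℂ) :
    mi (td l d) (s, lineP l s) = decide (cross (s.2 - s.1) d < 0) := by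
  have h1 : (td l d).1 = 2 := rfl
  rw [Bool.eq_iff_iff, mi_iff, h1, pt_two, aff_td h, decide_eq_true_eq, div_lt_iff₀ h, zero_mul]

theorem zr_td (h : 0 < wt l s) (d : ℂ) :
    zr (td l d) (s, lineP l s) = decide (cross (s.2 - s.1) d = 0) := by
  have h1 : (td l d).1 = 2 := rfl
  rw [Bool.eq_iff_iff, zr_iff, h1, pt_two, aff_td h, decide_eq_true_eq, div_eq_zero_iff,
    or_iff_left h.ne']

theorem ps_tq (j : ℕ) (b : Seg) (e : El) : ps (tq j b) e = decide (0 < ori b (pt j e)) := by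
  have h1 : (tq j b).1 = j := rfl
  rw [Bool.eq_iff_iff, ps_iff, h1, aff_tq, decide_eq_true_eq]

theorem mi_tq (j : ℕ) (b : Seg) (e : El) : mi (tq j b) e = decide (ori b (pt j e) < 0) := by
  have h1 : (tq j b).1 = j := rfl
  rw [Bool.eq_iff_iff, mi_iff, h1, aff_tq, decide_eq_true_eq]

theorem zr_tq (j : ℕ) (b : Seg) (e : El) : zr (tq j b) e = decide (ori b (pt j e) = 0) := by
  have h1 : (tq j b).1 = j := rfl
  rw [Bool.eq_iff_iff, zr_iff, h1, aff_tq, decide_eq_true_eq]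

theorem nn_tq (j : ℕ) (b : Seg) (e : El) : nn (tq j b) e = decide (0 ≤ ori b (pt j e)) := by
  have h1 : (tq j b).1 = j := rfl
  rw [Bool.eq_iff_iff, nn_iff, h1, aff_tq, decide_eq_true_eq]

theorem nn_ng_tq (j : ℕ) (b : Seg) (e : El) :
    nn (ng (tq j b)) e = decide (ori b (pt j e) ≤ 0) := by
  have h1 : (ng (tq j b)).1 = j := rfl
  rw [Bool.eq_iff_iff, nn_iff, h1, aff_ng, aff_tq, decide_eq_true_eq]
  constructor <;> intro h <;> linarith

end

/-! ### dependence on the tests -/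

section
variable {T : List Test} {e e' : El}

theorem ps_congr {τ : Test} (h : ∀ τ ∈ T, nn τ e = nn τ e') (hτ : ng τ ∈ T) :
    ps τ e = ps τ e' := by
  unfold ps; rw [h _ hτ]

theorem zr_congr {τ : Test} (h : ∀ τ ∈ T, nn τ e = nn τ e') (h1 : τ ∈ T) (hτ : ng τ ∈ T) :
    zr τ e = zr τ e' := by
  unfold zr; rw [h _ hτ, h _ h1]

theorem mi_congr {τ : Test} (h : ∀ τ ∈ T, nn τ e = nn τ e') (h1 : τ ∈ T) :
    mi τ e = mi τ e' := by
  unfold mi; rw [h _ h1]

theorem lexGt_congr {j : ℕ} {v : ℂ} (h : ∀ τ ∈ T, nn τ e = nn τ e') (hs : sgl j v ⊆ T) :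
    lexGt j v e = lexGt j v e' := by
  have a1 : tx j v.re ∈ T := hs (by simp [sgl, sg])
  have a2 : ng (tx j v.re) ∈ T := hs (by simp [sgl, sg])
  have a4 : ng (ty j v.im) ∈ T := hs (by simp [sgl, sg])
  unfold lexGt
  rw [ps_congr h a2, zr_congr h a1 a2, ps_congr h a4]

theorem lexLt_congr {j : ℕ} {v : ℂ} (h : ∀ τ ∈ T, nn τ e = nn τ e') (hs : sgl j v ⊆ T) :
    lexLt j v e = lexLt j v e' := by
  have a1 : tx j v.re ∈ T := hs (by simp [sgl, sg])
  have a2 : ng (tx j v.re) ∈ T := hs (by simp [sgl, sg])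
  have a3 : ty j v.im ∈ T := hs (by simp [sgl, sg])
  unfold lexLt
  rw [mi_congr h a1, zr_congr h a1 a2, mi_congr h a3]

end

end SQ
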