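import Pool.Agent.Lib.SQ.GExact
import Pool.Agent.Lib.SQ.ETot

/-!
# SQ.GV (package G): the queries for `lowF` and `upF` are good
-/

namespace SQ

open SFA Classical

theorem actE_eq (v : ℂ) (e : El) : actE v e = act v e.1 := by
  unfold actE act
  rw [lexGt_eq, lexGt_eq, pt_zero, pt_one]

theorem cross_anti (a b : ℂ) : cross a b = - cross b a := by
  simp only [cross]; ring

theorem abE_eq {l : ℝ} {s : Seg} (h : 0 < wt l s) (v : ℂ) (r : Seg) :
    abE l v r (s, lineP l s) = abv s r v := by
  unfold abE abv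
  rw [mi_tp h, zr_tp h, ps_td h, mi_td h, cross_anti (s.2 - s.1)]
  simp only [Left.neg_pos_iff, Left.neg_neg_iff]

theorem blE_eq {l : ℝ} {s : Seg} (h : 0 < wt l s) (v : ℂ) (r : Seg) :
    blE l v r (s, lineP l s) = blw s r v := by
  unfold blE blw
  rw [ps_tp h, zr_tp h, ps_td h, mi_td h, cross_anti (s.2 - s.1)]
  simp only [Left.neg_pos_iff, Left.neg_neg_iff]

theorem colE_eq (s : Seg) (e : El) : colE s e = colB e.1 s := by
  unfold colE colB
  rw [zr_tq, zr_tq, pt_zero, pt_one]

theorem tieE_eq (s : Seg) (e : El) : tieE s e = tieB e.1 s := by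
  unfold tieE tieB
  rw [lexGt_eq, lexLt_eq, lexLt_eq, pt_one, pt_zero]
  congr 2
  rw [Bool.eq_iff_iff, Bool.and_eq_true, Bool.not_eq_true', Bool.not_eq_true', ptEq_iff]
  constructor
  · rintro ⟨h1, h2⟩; exact lexB_total h1 h2
  · intro h
    rw [h]
    have : lexB e.1.2 e.1.2 = false := by
      rw [Bool.eq_false_iff]
      intro hh
      have := lexB_asymm hh
      rw [this] at hh; exact absurd hh (by simp)
    exact ⟨this, this⟩

theorem FV_eq {l : ℝ} {s : Seg} (h : 0 < wt l s) (a : PV) (y : Option Seg) :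
    FV l a y (s, lineP l s) = ((if a.1 then candU a.2.1 a.2.2 s else candL a.2.1 a.2.2 s) &&
      y.elim true (fun e => ltV a s e)) := by
  obtain ⟨b, v, r⟩ := a
  unfold FV candU candL ltV betL betU
  rw [actE_eq]
  cases b <;> rcases r with _ | r <;> rcases y with _ | e <;>
    simp [abE_eq h, blE_eq h, colE_eq, tieE_eq]

theorem isV_QV {l : ℝ} {S : List Seg} (hS : ∀ s ∈ S, lexlt s.1 s.2) {a : PV} {s : Seg}
    (h : isV (QV l a) (elts S) s) : lexlt s.1 s.2 ∧ act a.2.1 s = true := by
  obtain ⟨e, he, h⟩ := h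
  obtain ⟨s', hs', rfl, -, hl⟩ := mem_elts hS he
  obtain ⟨b, v, r⟩ := a
  simp only [QV, valV, candU, candL] at h
  cases b
  · simp only [Bool.false_eq_true, if_false] at h
    split_ifs at h with h1
    · rw [Option.some.injEq] at h
      subst h
      rw [Bool.and_eq_true] at h1
      exact ⟨hl, h1.1⟩
  · simp only [if_true] at h
    split_ifs at h with h1
    · rw [Option.some.injEq] at h
      subst h
      rw [Bool.and_eq_true] at h1
      exact ⟨hl, h1.1⟩

theorem good_QV {S : List Seg} (hS : ∀ s ∈ S, lexlt s.1 s.2) (a : PV) :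
    Good (QV (lam S) a) (elts S) 36 where
  asymm := by
    intro s e hs he h
    obtain ⟨h1, h2⟩ := isV_QV hS hs
    obtain ⟨h3, h4⟩ := isV_QV hS he
    obtain ⟨b, v, r⟩ := a
    rw [Bool.eq_false_iff]
    intro h'
    cases b
    · simp only [QV, ltV, Bool.false_eq_true, if_false] at h h' h2 h4
      have := betL_trans h1 h3 h1 h2 h4 h2 h h'
      rw [betL_irrefl h1 h2] at this
      exact absurd this (by simp)
    · simp only [QV, ltV, if_true] at h h' h2 h4
      have := betU_trans h1 h3 h1 h2 h4 h2 h h'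
      rw [betU_irrefl h1 h2] at this
      exact absurd this (by simp)
  trans := by
    intro s e g hs he hg h h'
    obtain ⟨h1, h2⟩ := isV_QV hS hs
    obtain ⟨h3, h4⟩ := isV_QV hS he
    obtain ⟨h5, h6⟩ := isV_QV hS hg
    obtain ⟨b, v, r⟩ := a
    cases b
    · simp only [QV, ltV, Bool.false_eq_true, if_false] at h h' h2 h4 h6 ⊢
      exact betL_trans h1 h3 h5 h2 h4 h6 h h'
    · simp only [QV, ltV, if_true] at h h' h2 h4 h6 ⊢
      exact betU_trans h1 h3 h5 h2 h4 h6 h h'
  total := by
    intro s e hs he h h'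
    obtain ⟨h1, h2⟩ := isV_QV hS hs
    obtain ⟨h3, h4⟩ := isV_QV hS he
    obtain ⟨b, v, r⟩ := a
    by_contra hne
    cases b
    · simp only [QV, ltV, Bool.false_eq_true, if_false] at h h' h2 h4
      rcases betL_total h1 h3 h2 h4 hne with h5 | h5
      · rw [h] at h5; exact absurd h5 (by simp)
      · rw [h'] at h5; exact absurd h5 (by simp)
    · simp only [QV, ltV, if_true] at h h' h2 h4
      rcases betU_total h1 h3 h2 h4 hne with h5 | h5
      · rw [h] at h5; exact absurd h5 (by simp)
      · rw [h'] at h5; exact absurd h5 (by simp)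
  sel := by
    intro y _ e he
    obtain ⟨s, hs, rfl, hw, -⟩ := mem_elts hS he
    show FV (lam S) a y (s, lineP (lam S) s) = true ↔ ∃ b, valV a (s, lineP (lam S) s) = some b ∧
      ∀ c ∈ y, ltV a b c = true
    rw [FV_eq hw, Bool.and_eq_true]
    unfold valV
    constructor
    · rintro ⟨h1, h2⟩
      refine ⟨s, by rw [if_pos h1], fun c hc => ?_⟩
      rw [Option.mem_def] at hc
      subst hc
      exact h2
    · rintro ⟨b, h1, h2⟩
      have h4 : ∀ (c : Bool) (s' : Seg), (if c = true then some s' else none) = some b →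
          c = true ∧ s' = b := by
        intro c s' hc
        cases c
        · simp at hc
        · simpa using hc
      obtain ⟨h3, h5⟩ := h4 _ _ h1
      have h5' : s = b := h5
      subst h5'
      refine ⟨h3, ?_⟩
      rcases y with _ | c
      · rfl
      · exact h2 c rfl
  test := by
    intro y e e' h
    have h' : ∀ τ ∈ TV (lam S) a y, nn τ e = nn τ e' := h
    show FV (lam S) a y e = FV (lam S) a y e'
    have k1 : sgl 0 a.2.1 ⊆ TV (lam S) a y := by
      intro τ hτ; unfold TV; simp [hτ]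
    have k2 : sgl 1 a.2.1 ⊆ TV (lam S) a y := by
      intro τ hτ; unfold TV; simp [hτ]
    have e1 : actE a.2.1 e = actE a.2.1 e' := by
      unfold actE
      rw [lexGt_congr h' k1, lexGt_congr h' k2]
    have e2 : ∀ r, sgg (lam S) r a.2.1 ⊆ TV (lam S) a y →
        abE (lam S) a.2.1 r e = abE (lam S) a.2.1 r e' ∧
        blE (lam S) a.2.1 r e = blE (lam S) a.2.1 r e' := by
      intro r hr
      have a1 : tp (lam S) (wp r a.2.1) ∈ TV (lam S) a y := hr (by simp [sgg, sg])
      have a2 : ng (tp (lam S) (wp r a.2.1)) ∈ TV (lam S) a y := hr (by simp [sgg, sg])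
      have a3 : td (lam S) (r.2 - r.1) ∈ TV (lam S) a y := hr (by simp [sgg, sg])
      have a4 : ng (td (lam S) (r.2 - r.1)) ∈ TV (lam S) a y := hr (by simp [sgg, sg])
      unfold abE blE
      rw [mi_congr h' a1, zr_congr h' a1 a2, ps_congr h' a4, mi_congr h' a3, ps_congr h' a2]
      exact ⟨rfl, rfl⟩
    unfold FV
    rw [e1]
    congr 1
    · congr 1
      rcases hr : a.2.2 with _ | r
      · rfl
      · have h3 := e2 r (by intro τ hτ; unfold TV; simp [hr, hτ])
        simp only [Option.elim_some, h3.1, h3.2]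
    · rcases y with _ | s
      · rfl
      · have h3 := e2 s (by intro τ hτ; unfold TV; simp [hτ])
        have k3 : tq 0 s ∈ TV (lam S) a (some s) := by unfold TV; simp [sg]
        have k4 : ng (tq 0 s) ∈ TV (lam S) a (some s) := by unfold TV; simp [sg]
        have k5 : tq 1 s ∈ TV (lam S) a (some s) := by unfold TV; simp [sg]
        have k6 : ng (tq 1 s) ∈ TV (lam S) a (some s) := by unfold TV; simp [sg]
        have k7 : sgl 1 s.2 ⊆ TV (lam S) a (some s) := by
          intro τ hτ; unfold TV; simp [hτ]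
        have k8 : sgl 0 s.1 ⊆ TV (lam S) a (some s) := by
          intro τ hτ; unfold TV; simp [hτ]
        simp only [Option.elim_some, h3.1, h3.2, colE, tieE]
        rw [zr_congr h' k3 k4, zr_congr h' k5 k6, lexGt_congr h' k7, lexLt_congr h' k7,
          lexLt_congr h' k8]
  pl := by
    intro y τ hτ
    have hτ' : τ ∈ TV (lam S) a y := hτ
    have key : ∀ j : ℕ, j ≤ 2 → ∀ c : ℝ, ∀ b : Seg, ∀ g : ℂ, (tx j c).1 ≤ 2 ∧ (ty j c).1 ≤ 2 ∧
        (tq j b).1 ≤ 2 ∧ (tp c g).1 ≤ 2 ∧ (td c g).1 ≤ 2 := by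
      intro j hj c b g
      exact ⟨hj, hj, hj, le_refl _, le_refl _⟩
    have hsg : ∀ τ0 : Test, τ0.1 ≤ 2 → ∀ τ ∈ sg τ0, τ.1 ≤ 2 := by
      intro τ0 h0 τ hτ
      simp only [sg, List.mem_cons, List.not_mem_nil, or_false] at hτ
      rcases hτ with rfl | rfl
      · exact h0
      · exact h0
    have hsgl : ∀ j : ℕ, j ≤ 2 → ∀ v : ℂ, ∀ τ ∈ sgl j v, τ.1 ≤ 2 := by
      intro j hj v τ hτ
      rcases List.mem_append.1 hτ with hτ | hτ
      · exact hsg _ hj τ hτ
      · exact hsg _ hj τ hτ
    have hsgg : ∀ (r : Seg) (v : ℂ), ∀ τ ∈ sgg (lam S) r v, τ.1 ≤ 2 := by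
      intro r v τ hτ
      rcases List.mem_append.1 hτ with hτ | hτ
      · exact hsg _ (le_refl _) τ hτ
      · exact hsg _ (le_refl _) τ hτ
    unfold TV at hτ'
    rcases List.mem_append.1 hτ' with h | h
    · rcases List.mem_append.1 h with h | h
      · rcases List.mem_append.1 h with h | h
        · exact hsgl 0 (by norm_num) _ τ h
        · exact hsgl 1 (by norm_num) _ τ h
      · rcases hr : a.2.2 with _ | r
        · rw [hr] at h; simp at h
        · rw [hr] at h; exact hsgg _ _ τ h
    · rcases y with _ | s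
      · simp at h
      · simp only [Option.elim_some, List.mem_append] at h
        rcases h with (((h | h) | h) | h) | h
        · exact hsgg _ _ τ h
        · exact hsg _ (by norm_num [tq]) τ h
        · exact hsg _ (by norm_num [tq]) τ h
        · exact hsgl 1 (by norm_num) _ τ h
        · exact hsgl 0 (by norm_num) _ τ h
  len := by
    intro y
    show (TV (lam S) a y).length ≤ 36
    unfold TV
    rcases a.2.2 with _ | r <;> rcases y with _ | s <;>
      simp [sgl, sgg, sg]

end SQ
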