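import Pool.Agent.Lib.SQ.RTst
import Pool.Agent.Lib.SQ.DS

/-!
# SQ.RD (package R, owner helper8): cost of the queries of the search structure

* constant time of the tests of `SQ.DS`;
* `rc_report`, `rc_bestQ`, `rc_exact`, and `rc_ask`: for a family of queries `Q : A → Query V`
  whose four components are computed in constant time (`QCT Q m`), `ask (Q a) (D a)` is computed
  with cost `askCost (Q a) (D a)`.
-/

namespace SQ

open P7m SFA Classical

noncomputable section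

variable {A B C D V : Type} [Enc A] [Enc B] [Enc C] [Enc D] [Enc V]

/-! ### tests -/

theorem CT.nat (n : ℕ) : SFA.CT (fun _ : A => n) := RC.const_nat n

theorem CT.neq {f g : A → ℕ} [∀ a, Decidable (f a = g a)] (hf : SFA.CT f) (hg : SFA.CT g) :
    SFA.CT (fun a => decide (f a = g a)) := RC.neq hf hg

theorem CT.rneg {f : A → ℝ} (hf : SFA.CT f) : SFA.CT (fun a => -(f a)) := RC.rneg hf

theorem CT.pt {j : A → ℕ} {e : A → El} (hj : SFA.CT j) (he : SFA.CT e) :
    SFA.CT (fun a => pt (j a) (e a)) := by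
  unfold SQ.pt
  exact SFA.CT.ite (CT.neq hj (CT.nat 0)) (SFA.CT.fst (SFA.CT.fst he))
    (SFA.CT.ite (CT.neq hj (CT.nat 1)) (SFA.CT.snd (SFA.CT.fst he)) (SFA.CT.snd he))

theorem CT.aff {τ : A → Test} {z : A → ℂ} (hτ : SFA.CT τ) (hz : SFA.CT z) :
    SFA.CT (fun a => aff (τ a) (z a)) :=
  SFA.CT.radd (SFA.CT.radd (SFA.CT.rmul (SFA.CT.fst (SFA.CT.snd hτ)) (SFA.CT.re hz))
    (SFA.CT.rmul (SFA.CT.fst (SFA.CT.snd (SFA.CT.snd hτ))) (SFA.CT.im hz)))
    (SFA.CT.snd (SFA.CT.snd (SFA.CT.snd hτ)))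

theorem CT.ng {τ : A → Test} (hτ : SFA.CT τ) : SFA.CT (fun a => ng (τ a)) :=
  SFA.CT.pair (SFA.CT.fst hτ) (SFA.CT.pair (CT.rneg (SFA.CT.fst (SFA.CT.snd hτ)))
    (SFA.CT.pair (CT.rneg (SFA.CT.fst (SFA.CT.snd (SFA.CT.snd hτ))))
      (CT.rneg (SFA.CT.snd (SFA.CT.snd (SFA.CT.snd hτ))))))

theorem CT.nn {τ : A → Test} {e : A → El} (hτ : SFA.CT τ) (he : SFA.CT e) :
    SFA.CT (fun a => nn (τ a) (e a)) :=
  SFA.CT.rle SFA.CT.zero (CT.aff hτ (CT.pt (SFA.CT.fst hτ) he))

theorem CT.ps {τ : A → Test} {e : A → El} (hτ : SFA.CT τ) (he : SFA.CT e) :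
    SFA.CT (fun a => ps (τ a) (e a)) := SFA.CT.not (CT.nn (CT.ng hτ) he)

theorem CT.zr {τ : A → Test} {e : A → El} (hτ : SFA.CT τ) (he : SFA.CT e) :
    SFA.CT (fun a => zr (τ a) (e a)) := SFA.CT.and (CT.nn hτ he) (CT.nn (CT.ng hτ) he)

theorem CT.mi {τ : A → Test} {e : A → El} (hτ : SFA.CT τ) (he : SFA.CT e) :
    SFA.CT (fun a => mi (τ a) (e a)) := SFA.CT.not (CT.nn hτ he)

theorem CT.dot {u v : A → ℂ} (hu : SFA.CT u) (hv : SFA.CT v) :
    SFA.CT (fun a => dot (u a) (v a)) :=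
  SFA.CT.radd (SFA.CT.rmul (SFA.CT.re hu) (SFA.CT.re hv))
    (SFA.CT.rmul (SFA.CT.im hu) (SFA.CT.im hv))

theorem CT.coneV {u w v : A → ℂ} (hu : SFA.CT u) (hw : SFA.CT w) (hv : SFA.CT v) :
    SFA.CT (fun a => coneV (u a) (w a) (v a)) := by
  unfold SQ.coneV
  have h1 := SFA.CT.cross hu hw
  have h2 := SFA.CT.cross hu hv
  have h3 := SFA.CT.cross hw hv
  have h4 := SFA.CT.cross hv hw
  refine SFA.CT.ite (SFA.CT.req h1 SFA.CT.zero) ?_ ?_
  · exact SFA.CT.or (SFA.CT.or
      (SFA.CT.and (SFA.CT.req (SFA.CT.re hv) SFA.CT.zero) (SFA.CT.req (SFA.CT.im hv) SFA.CT.zero))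
      (SFA.CT.and (SFA.CT.req h2 SFA.CT.zero) (SFA.CT.rlt SFA.CT.zero (CT.dot hu hv))))
      (SFA.CT.and (SFA.CT.req h3 SFA.CT.zero) (SFA.CT.rlt SFA.CT.zero (CT.dot hw hv)))
  · exact SFA.CT.and (SFA.CT.rle SFA.CT.zero (SFA.CT.rdiv h4 h1))
      (SFA.CT.rle SFA.CT.zero (SFA.CT.rdiv h2 h1))

theorem CT.coneB {b l r e : A → ℂ} (hb : SFA.CT b) (hl : SFA.CT l) (hr : SFA.CT r)
    (he : SFA.CT e) : SFA.CT (fun a => coneB (b a) (l a) (r a) (e a)) :=
  CT.coneV (SFA.CT.csub hl hb) (SFA.CT.csub hr hb) (SFA.CT.csub he hb)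

theorem CT.inC {c : A → Cert} {e : A → El} (hc : SFA.CT c) (he : SFA.CT e) :
    SFA.CT (fun a => inC (c a) (e a)) :=
  CT.coneB (SFA.CT.fst (SFA.CT.snd hc)) (SFA.CT.fst (SFA.CT.snd (SFA.CT.snd hc)))
    (SFA.CT.snd (SFA.CT.snd (SFA.CT.snd hc))) (CT.pt (SFA.CT.fst hc) he)

theorem CT.dec {τ : A → Test} {c : A → Cert} (hτ : SFA.CT τ) (hc : SFA.CT c) :
    SFA.CT (fun a => dec (τ a) (c a)) := by
  unfold SQ.dec
  have h1 := CT.aff hτ (SFA.CT.fst (SFA.CT.snd hc))
  have h2 := CT.aff hτ (SFA.CT.fst (SFA.CT.snd (SFA.CT.snd hc)))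
  have h3 := CT.aff hτ (SFA.CT.snd (SFA.CT.snd (SFA.CT.snd hc)))
  exact SFA.CT.and (CT.neq (SFA.CT.fst hc) (SFA.CT.fst hτ))
    (SFA.CT.or
      (SFA.CT.and (SFA.CT.and (SFA.CT.rle SFA.CT.zero h1) (SFA.CT.rle h1 h2)) (SFA.CT.rle h1 h3))
      (SFA.CT.and (SFA.CT.and (SFA.CT.rlt h1 SFA.CT.zero) (SFA.CT.rle h2 h1))
        (SFA.CT.rle h3 h1)))

/-! ### report -/

private theorem pc {f : A → B} (hf : SFA.CT f) {g : C → A} (hg : SFA.CT g) :
    SFA.CT (fun c => f (g c)) := SFA.CT.comp hf hg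

private theorem sum_map_le {X : Type} (l : List X) (f : X → ℕ) (K : ℕ)
    (h : ∀ x ∈ l, f x ≤ K) : (l.map f).sum ≤ K * l.length := by
  induction l with
  | nil => simp
  | cons x t ih =>
    rw [List.map_cons, List.sum_cons, List.length_cons]
    have h1 := h x (by simp)
    have h2 := ih (fun y hy => h y (by simp [hy]))
    have h3 : K * (t.length + 1) = K * t.length + K := by ring
    omega

theorem rc_decAll {T : A → List Test} {K : A → Cls} (m : ℕ) (hT : SFA.CT T)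
    (hm : ∀ a, (T a).length ≤ m) (hK : SFA.CT K) :
    P7m.RC (fun a => decAll (T a) (K a)) (fun a => (K a).1.length) := by
  unfold decAll
  have h1 := P7m.RC.any (l := fun p : A × Test => (K p.1).1)
    (p := fun (p : A × Test) c => dec p.2 c) (SFA.CT.fst (pc hK (SFA.CT.fst SFA.CT.id)))
    (CT.dec (SFA.CT.snd (SFA.CT.fst SFA.CT.id)) (SFA.CT.snd SFA.CT.id))
  refine (P7m.RC.all (p := fun a τ => (K a).1.any (fun c => dec τ c)) hT h1).mono (m + m)
    (fun a => ?_)
  have h2 : ∀ x : Test, 0 + ((K a).1.map (fun _ => 0 + 1)).sum + 1 ≤ (K a).1.length + 1 :=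
    fun x => by
      have := sum_map_le (K a).1 (fun _ => 0 + 1) 1 (fun _ _ => by simp)
      omega
  have h3 := sum_map_le (T a) (fun _ => 0 + ((K a).1.map (fun _ => 0 + 1)).sum + 1)
    ((K a).1.length + 1) (fun x _ => h2 x)
  have h4 := Nat.mul_le_mul_left ((K a).1.length + 1) (hm a)
  have h5 : (m + m) * ((K a).1.length + 1) =
    ((K a).1.length + 1) * m + ((K a).1.length + 1) * m := by ring
  simp only at h3 ⊢
  omega

theorem rc_repC {F : A → El → Bool} {T : A → List Test} {K : A → Cls} (m : ℕ)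
    (hF : SFA.CT (fun p : A × El => F p.1 p.2)) (hT : SFA.CT T)
    (hm : ∀ a, (T a).length ≤ m) (hK : SFA.CT K) :
    P7m.RC (fun a => repC (F a) (T a) (K a))
      (fun a => (K a).1.length + if decAll (T a) (K a) then 0 else (K a).2.length) := by
  unfold repC
  have h1 := rc_decAll m hT hm hK
  have h2 : SFA.CT (fun a => (K a).2.head?.elim [] (fun e => if F a e then (K a).2 else [])) :=
    SFA.CT.elim (s := fun a e => if F a e then (K a).2 else [])
      (P7m.RC.head? (SFA.CT.snd hK)) CT.nil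
      (SFA.CT.cond hF (SFA.CT.snd (pc hK (SFA.CT.fst SFA.CT.id))) CT.nil)
  have h3 := P7m.RC.filter (p := F) (SFA.CT.snd hK) hF
  refine (P7m.RC.cond h1 h2 h3).of_le (fun a => ?_)
  have h4 := sum_map_le (K a).2 (fun _ => 0 + 1) 1 (fun _ _ => by simp)
  by_cases h : decAll (T a) (K a) = true
  · rw [if_pos h, if_pos h]
  · rw [if_neg h, if_neg h]; omega

theorem report_cost (F : El → Bool) (T : List Test) (cs : List Cls) :
    (cs.map (fun C => C.1.length + (if decAll T C then 0 else C.2.length) +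
      (repC F T C).length + 1)).sum = sizeC cs + und T cs + (report F T cs).length := by
  induction cs with
  | nil => simp [sizeC, und, report]
  | cons C t ih =>
    unfold sizeC und report at ih ⊢
    simp only [List.map_cons, List.sum_cons, List.flatMap_cons, List.length_append]
    omega

theorem rc_report {F : A → El → Bool} {T : A → List Test} {cs : A → List Cls} (m : ℕ)
    (hF : SFA.CT (fun p : A × El => F p.1 p.2)) (hT : SFA.CT T)
    (hm : ∀ a, (T a).length ≤ m) (hcs : SFA.CT cs) :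
    P7m.RC (fun a => report (F a) (T a) (cs a))
      (fun a => sizeC (cs a) + und (T a) (cs a) + (report (F a) (T a) (cs a)).length) := by
  have h1 := rc_repC (F := fun p : A × Cls => F p.1) (T := fun p : A × Cls => T p.1)
    (K := fun p : A × Cls => p.2) m
    (SFA.CT.comp (g := fun p : A × El => F p.1 p.2) hF
      (SFA.CT.pair (SFA.CT.fst (SFA.CT.fst SFA.CT.id)) (SFA.CT.snd SFA.CT.id)))
    (pc hT (SFA.CT.fst SFA.CT.id)) (fun p => hm p.1) (SFA.CT.snd SFA.CT.id)
  refine (P7m.RC.flatMap (f := fun a C => repC (F a) (T a) C) hcs h1).of_le (fun a => ?_)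
  have h2 := report_cost (F a) (T a) (cs a)
  try simp only [zero_add] at h2 ⊢
  exact h2.le

/-! ### best value -/

theorem rc_bestQ {val : A → El → Option V} {lt : A → V → V → Bool} {acc : A → Option V}
    {l : A → List El} {ca cl : A → ℕ} (hv : SFA.CT (fun p : A × El => val p.1 p.2))
    (hlt : SFA.CT (fun p : A × V × V => lt p.1 p.2.1 p.2.2)) (ha : P7m.RC acc ca)
    (hl : P7m.RC l cl) :
    P7m.RC (fun a => bestQ (val a) (lt a) (acc a) (l a))
      (fun a => cl a + ca a + (l a).length) := by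
  unfold bestQ
  have hstep : SFA.CT (fun p : A × Option V × El => upd (val p.1) (lt p.1) p.2.1 p.2.2) := by
    unfold upd
    have h1 : SFA.CT (fun p : A × Option V × El => val p.1 p.2.2) :=
      SFA.CT.comp (g := fun p : A × El => val p.1 p.2) hv
        (SFA.CT.pair (SFA.CT.fst SFA.CT.id) (SFA.CT.snd (SFA.CT.snd SFA.CT.id)))
    have h2 : SFA.CT (fun p : A × Option V × El => p.2.1) :=
      SFA.CT.fst (SFA.CT.snd SFA.CT.id)
    have h3 : SFA.CT (fun p : (A × Option V × El) × V => p.1.2.1) :=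
      SFA.CT.fst (SFA.CT.snd (SFA.CT.fst SFA.CT.id))
    have h4 : SFA.CT (fun p : ((A × Option V × El) × V) × V => lt p.1.1.1 p.1.2 p.2) :=
      SFA.CT.comp (g := fun p : A × V × V => lt p.1 p.2.1 p.2.2) hlt
        (SFA.CT.pair (SFA.CT.fst (SFA.CT.fst (SFA.CT.fst SFA.CT.id)))
          (SFA.CT.pair (SFA.CT.snd (SFA.CT.fst SFA.CT.id)) (SFA.CT.snd SFA.CT.id)))
    refine SFA.CT.elim (s := fun (p : A × Option V × El) a => p.2.1.elim (some a)
      (fun b => if lt p.1 a b then some a else some b)) h1 h2 ?_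
    exact SFA.CT.elim (s := fun (p : (A × Option V × El) × V) b =>
      if lt p.1.1 p.2 b then some p.2 else some b) h3 (SFA.CT.some (SFA.CT.snd SFA.CT.id))
      (SFA.CT.cond h4 (SFA.CT.some (SFA.CT.snd (SFA.CT.fst SFA.CT.id)))
        (SFA.CT.some (SFA.CT.snd SFA.CT.id)))
  refine (P7m.RC.foldl (f := fun a s e => upd (val a) (lt a) s e) hl ha hstep).of_le
    (fun a => ?_)
  have h1 := foldCost_le_const (fun s e => upd (val a) (lt a) s e) (fun _ _ => 0) 0
    (l a) (acc a) (fun _ _ _ => le_refl _)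
  simp only [zero_add, one_mul] at h1 ⊢
  omega

/-- a family of queries whose components are computed in constant time -/
structure QCT (Q : A → Query V) (m : ℕ) : Prop where
  val : SFA.CT (fun p : A × El => (Q p.1).val p.2)
  lt : SFA.CT (fun p : A × V × V => (Q p.1).lt p.2.1 p.2.2)
  F : SFA.CT (fun p : A × Option V × El => (Q p.1).F p.2.1 p.2.2)
  T : SFA.CT (fun p : A × Option V => (Q p.1).T p.2)
  len : ∀ a y, ((Q a).T y).length ≤ m

theorem rc_exact {Q : A → Query V} {m : ℕ} (h : QCT Q m) {l : A → List El} {cl : A → ℕ}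
    (hl : P7m.RC l cl) :
    P7m.RC (fun a => exact (Q a) (l a)) (fun a => cl a + (l a).length) :=
  (rc_bestQ (val := fun a => (Q a).val) (lt := fun a => (Q a).lt)
    (acc := fun _ => (none : Option V)) h.val h.lt P7m.RC.none hl).of_le (fun a => by simp)

/-- **the cost of a query** -/
theorem rc_ask {Q : A → Query V} {m : ℕ} (h : QCT Q m) {D : A → Str} (hD : SFA.CT D) :
    P7m.RC (fun a => ask (Q a) (D a)) (fun a => askCost (Q a) (D a)) := by
  have h1 : P7m.RC (fun a => exact (Q a) (D a).2) (fun a => (D a).2.length) :=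
    (rc_exact h (SFA.CT.snd hD)).of_le (fun a => by simp)
  have hy : SFA.CT (fun p : A × Option V => p.2) := SFA.CT.snd SFA.CT.id
  have hD' : SFA.CT (fun p : A × Option V => D p.1) := pc hD (SFA.CT.fst SFA.CT.id)
  have h2 := rc_report (F := fun p : A × Option V => (Q p.1).F p.2)
    (T := fun p : A × Option V => (Q p.1).T p.2) (cs := fun p : A × Option V => (D p.1).1) m
    (SFA.CT.comp (g := fun p : A × Option V × El => (Q p.1).F p.2.1 p.2.2) h.F
      (SFA.CT.pair (SFA.CT.fst (SFA.CT.fst SFA.CT.id))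
        (SFA.CT.pair (SFA.CT.snd (SFA.CT.fst SFA.CT.id)) (SFA.CT.snd SFA.CT.id))))
    h.T (fun p => h.len p.1 p.2) (SFA.CT.fst hD')
  have h3 := rc_bestQ (val := fun p : A × Option V => (Q p.1).val)
    (lt := fun p : A × Option V => (Q p.1).lt) (acc := fun p : A × Option V => p.2)
    (SFA.CT.comp (g := fun p : A × El => (Q p.1).val p.2) h.val
      (SFA.CT.pair (SFA.CT.fst (SFA.CT.fst SFA.CT.id)) (SFA.CT.snd SFA.CT.id)))
    (SFA.CT.comp (g := fun p : A × V × V => (Q p.1).lt p.2.1 p.2.2) h.lt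
      (SFA.CT.pair (SFA.CT.fst (SFA.CT.fst SFA.CT.id)) (SFA.CT.snd SFA.CT.id))) hy h2
  refine (P7m.RC.comp (g := fun p : A × Option V => bestQ (Q p.1).val (Q p.1).lt p.2
    (report ((Q p.1).F p.2) ((Q p.1).T p.2) (D p.1).1)) h3
    (P7m.RC.pair SFA.CT.id h1)).mono 3 (fun a => ?_)
  unfold askCost
  simp only []
  omega

end

end SQ
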