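import Pool.Agent.Lib.SFA.RTest
import Pool.Agent.Lib.SQ.EDefs

/-!
# SQ.RTst (package R, owner helper8): the tests of `SQ.EDefs` take constant time

Context style: `SFA.CT f` means `P7m.RC f (fun _ => 0)`.
-/

namespace SQ

open P7m SFA Classical

noncomputable section

variable {A B C D : Type} [Enc A] [Enc B] [Enc C] [Enc D]

/-! ### generic constant time rules -/

theorem CT.nil : SFA.CT (fun _ : A => ([] : List B)) := RC.nil

theorem CT.cons {f : A → B} {g : A → List B} (hf : SFA.CT f) (hg : SFA.CT g) :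
    SFA.CT (fun a => f a :: g a) := RC.cons hf hg

theorem CT.singleton {f : A → B} (hf : SFA.CT f) : SFA.CT (fun a => [f a]) :=
  RC.singleton hf

theorem CT.optionMap {o : A → Option B} {f : A → B → C} (ho : SFA.CT o)
    (hf : SFA.CT (fun p : A × B => f p.1 p.2)) : SFA.CT (fun a => (o a).map (f a)) :=
  (RC.optionMap ho hf).of_le (fun a => by cases o a <;> simp)

theorem CT.toList {o : A → Option B} (ho : SFA.CT o) : SFA.CT (fun a => (o a).toList) :=
  RC.congr (SFA.CT.elim (n := fun _ => ([] : List B)) (s := fun _ b => [b]) ho RC.nil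
    (CT.singleton (SFA.CT.snd SFA.CT.id))) (fun a => by cases o a <;> rfl)

/-- append of lists of bounded length -/
theorem CT.append {l r : A → List B} (K : ℕ) (hl : SFA.CT l) (hr : SFA.CT r)
    (hK : ∀ a, (l a).length ≤ K) : SFA.CT (fun a => l a ++ r a) :=
  RC.mono (RC.append hl hr) K (fun a => by have := hK a; simpa using this)

/-- filter of lists of bounded length -/
theorem CT.filter {l : A → List B} {p : A → B → Bool} (K : ℕ) (hl : SFA.CT l)
    (hp : SFA.CT (fun q : A × B => p q.1 q.2)) (hK : ∀ a, (l a).length ≤ K) :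
    SFA.CT (fun a => (l a).filter (p a)) :=
  RC.mono (RC.filter hl hp) K (fun a => by have := hK a; simpa using this)

/-- any of lists of bounded length -/
theorem CT.any {l : A → List B} {p : A → B → Bool} (K : ℕ) (hl : SFA.CT l)
    (hp : SFA.CT (fun q : A × B => p q.1 q.2)) (hK : ∀ a, (l a).length ≤ K) :
    SFA.CT (fun a => (l a).any (p a)) :=
  RC.mono (RC.any hl hp) K (fun a => by have := hK a; simpa using this)

/-- map over lists of bounded length -/
theorem CT.map {l : A → List B} {f : A → B → C} (K : ℕ) (hl : SFA.CT l)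
    (hf : SFA.CT (fun q : A × B => f q.1 q.2)) (hK : ∀ a, (l a).length ≤ K) :
    SFA.CT (fun a => (l a).map (f a)) :=
  RC.mono (RC.map hl hf) K (fun a => by have := hK a; simpa using this)

/-- left fold over lists of bounded length -/
theorem CT.foldl {l : A → List B} {b : A → C} {f : A → C → B → C} (K : ℕ) (hl : SFA.CT l)
    (hb : SFA.CT b) (hf : SFA.CT (fun p : A × C × B => f p.1 p.2.1 p.2.2))
    (hK : ∀ a, (l a).length ≤ K) : SFA.CT (fun a => (l a).foldl (f a) (b a)) :=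
  RC.mono (RC.foldl hl hb hf) K (fun a => by
    have h1 := foldCost_le_const (f a) (fun _ _ => 0) 0 (l a) (b a) (fun _ _ _ => le_refl _)
    have h2 := hK a
    simp only [zero_add, one_mul, mul_one] at h1 ⊢
    omega)

/-- flatMap over lists of bounded length with values of bounded length -/
theorem CT.flatMap {l : A → List B} {f : A → B → List C} (K L : ℕ) (hl : SFA.CT l)
    (hf : SFA.CT (fun p : A × B => f p.1 p.2)) (hK : ∀ a, (l a).length ≤ K)
    (hL : ∀ a b, (f a b).length ≤ L) : SFA.CT (fun a => (l a).flatMap (f a)) :=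
  RC.mono (RC.flatMap hl hf) (K * (L + 1)) (fun a => by
    have h1 : ((l a).map (fun x => 0 + (f a x).length + 1)).sum ≤ (l a).length * (L + 1) := by
      have := List.sum_le_card_nsmul ((l a).map (fun x => 0 + (f a x).length + 1)) (L + 1)
        (fun y hy => by
          rw [List.mem_map] at hy
          obtain ⟨x, -, rfl⟩ := hy
          have := hL a x
          omega)
      simpa using this
    have h2 := Nat.mul_le_mul_right (L + 1) (hK a)
    omega)

/-! ### the tests -/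

theorem CT.cneg {f : A → ℂ} (hf : SFA.CT f) : SFA.CT (fun a => -(f a)) :=
  RC.congr (SFA.CT.complex (RC.rneg (RC.re hf)) (RC.rneg (RC.im hf)))
    (fun a => Complex.ext rfl rfl)

theorem CT.cadd {f g : A → ℂ} (hf : SFA.CT f) (hg : SFA.CT g) : SFA.CT (fun a => f a + g a) :=
  RC.congr (SFA.CT.complex (SFA.CT.radd (SFA.CT.re hf) (SFA.CT.re hg))
    (SFA.CT.radd (SFA.CT.im hf) (SFA.CT.im hg))) (fun a => Complex.ext rfl rfl)

theorem CT.cone : SFA.CT (fun _ : A => (1 : ℂ)) :=
  RC.congr (SFA.CT.complex SFA.CT.one SFA.CT.zero) (fun a => Complex.ext rfl rfl)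

private theorem dir {s : A → Seg} (hs : SFA.CT s) : SFA.CT (fun a => (s a).2 - (s a).1) :=
  SFA.CT.csub (SFA.CT.snd hs) (SFA.CT.fst hs)

theorem CT.wp {r : A → Seg} {v : A → ℂ} (hr : SFA.CT r) (hv : SFA.CT v) :
    SFA.CT (fun a => wp (r a) (v a)) := by
  unfold SQ.wp
  have h1 : SFA.CT (fun a => (r a).1.re) := SFA.CT.re (SFA.CT.fst hr)
  have h2 : SFA.CT (fun a => (r a).2.re) := SFA.CT.re (SFA.CT.snd hr)
  have h3 : SFA.CT (fun a => (r a).1.im) := SFA.CT.im (SFA.CT.fst hr)
  have h4 : SFA.CT (fun a => (r a).2.im) := SFA.CT.im (SFA.CT.snd hr)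
  have h5 : SFA.CT (fun a => (v a).re) := SFA.CT.re hv
  exact SFA.CT.ite (SFA.CT.rlt h1 h2) (SFA.CT.complex h5 (SFA.CT.radd h3 (SFA.CT.rmul
    (SFA.CT.rsub h4 h3) (SFA.CT.rdiv (SFA.CT.rsub h5 h1) (SFA.CT.rsub h2 h1))))) hv

private theorem crossD {s r : A → Seg} (hs : SFA.CT s) (hr : SFA.CT r) :
    SFA.CT (fun a => cross ((r a).2 - (r a).1) ((s a).2 - (s a).1)) :=
  SFA.CT.cross (dir hr) (dir hs)

theorem CT.abv {s r : A → Seg} {v : A → ℂ} (hs : SFA.CT s) (hr : SFA.CT r) (hv : SFA.CT v) :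
    SFA.CT (fun a => abv (s a) (r a) (v a)) := by
  unfold SQ.abv
  have hw := CT.wp hr hv
  have ho := SFA.CT.ori hs hw
  exact SFA.CT.or (SFA.CT.rlt ho SFA.CT.zero) (SFA.CT.and (SFA.CT.req ho SFA.CT.zero)
    (SFA.CT.ite (SFA.CT.rlt (SFA.CT.im hv) (SFA.CT.im hw))
      (SFA.CT.rlt (crossD hs hr) SFA.CT.zero) (SFA.CT.rlt SFA.CT.zero (crossD hs hr))))

theorem CT.blw {s r : A → Seg} {v : A → ℂ} (hs : SFA.CT s) (hr : SFA.CT r) (hv : SFA.CT v) :
    SFA.CT (fun a => blw (s a) (r a) (v a)) := by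
  unfold SQ.blw
  have hw := CT.wp hr hv
  have ho := SFA.CT.ori hs hw
  exact SFA.CT.or (SFA.CT.rlt SFA.CT.zero ho) (SFA.CT.and (SFA.CT.req ho SFA.CT.zero)
    (SFA.CT.ite (SFA.CT.rlt (SFA.CT.im hv) (SFA.CT.im hw))
      (SFA.CT.rlt SFA.CT.zero (crossD hs hr)) (SFA.CT.rlt (crossD hs hr) SFA.CT.zero)))

theorem CT.colB {s e : A → Seg} (hs : SFA.CT s) (he : SFA.CT e) :
    SFA.CT (fun a => colB (s a) (e a)) :=
  SFA.CT.and (SFA.CT.req (SFA.CT.ori he (SFA.CT.fst hs)) SFA.CT.zero)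
    (SFA.CT.req (SFA.CT.ori he (SFA.CT.snd hs)) SFA.CT.zero)

theorem CT.tieB {s e : A → Seg} (hs : SFA.CT s) (he : SFA.CT e) :
    SFA.CT (fun a => tieB (s a) (e a)) :=
  SFA.CT.or (SFA.CT.lexB (SFA.CT.snd he) (SFA.CT.snd hs))
    (SFA.CT.and (SFA.CT.ptEq (SFA.CT.snd he) (SFA.CT.snd hs))
      (SFA.CT.lexB (SFA.CT.fst hs) (SFA.CT.fst he)))

theorem CT.act {v : A → ℂ} {s : A → Seg} (hv : SFA.CT v) (hs : SFA.CT s) :
    SFA.CT (fun a => act (v a) (s a)) :=
  SFA.CT.and (SFA.CT.not (SFA.CT.lexB hv (SFA.CT.fst hs))) (SFA.CT.lexB hv (SFA.CT.snd hs))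

theorem CT.candL {v : A → ℂ} {r : A → Option Seg} {s : A → Seg} (hv : SFA.CT v)
    (hr : SFA.CT r) (hs : SFA.CT s) : SFA.CT (fun a => candL (v a) (r a) (s a)) :=
  SFA.CT.and (CT.act hv hs) (SFA.CT.elim (s := fun a r => SQ.blw (s a) r (v a)) hr SFA.CT.tt
    (CT.blw (SFA.CT.comp hs (SFA.CT.fst SFA.CT.id)) (SFA.CT.snd SFA.CT.id)
      (SFA.CT.comp hv (SFA.CT.fst SFA.CT.id))))

theorem CT.candU {v : A → ℂ} {r : A → Option Seg} {s : A → Seg} (hv : SFA.CT v)
    (hr : SFA.CT r) (hs : SFA.CT s) : SFA.CT (fun a => candU (v a) (r a) (s a)) :=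
  SFA.CT.and (CT.act hv hs) (SFA.CT.elim (s := fun a r => SQ.abv (s a) r (v a)) hr SFA.CT.tt
    (CT.abv (SFA.CT.comp hs (SFA.CT.fst SFA.CT.id)) (SFA.CT.snd SFA.CT.id)
      (SFA.CT.comp hv (SFA.CT.fst SFA.CT.id))))

theorem CT.betL {v : A → ℂ} {s e : A → Seg} (hv : SFA.CT v) (hs : SFA.CT s)
    (he : SFA.CT e) : SFA.CT (fun a => betL (v a) (s a) (e a)) :=
  SFA.CT.or (CT.abv hs he hv) (SFA.CT.and (CT.colB hs he) (CT.tieB hs he))

theorem CT.betU {v : A → ℂ} {s e : A → Seg} (hv : SFA.CT v) (hs : SFA.CT s)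
    (he : SFA.CT e) : SFA.CT (fun a => betU (v a) (s a) (e a)) :=
  SFA.CT.or (CT.blw hs he hv) (SFA.CT.and (CT.colB hs he) (CT.tieB hs he))

theorem CT.crs {s : A → Seg} {e : A → Option Seg} (hs : SFA.CT s) (he : SFA.CT e) :
    SFA.CT (fun a => crs (s a) (e a)) := by
  unfold SQ.crs
  have hs' : SFA.CT (fun p : A × Seg => s p.1) := SFA.CT.comp hs (SFA.CT.fst SFA.CT.id)
  have he' : SFA.CT (fun p : A × Seg => p.2) := SFA.CT.snd SFA.CT.id
  exact SFA.CT.elim (s := fun a e => if cross ((s a).2 - (s a).1) (e.2 - e.1) = 0 then []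
      else (SFA.meet (s a) e).toList) he CT.nil
    (SFA.CT.ite (SFA.CT.req (crossD he' hs') SFA.CT.zero) CT.nil
      (CT.toList (SFA.CT.meet hs' he')))

theorem crs_length (s : Seg) (e : Option Seg) : (crs s e).length ≤ 1 := by
  unfold crs
  cases e with
  | none => simp
  | some e =>
    simp only [Option.elim_some]
    split
    · simp
    · cases SFA.meet s e <;> simp

theorem CT.bnd {b t : A → Option Seg} {z : A → ℂ} (hb : SFA.CT b) (ht : SFA.CT t)
    (hz : SFA.CT z) : SFA.CT (fun a => bnd (b a) (t a) (z a)) :=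
  SFA.CT.and
    (SFA.CT.elim (s := fun a b => decide (0 ≤ SFA.ori b (z a))) hb SFA.CT.tt
      (SFA.CT.rle SFA.CT.zero (SFA.CT.ori (SFA.CT.snd SFA.CT.id)
        (SFA.CT.comp hz (SFA.CT.fst SFA.CT.id)))))
    (SFA.CT.elim (s := fun a t => decide (SFA.ori t (z a) ≤ 0)) ht SFA.CT.tt
      (SFA.CT.rle (SFA.CT.ori (SFA.CT.snd SFA.CT.id)
        (SFA.CT.comp hz (SFA.CT.fst SFA.CT.id))) SFA.CT.zero))

theorem CT.cnds {b t : A → Option Seg} {v : A → ℂ} {s : A → Seg} (hb : SFA.CT b)
    (ht : SFA.CT t) (hv : SFA.CT v) (hs : SFA.CT s) :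
    SFA.CT (fun a => cnds (b a) (t a) (v a) (s a)) := by
  unfold SQ.cnds
  have h1 : SFA.CT (fun a => [(s a).1, (s a).2]) :=
    CT.cons (SFA.CT.fst hs) (CT.singleton (SFA.CT.snd hs))
  have h2 : SFA.CT (fun a => [(s a).1, (s a).2].filter (fun z => SQ.bnd (b a) (t a) z)) :=
    CT.filter (p := fun a z => SQ.bnd (b a) (t a) z) 2 h1
      (CT.bnd (SFA.CT.comp hb (SFA.CT.fst SFA.CT.id)) (SFA.CT.comp ht (SFA.CT.fst SFA.CT.id))
        (SFA.CT.snd SFA.CT.id)) (fun a => by simp)
  have h3 : SFA.CT (fun a => SQ.crs (s a) (b a) ++ SQ.crs (s a) (t a)) :=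
    CT.append 1 (CT.crs hs hb) (CT.crs hs ht) (fun a => crs_length _ _)
  have e2 : ∀ a, ([(s a).1, (s a).2].filter (fun z => SQ.bnd (b a) (t a) z)).length ≤ 2 :=
    fun a => (List.length_filter_le _ _).trans (by simp)
  have h4 := CT.append 2 h2 h3 e2
  refine CT.filter (p := fun a z => SFA.lexB (v a) z) 4 h4
    (SFA.CT.lexB (SFA.CT.comp hv (SFA.CT.fst SFA.CT.id)) (SFA.CT.snd SFA.CT.id)) (fun a => ?_)
  rw [List.length_append, List.length_append]
  have h5 := e2 a
  have h6 := crs_length (s a) (b a)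
  have h7 := crs_length (s a) (t a)
  omega

theorem cnds_length (b t : Option Seg) (v : ℂ) (s : Seg) : (cnds b t v s).length ≤ 4 := by
  unfold cnds
  refine (List.length_filter_le _ _).trans ?_
  rw [List.length_append, List.length_append]
  have h5 : ([s.1, s.2].filter (fun z => SQ.bnd b t z)).length ≤ 2 :=
    (List.length_filter_le _ _).trans (by simp)
  have h6 := crs_length s b
  have h7 := crs_length s t
  omega

theorem CT.minStep {o : A → Option ℂ} {z : A → ℂ} (ho : SFA.CT o) (hz : SFA.CT z) :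
    SFA.CT (fun a => minStep (o a) (z a)) := by
  unfold SQ.minStep
  have hz' : SFA.CT (fun p : A × ℂ => z p.1) := SFA.CT.comp hz (SFA.CT.fst SFA.CT.id)
  exact SFA.CT.elim (s := fun a e => if SFA.lexB (z a) e then some (z a) else some e) ho
    (SFA.CT.some hz) (SFA.CT.cond (SFA.CT.lexB hz' (SFA.CT.snd SFA.CT.id)) (SFA.CT.some hz')
      (SFA.CT.some (SFA.CT.snd SFA.CT.id)))

theorem CT.negS {s : A → Seg} (hs : SFA.CT s) : SFA.CT (fun a => negS (s a)) :=
  SFA.CT.pair (CT.cneg (SFA.CT.snd hs)) (CT.cneg (SFA.CT.fst hs))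

theorem CT.negC {c : A → Cell} (hc : SFA.CT c) : SFA.CT (fun a => negC (c a)) :=
  SFA.CT.cellmk
    (CT.optionMap (f := fun _ s => SQ.negS s) (SFA.CT.cellt hc) (CT.negS (SFA.CT.snd SFA.CT.id)))
    (CT.optionMap (f := fun _ s => SQ.negS s) (SFA.CT.cellb hc) (CT.negS (SFA.CT.snd SFA.CT.id)))
    (CT.optionMap (f := fun _ (z : ℂ) => -z) (SFA.CT.cellq hc)
      (CT.cneg (SFA.CT.snd SFA.CT.id)))
    (CT.optionMap (f := fun _ (z : ℂ) => -z) (SFA.CT.cellp hc)
      (CT.cneg (SFA.CT.snd SFA.CT.id)))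

theorem CT.colO {s e : A → Option Seg} (hs : SFA.CT s) (he : SFA.CT e) :
    SFA.CT (fun a => colO (s a) (e a)) := by
  unfold SQ.colO
  refine SFA.CT.elim (s := fun a s => (e a).elim false (fun e => SQ.colB s e)) hs
    (SFA.CT.elim (s := fun _ _ => false) he SFA.CT.tt SFA.CT.ff)
    (SFA.CT.elim (s := fun (p : A × Seg) e => SQ.colB p.2 e)
      (SFA.CT.comp he (SFA.CT.fst SFA.CT.id)) SFA.CT.ff
      (CT.colB (SFA.CT.snd (SFA.CT.fst SFA.CT.id)) (SFA.CT.snd SFA.CT.id)))

theorem CT.sameC {c d : A → Cell} (hc : SFA.CT c) (hd : SFA.CT d) :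
    SFA.CT (fun a => sameC (c a) (d a)) :=
  SFA.CT.and (SFA.CT.opEq (SFA.CT.cellp hc) (SFA.CT.cellp hd))
    (SFA.CT.and (SFA.CT.opEq (SFA.CT.cellq hc) (SFA.CT.cellq hd))
      (SFA.CT.and (CT.colO (SFA.CT.cellb hc) (SFA.CT.cellb hd))
        (CT.colO (SFA.CT.cellt hc) (SFA.CT.cellt hd))))

theorem CT.cutS {e : A → Seg} {v : A → ℂ} (he : SFA.CT e) (hv : SFA.CT v) :
    SFA.CT (fun a => cutS (e a) (v a)) :=
  SFA.CT.cond (SFA.CT.and (SFA.CT.req (SFA.CT.ori he hv) SFA.CT.zero)
      (SFA.CT.and (SFA.CT.lexB (SFA.CT.fst he) hv) (SFA.CT.lexB hv (SFA.CT.snd he))))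
    (CT.cons (SFA.CT.pair (SFA.CT.fst he) hv) (CT.singleton (SFA.CT.pair hv (SFA.CT.snd he))))
    CT.nil

theorem cutS_lengthR (e : Seg) (v : ℂ) : (cutS e v).length ≤ 2 := by
  unfold cutS; split <;> simp

private theorem flatMap_length_le {X Y : Type} (l : List X) (f : X → List Y) (L : ℕ)
    (h : ∀ x, (f x).length ≤ L) : (l.flatMap f).length ≤ l.length * L := by
  induction l with
  | nil => simp
  | cons x t ih =>
    rw [List.flatMap_cons, List.length_append, List.length_cons, Nat.succ_mul]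
    have := h x
    omega

private theorem toList_length {X : Type} (o : Option X) : o.toList.length ≤ 1 := by
  cases o <;> simp

theorem CT.witC {c : A → Cell} (hc : SFA.CT c) : SFA.CT (fun a => witC (c a)) := by
  unfold SQ.witC
  have hbt : SFA.CT (fun a => (c a).b.toList ++ (c a).t.toList) :=
    CT.append 1 (CT.toList (SFA.CT.cellb hc)) (CT.toList (SFA.CT.cellt hc))
      (fun a => toList_length _)
  have hpq : SFA.CT (fun a => (c a).p.toList ++ (c a).q.toList) :=
    CT.append 1 (CT.toList (SFA.CT.cellp hc)) (CT.toList (SFA.CT.cellq hc))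
      (fun a => toList_length _)
  have hpqL : ∀ a, ((c a).p.toList ++ (c a).q.toList).length ≤ 2 := fun a => by
    rw [List.length_append]
    have h1 := toList_length (c a).p
    have h2 := toList_length (c a).q
    omega
  have hin : SFA.CT (fun p : A × Seg => p.2 ::
      ((c p.1).p.toList ++ (c p.1).q.toList).flatMap (fun v => SQ.cutS p.2 v)) := by
    refine CT.cons (SFA.CT.snd SFA.CT.id) ?_
    exact CT.flatMap (l := fun p : A × Seg => (c p.1).p.toList ++ (c p.1).q.toList)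
      (f := fun (p : A × Seg) v => SQ.cutS p.2 v) 2 2
      (SFA.CT.comp hpq (SFA.CT.fst SFA.CT.id))
      (CT.cutS (SFA.CT.snd (SFA.CT.fst SFA.CT.id)) (SFA.CT.snd SFA.CT.id))
      (fun p => hpqL p.1) (fun p v => cutS_lengthR _ _)
  refine CT.flatMap (l := fun a => (c a).b.toList ++ (c a).t.toList)
    (f := fun a e => e :: ((c a).p.toList ++ (c a).q.toList).flatMap (fun v => SQ.cutS e v))
    2 5 hbt hin (fun a => ?_) (fun a e => ?_)
  · rw [List.length_append]
    have h1 := toList_length (c a).b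
    have h2 := toList_length (c a).t
    omega
  · rw [List.length_cons]
    have h1 := flatMap_length_le ((c a).p.toList ++ (c a).q.toList) (fun v => SQ.cutS e v) 2
      (fun v => cutS_lengthR _ _)
    have h2 := hpqL a
    omega

theorem witC_lengthR (c : Cell) : (witC c).length ≤ 10 := by
  unfold witC
  have h0 : ((c.b.toList ++ c.t.toList)).length ≤ 2 := by
    rw [List.length_append]
    have h1 := toList_length c.b
    have h2 := toList_length c.t
    omega
  have h1 := flatMap_length_le (c.b.toList ++ c.t.toList)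
    (fun e => e :: (c.p.toList ++ c.q.toList).flatMap (fun v => cutS e v)) 5 (fun e => by
      rw [List.length_cons]
      have h1 := flatMap_length_le (c.p.toList ++ c.q.toList) (fun v => SQ.cutS e v) 2
        (fun v => cutS_lengthR _ _)
      have h2 : (c.p.toList ++ c.q.toList).length ≤ 2 := by
        rw [List.length_append]
        have h1 := toList_length c.p
        have h2 := toList_length c.q
        omega
      omega)
  omega

theorem wit_lengthR (F : List Cell) : (wit F).length ≤ 10 * F.length := by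
  have := flatMap_length_le F witC 10 witC_lengthR
  unfold wit
  omega

end

end SQ
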